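import Pool.Agent.Lib.MP_f4ff90_agE.DefX

/-!
LEAF AnnX.  Two facts of linear algebra about the Zariski tangent space.
`ann`: a row vector `w` which vanishes on the tangent space is the differential at `q` of a linear combination of the equations.
PROOF.  `W = ` image of `Submodule.span ℂ E` under the linear map `P ↦ (eval q (pderiv j P))_j` into `Fin g → ℂ`.  If `w ∉ W`, a linear functional vanishes on `W` and not at `w` (`Submodule.exists_le_ker_of_lt_top`, or `Submodule.exists_dual_map_eq_bot_of_notMem`);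
it is `u ↦ ∑ u j * v j` for some `v`, which lies in `TanE E q`: contradiction with `hw`.
`surj_rows`: PROOF.  The restriction of `J` to `V = TanE E q` is injective, so bijective (`LinearMap.injective_iff_surjective`); the functional `v ↦ (J|V)⁻¹ v k` on `V` extends to `ℂ^g` (`LinearMap.exists_extend`): it is `v ↦ ∑ c l * v l`;
`w j = (if j = k then 1 else 0) - ∑ l, c l * J l j` vanishes on `V`; `ann`.
-/

set_option autoImplicit false

open Filter Topology MvPolynomial

namespace MP_f4ff90_agE

private theorem AnnX_fun {g : ℕ} (f : (Fin g → ℂ) →ₗ[ℂ] ℂ) (u : Fin g → ℂ) :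
    f u = ∑ j, u j * f (Pi.single j 1) := by
  rw [LinearMap.pi_apply_eq_sum_univ f u]
  refine Finset.sum_congr rfl fun j _ => ?_
  rw [smul_eq_mul]
  congr 2
  funext l
  rw [Pi.single_apply]
  by_cases h : j = l
  · rw [if_pos h, if_pos h.symm]
  · rw [if_neg h, if_neg (fun h' => h h'.symm)]

theorem ann {g : ℕ} (E : Set (MvPolynomial (Fin g) ℂ)) (q w : Fin g → ℂ)
    (hw : ∀ v ∈ TanE E q, ∑ j, w j * v j = 0) :
    ∃ P ∈ Submodule.span ℂ E, ∀ j, eval q (pderiv j P) = w j := by
  let D : MvPolynomial (Fin g) ℂ →ₗ[ℂ] (Fin g → ℂ) :=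
    { toFun := fun P j => eval q (pderiv j P)
      map_add' := by
        intro P Q
        funext j
        rw [map_add, map_add]
        rfl
      map_smul' := by
        intro c P
        funext j
        rw [Derivation.map_smul, smul_eval]
        rfl }
  have hmem : w ∈ (Submodule.span ℂ E).map D := by
    by_contra hcon
    obtain ⟨f, hf, hle⟩ := Submodule.exists_le_ker_of_notMem hcon
    have hv : (fun j => f (Pi.single j 1)) ∈ TanE E q := by
      rw [mem_TanE]
      intro P hP
      have h1 := AnnX_fun f (D P)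
      have h2 : f (D P) = 0 := LinearMap.mem_ker.mp (hle ⟨P, Submodule.subset_span hP, rfl⟩)
      rw [h2] at h1
      exact h1.symm
    have h3 := hw _ hv
    rw [← AnnX_fun f w] at h3
    exact hf h3
  obtain ⟨P, hP, hPw⟩ := hmem
  exact ⟨P, hP, fun j => congrFun hPw j⟩

theorem surj_rows {g : ℕ} (J : Matrix (Fin g) (Fin g) ℂ) (E : Set (MvPolynomial (Fin g) ℂ))
    (q : Fin g → ℂ) (hV : ∀ v ∈ TanE E q, J.mulVec v ∈ TanE E q)
    (h0 : ∀ v ∈ TanE E q, J.mulVec v = 0 → v = 0) (k : Fin g) :
    ∃ c : Fin g → ℂ, ∃ P ∈ Submodule.span ℂ E,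
      ∀ j, ∑ l, c l * J l j + eval q (pderiv j P) = if j = k then 1 else 0 := by
  let JV : TanE E q →ₗ[ℂ] TanE E q := J.mulVecLin.restrict hV
  have hinj : Function.Injective JV := by
    rw [← LinearMap.ker_eq_bot, LinearMap.ker_eq_bot']
    intro v hv
    have h1 := congrArg Subtype.val hv
    exact Subtype.ext (h0 v.1 v.2 h1)
  let e : TanE E q ≃ₗ[ℂ] TanE E q := LinearEquiv.ofInjectiveEndo JV hinj
  obtain ⟨f, hf⟩ := LinearMap.exists_extend
    (((LinearMap.proj k : (Fin g → ℂ) →ₗ[ℂ] ℂ).comp (TanE E q).subtype).comp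
      (e.symm : TanE E q →ₗ[ℂ] TanE E q))
  have hfJ : ∀ v ∈ TanE E q, f (J.mulVec v) = v k := by
    intro v hv
    have h1 := LinearMap.congr_fun hf (e ⟨v, hv⟩)
    have h2 : ((TanE E q).subtype (e ⟨v, hv⟩)) = J.mulVec v := rfl
    rw [LinearMap.comp_apply, h2] at h1
    rw [h1, LinearMap.comp_apply, LinearMap.comp_apply, LinearEquiv.coe_coe,
      LinearEquiv.symm_apply_apply]
    rfl
  obtain ⟨P, hP, hPw⟩ := ann E q
    (fun j => (if j = k then 1 else 0) - ∑ l, f (Pi.single l 1) * J l j) (by
      intro v hv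
      have h1 := hfJ v hv
      rw [AnnX_fun f] at h1
      have h2 : ∑ j, ((if j = k then (1 : ℂ) else 0) - ∑ l, f (Pi.single l 1) * J l j) * v j =
          v k - ∑ l, J.mulVec v l * f (Pi.single l 1) := by
        have h3 : ∑ j, (if j = k then (1 : ℂ) else 0) * v j = v k := by
          simp
        have h4 : ∑ j, (∑ l, f (Pi.single l 1) * J l j) * v j =
            ∑ l, J.mulVec v l * f (Pi.single l 1) := by
          simp only [Finset.sum_mul]
          rw [Finset.sum_comm]
          refine Finset.sum_congr rfl fun l _ => ?_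
          rw [Matrix.mulVec, dotProduct, Finset.sum_mul]
          refine Finset.sum_congr rfl fun j _ => ?_
          ring
        rw [← h3, ← h4, ← Finset.sum_sub_distrib]
        refine Finset.sum_congr rfl fun j _ => ?_
        ring
      rw [h2, h1, sub_self])
  refine ⟨fun l => f (Pi.single l 1), P, hP, fun j => ?_⟩
  rw [hPw j]
  ring

end MP_f4ff90_agE
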