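import Mathlib
import Pool.Agent.Lib.MP_f4ff90_ag.TGen

/-!
# MP_f4ff90_ag, orbits converging to an etale fixed point: definitions
-/

set_option autoImplicit false

open Filter Topology MvPolynomial

namespace MP_f4ff90_agE

variable {g : ℕ}

/-- `u n = ∑_μ p_μ(n) μ ^ n + O (r ^ n)`, finite sum, `p_μ` polynomials, `μ ∈ Λ` -/
def Ep (Λ : Set ℂ) (r : ℝ) (u : ℕ → ℂ) : Prop :=
  ∃ G : ℂ →₀ Polynomial ℂ, (∀ μ ∈ G.support, μ ∈ Λ) ∧ ∃ C : ℝ, ∀ n : ℕ,
    ‖u n - G.sum (fun μ p => p.eval (n : ℂ) * μ ^ n)‖ ≤ C * r ^ n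

/-- the jacobian matrix at `q` of the rational map with components `N i / D i` -/
noncomputable def Jac (N D : Fin g → MvPolynomial (Fin g) ℂ) (q : Fin g → ℂ) :
    Matrix (Fin g) (Fin g) ℂ :=
  Matrix.of fun i j => (eval q (pderiv j (N i)) * eval q (D i) -
    eval q (N i) * eval q (pderiv j (D i))) / eval q (D i) ^ 2

/-- the sequence `z` is an orbit of the rational map with components `N i / D i` -/
def Orb (N D : Fin g → MvPolynomial (Fin g) ℂ) (z : ℕ → Fin g → ℂ) : Prop :=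
  ∀ n i, eval (z n) (D i) ≠ 0 ∧ z (n + 1) i = eval (z n) (N i) / eval (z n) (D i)

/-- `P'` is the numerator of the pull-back of `P`, up to a power of the denominators -/
def IsPull (N D : Fin g → MvPolynomial (Fin g) ℂ) (P P' : MvPolynomial (Fin g) ℂ) : Prop :=
  ∃ E : ℕ, ∀ v : Fin g → ℂ, (∀ i, eval v (D i) ≠ 0) →
    eval v P' = eval (fun i => eval v (N i) / eval v (D i)) P * (∏ i, eval v (D i)) ^ E

/-- the ideal of the point `q` -/
noncomputable def mq (q : Fin g → ℂ) : Ideal (MvPolynomial (Fin g) ℂ) := RingHom.ker (eval q)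

end MP_f4ff90_agE
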