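import Mathlib
import Pool.Agent.Lib.MP_f4ff90_agE.Defs

/-!
LEAF Aut.  The map induced on jets is an automorphism.
PROOF.  `R = MvPolynomial (Fin g) ℂ`, `m = mq q`, `W = R ⧸ m^M`.  `D i` is a unit of `W`: `D i = C b (1 - w)`, `b = D_i(q) ≠ 0`, `w ∈ m` nilpotent in `W`.  `Φ : R →ₐ[ℂ] W`, `X i ↦ N i * (D i)⁻¹`; `Φ (X i - q i) = (N i - q i D i) (D i)⁻¹ ∈ m W`
as `N_i(q) = q_i D_i(q)`; `m` is generated by the `X i - C (q i)` (`MvPolynomial` nonsense, or: `eval q (Φ-lift)`), so `Φ (m^M) = 0`, `Φ` factors through `W → W`.  SURJECTIVE: `Φ (X i - q i) ≡ ∑_j J i j (X j - q j) mod m²` and `J` is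
invertible, so `m W ⊆ Φ(m) + m² W` (additive subgroups; `ℂ`-linear combinations), then `m^k W ⊆ Φ(m^k) + m^(k+1) W` by multiplying, so `W = ℂ + m W ⊆ im Φ + m^M W = im Φ`.  INJECTIVE: a surjective endomorphism
of a noetherian ring is injective.  RELATION: for `P, P'` with `IsPull`, exponent `E`: take the explicit pull-back `P''` built by `MvPolynomial.induction_on` with exponent `E''` such that BOTH the pointwise identity and `mk P'' = Φ P * mk (∏ D)^E''` hold;
pointwise `P' (∏D)^E'' = P'' (∏D)^E` where `∏ D ≠ 0`, so `P' (∏D)^(E''+1) = P'' (∏D)^(E+1)` everywhere, so as polynomials (`MvPolynomial.funext`); in `W` the `D i` are units, so `mk P' = Φ P * mk (∏ D)^E`.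
-/

set_option autoImplicit false

open Filter Topology MvPolynomial

namespace MP_f4ff90_agE

/-- units of the ring of jets -/
private theorem aut_unit {g : ℕ} (q : Fin g → ℂ) (M : ℕ) (f : MvPolynomial (Fin g) ℂ)
    (hf : eval q f ≠ 0) : IsUnit (Ideal.Quotient.mk (mq q ^ M) f) := by
  have h1 : f = (f - C (eval q f)) + C (eval q f) := by ring
  have h2 : f - C (eval q f) ∈ mq q := by
    simp [mq, RingHom.mem_ker]
  have h3 : IsNilpotent (Ideal.Quotient.mk (mq q ^ M) (f - C (eval q f))) := by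
    refine ⟨M, ?_⟩
    rw [← map_pow, Ideal.Quotient.eq_zero_iff_mem]
    exact Ideal.pow_mem_pow h2 M
  have h4 : IsUnit (Ideal.Quotient.mk (mq q ^ M) (C (eval q f))) := by
    have : IsUnit (C (eval q f) : MvPolynomial (Fin g) ℂ) :=
      (IsUnit.mk0 _ hf).map (C : ℂ →+* MvPolynomial (Fin g) ℂ)
    exact this.map (Ideal.Quotient.mk (mq q ^ M))
  rw [h1, map_add, add_comm]
  exact h3.isUnit_add_left_of_commute h4 (Commute.all _ _)

/-- the maximal ideal is generated by the coordinates -/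
private theorem aut_mq_le {g : ℕ} (q : Fin g → ℂ) :
    mq q ≤ Ideal.span (Set.range fun i : Fin g => (X i - C (q i) : MvPolynomial (Fin g) ℂ)) := by
  have key : ∀ f : MvPolynomial (Fin g) ℂ, f - C (eval q f) ∈
      Ideal.span (Set.range fun i : Fin g => (X i - C (q i) : MvPolynomial (Fin g) ℂ)) := by
    intro f
    induction f using MvPolynomial.induction_on with
    | C a => simp
    | add p p' h1 h2 =>
      have : p + p' - C (eval q (p + p')) = (p - C (eval q p)) + (p' - C (eval q p')) := by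
        simp only [map_add]; ring
      rw [this]
      exact Ideal.add_mem _ h1 h2
    | mul_X p i h =>
      have : p * X i - C (eval q (p * X i)) =
          X i * (p - C (eval q p)) + C (eval q p) * (X i - C (q i)) := by
        simp only [map_mul, eval_X]; ring
      rw [this]
      exact Ideal.add_mem _ (Ideal.mul_mem_left _ _ h)
        (Ideal.mul_mem_left _ _ (Ideal.subset_span ⟨i, rfl⟩))
  intro f hf
  have h := key f
  rw [mq, RingHom.mem_ker] at hf
  rwa [hf, map_zero, sub_zero] at h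

/-- surjective endomorphisms of noetherian rings are injective -/
private theorem aut_inj {A : Type} [CommRing A] [IsNoetherianRing A] (f : A →+* A)
    (hf : Function.Surjective f) : Function.Injective f := by
  have hiter : ∀ n : ℕ, ∀ x : A, (f ^ n) x = (f^[n]) x := by
    intro n x
    rw [RingHom.coe_pow]
  let K : ℕ →o Ideal A := ⟨fun n => RingHom.ker (f ^ n), by
    intro a b hab x hx
    rw [RingHom.mem_ker] at hx ⊢
    obtain ⟨c, rfl⟩ := Nat.exists_eq_add_of_le hab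
    rw [hiter, add_comm, Function.iterate_add_apply, ← hiter a, hx]
    rw [← hiter, map_zero]⟩
  obtain ⟨n, hn⟩ := monotone_stabilizes_iff_noetherian.mpr
    (inferInstance : IsNoetherian A A) K
  rw [injective_iff_map_eq_zero]
  intro a ha
  obtain ⟨b, hb⟩ := hf.iterate n a
  have h1 : b ∈ K (n + 1) := by
    change b ∈ RingHom.ker (f ^ (n + 1))
    rw [RingHom.mem_ker, hiter, Function.iterate_succ_apply', hb, ha]
  rw [← hn (n + 1) (by omega)] at h1
  have h2 : b ∈ RingHom.ker (f ^ n) := h1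
  rw [RingHom.mem_ker, hiter, hb] at h2
  exact h2

/-- the substitution on the ring of jets -/
private theorem aut_phi {g : ℕ} {N D : Fin g → MvPolynomial (Fin g) ℂ} {q : Fin g → ℂ}
    (hD : ∀ i, eval q (D i) ≠ 0) (hN : ∀ i, eval q (N i) = q i * eval q (D i)) (M : ℕ) :
    ∃ Φ₀ : MvPolynomial (Fin g) ℂ →+* (MvPolynomial (Fin g) ℂ ⧸ mq q ^ M),
      (∀ a : ℂ, Φ₀ (C a) = Ideal.Quotient.mk (mq q ^ M) (C a)) ∧
      (∀ i, Φ₀ (X i) * Ideal.Quotient.mk (mq q ^ M) (D i) = Ideal.Quotient.mk (mq q ^ M) (N i)) ∧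
      ∀ k, ∀ f ∈ mq q ^ k, Φ₀ f ∈ (mq q ^ k).map (Ideal.Quotient.mk (mq q ^ M)) := by
  have hu : ∀ i, IsUnit (Ideal.Quotient.mk (mq q ^ M) (D i)) := fun i => aut_unit q M _ (hD i)
  choose u hu using hu
  let Φ₀ : MvPolynomial (Fin g) ℂ →+* (MvPolynomial (Fin g) ℂ ⧸ mq q ^ M) :=
    eval₂Hom ((Ideal.Quotient.mk (mq q ^ M)).comp C)
      (fun i => Ideal.Quotient.mk (mq q ^ M) (N i) * ((u i)⁻¹ : _ˣ))
  have hC : ∀ a : ℂ, Φ₀ (C a) = Ideal.Quotient.mk (mq q ^ M) (C a) := by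
    intro a
    simp [Φ₀]
  have hX0 : ∀ i, Φ₀ (X i) = Ideal.Quotient.mk (mq q ^ M) (N i) * ((u i)⁻¹ : _ˣ) := by
    intro i
    simp [Φ₀]
  have hX : ∀ i, Φ₀ (X i) * Ideal.Quotient.mk (mq q ^ M) (D i)
      = Ideal.Quotient.mk (mq q ^ M) (N i) := by
    intro i
    rw [hX0, ← hu i, mul_assoc, Units.inv_mul, mul_one]
  have hloc : ∀ i, Φ₀ (X i) - Ideal.Quotient.mk (mq q ^ M) (C (q i)) ∈
      (mq q).map (Ideal.Quotient.mk (mq q ^ M)) := by
    intro i
    have h1 : Φ₀ (X i) - Ideal.Quotient.mk (mq q ^ M) (C (q i)) =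
        Ideal.Quotient.mk (mq q ^ M) (N i - C (q i) * D i) * ((u i)⁻¹ : _ˣ) := by
      have h2 : Ideal.Quotient.mk (mq q ^ M) (D i) * ((u i)⁻¹ : _ˣ) = 1 := by
        rw [← hu i, Units.mul_inv]
      rw [hX0, map_sub, map_mul]
      linear_combination (Ideal.Quotient.mk (mq q ^ M) (C (q i))) * h2
    rw [h1]
    refine Ideal.mul_mem_right _ _ (Ideal.mem_map_of_mem _ ?_)
    rw [mq, RingHom.mem_ker]
    simp [hN i]
  have h1 : ∀ f : MvPolynomial (Fin g) ℂ, Φ₀ f - Ideal.Quotient.mk (mq q ^ M) (C (eval q f)) ∈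
      (mq q).map (Ideal.Quotient.mk (mq q ^ M)) := by
    intro f
    induction f using MvPolynomial.induction_on with
    | C a => simp [hC]
    | add p p' h1 h2 =>
      have : Φ₀ (p + p') - Ideal.Quotient.mk (mq q ^ M) (C (eval q (p + p'))) =
          (Φ₀ p - Ideal.Quotient.mk (mq q ^ M) (C (eval q p))) +
          (Φ₀ p' - Ideal.Quotient.mk (mq q ^ M) (C (eval q p'))) := by
        simp only [map_add]; ring
      rw [this]
      exact Ideal.add_mem _ h1 h2
    | mul_X p i h =>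
      have : Φ₀ (p * X i) - Ideal.Quotient.mk (mq q ^ M) (C (eval q (p * X i))) =
          Φ₀ (X i) * (Φ₀ p - Ideal.Quotient.mk (mq q ^ M) (C (eval q p))) +
          Ideal.Quotient.mk (mq q ^ M) (C (eval q p)) *
            (Φ₀ (X i) - Ideal.Quotient.mk (mq q ^ M) (C (q i))) := by
        simp only [map_mul, eval_X]; ring
      rw [this]
      exact Ideal.add_mem _ (Ideal.mul_mem_left _ _ h) (Ideal.mul_mem_left _ _ (hloc i))
  have h2 : mq q ≤ ((mq q).map (Ideal.Quotient.mk (mq q ^ M))).comap Φ₀ := by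
    intro f hf
    rw [Ideal.mem_comap]
    have h := h1 f
    rw [mq, RingHom.mem_ker] at hf
    rwa [hf, map_zero, map_zero, sub_zero] at h
  refine ⟨Φ₀, hC, hX, ?_⟩
  intro k f hf
  rw [Ideal.map_pow]
  have h3 : mq q ^ k ≤ (((mq q).map (Ideal.Quotient.mk (mq q ^ M))) ^ k).comap Φ₀ :=
    (Ideal.pow_right_mono h2 k).trans (Ideal.le_comap_pow _ _)
  exact h3 hf

/-- Taylor's formula of order one -/
private theorem aut_taylor {g : ℕ} (q : Fin g → ℂ) (f : MvPolynomial (Fin g) ℂ) :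
    f - C (eval q f) - ∑ k, C (eval q (pderiv k f)) * (X k - C (q k)) ∈ mq q ^ 2 := by
  induction f using MvPolynomial.induction_on with
  | C a => simp
  | add p p' h1 h2 =>
    have : p + p' - C (eval q (p + p')) -
        ∑ k, C (eval q (pderiv k (p + p'))) * (X k - C (q k)) =
        (p - C (eval q p) - ∑ k, C (eval q (pderiv k p)) * (X k - C (q k))) +
        (p' - C (eval q p') - ∑ k, C (eval q (pderiv k p')) * (X k - C (q k))) := by
      simp only [map_add, add_mul, Finset.sum_add_distrib]; ring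
    rw [this]
    exact Ideal.add_mem _ h1 h2
  | mul_X p i h =>
    have h1 : ∑ k, C (eval q (pderiv k (p * X i))) * (X k - C (q k)) =
        C (q i) * (∑ k, C (eval q (pderiv k p)) * (X k - C (q k))) +
          C (eval q p) * (X i - C (q i)) := by
      rw [Finset.mul_sum]
      have h2 : ∀ k : Fin g, C (eval q (pderiv k (p * X i))) * (X k - C (q k)) =
          C (q i) * (C (eval q (pderiv k p)) * (X k - C (q k))) +
            (if k = i then C (eval q p) * (X i - C (q i)) else 0) := by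
        intro k
        rw [Derivation.leibniz, pderiv_X]
        by_cases hk : k = i
        · subst hk
          simp only [Pi.single_eq_same, smul_eq_mul, mul_one, map_add, map_mul, eval_X, if_true]
          ring
        · rw [Pi.single_eq_of_ne (fun h => hk h.symm), if_neg hk]
          simp only [smul_eq_mul, mul_zero, zero_add, map_mul, eval_X]
          ring
      rw [Finset.sum_congr rfl (fun k _ => h2 k), Finset.sum_add_distrib]
      simp
    have h3 : p * X i - C (eval q (p * X i)) -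
        ∑ k, C (eval q (pderiv k (p * X i))) * (X k - C (q k)) =
        (p - C (eval q p)) * (X i - C (q i)) +
        C (q i) * (p - C (eval q p) - ∑ k, C (eval q (pderiv k p)) * (X k - C (q k))) := by
      rw [h1]
      simp only [map_mul, eval_X]
      ring
    rw [h3]
    refine Ideal.add_mem _ ?_ (Ideal.mul_mem_left _ _ h)
    rw [pow_two]
    exact Ideal.mul_mem_mul (by simp [mq, RingHom.mem_ker]) (by simp [mq, RingHom.mem_ker])

/-- surjectivity, the generators -/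
private theorem aut_gen {g : ℕ} {N D : Fin g → MvPolynomial (Fin g) ℂ} {q : Fin g → ℂ}
    (hD : ∀ i, eval q (D i) ≠ 0) (hN : ∀ i, eval q (N i) = q i * eval q (D i)) (M : ℕ)
    (Φ₀ : MvPolynomial (Fin g) ℂ →+* (MvPolynomial (Fin g) ℂ ⧸ mq q ^ M))
    (hC : ∀ a : ℂ, Φ₀ (C a) = Ideal.Quotient.mk (mq q ^ M) (C a))
    (hX : ∀ i, Φ₀ (X i) * Ideal.Quotient.mk (mq q ^ M) (D i) = Ideal.Quotient.mk (mq q ^ M) (N i))
    (j : Fin g) :
    Φ₀ (X j - C (q j)) - Ideal.Quotient.mk (mq q ^ M)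
      (∑ k, C (Jac N D q j k) * (X k - C (q k))) ∈
      (mq q ^ 2).map (Ideal.Quotient.mk (mq q ^ M)) := by
  obtain ⟨u, hu⟩ := aut_unit q M _ (hD j)
  have h1 : (N j - C (q j) * D j) - (∑ k, C (Jac N D q j k) * (X k - C (q k))) * D j ∈
      mq q ^ 2 := by
    have h2 := aut_taylor q (N j - C (q j) * D j)
    have h3 : eval q (N j - C (q j) * D j) = 0 := by simp [hN j]
    have h4 : ∀ k, eval q (pderiv k (N j - C (q j) * D j)) = Jac N D q j k * eval q (D j) := by
      intro k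
      rw [map_sub, Derivation.leibniz, pderiv_C]
      simp only [Jac, Matrix.of_apply, hN j, smul_eq_mul, mul_zero, add_zero, map_sub, map_mul,
        eval_C]
      have := hD j
      field_simp
    rw [h3, map_zero, sub_zero, Finset.sum_congr rfl (fun k _ => by rw [h4 k])] at h2
    have h5 : (∑ k, C (Jac N D q j k) * (X k - C (q k))) * D j -
        ∑ k, C (Jac N D q j k * eval q (D j)) * (X k - C (q k)) =
        (∑ k, C (Jac N D q j k) * (X k - C (q k))) * (D j - C (eval q (D j))) := by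
      rw [mul_sub, Finset.sum_mul _ _ (C (eval q (D j)))]
      congr 1
      refine Finset.sum_congr rfl fun k _ => ?_
      rw [map_mul]; ring
    have h6 : (∑ k, C (Jac N D q j k) * (X k - C (q k))) * (D j - C (eval q (D j))) ∈
        mq q ^ 2 := by
      rw [pow_two]
      refine Ideal.mul_mem_mul (Ideal.sum_mem _ fun k _ => Ideal.mul_mem_left _ _ ?_) ?_
      · simp [mq, RingHom.mem_ker]
      · simp [mq, RingHom.mem_ker]
    rw [← h5] at h6
    have h7 := Ideal.sub_mem _ h2 h6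
    have h8 : (N j - C (q j) * D j) - (∑ k, C (Jac N D q j k) * (X k - C (q k))) * D j =
        N j - C (q j) * D j - ∑ k, C (Jac N D q j k * eval q (D j)) * (X k - C (q k)) -
        ((∑ k, C (Jac N D q j k) * (X k - C (q k))) * D j -
        ∑ k, C (Jac N D q j k * eval q (D j)) * (X k - C (q k))) := by ring
    rw [h8]
    exact h7
  have h9 : Φ₀ (X j - C (q j)) - Ideal.Quotient.mk (mq q ^ M)
      (∑ k, C (Jac N D q j k) * (X k - C (q k))) =
      Ideal.Quotient.mk (mq q ^ M) ((N j - C (q j) * D j) -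
        (∑ k, C (Jac N D q j k) * (X k - C (q k))) * D j) * ((u⁻¹ : _ˣ) : _) := by
    rw [map_sub, hC]
    simp only [map_sub (Ideal.Quotient.mk (mq q ^ M)), map_mul (Ideal.Quotient.mk (mq q ^ M))]
    rw [← hX j, ← hu]
    have h10 : (u : MvPolynomial (Fin g) ℂ ⧸ mq q ^ M) * ((u⁻¹ : _ˣ) : _) = 1 := Units.mul_inv u
    linear_combination -(Φ₀ (X j) - Ideal.Quotient.mk (mq q ^ M) (C (q j)) -
      Ideal.Quotient.mk (mq q ^ M) (∑ k, C (Jac N D q j k) * (X k - C (q k)))) * h10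
  rw [h9]
  exact Ideal.mul_mem_right _ _ (Ideal.mem_map_of_mem _ h1)

/-- surjectivity, one step -/
private theorem aut_step {g : ℕ} {N D : Fin g → MvPolynomial (Fin g) ℂ} {q : Fin g → ℂ}
    (hD : ∀ i, eval q (D i) ≠ 0) (hN : ∀ i, eval q (N i) = q i * eval q (D i))
    (hJ : IsUnit (Jac N D q)) (M : ℕ)
    (Φ₀ : MvPolynomial (Fin g) ℂ →+* (MvPolynomial (Fin g) ℂ ⧸ mq q ^ M))
    (hC : ∀ a : ℂ, Φ₀ (C a) = Ideal.Quotient.mk (mq q ^ M) (C a))
    (hX : ∀ i, Φ₀ (X i) * Ideal.Quotient.mk (mq q ^ M) (D i) = Ideal.Quotient.mk (mq q ^ M) (N i)) :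
    ∀ f ∈ mq q, ∃ y ∈ mq q, Ideal.Quotient.mk (mq q ^ M) f - Φ₀ y ∈
      (mq q ^ 2).map (Ideal.Quotient.mk (mq q ^ M)) := by
  intro f hf
  have hf' := aut_mq_le q hf
  refine (Submodule.span_induction (p := fun f _ => f ∈ mq q ∧ ∃ y ∈ mq q,
    Ideal.Quotient.mk (mq q ^ M) f - Φ₀ y ∈
      (mq q ^ 2).map (Ideal.Quotient.mk (mq q ^ M))) ?_ ?_ ?_ ?_ hf').2
  · rintro _ ⟨i, rfl⟩
    refine ⟨by simp [mq, RingHom.mem_ker], ∑ j, C ((Jac N D q)⁻¹ i j) * (X j - C (q j)), ?_, ?_⟩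
    · exact Ideal.sum_mem _ fun k _ => Ideal.mul_mem_left _ _ (by simp [mq, RingHom.mem_ker])
    · have h1 : (Jac N D q)⁻¹ * Jac N D q = 1 :=
        Matrix.nonsing_inv_mul _ ((Matrix.isUnit_iff_isUnit_det _).mp hJ)
      have h2 : ∑ j, C ((Jac N D q)⁻¹ i j) * (∑ k, C (Jac N D q j k) * (X k - C (q k))) =
          (X i - C (q i) : MvPolynomial (Fin g) ℂ) := by
        have h3 : ∀ k, ∑ j, (Jac N D q)⁻¹ i j * Jac N D q j k = if i = k then 1 else 0 := by
          intro k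
          have := congrFun (congrFun h1 i) k
          rw [Matrix.mul_apply, Matrix.one_apply] at this
          exact this
        simp only [Finset.mul_sum, ← mul_assoc, ← map_mul]
        rw [Finset.sum_comm]
        simp only [← Finset.sum_mul, ← map_sum, h3]
        simp
      have h4 : Ideal.Quotient.mk (mq q ^ M) (X i - C (q i)) -
          Φ₀ (∑ j, C ((Jac N D q)⁻¹ i j) * (X j - C (q j))) =
          - ∑ j, Ideal.Quotient.mk (mq q ^ M) (C ((Jac N D q)⁻¹ i j)) *
            (Φ₀ (X j - C (q j)) - Ideal.Quotient.mk (mq q ^ M)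
              (∑ k, C (Jac N D q j k) * (X k - C (q k)))) := by
        rw [← h2, map_sum, map_sum, ← Finset.sum_sub_distrib, ← Finset.sum_neg_distrib]
        refine Finset.sum_congr rfl fun j _ => ?_
        rw [map_mul, map_mul, hC]
        ring
      rw [h4]
      exact (Ideal.neg_mem_iff _).mpr (Ideal.sum_mem _ fun j _ =>
        Ideal.mul_mem_left _ _ (aut_gen hD hN M Φ₀ hC hX j))
  · exact ⟨Ideal.zero_mem _, 0, Ideal.zero_mem _, by simp⟩
  · rintro x y _ _ ⟨hx, x', hx', hxx⟩ ⟨hy, y', hy', hyy⟩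
    refine ⟨Ideal.add_mem _ hx hy, x' + y', Ideal.add_mem _ hx' hy', ?_⟩
    have : Ideal.Quotient.mk (mq q ^ M) (x + y) - Φ₀ (x' + y') =
        (Ideal.Quotient.mk (mq q ^ M) x - Φ₀ x') + (Ideal.Quotient.mk (mq q ^ M) y - Φ₀ y') := by
      simp only [map_add]; ring
    rw [this]
    exact Ideal.add_mem _ hxx hyy
  · rintro a x _ ⟨hx, x', hx', hxx⟩
    refine ⟨Ideal.mul_mem_left _ _ hx, C (eval q a) * x', Ideal.mul_mem_left _ _ hx', ?_⟩
    have : Ideal.Quotient.mk (mq q ^ M) (a • x) - Φ₀ (C (eval q a) * x') =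
        Ideal.Quotient.mk (mq q ^ M) ((a - C (eval q a)) * x) +
        Ideal.Quotient.mk (mq q ^ M) (C (eval q a)) *
          (Ideal.Quotient.mk (mq q ^ M) x - Φ₀ x') := by
      simp only [smul_eq_mul, map_mul, map_sub, hC]; ring
    rw [this]
    refine Ideal.add_mem _ (Ideal.mem_map_of_mem _ ?_) (Ideal.mul_mem_left _ _ hxx)
    rw [pow_two]
    exact Ideal.mul_mem_mul (by simp [mq, RingHom.mem_ker]) hx

/-- surjectivity -/
private theorem aut_surj {g : ℕ} {N D : Fin g → MvPolynomial (Fin g) ℂ} {q : Fin g → ℂ}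
    (hD : ∀ i, eval q (D i) ≠ 0) (hN : ∀ i, eval q (N i) = q i * eval q (D i))
    (hJ : IsUnit (Jac N D q)) (M : ℕ)
    (Φ₀ : MvPolynomial (Fin g) ℂ →+* (MvPolynomial (Fin g) ℂ ⧸ mq q ^ M))
    (hC : ∀ a : ℂ, Φ₀ (C a) = Ideal.Quotient.mk (mq q ^ M) (C a))
    (hX : ∀ i, Φ₀ (X i) * Ideal.Quotient.mk (mq q ^ M) (D i) = Ideal.Quotient.mk (mq q ^ M) (N i))
    (hΦ : ∀ k, ∀ f ∈ mq q ^ k, Φ₀ f ∈ (mq q ^ k).map (Ideal.Quotient.mk (mq q ^ M))) :
    ∀ k : ℕ, ∀ f : MvPolynomial (Fin g) ℂ, ∃ y : MvPolynomial (Fin g) ℂ,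
      Ideal.Quotient.mk (mq q ^ M) f - Φ₀ y ∈ (mq q ^ k).map (Ideal.Quotient.mk (mq q ^ M)) := by
  have hstep := aut_step hD hN hJ M Φ₀ hC hX
  -- the homogeneous steps
  have h1 : ∀ k : ℕ, ∀ f ∈ mq q ^ k, ∃ y ∈ mq q ^ k,
      Ideal.Quotient.mk (mq q ^ M) f - Φ₀ y ∈
        (mq q ^ (k + 1)).map (Ideal.Quotient.mk (mq q ^ M)) := by
    intro k
    induction k with
    | zero =>
      intro f _
      refine ⟨C (eval q f), by simp, ?_⟩
      rw [hC, ← map_sub]
      exact Ideal.mem_map_of_mem _ (by simp [mq, RingHom.mem_ker])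
    | succ k ih =>
      intro f hf
      rw [pow_succ] at hf
      refine Submodule.mul_induction_on (C := fun f => ∃ y ∈ mq q ^ (k + 1),
        Ideal.Quotient.mk (mq q ^ M) f - Φ₀ y ∈
        (mq q ^ (k + 1 + 1)).map (Ideal.Quotient.mk (mq q ^ M))) hf ?_ ?_
      · intro a ha b hb
        obtain ⟨a', ha', haa⟩ := ih a ha
        obtain ⟨b', hb', hbb⟩ := hstep b hb
        refine ⟨a' * b', by rw [pow_succ]; exact Ideal.mul_mem_mul ha' hb', ?_⟩
        have h2 : Ideal.Quotient.mk (mq q ^ M) (a * b) - Φ₀ (a' * b') =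
            Φ₀ a' * (Ideal.Quotient.mk (mq q ^ M) b - Φ₀ b') +
            (Ideal.Quotient.mk (mq q ^ M) a - Φ₀ a') * Ideal.Quotient.mk (mq q ^ M) b := by
          simp only [map_mul]; ring
        rw [h2]
        refine Ideal.add_mem _ ?_ ?_
        · have h3 : (mq q ^ (k + 1 + 1)).map (Ideal.Quotient.mk (mq q ^ M)) =
              (mq q ^ k).map (Ideal.Quotient.mk (mq q ^ M)) *
              (mq q ^ 2).map (Ideal.Quotient.mk (mq q ^ M)) := by
            rw [← Ideal.map_mul, ← pow_add]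
          rw [h3]
          exact Ideal.mul_mem_mul (hΦ k a' ha') hbb
        · have h3 : (mq q ^ (k + 1 + 1)).map (Ideal.Quotient.mk (mq q ^ M)) =
              (mq q ^ (k + 1)).map (Ideal.Quotient.mk (mq q ^ M)) *
              (mq q).map (Ideal.Quotient.mk (mq q ^ M)) := by
            rw [← Ideal.map_mul, ← pow_succ]
          rw [h3]
          exact Ideal.mul_mem_mul haa (Ideal.mem_map_of_mem _ hb)
      · rintro x y ⟨x', hx', hxx⟩ ⟨y', hy', hyy⟩
        refine ⟨x' + y', Ideal.add_mem _ hx' hy', ?_⟩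
        have : Ideal.Quotient.mk (mq q ^ M) (x + y) - Φ₀ (x' + y') =
            (Ideal.Quotient.mk (mq q ^ M) x - Φ₀ x') +
            (Ideal.Quotient.mk (mq q ^ M) y - Φ₀ y') := by
          simp only [map_add]; ring
        rw [this]
        exact Ideal.add_mem _ hxx hyy
  intro k
  induction k with
  | zero =>
    intro f
    refine ⟨0, ?_⟩
    rw [pow_zero, Ideal.one_eq_top, Ideal.map_top]
    exact Submodule.mem_top
  | succ k ih =>
    intro f
    obtain ⟨y, hy⟩ := ih f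
    obtain ⟨f', hf', hff⟩ := (Ideal.mem_map_iff_of_surjective _
      Ideal.Quotient.mk_surjective).mp hy
    obtain ⟨y', hy', hyy⟩ := h1 k f' hf'
    refine ⟨y + y', ?_⟩
    have : Ideal.Quotient.mk (mq q ^ M) f - Φ₀ (y + y') =
        Ideal.Quotient.mk (mq q ^ M) f' - Φ₀ y' := by
      rw [hff, map_add]; ring
    rw [this]
    exact hyy

/-- explicit pull-backs -/
private theorem aut_pull {g : ℕ} {N D : Fin g → MvPolynomial (Fin g) ℂ} {q : Fin g → ℂ} (M : ℕ)
    (Φ₀ : MvPolynomial (Fin g) ℂ →+* (MvPolynomial (Fin g) ℂ ⧸ mq q ^ M))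
    (hC : ∀ a : ℂ, Φ₀ (C a) = Ideal.Quotient.mk (mq q ^ M) (C a))
    (hX : ∀ i, Φ₀ (X i) * Ideal.Quotient.mk (mq q ^ M) (D i) = Ideal.Quotient.mk (mq q ^ M) (N i))
    (P : MvPolynomial (Fin g) ℂ) :
    ∃ (P' : MvPolynomial (Fin g) ℂ) (E : ℕ),
      (∀ v : Fin g → ℂ, (∀ i, eval v (D i) ≠ 0) →
        eval v P' = eval (fun i => eval v (N i) / eval v (D i)) P * (∏ i, eval v (D i)) ^ E) ∧
      Ideal.Quotient.mk (mq q ^ M) P' =
        Φ₀ P * Ideal.Quotient.mk (mq q ^ M) (∏ i, D i) ^ E := by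
  induction P using MvPolynomial.induction_on with
  | C a => exact ⟨C a, 0, fun v _ => by simp, by simp [hC]⟩
  | add p p' h1 h2 =>
    obtain ⟨A, E, hA, hA'⟩ := h1
    obtain ⟨B, F, hB, hB'⟩ := h2
    refine ⟨A * (∏ i, D i) ^ F + B * (∏ i, D i) ^ E, E + F, ?_, ?_⟩
    · intro v hv
      rw [map_add, map_mul, map_mul, map_pow, map_pow, map_prod, hA v hv, hB v hv, map_add]
      ring
    · rw [map_add, map_mul, map_mul, map_pow, map_pow, hA', hB', map_add]
      ring
  | mul_X p i h =>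
    obtain ⟨A, E, hA, hA'⟩ := h
    have hprod : D i * ∏ j ∈ Finset.univ.erase i, D j = ∏ j, D j :=
      Finset.mul_prod_erase Finset.univ D (Finset.mem_univ i)
    refine ⟨A * (N i * ∏ j ∈ Finset.univ.erase i, D j), E + 1, ?_, ?_⟩
    · intro v hv
      have h1 : ∏ j, eval v (D j) = eval v (D i) * eval v (∏ j ∈ Finset.univ.erase i, D j) := by
        rw [← map_prod, ← hprod, map_mul]
      rw [map_mul, map_mul, hA v hv, map_mul, eval_X, pow_succ, h1]
      have := hv i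
      field_simp
    · rw [map_mul, map_mul, hA', map_mul, pow_succ, ← hprod, map_mul (Ideal.Quotient.mk (mq q ^ M)) (D i), ← hX i]
      ring

theorem jet_aut {g : ℕ} {N D : Fin g → MvPolynomial (Fin g) ℂ} {q : Fin g → ℂ}
    (hD : ∀ i, eval q (D i) ≠ 0) (hN : ∀ i, eval q (N i) = q i * eval q (D i))
    (hJ : IsUnit (Jac N D q)) (M : ℕ) :
    ∃ Φ : (MvPolynomial (Fin g) ℂ ⧸ mq q ^ M) ≃+* (MvPolynomial (Fin g) ℂ ⧸ mq q ^ M),
      ∀ P P' : MvPolynomial (Fin g) ℂ, IsPull N D P P' → ∃ w, IsUnit w ∧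
        Ideal.Quotient.mk (mq q ^ M) P' = Φ (Ideal.Quotient.mk (mq q ^ M) P) * w := by
  obtain ⟨Φ₀, hC, hX, hΦ⟩ := aut_phi (q := q) hD hN M
  have h0 : (mq q ^ M).map (Ideal.Quotient.mk (mq q ^ M)) = ⊥ := Ideal.map_quotient_self _
  have hker : ∀ f ∈ mq q ^ M, Φ₀ f = 0 := by
    intro f hf
    have := hΦ M f hf
    rwa [h0, Ideal.mem_bot] at this
  let Ψ : (MvPolynomial (Fin g) ℂ ⧸ mq q ^ M) →+* (MvPolynomial (Fin g) ℂ ⧸ mq q ^ M) :=
    Ideal.Quotient.lift (mq q ^ M) Φ₀ hker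
  have hΨ : ∀ f, Ψ (Ideal.Quotient.mk (mq q ^ M) f) = Φ₀ f := fun f =>
    Ideal.Quotient.lift_mk _ _ _
  have hsurj : Function.Surjective Ψ := by
    intro x
    obtain ⟨f, rfl⟩ := Ideal.Quotient.mk_surjective x
    obtain ⟨y, hy⟩ := aut_surj hD hN hJ M Φ₀ hC hX hΦ M f
    rw [h0, Ideal.mem_bot, sub_eq_zero] at hy
    exact ⟨Ideal.Quotient.mk (mq q ^ M) y, by rw [hΨ, hy]⟩
  have hinj : Function.Injective Ψ := aut_inj Ψ hsurj
  refine ⟨RingEquiv.ofBijective Ψ ⟨hinj, hsurj⟩, ?_⟩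
  rintro P P' ⟨E, hE⟩
  have hunit : IsUnit (Ideal.Quotient.mk (mq q ^ M) (∏ i, D i)) := by
    refine aut_unit q M _ ?_
    rw [map_prod]
    exact Finset.prod_ne_zero_iff.mpr fun i _ => hD i
  refine ⟨Ideal.Quotient.mk (mq q ^ M) (∏ i, D i) ^ E, hunit.pow E, ?_⟩
  obtain ⟨A, F, hA, hA'⟩ := aut_pull (q := q) M Φ₀ hC hX P
  have h1 : P' * (∏ i, D i) ^ (F + 1) = A * (∏ i, D i) ^ (E + 1) := by
    refine MvPolynomial.funext fun v => ?_
    rw [map_mul, map_mul, map_pow, map_pow, map_prod]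
    by_cases hv : ∀ i, eval v (D i) ≠ 0
    · rw [hE v hv, hA v hv]
      ring
    · push Not at hv
      obtain ⟨i, hi⟩ := hv
      have h2 : ∏ i, eval v (D i) = 0 := Finset.prod_eq_zero (Finset.mem_univ i) hi
      rw [h2]
      simp
  have h2 := congrArg (Ideal.Quotient.mk (mq q ^ M)) h1
  rw [map_mul, map_mul, map_pow, map_pow, hA'] at h2
  have h3 : Ideal.Quotient.mk (mq q ^ M) P' *
      Ideal.Quotient.mk (mq q ^ M) (∏ i, D i) ^ (F + 1) =
      (Φ₀ P * Ideal.Quotient.mk (mq q ^ M) (∏ i, D i) ^ E) *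
        Ideal.Quotient.mk (mq q ^ M) (∏ i, D i) ^ (F + 1) := by
    rw [h2]; ring
  have h4 := (hunit.pow (F + 1)).mul_right_cancel h3
  rw [h4]
  rfl

end MP_f4ff90_agE
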