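import Pool.Agent.Lib.MP_f4ff90_agE.Stp

/-!
LEAF Bas.  The basin of an attracting fixed point.
PROOF.  Let `ρ₀ < 1` be a bound of all `‖lam i‖` (`g = 0`: `ρ₀ = 0`), `ε = (1 - ρ₀) / 2`, `ρ = (1 + ρ₀) / 2` and `S, S', t, r'` of `step`.  With `w n = S (z n - q)`: if `‖w n‖ < r'` then the denominators at `z n` do not
vanish and `‖w (n + 1)‖ ≤ (ρ₀ + ε) ‖w n‖ = ρ ‖w n‖ < r'`.  So `‖w n‖ ≤ ρ ^ n ‖w 0‖`, and `‖z n - q‖ = ‖S' (w n)‖ ≤ a' ρ ^ n r'`, `a' = ∑ i, ∑ j, ‖S' i j‖`.  `r` with `‖S v‖ < r'` if all `‖v i‖ < r`: `r = r' / (a + 1)`, `a = ∑ i, ∑ j, ‖S i j‖`.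
-/

set_option autoImplicit false

open Filter Topology MvPolynomial

namespace MP_f4ff90_agE

private theorem Bas_mul {g : ℕ} (S : Matrix (Fin g) (Fin g) ℂ) (v : Fin g → ℂ) :
    ‖S.mulVec v‖ ≤ (∑ i, ∑ j, ‖S i j‖) * ‖v‖ := by
  have h0 : ∀ i, 0 ≤ ∑ j, ‖S i j‖ := fun i => Finset.sum_nonneg fun j _ => norm_nonneg _
  rw [pi_norm_le_iff_of_nonneg (mul_nonneg (Finset.sum_nonneg fun i _ => h0 i) (norm_nonneg v))]
  intro i
  have h1 : ‖S.mulVec v i‖ ≤ ∑ j, ‖S i j‖ * ‖v‖ := by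
    unfold Matrix.mulVec dotProduct
    refine (norm_sum_le _ _).trans (Finset.sum_le_sum fun j _ => ?_)
    rw [norm_mul]
    exact mul_le_mul_of_nonneg_left (norm_le_pi_norm v j) (norm_nonneg _)
  refine h1.trans ?_
  rw [← Finset.sum_mul]
  refine mul_le_mul_of_nonneg_right ?_ (norm_nonneg v)
  exact Finset.single_le_sum (f := fun i => ∑ j, ‖S i j‖) (fun i _ => h0 i) (Finset.mem_univ i)

theorem basin {g : ℕ} (N D : Fin g → MvPolynomial (Fin g) ℂ) (q : Fin g → ℂ)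
    (hD : ∀ i, eval q (D i) ≠ 0) (hq : ∀ i, eval q (N i) / eval q (D i) = q i) (lam : Fin g → ℂ)
    (hJ : (Jac N D q).charpoly = ∏ i, (Polynomial.X - Polynomial.C (lam i)))
    (h1 : ∀ i, ‖lam i‖ < 1) :
    ∃ r > (0 : ℝ), ∃ ρ C : ℝ, 0 < ρ ∧ ρ < 1 ∧ ∀ z : ℕ → Fin g → ℂ, (∀ i, ‖z 0 i - q i‖ < r) →
      (∀ n i, z (n + 1) i = eval (z n) (N i) / eval (z n) (D i)) →
        (∀ n i, eval (z n) (D i) ≠ 0) ∧ ∀ n i, ‖z n i - q i‖ ≤ C * ρ ^ n := by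
  have hl0 : ‖lam‖ < 1 := (pi_norm_lt_iff one_pos).2 h1
  have hl1 : 0 ≤ ‖lam‖ := norm_nonneg lam
  obtain ⟨S, S', t, r', hSS, hSS', hr', ht, hst⟩ := step N D q hD hq lam hJ
    (ε := (1 - ‖lam‖) / 2) (by linarith)
  obtain ⟨a, ha⟩ : ∃ a : ℝ, a = ∑ i, ∑ j, ‖S i j‖ := ⟨_, rfl⟩
  obtain ⟨a', ha'⟩ : ∃ a' : ℝ, a' = ∑ i, ∑ j, ‖S' i j‖ := ⟨_, rfl⟩
  have ha0 : 0 ≤ a := by
    rw [ha]
    exact Finset.sum_nonneg fun i _ => Finset.sum_nonneg fun j _ => norm_nonneg _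
  have ha'0 : 0 ≤ a' := by
    rw [ha']
    exact Finset.sum_nonneg fun i _ => Finset.sum_nonneg fun j _ => norm_nonneg _
  obtain ⟨ρ, hρ⟩ : ∃ ρ : ℝ, ρ = (1 + ‖lam‖) / 2 := ⟨_, rfl⟩
  have hρ0 : 0 < ρ := by rw [hρ]; linarith
  have hρ1 : ρ < 1 := by rw [hρ]; linarith
  have hstep : ∀ y : Fin g → ℂ, ‖S.mulVec (y - q)‖ < r' →
      ‖S.mulVec (fun l => eval y (N l) / eval y (D l) - q l)‖ ≤ ρ * ‖S.mulVec (y - q)‖ := by
    intro y hy
    obtain ⟨-, h2⟩ := hst y hy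
    rw [pi_norm_le_iff_of_nonneg (mul_nonneg hρ0.le (norm_nonneg _))]
    intro i
    have h3 := h2 i
    have h4 : ‖t i * S.mulVec (y - q) i‖ ≤ ‖lam‖ * ‖S.mulVec (y - q)‖ := by
      obtain ⟨j, hj⟩ := ht i
      rw [norm_mul, hj]
      exact mul_le_mul (norm_le_pi_norm lam j) (norm_le_pi_norm _ i) (norm_nonneg _) hl1
    have h5 : ‖S.mulVec (fun l => eval y (N l) / eval y (D l) - q l) i‖ ≤
        ‖S.mulVec (fun l => eval y (N l) / eval y (D l) - q l) i - t i * S.mulVec (y - q) i‖ +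
          ‖t i * S.mulVec (y - q) i‖ := by
      have h6 := norm_add_le
        (S.mulVec (fun l => eval y (N l) / eval y (D l) - q l) i - t i * S.mulVec (y - q) i)
        (t i * S.mulVec (y - q) i)
      rwa [sub_add_cancel] at h6
    have h7 : ρ * ‖S.mulVec (y - q)‖ =
        (1 - ‖lam‖) / 2 * ‖S.mulVec (y - q)‖ + ‖lam‖ * ‖S.mulVec (y - q)‖ := by
      rw [hρ]
      ring
    rw [h7]
    exact h5.trans (add_le_add h3 h4)
  refine ⟨r' / (a + 1), by positivity, ρ, a' * r', hρ0, hρ1, fun z hz0 hz => ?_⟩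
  have hw0 : ‖S.mulVec (z 0 - q)‖ < r' := by
    have h2 : ‖z 0 - q‖ < r' / (a + 1) := (pi_norm_lt_iff (by positivity)).2 hz0
    have h3 := Bas_mul S (z 0 - q)
    rw [← ha] at h3
    rw [lt_div_iff₀ (by positivity)] at h2
    have h4 : a * ‖z 0 - q‖ ≤ ‖z 0 - q‖ * (a + 1) := by
      have := norm_nonneg (z 0 - q)
      linarith
    linarith
  have hsucc : ∀ n, (fun l => eval (z n) (N l) / eval (z n) (D l) - q l) = z (n + 1) - q := by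
    intro n
    funext l
    rw [Pi.sub_apply, hz n l]
  have hw : ∀ n, ‖S.mulVec (z n - q)‖ ≤ r' * ρ ^ n ∧ ‖S.mulVec (z n - q)‖ < r' := by
    intro n
    induction n with
    | zero =>
      rw [pow_zero, mul_one]
      exact ⟨hw0.le, hw0⟩
    | succ n ih =>
      have h2 := hstep (z n) ih.2
      rw [hsucc n] at h2
      refine ⟨?_, ?_⟩
      · refine h2.trans ((mul_le_mul_of_nonneg_left ih.1 hρ0.le).trans (le_of_eq ?_))
        ring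
      · refine lt_of_le_of_lt h2 (lt_of_le_of_lt ?_ ih.2)
        exact mul_le_of_le_one_left (norm_nonneg _) hρ1.le
  refine ⟨fun n => (hst (z n) (hw n).2).1, fun n i => ?_⟩
  have h2 : S'.mulVec (S.mulVec (z n - q)) = z n - q := by
    rw [Matrix.mulVec_mulVec, hSS', Matrix.one_mulVec]
  have h3 := Bas_mul S' (S.mulVec (z n - q))
  rw [h2, ← ha'] at h3
  have h4 : ‖z n i - q i‖ ≤ ‖z n - q‖ := norm_le_pi_norm (z n - q) i
  refine h4.trans (h3.trans ((mul_le_mul_of_nonneg_left (hw n).1 ha'0).trans (le_of_eq ?_)))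
  ring

end MP_f4ff90_agE
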