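import Pool.Agent.Lib.MP_f4ff90_agE.StpX

/-!
LEAF BasX.  The basin of an attracting fixed point on `X`.
PROOF.  (Model: `Bas.lean`.)  `ρ₀ < 1` a bound of all `‖lam i‖`, `ε = (1 - ρ₀) / 2`, `ρ = (1 + ρ₀) / 2`; `S, t, r', B` of `stepX`; `δ n = z n - q`, `w n = S (δ n)`, `a = ∑ ‖S i k‖`.  Choose `r` with `B (a + 1) B r < r'`, `r < r'` (and `B (a+1) r < r'`).  Induction on `n`:
`‖δ n‖ < r'`, `‖w n‖ ≤ ρ^n ‖w 0‖` and `‖δ n‖ ≤ B ‖w n‖`: given this, the denominators at `z n` do not vanish, `‖w (n+1)‖ ≤ (ρ₀ + ε) ‖w n‖ = ρ ‖w n‖`, `‖δ (n+1)‖ ≤ B ‖δ n‖ ≤ B * B ‖w n‖ ≤ B * B a r < r'`, so `stepX` at `z (n+1)` gives `‖δ (n+1)‖ ≤ B ‖w (n+1)‖`.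
(The induction also carries that `z n` is on `X`: hypothesis 2.)
-/

set_option autoImplicit false

open Filter Topology MvPolynomial

namespace MP_f4ff90_agE

private theorem BasX_mul {d g : ℕ} (S : Matrix (Fin d) (Fin g) ℂ) (v : Fin g → ℂ) :
    ‖S.mulVec v‖ ≤ (∑ i, ∑ j, ‖S i j‖) * ‖v‖ := by
  have h0 : ∀ i, 0 ≤ ∑ j, ‖S i j‖ := fun i => Finset.sum_nonneg fun j _ => norm_nonneg _
  rw [pi_norm_le_iff_of_nonneg (mul_nonneg (Finset.sum_nonneg fun i _ => h0 i) (norm_nonneg v))]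
  intro i
  have h1 : ‖S.mulVec v i‖ ≤ ∑ j, ‖S i j‖ * ‖v‖ := by
    unfold Matrix.mulVec dotProduct
    refine (norm_sum_le _ _).trans (Finset.sum_le_sum fun j _ => ?_)
    rw [norm_mul]
    exact mul_le_mul_of_nonneg_left (norm_le_pi_norm v j) (norm_nonneg _)
  refine h1.trans ?_
  rw [← Finset.sum_mul]
  refine mul_le_mul_of_nonneg_right ?_ (norm_nonneg v)
  exact Finset.single_le_sum (f := fun i => ∑ j, ‖S i j‖) (fun i _ => h0 i) (Finset.mem_univ i)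

theorem basinX {g l : ℕ} (N D : Fin g → MvPolynomial (Fin g) ℂ) (q : Fin g → ℂ)
    (hD : ∀ i, eval q (D i) ≠ 0) (hq : ∀ i, eval q (N i) / eval q (D i) = q i)
    (E : Set (MvPolynomial (Fin g) ℂ)) (hE : ∀ P ∈ E, eval q P = 0)
    (hV : ∀ v ∈ TanE E q, (Jac N D q).mulVec v ∈ TanE E q) (lam : Fin l → ℂ)
    (hlam : ∀ (μ : ℂ) (v : Fin g → ℂ), v ∈ TanE E q → v ≠ 0 → (Jac N D q).mulVec v = μ • v →
      ∃ i, μ = lam i) (h1 : ∀ i, ‖lam i‖ < 1) :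
    ∃ r > (0 : ℝ), ∃ ρ C : ℝ, 0 < ρ ∧ ρ < 1 ∧ ∀ z : ℕ → Fin g → ℂ,
      (∀ P ∈ E, eval (z 0) P = 0) →
      (∀ n, (∀ i, eval (z n) (D i) ≠ 0) → (∀ P ∈ E, eval (z n) P = 0) →
        ∀ P ∈ E, eval (z (n + 1)) P = 0) →
      (∀ i, ‖z 0 i - q i‖ < r) →
      (∀ n i, z (n + 1) i = eval (z n) (N i) / eval (z n) (D i)) →
        (∀ n i, eval (z n) (D i) ≠ 0) ∧ ∀ n i, ‖z n i - q i‖ ≤ C * ρ ^ n := by
  have hl0 : ‖lam‖ < 1 := (pi_norm_lt_iff one_pos).2 h1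
  have hl1 : 0 ≤ ‖lam‖ := norm_nonneg lam
  obtain ⟨d, S, t, r', B, hr', hB, ht, hst⟩ := stepX N D q hD hq E hE hV lam hlam
    (ε := (1 - ‖lam‖) / 2) (by linarith)
  obtain ⟨a, ha⟩ : ∃ a : ℝ, a = ∑ i, ∑ j, ‖S i j‖ := ⟨_, rfl⟩
  have ha0 : 0 ≤ a := by
    rw [ha]
    exact Finset.sum_nonneg fun i _ => Finset.sum_nonneg fun j _ => norm_nonneg _
  obtain ⟨ρ, hρ⟩ : ∃ ρ : ℝ, ρ = (1 + ‖lam‖) / 2 := ⟨_, rfl⟩
  have hρ0 : 0 < ρ := by rw [hρ]; linarith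
  have hρ1 : ρ < 1 := by rw [hρ]; linarith
  have hBa : 0 ≤ B * B * a := by positivity
  have hstep : ∀ y : Fin g → ℂ, (∀ P ∈ E, eval y P = 0) → ‖y - q‖ < r' →
      ‖S.mulVec (fun l => eval y (N l) / eval y (D l) - q l)‖ ≤ ρ * ‖S.mulVec (y - q)‖ := by
    intro y hyE hy
    obtain ⟨-, -, -, h2⟩ := hst y hyE hy
    rw [pi_norm_le_iff_of_nonneg (mul_nonneg hρ0.le (norm_nonneg _))]
    intro i
    have h3 := h2 i
    have h4 : ‖t i * S.mulVec (y - q) i‖ ≤ ‖lam‖ * ‖S.mulVec (y - q)‖ := by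
      obtain ⟨j, hj⟩ := ht i
      rw [norm_mul, hj]
      exact mul_le_mul (norm_le_pi_norm lam j) (norm_le_pi_norm _ i) (norm_nonneg _) hl1
    have h5 : ‖S.mulVec (fun l => eval y (N l) / eval y (D l) - q l) i‖ ≤
        ‖S.mulVec (fun l => eval y (N l) / eval y (D l) - q l) i - t i * S.mulVec (y - q) i‖ +
          ‖t i * S.mulVec (y - q) i‖ := by
      have h6 := norm_add_le
        (S.mulVec (fun l => eval y (N l) / eval y (D l) - q l) i - t i * S.mulVec (y - q) i)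
        (t i * S.mulVec (y - q) i)
      rwa [sub_add_cancel] at h6
    have h7 : ρ * ‖S.mulVec (y - q)‖ =
        (1 - ‖lam‖) / 2 * ‖S.mulVec (y - q)‖ + ‖lam‖ * ‖S.mulVec (y - q)‖ := by
      rw [hρ]
      ring
    rw [h7]
    exact h5.trans (add_le_add h3 h4)
  refine ⟨r' / (B * B * a + 1), by positivity, ρ, B * (a * r'), hρ0, hρ1,
    fun z hzE0 hzE hz0 hz => ?_⟩
  have hd0 : (B * B * a) * ‖z 0 - q‖ + ‖z 0 - q‖ < r' := by
    have h2 : ‖z 0 - q‖ < r' / (B * B * a + 1) := (pi_norm_lt_iff (by positivity)).2 hz0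
    rw [lt_div_iff₀ (by positivity)] at h2
    linarith
  have hn0 : 0 ≤ ‖z 0 - q‖ := norm_nonneg _
  have hd1 : ‖z 0 - q‖ < r' := by
    have := mul_nonneg hBa hn0
    linarith
  have hS0 : ‖S.mulVec (z 0 - q)‖ ≤ a * ‖z 0 - q‖ := by
    rw [ha]
    exact BasX_mul S (z 0 - q)
  have hsucc : ∀ n, (fun l => eval (z n) (N l) / eval (z n) (D l) - q l) = z (n + 1) - q := by
    intro n
    funext l
    rw [Pi.sub_apply, hz n l]
  have hw : ∀ n, (∀ P ∈ E, eval (z n) P = 0) ∧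
      ‖S.mulVec (z n - q)‖ ≤ ρ ^ n * ‖S.mulVec (z 0 - q)‖ ∧ ‖z n - q‖ < r' := by
    intro n
    induction n with
    | zero =>
      rw [pow_zero, one_mul]
      exact ⟨hzE0, le_rfl, hd1⟩
    | succ n ih =>
      obtain ⟨ihE, ih1, ih2⟩ := ih
      have h2 := hstep (z n) ihE ih2
      obtain ⟨hDn, h3, h4, -⟩ := hst (z n) ihE ih2
      rw [hsucc n] at h2 h4
      refine ⟨hzE n hDn ihE, ?_, ?_⟩
      · refine h2.trans ((mul_le_mul_of_nonneg_left ih1 hρ0.le).trans (le_of_eq ?_))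
        ring
      · have h5 : ‖S.mulVec (z n - q)‖ ≤ ‖S.mulVec (z 0 - q)‖ :=
          ih1.trans (mul_le_of_le_one_left (norm_nonneg _) (pow_le_one₀ hρ0.le hρ1.le))
        have h6 : ‖z n - q‖ ≤ B * (a * ‖z 0 - q‖) :=
          h3.trans (mul_le_mul_of_nonneg_left (h5.trans hS0) hB.le)
        have h7 : ‖z (n + 1) - q‖ ≤ B * (B * (a * ‖z 0 - q‖)) :=
          h4.trans (mul_le_mul_of_nonneg_left h6 hB.le)
        have h8 : B * (B * (a * ‖z 0 - q‖)) = (B * B * a) * ‖z 0 - q‖ := by ring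
        rw [h8] at h7
        linarith
  refine ⟨fun n => (hst (z n) (hw n).1 (hw n).2.2).1, fun n i => ?_⟩
  have h2 := (hst (z n) (hw n).1 (hw n).2.2).2.1
  have h4 : ‖z n i - q i‖ ≤ ‖z n - q‖ := norm_le_pi_norm (z n - q) i
  have h5 : ‖S.mulVec (z 0 - q)‖ ≤ a * r' := hS0.trans (mul_le_mul_of_nonneg_left hd1.le ha0)
  have h6 : ‖S.mulVec (z n - q)‖ ≤ ρ ^ n * (a * r') :=
    (hw n).2.1.trans (mul_le_mul_of_nonneg_left h5 (pow_nonneg hρ0.le n))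
  refine h4.trans (h2.trans ((mul_le_mul_of_nonneg_left h6 hB.le).trans (le_of_eq ?_)))
  ring

end MP_f4ff90_agE
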