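import Pool.Agent.Lib.MP_f4ff90_agE.Defs

/-!
# Orbits converging to a fixed point on an arbitrary variety: definitions
-/

set_option autoImplicit false

open Filter Topology MvPolynomial

namespace MP_f4ff90_agE

/-- the Zariski tangent space at `q` of the closed set with the equations `E` -/
def TanE {g : ℕ} (E : Set (MvPolynomial (Fin g) ℂ)) (q : Fin g → ℂ) :
    Submodule ℂ (Fin g → ℂ) where
  carrier := {v | ∀ P ∈ E, ∑ j, eval q (pderiv j P) * v j = 0}
  add_mem' := by
    intro a b ha hb P hP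
    have h1 := ha P hP
    have h2 := hb P hP
    simp only [Pi.add_apply, mul_add, Finset.sum_add_distrib]
    rw [h1, h2, add_zero]
  zero_mem' := by
    intro P _
    simp
  smul_mem' := by
    intro c a ha P hP
    have h1 := ha P hP
    have h2 : ∑ j, eval q (pderiv j P) * (c • a) j = c * ∑ j, eval q (pderiv j P) * a j := by
      rw [Finset.mul_sum]
      refine Finset.sum_congr rfl fun j _ => ?_
      rw [Pi.smul_apply, smul_eq_mul]
      ring
    rw [h2, h1, mul_zero]

lemma mem_TanE {g : ℕ} {E : Set (MvPolynomial (Fin g) ℂ)} {q v : Fin g → ℂ} :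
    v ∈ TanE E q ↔ ∀ P ∈ E, ∑ j, eval q (pderiv j P) * v j = 0 := Iff.rfl

/-- adapted coordinates on the invariant subspace `V`: `S` gives the coordinates, `S'` a basis,
`T` the matrix of `J` -/
structure Frame {g d : ℕ} (J : Matrix (Fin g) (Fin g) ℂ) (V : Submodule ℂ (Fin g → ℂ))
    (S : Matrix (Fin d) (Fin g) ℂ) (S' : Matrix (Fin g) (Fin d) ℂ)
    (T : Matrix (Fin d) (Fin d) ℂ) : Prop where
  left : ∀ v ∈ V, S'.mulVec (S.mulVec v) = v
  equi : ∀ v ∈ V, S.mulVec (J.mulVec v) = T.mulVec (S.mulVec v)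

end MP_f4ff90_agE
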