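import Mathlib
import Pool.Agent.Lib.MP_f4ff90_agE.Defs

/-!
LEAF EpA.  Closure properties of `Ep`.
PROOF.  `ep_small`: `G = 0`.  `ep_add`: `G + G'` (`Finsupp.sum_add_index'`), support of the sum inside the union.  `ep_smul`: `G.mapRange (C c * ·)` or `c • G`.
`ep_sum`: induction.  `ep_const`: `G = single 1 (C c)` (`1 ∈ Λ`).  `ep_mono`: `r ^ n ≤ r' ^ n`.
-/

set_option autoImplicit false

open Filter Topology MvPolynomial

namespace MP_f4ff90_agE

theorem ep_small {Λ : Set ℂ} {r : ℝ} {u : ℕ → ℂ} (h : ∃ C : ℝ, ∀ n, ‖u n‖ ≤ C * r ^ n) : Ep Λ r u := by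
  obtain ⟨C, hC⟩ := h
  refine ⟨0, by simp, C, fun n => ?_⟩
  rw [Finsupp.sum_zero_index, sub_zero]
  exact hC n

theorem ep_const {Λ : Set ℂ} (h1 : (1 : ℂ) ∈ Λ) (r : ℝ) (c : ℂ) : Ep Λ r (fun _ => c) := by
  refine ⟨Finsupp.single 1 (Polynomial.C c), ?_, 0, fun n => ?_⟩
  · intro μ hμ
    have h2 := Finsupp.support_single_subset hμ
    rw [Finset.mem_singleton] at h2
    rw [h2]
    exact h1
  · rw [Finsupp.sum_single_index (by simp)]
    simp

theorem ep_add {Λ : Set ℂ} {r : ℝ} {u v : ℕ → ℂ} (hu : Ep Λ r u) (hv : Ep Λ r v) :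
    Ep Λ r (fun n => u n + v n) := by
  obtain ⟨G, hG, C, hC⟩ := hu
  obtain ⟨G', hG', C', hC'⟩ := hv
  refine ⟨G + G', ?_, C + C', fun n => ?_⟩
  · classical
    intro μ hμ
    rcases Finset.mem_union.1 (Finsupp.support_add hμ) with h | h
    · exact hG μ h
    · exact hG' μ h
  · have e : (G + G').sum (fun μ p => p.eval (n : ℂ) * μ ^ n) =
        G.sum (fun μ p => p.eval (n : ℂ) * μ ^ n) + G'.sum (fun μ p => p.eval (n : ℂ) * μ ^ n) := by
      refine Finsupp.sum_add_index' (fun μ => by simp) (fun μ p q => ?_)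
      rw [Polynomial.eval_add, add_mul]
    rw [e]
    calc ‖u n + v n - (G.sum (fun μ p => p.eval (n : ℂ) * μ ^ n) +
          G'.sum (fun μ p => p.eval (n : ℂ) * μ ^ n))‖
        = ‖(u n - G.sum (fun μ p => p.eval (n : ℂ) * μ ^ n)) +
          (v n - G'.sum (fun μ p => p.eval (n : ℂ) * μ ^ n))‖ := by congr 1; ring
      _ ≤ C * r ^ n + C' * r ^ n := (norm_add_le _ _).trans (add_le_add (hC n) (hC' n))
      _ = (C + C') * r ^ n := by ring

theorem ep_smul {Λ : Set ℂ} {r : ℝ} {u : ℕ → ℂ} (c : ℂ) (hu : Ep Λ r u) :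
    Ep Λ r (fun n => c * u n) := by
  obtain ⟨G, hG, C, hC⟩ := hu
  refine ⟨c • G, ?_, ‖c‖ * C, fun n => ?_⟩
  · intro μ hμ
    exact hG μ (Finsupp.support_smul hμ)
  · have e : (c • G).sum (fun μ p => p.eval (n : ℂ) * μ ^ n) =
        c * G.sum (fun μ p => p.eval (n : ℂ) * μ ^ n) := by
      rw [Finsupp.sum_smul_index' (fun μ => by simp), Finsupp.mul_sum]
      refine Finsupp.sum_congr fun μ _ => ?_
      rw [Polynomial.eval_smul, smul_eq_mul, mul_assoc]
    rw [e, ← mul_sub, norm_mul, mul_assoc]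
    exact mul_le_mul_of_nonneg_left (hC n) (norm_nonneg c)

theorem ep_sum {Λ : Set ℂ} {r : ℝ} {ι : Type*} (s : Finset ι) (u : ι → ℕ → ℂ)
    (hu : ∀ i ∈ s, Ep Λ r (u i)) : Ep Λ r (fun n => ∑ i ∈ s, u i n) := by
  classical
  induction s using Finset.induction_on with
  | empty =>
    refine ep_small ⟨0, fun n => ?_⟩
    simp
  | insert a s ha ih =>
    have h1 := ep_add (hu a (Finset.mem_insert_self a s))
      (ih fun i hi => hu i (Finset.mem_insert_of_mem hi))
    have e : (fun n => ∑ i ∈ insert a s, u i n) = fun n => u a n + ∑ i ∈ s, u i n := by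
      funext n
      rw [Finset.sum_insert ha]
    rw [e]
    exact h1

theorem ep_congr {Λ : Set ℂ} {r : ℝ} {u v : ℕ → ℂ} (h : ∀ n, u n = v n) (hu : Ep Λ r u) :
    Ep Λ r v := by
  have e : u = v := funext h
  rw [← e]
  exact hu

end MP_f4ff90_agE
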