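import Mathlib
import Pool.Agent.Lib.MP_f4ff90_agE.Defs

/-!
LEAF EpD.  The dichotomy.
PROOF.  Put `ω(μ) = μ^m`.  On the class `n = c + m k`: `∑_μ p_μ(n) μ^n = ∑_(ω ∈ image) P_ω(k) ω^k`, `P_ω(k) = ∑_(μ^m = ω) μ^c p_μ(c + m k)`, a polynomial in `k`.  Let `Δ` be the set of the `ω` with
`P_ω ≠ 0` (as a polynomial) and `‖ω‖ > r^m`.  By `H` (`‖μ^m‖ = ‖μ'^m‖` iff `‖μ‖ = ‖μ'‖`) different `ω` have different `‖ω‖`.  If `Δ = ∅` then all terms are `O(k^a r^(m k))`, so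
`‖u (c + m k)‖ ≤ C r'^(c + m k)` for every `r' > r`.  Otherwise let `ω₀ ∈ Δ` have the largest `‖ω₀‖`: `‖P_(ω₀)(k)‖ ≥ δ > 0` for large `k`, and all other terms and the error, divided by `‖ω₀‖^k`,
tend to 0; so `u (c + m k) ≠ 0` for large `k`.
-/

set_option autoImplicit false

open Filter Topology MvPolynomial

namespace MP_f4ff90_agE

private lemma EpD_geom (P : Polynomial ℂ) {z : ℂ} (hz : ‖z‖ < 1) :
    Tendsto (fun k : ℕ => P.eval (k : ℂ) * z ^ k) atTop (𝓝 0) := by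
  have h1 : ∀ k : ℕ, P.eval (k : ℂ) * z ^ k =
      ∑ i ∈ Finset.range (P.natDegree + 1), P.coeff i * ((k : ℂ) ^ i * z ^ k) := by
    intro k
    rw [Polynomial.eval_eq_sum_range, Finset.sum_mul]
    exact Finset.sum_congr rfl fun i _ => mul_assoc _ _ _
  simp_rw [h1]
  rw [show (0 : ℂ) = ∑ i ∈ Finset.range (P.natDegree + 1), P.coeff i * 0 by simp]
  refine tendsto_finsetSum _ fun i _ => Tendsto.const_mul _ ?_
  rw [tendsto_zero_iff_norm_tendsto_zero]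
  have h2 := tendsto_pow_const_mul_const_pow_of_abs_lt_one i (r := ‖z‖) (by rw [abs_norm]; exact hz)
  refine h2.congr fun k => ?_
  rw [norm_mul, norm_pow, norm_pow, Complex.norm_natCast]

private lemma EpD_bdd (P : Polynomial ℂ) {s : ℝ} (hs : 1 < s) :
    ∃ C : ℝ, 0 ≤ C ∧ ∀ k : ℕ, ‖P.eval (k : ℂ)‖ ≤ C * s ^ k := by
  have h1 := EpD_geom P (z := ((s⁻¹ : ℝ) : ℂ)) (by
    rw [Complex.norm_real, Real.norm_of_nonneg (by positivity)]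
    exact inv_lt_one_of_one_lt₀ hs)
  obtain ⟨C, hC⟩ := (h1.norm).bddAbove_range
  refine ⟨max C 0, le_max_right _ _, fun k => ?_⟩
  have h2 : ‖P.eval (k : ℂ) * ((s⁻¹ : ℝ) : ℂ) ^ k‖ ≤ C := hC ⟨k, rfl⟩
  rw [norm_mul, norm_pow, Complex.norm_real, Real.norm_of_nonneg (by positivity), inv_pow,
    ← div_eq_mul_inv, div_le_iff₀ (by positivity)] at h2
  exact h2.trans (mul_le_mul_of_nonneg_right (le_max_left _ _) (by positivity))

private lemma EpD_low {P : Polynomial ℂ} (hP : P ≠ 0) :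
    ∃ δ : ℝ, 0 < δ ∧ ∀ᶠ k : ℕ in atTop, δ ≤ ‖P.eval (k : ℂ)‖ := by
  by_cases hd : 0 < P.degree
  · have h1 : Tendsto (fun k : ℕ => ‖(k : ℂ)‖) atTop atTop := by
      refine tendsto_natCast_atTop_atTop.congr fun k => ?_
      rw [Complex.norm_natCast]
    have h2 := Polynomial.tendsto_norm_atTop P hd h1
    exact ⟨1, one_pos, h2.eventually_ge_atTop 1⟩
  · have h3 := Polynomial.eq_C_of_degree_le_zero (not_lt.1 hd)
    have h4 : P.coeff 0 ≠ 0 := by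
      intro h
      rw [h, Polynomial.C_0] at h3
      exact hP h3
    refine ⟨‖P.coeff 0‖, norm_pos_iff.2 h4, Eventually.of_forall fun k => ?_⟩
    conv_rhs => rw [h3]
    rw [Polynomial.eval_C]

theorem ep_dich {Λ : Set ℂ} {r : ℝ} (hr : 0 < r) (hΛ0 : ∀ μ ∈ Λ, μ ≠ 0) {m : ℕ} (hm : 0 < m)
    (H : ∀ μ ∈ Λ, ∀ μ' ∈ Λ, ‖μ‖ = ‖μ'‖ → μ ^ m = μ' ^ m) {u : ℕ → ℂ} (hu : Ep Λ r u) (c : ℕ) :
    (∃ k₀, ∀ k ≥ k₀, u (c + m * k) ≠ 0) ∨
    ∀ r' > r, ∃ C : ℝ, ∀ k, ‖u (c + m * k)‖ ≤ C * r' ^ (c + m * k) := by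
  classical
  obtain ⟨G, hG, C, hC⟩ := hu
  obtain ⟨Q, hQ⟩ : ∃ Q : ℂ → Polynomial ℂ, Q = fun ω => ∑ μ ∈ G.support with μ ^ m = ω,
    Polynomial.C (μ ^ c) * (G μ).comp (Polynomial.C (c : ℂ) + Polynomial.C (m : ℂ) * Polynomial.X) :=
    ⟨_, rfl⟩
  obtain ⟨Ω, hΩ⟩ : ∃ Ω : Finset ℂ, Ω = G.support.image fun μ => μ ^ m := ⟨_, rfl⟩
  have key : ∀ k : ℕ, (G.sum fun μ p => p.eval ((c + m * k : ℕ) : ℂ) * μ ^ (c + m * k)) =
      ∑ ω ∈ Ω, (Q ω).eval (k : ℂ) * ω ^ k := by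
    intro k
    have h1 : ∀ μ ∈ G.support, μ ^ m ∈ Ω := fun μ hμ => by
      rw [hΩ]
      exact Finset.mem_image_of_mem _ hμ
    unfold Finsupp.sum
    rw [← Finset.sum_fiberwise_of_maps_to h1]
    refine Finset.sum_congr rfl fun ω _ => ?_
    rw [hQ]
    simp only [Polynomial.eval_finsetSum]
    rw [Finset.sum_mul]
    refine Finset.sum_congr rfl fun μ hμ => ?_
    have h2 := (Finset.mem_filter.1 hμ).2
    rw [← h2, Polynomial.eval_mul, Polynomial.eval_C, Polynomial.eval_comp, Polynomial.eval_add,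
      Polynomial.eval_mul, Polynomial.eval_C, Polynomial.eval_C, Polynomial.eval_X, pow_add, pow_mul]
    push_cast
    ring
  have hΩr : ∀ ω ∈ Ω, ∀ ω' ∈ Ω, ‖ω‖ = ‖ω'‖ → ω = ω' := by
    intro ω hω ω' hω' h
    rw [hΩ, Finset.mem_image] at hω hω'
    obtain ⟨μ, hμ, rfl⟩ := hω
    obtain ⟨μ', hμ', rfl⟩ := hω'
    rw [norm_pow, norm_pow] at h
    exact H μ (hG μ hμ) μ' (hG μ' hμ') ((pow_left_inj₀ (norm_nonneg _) (norm_nonneg _) hm.ne').1 h)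
  have hu' : ∀ k : ℕ, ‖u (c + m * k) - ∑ ω ∈ Ω, (Q ω).eval (k : ℂ) * ω ^ k‖ ≤ C * r ^ (c + m * k) := by
    intro k
    rw [← key k]
    exact hC (c + m * k)
  have hC0 : 0 ≤ C := by
    have h1 := (norm_nonneg _).trans (hC 0)
    rw [pow_zero, mul_one] at h1
    exact h1
  obtain ⟨Δ, hΔ⟩ : ∃ Δ : Finset ℂ, Δ = Ω.filter fun ω => Q ω ≠ 0 ∧ r ^ m < ‖ω‖ := ⟨_, rfl⟩
  rcases Δ.eq_empty_or_nonempty with h0 | hne
  · -- everything is small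
    right
    intro r' hr'
    have hr'0 : 0 < r' := hr.trans hr'
    have hs : 1 < (r' / r) ^ m := one_lt_pow₀ ((one_lt_div hr).2 hr') hm.ne'
    have h1 : ∀ ω ∈ Ω, ∃ A : ℝ, ∀ k : ℕ, ‖(Q ω).eval (k : ℂ) * ω ^ k‖ ≤ A * r' ^ (m * k) := by
      intro ω hω
      by_cases hq : Q ω = 0
      · refine ⟨0, fun k => ?_⟩
        rw [hq, Polynomial.eval_zero, zero_mul, norm_zero, zero_mul]
      · have h2 : ‖ω‖ ≤ r ^ m := by
          by_contra h3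
          have h4 : ω ∈ Δ := by
            rw [hΔ, Finset.mem_filter]
            exact ⟨hω, hq, not_le.1 h3⟩
          rw [h0] at h4
          exact absurd h4 (Finset.notMem_empty _)
        obtain ⟨A, hA0, hA⟩ := EpD_bdd (Q ω) hs
        refine ⟨A, fun k => ?_⟩
        rw [norm_mul, norm_pow]
        have h5 : ‖ω‖ ^ k ≤ (r ^ m) ^ k := pow_le_pow_left₀ (norm_nonneg _) h2 k
        calc ‖(Q ω).eval (k : ℂ)‖ * ‖ω‖ ^ k ≤ (A * ((r' / r) ^ m) ^ k) * (r ^ m) ^ k :=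
              mul_le_mul (hA k) h5 (by positivity) (by positivity)
          _ = A * r' ^ (m * k) := by
              rw [mul_assoc, ← mul_pow, ← mul_pow, div_mul_cancel₀ _ hr.ne', ← pow_mul]
    choose! A hA using h1
    refine ⟨(∑ ω ∈ Ω, |A ω|) / r' ^ c + C, fun k => ?_⟩
    have h3 : ‖∑ ω ∈ Ω, (Q ω).eval (k : ℂ) * ω ^ k‖ ≤ (∑ ω ∈ Ω, |A ω|) * r' ^ (m * k) := by
      refine (norm_sum_le _ _).trans ?_
      rw [Finset.sum_mul]
      exact Finset.sum_le_sum fun ω hω => (hA ω hω k).trans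
        (mul_le_mul_of_nonneg_right (le_abs_self _) (by positivity))
    have h4 : ‖u (c + m * k)‖ ≤ ‖u (c + m * k) - ∑ ω ∈ Ω, (Q ω).eval (k : ℂ) * ω ^ k‖ +
        ‖∑ ω ∈ Ω, (Q ω).eval (k : ℂ) * ω ^ k‖ := by
      have := norm_add_le (u (c + m * k) - ∑ ω ∈ Ω, (Q ω).eval (k : ℂ) * ω ^ k)
        (∑ ω ∈ Ω, (Q ω).eval (k : ℂ) * ω ^ k)
      rwa [sub_add_cancel] at this
    have h5 : C * r ^ (c + m * k) ≤ C * r' ^ (c + m * k) :=
      mul_le_mul_of_nonneg_left (pow_le_pow_left₀ hr.le hr'.le _) hC0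
    have h6 : ((∑ ω ∈ Ω, |A ω|) / r' ^ c + C) * r' ^ (c + m * k) =
        C * r' ^ (c + m * k) + (∑ ω ∈ Ω, |A ω|) * r' ^ (m * k) := by
      rw [add_mul, pow_add]
      field_simp
      ring
    rw [h6]
    linarith [hu' k]
  · -- there is a leading term
    left
    obtain ⟨ω₀, hω₀, hmax⟩ := Δ.exists_max_image (fun ω => ‖ω‖) hne
    have hω₀' := hω₀
    rw [hΔ, Finset.mem_filter] at hω₀'
    obtain ⟨hω₀Ω, hQ0, hbig⟩ := hω₀'
    have hω₀n : 0 < ‖ω₀‖ := (pow_pos hr m).trans hbig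
    have hω₀z : ω₀ ≠ 0 := norm_pos_iff.1 hω₀n
    obtain ⟨δ, hδ, hlow⟩ := EpD_low hQ0
    have t1 : ∀ ω ∈ Ω.erase ω₀, Tendsto (fun k : ℕ => (Q ω).eval (k : ℂ) * (ω / ω₀) ^ k) atTop (𝓝 0) := by
      intro ω hω
      obtain ⟨hne', hωΩ⟩ := Finset.mem_erase.1 hω
      by_cases hq : Q ω = 0
      · simp [hq]
      · refine EpD_geom _ ?_
        rw [norm_div, div_lt_one hω₀n]
        by_cases hb : r ^ m < ‖ω‖
        · have h4 : ω ∈ Δ := by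
            rw [hΔ, Finset.mem_filter]
            exact ⟨hωΩ, hq, hb⟩
          exact lt_of_le_of_ne (hmax ω h4) fun h => hne' (hΩr ω hωΩ ω₀ hω₀Ω h)
        · exact (not_lt.1 hb).trans_lt hbig
    have t2 : Tendsto (fun k : ℕ => ∑ ω ∈ Ω.erase ω₀, (Q ω).eval (k : ℂ) * (ω / ω₀) ^ k) atTop (𝓝 0) := by
      have := tendsto_finsetSum (Ω.erase ω₀) t1
      simpa using this
    have t3 : Tendsto (fun k : ℕ => C * r ^ c * (r ^ m / ‖ω₀‖) ^ k) atTop (𝓝 0) := by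
      have h1 := tendsto_pow_atTop_nhds_zero_of_lt_one (by positivity : 0 ≤ r ^ m / ‖ω₀‖)
        ((div_lt_one hω₀n).2 hbig)
      have := h1.const_mul (C * r ^ c)
      rwa [mul_zero] at this
    have t4 : ∀ᶠ k : ℕ in atTop, ‖∑ ω ∈ Ω.erase ω₀, (Q ω).eval (k : ℂ) * (ω / ω₀) ^ k‖ < δ / 2 := by
      have h1 := t2.norm
      rw [norm_zero] at h1
      exact h1.eventually (gt_mem_nhds (by positivity))
    have t5 : ∀ᶠ k : ℕ in atTop, C * r ^ c * (r ^ m / ‖ω₀‖) ^ k < δ / 2 :=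
      t3.eventually (gt_mem_nhds (by positivity))
    obtain ⟨k₀, hk₀⟩ := eventually_atTop.1 ((hlow.and t4).and t5)
    refine ⟨k₀, fun k hk h0 => ?_⟩
    obtain ⟨⟨g1, g2⟩, g3⟩ := hk₀ k hk
    have h1 := hu' k
    rw [h0, zero_sub, norm_neg] at h1
    have h2 : ∑ ω ∈ Ω, (Q ω).eval (k : ℂ) * ω ^ k = ω₀ ^ k * ((Q ω₀).eval (k : ℂ) +
        ∑ ω ∈ Ω.erase ω₀, (Q ω).eval (k : ℂ) * (ω / ω₀) ^ k) := by
      rw [← Finset.add_sum_erase Ω _ hω₀Ω, mul_add, Finset.mul_sum, mul_comm (ω₀ ^ k) ((Q ω₀).eval (k : ℂ))]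
      congr 1
      refine Finset.sum_congr rfl fun ω _ => ?_
      rw [div_pow]
      field_simp
    rw [h2, norm_mul, norm_pow] at h1
    have h3 : C * r ^ (c + m * k) = ‖ω₀‖ ^ k * (C * r ^ c * (r ^ m / ‖ω₀‖) ^ k) := by
      rw [pow_add, pow_mul, div_pow]
      field_simp
    rw [h3] at h1
    have h4 := le_of_mul_le_mul_left h1 (pow_pos hω₀n k)
    have h5 : ‖(Q ω₀).eval (k : ℂ)‖ ≤ ‖(Q ω₀).eval (k : ℂ) +
        ∑ ω ∈ Ω.erase ω₀, (Q ω).eval (k : ℂ) * (ω / ω₀) ^ k‖ +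
        ‖∑ ω ∈ Ω.erase ω₀, (Q ω).eval (k : ℂ) * (ω / ω₀) ^ k‖ := by
      have := norm_sub_le ((Q ω₀).eval (k : ℂ) +
        ∑ ω ∈ Ω.erase ω₀, (Q ω).eval (k : ℂ) * (ω / ω₀) ^ k)
        (∑ ω ∈ Ω.erase ω₀, (Q ω).eval (k : ℂ) * (ω / ω₀) ^ k)
      rwa [add_sub_cancel_right] at this
    linarith

end MP_f4ff90_agE
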