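import Mathlib
import Pool.Agent.Lib.MP_f4ff90_agE.EpA

/-!
LEAF EpR.  First order recurrences.
PROOF.  It is enough to treat (a) `‖v n‖ ≤ C r^n` and (b) `v n = p(n) μ^n`, `μ ∈ Λ`, with SOME solution `u⁰`: if `u¹` is a solution of the recurrence with right side the finite exponential
sum of `v`, then `u - u¹` is a solution for the error term.  (b) There is a polynomial `s` with `μ s(X+1) - ν s(X) = p(X)`: the map `s ↦ μ s(X+1) - ν s(X)` of `ℂ[X]` is surjective
(induction on the degree: if `μ ≠ ν` the leading coefficient is multiplied by `μ - ν`; if `μ = ν`, `s = X^(k+1)` gives `μ (k+1) X^k + ..`; `μ ≠ 0`); `u¹ n = s(n) μ^n`.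
(a) If `‖ν‖ < r`: `‖u n‖ ≤ C' r^n` with `C' = max ‖u 0‖ (C / (r - ‖ν‖))` by induction.  If `‖ν‖ > r`: `w n = u n / ν^n`, `w (n+1) - w n = v n / ν^(n+1)`, `‖..‖ ≤ C/‖ν‖ (r/‖ν‖)^n`, so `w n → c` and
`‖w n - c‖ ≤ C'' (r/‖ν‖)^n`, i.e. `u n = c ν^n + O(r^n)` (`ν ∈ Λ`).
-/

set_option autoImplicit false

open Filter Topology MvPolynomial

namespace MP_f4ff90_agE

private theorem EpR_poly_aux {μ ν : ℂ} (hμ : μ ≠ 0) : ∀ (n : ℕ) (p : Polynomial ℂ),
    p.degree < n → ∃ s : Polynomial ℂ,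
      Polynomial.C μ * s.comp (Polynomial.X + 1) - Polynomial.C ν * s = p := by
  intro n
  induction n with
  | zero =>
    intro p hp
    refine ⟨0, ?_⟩
    have h1 : p = 0 := by
      rw [Polynomial.degree_lt_iff_coeff_zero] at hp
      ext m
      rw [hp m (Nat.zero_le m), Polynomial.coeff_zero]
    rw [h1]
    simp
  | succ n ih =>
    intro p hp
    rw [Polynomial.degree_lt_iff_coeff_zero] at hp
    have key : ∃ s₁ : Polynomial ℂ, ∀ m, n ≤ m →
        (Polynomial.C μ * s₁.comp (Polynomial.X + 1) - Polynomial.C ν * s₁).coeff m =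
          p.coeff m := by
      by_cases hμν : μ = ν
      · refine ⟨Polynomial.C (p.coeff n / (μ * ((n : ℂ) + 1))) * Polynomial.X ^ (n + 1), ?_⟩
        intro m hm
        have hn : ((n : ℂ) + 1) ≠ 0 := by exact_mod_cast Nat.succ_ne_zero n
        rw [← hμν, Polynomial.mul_comp, Polynomial.C_comp, Polynomial.pow_comp, Polynomial.X_comp,
          Polynomial.coeff_sub, Polynomial.coeff_C_mul, Polynomial.coeff_C_mul,
          Polynomial.coeff_C_mul, Polynomial.coeff_C_mul, Polynomial.coeff_X_add_one_pow,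
          Polynomial.coeff_X_pow]
        rcases Nat.lt_or_ge m (n + 1) with h1 | h1
        · have h2 : m = n := by omega
          subst h2
          rw [if_neg (by omega), Nat.choose_succ_self_right]
          push_cast
          field_simp
          ring
        · rw [hp m h1]
          rcases h1.eq_or_lt with h3 | h3
          · rw [if_pos h3.symm, ← h3, Nat.choose_self]
            push_cast
            ring
          · rw [if_neg (by omega), Nat.choose_eq_zero_of_lt h3]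
            push_cast
            ring
      · refine ⟨Polynomial.C (p.coeff n / (μ - ν)) * Polynomial.X ^ n, ?_⟩
        intro m hm
        have hn : μ - ν ≠ 0 := sub_ne_zero.2 hμν
        rw [Polynomial.mul_comp, Polynomial.C_comp, Polynomial.pow_comp, Polynomial.X_comp,
          Polynomial.coeff_sub, Polynomial.coeff_C_mul, Polynomial.coeff_C_mul,
          Polynomial.coeff_C_mul, Polynomial.coeff_C_mul, Polynomial.coeff_X_add_one_pow,
          Polynomial.coeff_X_pow]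
        rcases hm.eq_or_lt with h3 | h3
        · rw [if_pos h3.symm, ← h3, Nat.choose_self]
          push_cast
          field_simp
        · rw [hp m h3, if_neg (by omega), Nat.choose_eq_zero_of_lt h3]
          push_cast
          ring
    obtain ⟨s₁, hs₁⟩ := key
    obtain ⟨s₂, hs₂⟩ := ih
      (p - (Polynomial.C μ * s₁.comp (Polynomial.X + 1) - Polynomial.C ν * s₁)) (by
        rw [Polynomial.degree_lt_iff_coeff_zero]
        intro m hm
        rw [Polynomial.coeff_sub, hs₁ m hm, sub_self])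
    refine ⟨s₁ + s₂, ?_⟩
    rw [Polynomial.add_comp]
    linear_combination hs₂

private theorem EpR_poly {μ : ℂ} (ν : ℂ) (hμ : μ ≠ 0) (p : Polynomial ℂ) :
    ∃ s : Polynomial ℂ, ∀ x : ℂ, μ * s.eval (x + 1) = ν * s.eval x + p.eval x := by
  obtain ⟨s, hs⟩ := EpR_poly_aux (ν := ν) hμ (p.natDegree + 1) p
    (lt_of_le_of_lt Polynomial.degree_le_natDegree (by exact_mod_cast Nat.lt_succ_self _))
  refine ⟨s, fun x => ?_⟩
  have h1 := congrArg (Polynomial.eval x) hs
  rw [Polynomial.eval_sub, Polynomial.eval_mul, Polynomial.eval_mul, Polynomial.eval_C,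
    Polynomial.eval_C, Polynomial.eval_comp, Polynomial.eval_add, Polynomial.eval_X,
    Polynomial.eval_one] at h1
  linear_combination h1

private theorem EpR_term {Λ : Set ℂ} (r : ℝ) {μ : ℂ} (hμ : μ ∈ Λ) (s : Polynomial ℂ) :
    Ep Λ r (fun n => s.eval (n : ℂ) * μ ^ n) := by
  refine ⟨Finsupp.single μ s, fun μ' hμ' => ?_, 0, fun n => ?_⟩
  · have h1 := Finsupp.support_single_subset hμ'
    rw [Finset.mem_singleton] at h1
    rw [h1]
    exact hμ
  · rw [Finsupp.sum_single_index (by simp), sub_self, norm_zero, zero_mul]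

private theorem EpR_small {Λ : Set ℂ} {r : ℝ} (hr : 0 < r) {ν : ℂ} (hν : ν ∈ Λ)
    (hνr : ‖ν‖ ≠ r) {w e : ℕ → ℂ} {C : ℝ} (h : ∀ n, w (n + 1) = ν * w n + e n)
    (he : ∀ n, ‖e n‖ ≤ C * r ^ n) : Ep Λ r w := by
  have hC : 0 ≤ C := by
    have h1 := he 0
    rw [pow_zero, mul_one] at h1
    exact (norm_nonneg _).trans h1
  rcases lt_or_gt_of_ne hνr with h1 | h1
  · apply ep_small
    have hd : 0 < r - ‖ν‖ := by linarith
    refine ⟨max ‖w 0‖ (C / (r - ‖ν‖)), fun n => ?_⟩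
    have hK : C ≤ (r - ‖ν‖) * max ‖w 0‖ (C / (r - ‖ν‖)) := by
      have h2 := mul_le_mul_of_nonneg_left (le_max_right ‖w 0‖ (C / (r - ‖ν‖))) hd.le
      rwa [mul_div_cancel₀ _ hd.ne'] at h2
    induction n with
    | zero =>
      rw [pow_zero, mul_one]
      exact le_max_left _ _
    | succ n ih =>
      have hrn : 0 ≤ r ^ n := by positivity
      calc ‖w (n + 1)‖ = ‖ν * w n + e n‖ := by rw [h]
        _ ≤ ‖ν‖ * ‖w n‖ + ‖e n‖ := by
          refine (norm_add_le _ _).trans ?_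
          rw [norm_mul]
        _ ≤ ‖ν‖ * (max ‖w 0‖ (C / (r - ‖ν‖)) * r ^ n) +
            (r - ‖ν‖) * max ‖w 0‖ (C / (r - ‖ν‖)) * r ^ n := by
          refine add_le_add (mul_le_mul_of_nonneg_left ih (norm_nonneg _)) ?_
          exact (he n).trans (mul_le_mul_of_nonneg_right hK hrn)
        _ = max ‖w 0‖ (C / (r - ‖ν‖)) * r ^ (n + 1) := by ring
  · have hν0 : 0 < ‖ν‖ := by linarith
    have hνc : ν ≠ 0 := norm_pos_iff.1 hν0
    have hq1 : r / ‖ν‖ < 1 := (div_lt_one hν0).2 h1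
    have hdist : ∀ n, dist (w n / ν ^ n) (w (n + 1) / ν ^ (n + 1)) ≤ C / ‖ν‖ * (r / ‖ν‖) ^ n := by
      intro n
      have h2 : w n / ν ^ n - w (n + 1) / ν ^ (n + 1) = -(e n / ν ^ (n + 1)) := by
        rw [h]
        field_simp
        ring
      rw [dist_eq_norm, h2, norm_neg, norm_div, norm_pow]
      calc ‖e n‖ / ‖ν‖ ^ (n + 1) ≤ C * r ^ n / ‖ν‖ ^ (n + 1) :=
            div_le_div_of_nonneg_right (he n) (by positivity)
        _ = C / ‖ν‖ * (r / ‖ν‖) ^ n := by
          rw [div_pow, pow_succ]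
          field_simp
    have hcau := cauchySeq_of_le_geometric (r / ‖ν‖) (C / ‖ν‖) hq1 hdist
    obtain ⟨c, hc⟩ := cauchySeq_tendsto_of_complete hcau
    have hlim := dist_le_of_le_geometric_of_tendsto (r / ‖ν‖) (C / ‖ν‖) hq1 hdist hc
    have h3 : Ep Λ r (fun n => w n - (Polynomial.C c).eval (n : ℂ) * ν ^ n) := by
      apply ep_small
      refine ⟨C / ‖ν‖ / (1 - r / ‖ν‖), fun n => ?_⟩
      have h4 := hlim n
      rw [dist_eq_norm] at h4
      have h5 : w n - (Polynomial.C c).eval (n : ℂ) * ν ^ n = (w n / ν ^ n - c) * ν ^ n := by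
        rw [Polynomial.eval_C]
        field_simp
      rw [h5, norm_mul, norm_pow]
      calc ‖w n / ν ^ n - c‖ * ‖ν‖ ^ n ≤ (C / ‖ν‖ * (r / ‖ν‖) ^ n / (1 - r / ‖ν‖)) * ‖ν‖ ^ n :=
            mul_le_mul_of_nonneg_right h4 (by positivity)
        _ = C / ‖ν‖ / (1 - r / ‖ν‖) * ((r / ‖ν‖) ^ n * ‖ν‖ ^ n) := by ring
        _ = C / ‖ν‖ / (1 - r / ‖ν‖) * r ^ n := by
          rw [div_pow, div_mul_cancel₀ _ (by positivity)]
    refine ep_congr (fun n => ?_) (ep_add h3 (EpR_term r hν (Polynomial.C c)))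
    ring

theorem ep_rec {Λ : Set ℂ} {r : ℝ} (hr : 0 < r) (hΛ0 : ∀ μ ∈ Λ, μ ≠ 0) {ν : ℂ} (hν : ν ∈ Λ)
    (hνr : ‖ν‖ ≠ r) {u v : ℕ → ℂ} (h : ∀ n, u (n + 1) = ν * u n + v n) (hv : Ep Λ r v) :
    Ep Λ r u := by
  obtain ⟨G, hG, C, hC⟩ := hv
  choose s hs using fun μ : ℂ => fun hμ : μ ≠ 0 => EpR_poly ν hμ (G μ)
  have hs' : ∀ μ : ℂ, ∃ t : Polynomial ℂ, μ ≠ 0 → ∀ x : ℂ,
      μ * t.eval (x + 1) = ν * t.eval x + (G μ).eval x := by
    intro μ
    by_cases hμ : μ = 0
    · exact ⟨0, fun h0 => absurd hμ h0⟩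
    · exact ⟨s μ hμ, fun _ => hs μ hμ⟩
  choose t ht using hs'
  have h1 : Ep Λ r (fun n => ∑ μ ∈ G.support, (t μ).eval (n : ℂ) * μ ^ n) :=
    ep_sum G.support (fun μ n => (t μ).eval (n : ℂ) * μ ^ n)
      fun μ hμ => EpR_term r (hG μ hμ) (t μ)
  have h2 : Ep Λ r (fun n => u n - ∑ μ ∈ G.support, (t μ).eval (n : ℂ) * μ ^ n) := by
    refine EpR_small hr hν hνr (e := fun n => v n - G.sum (fun μ p => p.eval (n : ℂ) * μ ^ n))
      (C := C) (fun n => ?_) hC
    have h3 : ∑ μ ∈ G.support, (t μ).eval ((n + 1 : ℕ) : ℂ) * μ ^ (n + 1) =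
        ν * ∑ μ ∈ G.support, (t μ).eval (n : ℂ) * μ ^ n +
          G.sum (fun μ p => p.eval (n : ℂ) * μ ^ n) := by
      rw [Finsupp.sum, Finset.mul_sum, ← Finset.sum_add_distrib]
      refine Finset.sum_congr rfl fun μ hμ => ?_
      have h4 := ht μ (hΛ0 μ (hG μ hμ)) (n : ℂ)
      push_cast
      rw [pow_succ]
      linear_combination μ ^ n * h4
    show u (n + 1) - ∑ μ ∈ G.support, (t μ).eval ((n + 1 : ℕ) : ℂ) * μ ^ (n + 1) = _
    rw [h3, h]
    ring
  refine ep_congr (fun n => ?_) (ep_add h2 h1)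
  ring

end MP_f4ff90_agE
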