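import Pool.Agent.Lib.MP_f4ff90_agE.Defs

/-!
LEAF FOr.  First order expansion of a rational map at a fixed point.
PROOF.  For a polynomial `P`: for all `ε > 0` there is `r > 0` with `‖eval (q + v) P - eval q P - ∑ j, eval q (pderiv j P) * v j‖ ≤ ε ‖v‖` for `‖v‖ < r`
(induction on `P`: `C`, `+`, `* X i`; or `HasFDerivAt` of polynomial functions).  Then the quotient: `N / D - N(q) / D(q) = (N D(q) - N(q) D) / (D D(q))`, with `D` near `D(q) ≠ 0` (continuity,
`MvPolynomial.continuous_eval`), and `eval q (N i) / eval q (D i) = q i`.  One may also use `HasFDerivAt.div` and `hasFDerivAt_iff_isLittleO_nhds_zero`.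
-/

set_option autoImplicit false

open Filter Topology MvPolynomial

namespace MP_f4ff90_agE

/-- The derivative of a polynomial as a continuous linear map. -/
private noncomputable def FOr_L {g : ℕ} (P : MvPolynomial (Fin g) ℂ) (q : Fin g → ℂ) :
    (Fin g → ℂ) →L[ℂ] ℂ :=
  ∑ j, (eval q (pderiv j P)) • (ContinuousLinearMap.proj j : (Fin g → ℂ) →L[ℂ] ℂ)

private theorem FOr_L_apply {g : ℕ} (P : MvPolynomial (Fin g) ℂ) (q v : Fin g → ℂ) :
    FOr_L P q v = ∑ j, eval q (pderiv j P) * v j := by
  unfold FOr_L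
  simp

private theorem FOr_poly {g : ℕ} (P : MvPolynomial (Fin g) ℂ) (q : Fin g → ℂ) :
    HasFDerivAt (fun z : Fin g → ℂ => eval z P) (FOr_L P q) q := by
  induction P using MvPolynomial.induction_on with
  | C a =>
    have h : FOr_L (C a) q = 0 := by
      ext v
      rw [FOr_L_apply]
      simp
    rw [h]
    simpa using hasFDerivAt_const a q
  | add p p' hp hp' =>
    have h : FOr_L (p + p') q = FOr_L p q + FOr_L p' q := by
      apply ContinuousLinearMap.ext
      intro v
      rw [add_apply, FOr_L_apply, FOr_L_apply, FOr_L_apply,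
        ← Finset.sum_add_distrib]
      refine Finset.sum_congr rfl fun j _ => ?_
      rw [map_add, map_add]
      ring
    rw [h]
    have h1 := hp.add hp'
    refine h1.congr_of_eventuallyEq (Eventually.of_forall fun z => ?_)
    simp
  | mul_X p i hp =>
    have h0 : HasFDerivAt (fun z : Fin g → ℂ => z i)
        (ContinuousLinearMap.proj i : (Fin g → ℂ) →L[ℂ] ℂ) q :=
      (ContinuousLinearMap.proj i : (Fin g → ℂ) →L[ℂ] ℂ).hasFDerivAt
    have h1 := hp.mul h0
    have h : FOr_L (p * X i) q = (eval q p) • (ContinuousLinearMap.proj i : (Fin g → ℂ) →L[ℂ] ℂ) +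
        (q i) • FOr_L p q := by
      apply ContinuousLinearMap.ext
      intro v
      rw [add_apply, smul_apply,
        smul_apply, FOr_L_apply, FOr_L_apply, smul_eq_mul, smul_eq_mul,
        ContinuousLinearMap.proj_apply, Finset.mul_sum]
      have h2 : ∀ j, eval q (pderiv j (p * X i)) * v j =
          (if i = j then eval q p * v j else 0) + q i * (eval q (pderiv j p) * v j) := by
        intro j
        rw [Derivation.leibniz, smul_eq_mul, smul_eq_mul, pderiv_X, map_add, map_mul, map_mul,
          eval_X]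
        by_cases hij : i = j
        · subst hij
          simp
          ring
        · have hji : Pi.single (M := fun _ => MvPolynomial (Fin g) ℂ) j 1 i = 0 :=
            Pi.single_eq_of_ne hij 1
          rw [if_neg hij, hji]
          simp
          ring
      rw [Finset.sum_congr rfl fun j _ => h2 j, Finset.sum_add_distrib]
      simp
    rw [h]
    refine h1.congr_of_eventuallyEq (Eventually.of_forall fun z => ?_)
    simp

theorem first_order {g : ℕ} (N D : Fin g → MvPolynomial (Fin g) ℂ) (q : Fin g → ℂ)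
    (hD : ∀ i, eval q (D i) ≠ 0) (hq : ∀ i, eval q (N i) / eval q (D i) = q i) {ε : ℝ}
    (hε : 0 < ε) :
    ∃ r > 0, ∀ v : Fin g → ℂ, ‖v‖ < r → (∀ i, eval (q + v) (D i) ≠ 0) ∧
      ∀ i, ‖eval (q + v) (N i) / eval (q + v) (D i) - q i - (Jac N D q).mulVec v i‖ ≤ ε * ‖v‖ := by
  have h1 : ∀ i, ∀ᶠ v in 𝓝 (0 : Fin g → ℂ),
      ‖eval (q + v) (N i) / eval (q + v) (D i) - q i - (Jac N D q).mulVec v i‖ ≤ ε * ‖v‖ := by
    intro i
    have hN := FOr_poly (N i) q
    have hDi := FOr_poly (D i) q
    have hinv : HasFDerivAt (fun z : Fin g → ℂ => (eval z (D i))⁻¹)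
        ((-(eval q (D i) ^ 2)⁻¹) • FOr_L (D i) q) q := by
      have h2 := (hasDerivAt_inv (hD i)).comp_hasFDerivAt q hDi
      exact h2
    have hquo := hN.mul hinv
    have hlo := (hasFDerivAt_iff_isLittleO_nhds_zero.1 hquo).def hε
    filter_upwards [hlo] with v hv
    refine le_trans (le_of_eq ?_) hv
    congr 1
    have h3 : (Jac N D q).mulVec v i = ((eval q (N i)) • ((-(eval q (D i) ^ 2)⁻¹) • FOr_L (D i) q) +
        ((eval q (D i))⁻¹) • FOr_L (N i) q) v := by
      rw [add_apply, smul_apply,
        smul_apply, smul_apply, FOr_L_apply, FOr_L_apply,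
        smul_eq_mul, smul_eq_mul, smul_eq_mul, Finset.mul_sum, Finset.mul_sum, Finset.mul_sum,
        ← Finset.sum_add_distrib]
      change ∑ j, Jac N D q i j * v j = _
      refine Finset.sum_congr rfl fun j _ => ?_
      have hJ : Jac N D q i j = (eval q (pderiv j (N i)) * eval q (D i) -
        eval q (N i) * eval q (pderiv j (D i))) / eval q (D i) ^ 2 := rfl
      rw [hJ]
      have hDi' := hD i
      field_simp
      ring
    rw [h3, ← hq i]
    simp only [div_eq_mul_inv, Pi.mul_apply]
  have h2 : ∀ i, ∀ᶠ v in 𝓝 (0 : Fin g → ℂ), eval (q + v) (D i) ≠ 0 := by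
    intro i
    have hc : Continuous fun v : Fin g → ℂ => eval (q + v) (D i) :=
      (MvPolynomial.continuous_eval (D i)).comp (continuous_const.add continuous_id)
    have h3 := hc.continuousAt (x := 0)
    apply h3.eventually_ne
    simpa using hD i
  have h3 := (eventually_all.2 h1).and (eventually_all.2 h2)
  obtain ⟨r, hr, hb⟩ := Metric.eventually_nhds_iff.1 h3
  refine ⟨r, hr, fun v hv => ?_⟩
  have h4 := hb (y := v) (by rwa [dist_zero_right])
  exact ⟨h4.2, h4.1⟩

end MP_f4ff90_agE
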