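import Pool.Agent.Lib.MP_f4ff90_agE.Stp

/-!
LEAF Hyp.  An orbit which converges to a hyperbolic fixed point converges exponentially fast.
PROOF.  `q` is a fixed point: let `n → ∞` in `z (n + 1) i = eval (z n) (N i) / eval (z n) (D i)` (`MvPolynomial.continuous_eval`, `Tendsto.div`, `tendsto_nhds_unique`).
Choose `0 < ρ₀ < 1 < μ` with `‖lam i‖ ≤ ρ₀` or `‖lam i‖ ≥ μ` for every `i`, and `ε > 0` with `ρ := ρ₀ + ε < 1`, `1 < μ - ε`; `S, S', t, r` of `step`, `w n = S (z n - q) → 0`; let `‖w n‖ < r` for `n ≥ n₀`.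
Let `U = {i | μ ≤ ‖t i‖}`, all other `i` have `‖t i‖ ≤ ρ₀`.
Claim: for `n ≥ n₀`, if `‖w n i‖ = ‖w n‖ ≠ 0` for some `i ∈ U`, then the same holds for `n + 1` and `‖w (n + 1)‖ ≥ ‖w n‖`: indeed `‖w (n + 1) i‖ ≥ (μ - ε) ‖w n‖ > ‖w n‖`, and for `j ∉ U`
`‖w (n + 1) j‖ ≤ (ρ₀ + ε) ‖w n‖ < ‖w n‖`, so the norm `‖w (n + 1)‖` (attained at some index) is attained in `U`.  Since `w n → 0` this never happens.  So for `n ≥ n₀`, for all `i ∈ U`, `‖w (n + 1) i‖ = ‖w (n + 1)‖` only if `w (n + 1) = 0`;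
hence `‖w (n + 1)‖` is attained at some `j ∉ U` (or is `0`) and `‖w (n + 1)‖ ≤ ρ ‖w n‖`.  So `‖w n‖ ≤ C ρ ^ n` and `‖z n i - q i‖ ≤ a' ‖w n‖`, `a' = ∑ i, ∑ j, ‖S' i j‖`.
-/

set_option autoImplicit false

open Filter Topology MvPolynomial

namespace MP_f4ff90_agE

private theorem Hyp_attain {g : ℕ} (v : Fin g → ℂ) (hv : v ≠ 0) : ∃ j, ‖v j‖ = ‖v‖ := by
  have hne : Nonempty (Fin g) := by
    by_contra h
    rw [not_nonempty_iff] at h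
    exact hv (Subsingleton.elim _ _)
  obtain ⟨j, hj⟩ := Finite.exists_max fun k => ‖v k‖
  exact ⟨j, le_antisymm (norm_le_pi_norm v j) ((pi_norm_le_iff_of_nonneg (norm_nonneg _)).2 hj)⟩

private theorem Hyp_sep {g : ℕ} (lam : Fin g → ℂ) (h1 : ∀ i, ‖lam i‖ ≠ 1) :
    ∃ ρ₀ μ : ℝ, 0 < ρ₀ ∧ ρ₀ < 1 ∧ 1 < μ ∧ ∀ i, ‖lam i‖ ≤ ρ₀ ∨ μ ≤ ‖lam i‖ := by
  have h2 : ∀ᶠ ρ : ℝ in 𝓝[<] (1 : ℝ), ∀ i, ‖lam i‖ < 1 → ‖lam i‖ ≤ ρ := by
    rw [eventually_all]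
    intro i
    by_cases h : ‖lam i‖ < 1
    · filter_upwards [Ioo_mem_nhdsLT h] with ρ hρ _
      exact hρ.1.le
    · exact Eventually.of_forall fun ρ h' => absurd h' h
  have h3 : ∀ᶠ μ : ℝ in 𝓝[>] (1 : ℝ), ∀ i, 1 < ‖lam i‖ → μ ≤ ‖lam i‖ := by
    rw [eventually_all]
    intro i
    by_cases h : 1 < ‖lam i‖
    · filter_upwards [Ioo_mem_nhdsGT h] with μ hμ _
      exact hμ.2.le
    · exact Eventually.of_forall fun μ h' => absurd h' h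
  obtain ⟨ρ₀, h4, h5, h6⟩ := (h2.and (Ioo_mem_nhdsLT (zero_lt_one (α := ℝ)))).exists
  obtain ⟨μ, h7, h8, h9⟩ := (h3.and (Ioo_mem_nhdsGT (one_lt_two (α := ℝ)))).exists
  refine ⟨ρ₀, μ, h5, h6, h8, fun i => ?_⟩
  rcases lt_or_gt_of_ne (h1 i) with h | h
  · exact Or.inl (h4 i h)
  · exact Or.inr (h7 i h)

theorem hyperb {g : ℕ} {N D : Fin g → MvPolynomial (Fin g) ℂ} {q : Fin g → ℂ} {z : ℕ → Fin g → ℂ}
    (hz : Orb N D z) (ht : ∀ i, Tendsto (fun n => z n i) atTop (𝓝 (q i)))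
    (hD : ∀ i, eval q (D i) ≠ 0) (lam : Fin g → ℂ)
    (hJ : (Jac N D q).charpoly = ∏ i, (Polynomial.X - Polynomial.C (lam i)))
    (h1 : ∀ i, ‖lam i‖ ≠ 1) :
    ∃ ρ C : ℝ, 0 < ρ ∧ ρ < 1 ∧ ∀ n i, ‖z n i - q i‖ ≤ C * ρ ^ n := by
  have hzq : Tendsto z atTop (𝓝 q) := tendsto_pi_nhds.2 ht
  have hq : ∀ i, eval q (N i) / eval q (D i) = q i := by
    intro i
    have e1 : Tendsto (fun n => eval (z n) (N i) / eval (z n) (D i)) atTop
        (𝓝 (eval q (N i) / eval q (D i))) :=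
      (((MvPolynomial.continuous_eval (N i)).tendsto q).comp hzq).div
        (((MvPolynomial.continuous_eval (D i)).tendsto q).comp hzq) (hD i)
    have e2 : Tendsto (fun n => z (n + 1) i) atTop (𝓝 (q i)) :=
      (ht i).comp (tendsto_add_atTop_nat 1)
    have e3 : (fun n => z (n + 1) i) = fun n => eval (z n) (N i) / eval (z n) (D i) :=
      funext fun n => (hz n i).2
    rw [e3] at e2
    exact tendsto_nhds_unique e1 e2
  obtain ⟨ρ₀, μ, hρ0, hρ1, hμ, hlam⟩ := Hyp_sep lam h1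
  obtain ⟨ε, hε, hερ, hεμ⟩ : ∃ ε : ℝ, 0 < ε ∧ ρ₀ + ε < 1 ∧ 1 < μ - ε := by
    refine ⟨min ((1 - ρ₀) / 2) ((μ - 1) / 2), ?_, ?_, ?_⟩
    · apply lt_min
      · linarith
      · linarith
    · have := min_le_left ((1 - ρ₀) / 2) ((μ - 1) / 2)
      linarith
    · have := min_le_right ((1 - ρ₀) / 2) ((μ - 1) / 2)
      linarith
  obtain ⟨S, S', t, r, -, hS', hr, htl, hst⟩ := step N D q hD hq lam hJ hε
  have hte : ∀ i, ‖t i‖ ≤ ρ₀ ∨ μ ≤ ‖t i‖ := by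
    intro i
    obtain ⟨j, hj⟩ := htl i
    rw [hj]
    exact hlam j
  obtain ⟨w, hw⟩ : ∃ w : ℕ → Fin g → ℂ, ∀ n, w n = S.mulVec (z n - q) := ⟨_, fun _ => rfl⟩
  have hw0 : Tendsto w atTop (𝓝 0) := by
    have e1 : Continuous (fun v : Fin g → ℂ => S.mulVec v) :=
      LinearMap.continuous_of_finiteDimensional (Matrix.mulVecLin S)
    have e2 : Tendsto (fun n => z n - q) atTop (𝓝 (0 : Fin g → ℂ)) := by
      have := hzq.sub_const q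
      rwa [sub_self] at this
    have e3 := (e1.tendsto 0).comp e2
    have e4 : (fun v : Fin g → ℂ => S.mulVec v) ∘ (fun n => z n - q) = w :=
      funext fun n => (hw n).symm
    rw [e4, Matrix.mulVec_zero] at e3
    exact e3
  have hwn : Tendsto (fun n => ‖w n‖) atTop (𝓝 0) := by
    have := hw0.norm
    rwa [norm_zero] at this
  obtain ⟨n₀, hn₀⟩ := eventually_atTop.1 (hwn.eventually (gt_mem_nhds hr))
  have hone : ∀ n, n₀ ≤ n → ∀ i, ‖w (n + 1) i - t i * w n i‖ ≤ ε * ‖w n‖ := by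
    intro n hn i
    have e1 := (hst (z n) (by rw [← hw n]; exact hn₀ n hn)).2 i
    have e2 : (fun l => eval (z n) (N l) / eval (z n) (D l) - q l) = z (n + 1) - q := by
      funext l
      rw [Pi.sub_apply, (hz n l).2]
    rw [e2, ← hw, ← hw] at e1
    exact e1
  have hsmall : ∀ n, n₀ ≤ n → ∀ i, ‖t i‖ ≤ ρ₀ → ‖w (n + 1) i‖ ≤ (ρ₀ + ε) * ‖w n‖ := by
    intro n hn i hi
    have e1 := hone n hn i
    have e2 : ‖w (n + 1) i‖ ≤ ‖w (n + 1) i - t i * w n i‖ + ‖t i * w n i‖ := by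
      have := norm_add_le (w (n + 1) i - t i * w n i) (t i * w n i)
      rwa [sub_add_cancel] at this
    rw [norm_mul] at e2
    have e3 : ‖t i‖ * ‖w n i‖ ≤ ρ₀ * ‖w n‖ :=
      mul_le_mul hi (norm_le_pi_norm _ _) (norm_nonneg _) hρ0.le
    linarith
  have hlarge : ∀ n, n₀ ≤ n → ∀ i, μ ≤ ‖t i‖ → ‖w n i‖ = ‖w n‖ → (μ - ε) * ‖w n‖ ≤ ‖w (n + 1) i‖ := by
    intro n hn i hi hni
    have e1 := hone n hn i
    have e2 : ‖t i * w n i‖ ≤ ‖w (n + 1) i‖ + ‖w (n + 1) i - t i * w n i‖ := by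
      have := norm_sub_le (w (n + 1) i) (w (n + 1) i - t i * w n i)
      rwa [sub_sub_cancel] at this
    rw [norm_mul, hni] at e2
    have e3 : μ * ‖w n‖ ≤ ‖t i‖ * ‖w n‖ := mul_le_mul_of_nonneg_right hi (norm_nonneg _)
    linarith
  -- the norm is never attained in an expanding direction
  have hstep1 : ∀ n, n₀ ≤ n → 0 < ‖w n‖ → (∃ i, μ ≤ ‖t i‖ ∧ ‖w n i‖ = ‖w n‖) →
      ‖w n‖ ≤ ‖w (n + 1)‖ ∧ ∃ i, μ ≤ ‖t i‖ ∧ ‖w (n + 1) i‖ = ‖w (n + 1)‖ := by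
    rintro n hn hpos ⟨i, hi, hni⟩
    have e1 := hlarge n hn i hi hni
    have e2 : ‖w n‖ < ‖w (n + 1) i‖ := by nlinarith
    have e3 : ‖w n‖ < ‖w (n + 1)‖ := e2.trans_le (norm_le_pi_norm _ _)
    refine ⟨e3.le, ?_⟩
    have e4 : w (n + 1) ≠ 0 := by
      intro h
      rw [h, norm_zero] at e3
      linarith
    obtain ⟨j, hj⟩ := Hyp_attain _ e4
    refine ⟨j, ?_, hj⟩
    rcases hte j with h | h
    · exfalso
      have e5 := hsmall n hn j h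
      rw [hj] at e5
      nlinarith
    · exact h
  have hnever : ∀ n, n₀ ≤ n → 0 < ‖w n‖ → ∀ i, μ ≤ ‖t i‖ → ‖w n i‖ ≠ ‖w n‖ := by
    intro n hn hpos i hi hni
    have e1 : ∀ k, ‖w n‖ ≤ ‖w (n + k)‖ ∧ ∃ i, μ ≤ ‖t i‖ ∧ ‖w (n + k) i‖ = ‖w (n + k)‖ := by
      intro k
      induction k with
      | zero => exact ⟨le_rfl, i, hi, hni⟩
      | succ k ih =>
        obtain ⟨e2, e3⟩ := hstep1 (n + k) (by omega) (hpos.trans_le ih.1) ih.2
        exact ⟨ih.1.trans e2, e3⟩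
    have e2 : Tendsto (fun k => ‖w (n + k)‖) atTop (𝓝 0) := by
      have e3 := hwn.comp (tendsto_add_atTop_nat n)
      refine e3.congr fun k => ?_
      rw [Function.comp_apply, add_comm k n]
    have e3 : ‖w n‖ ≤ 0 := ge_of_tendsto' e2 fun k => (e1 k).1
    linarith
  have hdec : ∀ n, n₀ ≤ n → ‖w (n + 1)‖ ≤ (ρ₀ + ε) * ‖w n‖ := by
    intro n hn
    by_cases h0 : w (n + 1) = 0
    · rw [h0, norm_zero]
      exact mul_nonneg (by linarith) (norm_nonneg _)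
    · obtain ⟨j, hj⟩ := Hyp_attain _ h0
      rcases hte j with h | h
      · rw [← hj]
        exact hsmall n hn j h
      · exact absurd hj (hnever (n + 1) (by omega) (norm_pos_iff.2 h0) j h)
  have hρpos : 0 < ρ₀ + ε := by linarith
  have hpow : ∀ k, ‖w (n₀ + k)‖ ≤ (ρ₀ + ε) ^ k * ‖w n₀‖ := by
    intro k
    induction k with
    | zero => simp
    | succ k ih =>
      calc ‖w (n₀ + k + 1)‖ ≤ (ρ₀ + ε) * ‖w (n₀ + k)‖ := hdec _ (by omega)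
        _ ≤ (ρ₀ + ε) * ((ρ₀ + ε) ^ k * ‖w n₀‖) := mul_le_mul_of_nonneg_left ih hρpos.le
        _ = _ := by ring
  -- back to `z`
  obtain ⟨a, ha0, ha⟩ : ∃ a : ℝ, 0 ≤ a ∧ ∀ v : Fin g → ℂ, ‖S'.mulVec v‖ ≤ a * ‖v‖ :=
    ⟨‖LinearMap.toContinuousLinearMap (Matrix.mulVecLin S')‖, norm_nonneg _,
      fun v => (LinearMap.toContinuousLinearMap (Matrix.mulVecLin S')).le_opNorm v⟩
  have hzw : ∀ n, z n - q = S'.mulVec (w n) := by
    intro n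
    rw [hw, Matrix.mulVec_mulVec, hS', Matrix.one_mulVec]
  refine ⟨ρ₀ + ε, a * ‖w n₀‖ / (ρ₀ + ε) ^ n₀ + ∑ n ∈ Finset.range n₀, ‖z n - q‖ / (ρ₀ + ε) ^ n,
    hρpos, hερ, fun n i => ?_⟩
  have e0 : ‖z n i - q i‖ ≤ ‖z n - q‖ := norm_le_pi_norm (z n - q) i
  refine e0.trans ?_
  have hA : 0 ≤ a * ‖w n₀‖ / (ρ₀ + ε) ^ n₀ := by positivity
  have hB : 0 ≤ ∑ n ∈ Finset.range n₀, ‖z n - q‖ / (ρ₀ + ε) ^ n :=
    Finset.sum_nonneg fun n _ => by positivity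
  rcases Nat.lt_or_ge n n₀ with h | h
  · have e1 : ‖z n - q‖ / (ρ₀ + ε) ^ n ≤ ∑ n ∈ Finset.range n₀, ‖z n - q‖ / (ρ₀ + ε) ^ n :=
      Finset.single_le_sum (f := fun n => ‖z n - q‖ / (ρ₀ + ε) ^ n) (fun n _ => by positivity)
        (Finset.mem_range.2 h)
    rw [div_le_iff₀ (by positivity)] at e1
    refine e1.trans (mul_le_mul_of_nonneg_right ?_ (by positivity))
    linarith
  · obtain ⟨k, rfl⟩ := Nat.exists_eq_add_of_le h
    have e1 : ‖z (n₀ + k) - q‖ ≤ a * ((ρ₀ + ε) ^ k * ‖w n₀‖) := by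
      rw [hzw]
      exact (ha _).trans (mul_le_mul_of_nonneg_left (hpow k) ha0)
    have e2 : a * ((ρ₀ + ε) ^ k * ‖w n₀‖) = a * ‖w n₀‖ / (ρ₀ + ε) ^ n₀ * (ρ₀ + ε) ^ (n₀ + k) := by
      rw [pow_add]
      field_simp
    rw [e2] at e1
    refine e1.trans (mul_le_mul_of_nonneg_right ?_ (by positivity))
    linarith

end MP_f4ff90_agE
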