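import Pool.Agent.Lib.MP_f4ff90_agE.Main
import Pool.Agent.Lib.MP_f4ff90_agE.Bas
import Pool.Agent.Lib.MP_f4ff90_agE.Hyp

/-!
# Orbits converging to an etale fixed point: final form
-/

set_option autoImplicit false

open Filter Topology MvPolynomial

namespace MP_f4ff90_agE

open Pool.Agent.Lib.MP_f4ff90_ag

/-- real eigenvalues do not rotate -/
theorem norot_real {g : ℕ} (lam : Fin g → ℂ) (h : ∀ i, (lam i).im = 0) (δ : Fin g → ℤ)
    (h1 : ‖∏ i, lam i ^ δ i‖ = 1) : ∃ k : ℕ, 0 < k ∧ (∏ i, lam i ^ δ i) ^ k = 1 := by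
  have h2 : ∀ i, lam i = (((lam i).re : ℝ) : ℂ) := by
    intro i
    apply Complex.ext
    · simp
    · simp [h i]
  have h3 : ∏ i, lam i ^ δ i = ((∏ i, (lam i).re ^ δ i : ℝ) : ℂ) := by
    rw [Complex.ofReal_prod]
    refine Finset.prod_congr rfl fun i _ => ?_
    rw [Complex.ofReal_zpow, ← h2]
  refine ⟨2, two_pos, ?_⟩
  rw [h3] at h1 ⊢
  rw [Complex.norm_real, Real.norm_eq_abs] at h1
  rw [← Complex.ofReal_pow, ← sq_abs, h1, one_pow, Complex.ofReal_one]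

/-- the three conclusions -/
def Concl {g : ℕ} {K : Type*} [Field K] (L : Type*) [Field L] [Algebra K L] (m : ℕ)
    (x : ℕ → Fin g → K) : Prop :=
  DML L m x ∧ (IrredClosure L x → GenericInClosure L x) ∧ (ZDense L x → ZGeneric L x)

theorem concl_of {g : ℕ} {K : Type*} [Field K] [CharZero K] (L : Type*) [Field L] [Algebra K L]
    {m : ℕ} (hm : 0 < m) {num den : Fin g → MvPolynomial (Fin g) K} {x : ℕ → Fin g → K}
    (hx : IsOrbit num den x) (h : HypPeriodic m x) : Concl L m x := by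
  have : CharZero L := charZero_of_injective_algebraMap (algebraMap K L).injective
  have : Infinite L := inferInstance
  exact ⟨h.dml, fun hi => h.generic hx hm hi, fun hd => ZDense.generic hx hm h hd⟩

theorem eval_tau {g : ℕ} {K : Type*} [Field K] (τ : K →+* ℂ) (v : Fin g → K)
    (Q : MvPolynomial (Fin g) K) : eval (fun i => τ (v i)) (map τ Q) = τ (eval v Q) := by
  rw [eval_map]
  exact (eval₂_comp (f := τ) (g := v) (p := Q)).symm

theorem main_all {g : ℕ} {K : Type*} [Field K] (L : Type*) [Field L] [Algebra K L] (τ : K →+* ℂ)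
    (num den : Fin g → MvPolynomial (Fin g) K) (q : Fin g → ℂ)
    (hD : ∀ i, eval q (map τ (den i)) ≠ 0)
    (hq : ∀ i, eval q (map τ (num i)) / eval q (map τ (den i)) = q i) (lam : Fin g → ℂ)
    (h0 : ∀ i, lam i ≠ 0)
    (hJ : (Jac (fun i => map τ (num i)) (fun i => map τ (den i)) q).charpoly =
      ∏ i, (Polynomial.X - Polynomial.C (lam i)))
    (H : ∀ δ : Fin g → ℤ, ‖∏ i, lam i ^ δ i‖ = 1 → ∃ k : ℕ, 0 < k ∧ (∏ i, lam i ^ δ i) ^ k = 1) :
    ∃ m > 0,
      (∀ x : ℕ → Fin g → K, IsOrbit num den x →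
        (∃ ρ C : ℝ, 0 < ρ ∧ ρ < 1 ∧ ∀ n i, ‖τ (x n i) - q i‖ ≤ C * ρ ^ n) → Concl L m x) ∧
      ((∀ i, ‖lam i‖ ≠ 1) → ∀ x : ℕ → Fin g → K, IsOrbit num den x →
        (∀ i, Tendsto (fun n => τ (x n i)) atTop (𝓝 (q i))) → Concl L m x) ∧
      ((∀ i, ‖lam i‖ < 1) → ∃ r > (0 : ℝ), ∀ x : ℕ → Fin g → K, (∀ i, ‖τ (x 0 i) - q i‖ < r) →
        (∀ n i, x (n + 1) i = eval (x n) (num i) / eval (x n) (den i)) →
          IsOrbit num den x ∧ (∀ i, Tendsto (fun n => τ (x n i)) atTop (𝓝 (q i))) ∧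
            Concl L m x) := by
  have hK : CharZero K := τ.charZero
  obtain ⟨m, hm, Hm⟩ := no_rot lam h0 H
  have key : ∀ x : ℕ → Fin g → K, IsOrbit num den x →
        (∃ ρ C : ℝ, 0 < ρ ∧ ρ < 1 ∧ ∀ n i, ‖τ (x n i) - q i‖ ≤ C * ρ ^ n) → Concl L m x := by
    rintro x hx ⟨ρ, C, hρ0, hρ1, hc⟩
    exact concl_of L hm hx (hyp_main_of τ num den x hx q hρ0 hρ1 hc hD lam h0 hJ hm Hm)
  refine ⟨m, hm, key, fun h1 x hx ht => key x hx ?_, fun h1 => ?_⟩
  · refine hyperb (N := fun i => map τ (num i)) (D := fun i => map τ (den i))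
      (z := fun n i => τ (x n i)) ?_ ht hD lam hJ h1
    intro n i
    rw [eval_tau, eval_tau]
    refine ⟨(map_ne_zero τ).2 (hx n i).1, ?_⟩
    show τ (x (n + 1) i) = _
    rw [(hx n i).2, map_div₀]
  · obtain ⟨r, hr, ρ, C, hρ0, hρ1, hb⟩ := basin (fun i => map τ (num i)) (fun i => map τ (den i)) q
      hD hq lam hJ h1
    refine ⟨r, hr, fun x h2 h3 => ?_⟩
    obtain ⟨h4, h5⟩ := hb (fun n i => τ (x n i)) h2 (fun n i => by
      rw [eval_tau, eval_tau]
      show τ (x (n + 1) i) = _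
      rw [h3, map_div₀])
    have hx : IsOrbit num den x := by
      intro n i
      refine ⟨fun h6 => h4 n i ?_, h3 n i⟩
      rw [eval_tau, h6, map_zero]
    refine ⟨hx, fun i => ?_, key x hx ⟨ρ, C, hρ0, hρ1, h5⟩⟩
    rw [tendsto_iff_norm_sub_tendsto_zero]
    refine squeeze_zero (fun n => norm_nonneg _) (fun n => h5 n i) ?_
    have h6 := (tendsto_pow_atTop_nhds_zero_of_lt_one hρ0.le hρ1).const_mul C
    rwa [mul_zero] at h6

end MP_f4ff90_agE
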