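import Pool.Agent.Lib.MP_f4ff90_agE.DefX

/-!
LEAF FrmX.  Adapted coordinates of an invariant subspace.
PROOF.  `d = finrank V`, `b` a basis of `V`, `S'` = the matrix with the columns `b i`, `S` = matrix of a linear extension `(Fin g → ℂ) → (Fin d → ℂ)` of the coordinate map of `V` (`LinearMap.exists_extend`, `LinearMap.toMatrix'`), so `S' (S v) = v` on `V`;
`T` = matrix of the restriction of `J` to `V` in the basis `b` (`LinearMap.toMatrix b b (restrict ..)`).  `T.charpoly` splits over `ℂ`: it is `∏ (X - mu i)` for a family `mu : Fin d → ℂ` (`IsAlgClosed.splits`, degree `d`; cf. how `Tri.lean` uses it, or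
`Matrix.charpoly` of `T` and `Multiset.toList` of the roots).  Each `mu i` is a root of the charpoly, so there is `u ≠ 0` with `T u = mu i u` (`Matrix.mem_spectrum..`/`Module.End.hasEigenvalue_iff_isRoot_charpoly`), and `v = ∑ u i b i ∈ V`, `v ≠ 0`, `J v = mu i v`, so `mu i = lam j`.
-/

set_option autoImplicit false

open Filter Topology MvPolynomial

namespace MP_f4ff90_agE

private theorem FrmX_roots {d : ℕ} (p : Polynomial ℂ) (hm : p.Monic) (hd : p.natDegree = d) :
    ∃ mu : Fin d → ℂ, p = ∏ i, (Polynomial.X - Polynomial.C (mu i)) := by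
  have h1 := (IsAlgClosed.splits p).eq_prod_roots_of_monic hm
  have h2 := (IsAlgClosed.splits p).natDegree_eq_card_roots
  have h3 : p.roots.toList.length = d := by rw [Multiset.length_toList, ← h2, hd]
  subst h3
  refine ⟨fun i => p.roots.toList[i.1], ?_⟩
  rw [Fin.prod_univ_fun_getElem p.roots.toList (fun a => Polynomial.X - Polynomial.C a)]
  have h4 : (p.roots.map fun a => Polynomial.X - Polynomial.C a).prod =
      (p.roots.toList.map fun a => Polynomial.X - Polynomial.C a).prod := by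
    conv_lhs => rw [← Multiset.coe_toList p.roots]
    rw [Multiset.map_coe, Multiset.prod_coe]
  rw [← h4]
  exact h1

theorem exists_frame {g l : ℕ} (J : Matrix (Fin g) (Fin g) ℂ) (V : Submodule ℂ (Fin g → ℂ))
    (hV : ∀ v ∈ V, J.mulVec v ∈ V) (lam : Fin l → ℂ)
    (hlam : ∀ (μ : ℂ) (v : Fin g → ℂ), v ∈ V → v ≠ 0 → J.mulVec v = μ • v → ∃ i, μ = lam i) :
    ∃ (d : ℕ) (S : Matrix (Fin d) (Fin g) ℂ) (S' : Matrix (Fin g) (Fin d) ℂ)
      (T : Matrix (Fin d) (Fin d) ℂ) (mu : Fin d → ℂ), Frame J V S S' T ∧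
      T.charpoly = ∏ i, (Polynomial.X - Polynomial.C (mu i)) ∧ ∀ i, ∃ j, mu i = lam j := by
  obtain ⟨E, hE⟩ := ((Module.finBasis ℂ V).equivFun : V →ₗ[ℂ] (Fin (Module.finrank ℂ V) → ℂ)).exists_extend
  have hE' : ∀ (v : Fin g → ℂ) (hv : v ∈ V), E v = (Module.finBasis ℂ V).equivFun ⟨v, hv⟩ := by
    intro v hv
    have := LinearMap.congr_fun hE ⟨v, hv⟩
    exact this
  have hJ : ∀ v ∈ V, Matrix.mulVecLin J v ∈ V := fun v hv => by
    rw [Matrix.mulVecLin_apply]
    exact hV v hv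
  set Jr : V →ₗ[ℂ] V := (Matrix.mulVecLin J).restrict hJ with hJr
  have hJr' : ∀ (v : Fin g → ℂ) (hv : v ∈ V), Jr ⟨v, hv⟩ = ⟨J.mulVec v, hV v hv⟩ := fun v hv => rfl
  obtain ⟨mu, hmu⟩ := FrmX_roots (d := Module.finrank ℂ V)
    (LinearMap.toMatrix (Module.finBasis ℂ V) (Module.finBasis ℂ V) Jr).charpoly (Matrix.charpoly_monic _)
    (by rw [Matrix.charpoly_natDegree_eq_dim, Fintype.card_fin])
  refine ⟨Module.finrank ℂ V, LinearMap.toMatrix' E, Matrix.of fun i j => ((Module.finBasis ℂ V) j : Fin g → ℂ) i,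
    LinearMap.toMatrix (Module.finBasis ℂ V) (Module.finBasis ℂ V) Jr, mu, ⟨?_, ?_⟩, hmu, ?_⟩
  · intro v hv
    rw [LinearMap.toMatrix'_mulVec, hE' v hv]
    have h1 := (Module.finBasis ℂ V).sum_equivFun ⟨v, hv⟩
    have h2 := congrArg (fun w : V => (w : Fin g → ℂ)) h1
    simp only [Submodule.coe_sum, Submodule.coe_smul] at h2
    refine Eq.trans ?_ h2
    ext i
    rw [Matrix.mulVec, dotProduct, Finset.sum_apply]
    refine Finset.sum_congr rfl fun j _ => ?_
    rw [Matrix.of_apply, Pi.smul_apply, smul_eq_mul, mul_comm]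
  · intro v hv
    rw [LinearMap.toMatrix'_mulVec, LinearMap.toMatrix'_mulVec, hE' v hv, hE' _ (hV v hv)]
    have h1 := LinearMap.toMatrix_mulVec_repr (Module.finBasis ℂ V) (Module.finBasis ℂ V) Jr ⟨v, hv⟩
    rw [hJr' v hv] at h1
    exact h1.symm
  · intro i
    have h1 : (LinearMap.charpoly Jr).IsRoot (mu i) := by
      rw [← LinearMap.charpoly_toMatrix Jr (Module.finBasis ℂ V), hmu, Polynomial.IsRoot.def, Polynomial.eval_prod]
      exact Finset.prod_eq_zero (Finset.mem_univ i) (by simp)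
    obtain ⟨v, hv⟩ := (Module.End.hasEigenvalue_iff_isRoot_charpoly Jr (mu i)).2 h1 |>.exists_hasEigenvector
    have h2 := hv.apply_eq_smul
    refine hlam (mu i) (v : Fin g → ℂ) v.2 (fun h => hv.2 (Subtype.ext h)) ?_
    have h3 := congrArg (fun w : V => (w : Fin g → ℂ)) h2
    exact h3

end MP_f4ff90_agE
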