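import Pool.Agent.Lib.MP_f4ff90_agE.Tri

/-!
LEAF TrE.  Triangular form with small entries off the diagonal.
PROOF.  Take `S, S', T` of `triang`.  For `s ≥ 1` let `E = diagonal (s ^ i)`, `E' = diagonal (s⁻¹ ^ i)`: then `(E * S) * J = (E * T * E') * (E * S)`, and `E * T * E'` has the entries
`s ^ i * T i j * s⁻¹ ^ j`: this is `0` for `j < i`, `T i i` for `j = i`, and of norm `≤ s⁻¹ ‖T i j‖` for `i < j`.  Take `s = 1 + (∑ i, ∑ j, ‖T i j‖) / ε`.
Then `‖(E T E') v i - T i i v i‖ ≤ ∑_{j > i} s⁻¹ ‖T i j‖ ‖v j‖ ≤ ε ‖v‖`.  `‖v‖` is the sup norm of `Fin g → ℂ` (`norm_le_pi_norm`).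
-/

set_option autoImplicit false

open Filter Topology MvPolynomial

namespace MP_f4ff90_agE

theorem triE {g : ℕ} (J : Matrix (Fin g) (Fin g) ℂ) (lam : Fin g → ℂ)
    (hJ : J.charpoly = ∏ i, (Polynomial.X - Polynomial.C (lam i))) {ε : ℝ} (hε : 0 < ε) :
    ∃ S S' T : Matrix (Fin g) (Fin g) ℂ, S * S' = 1 ∧ S' * S = 1 ∧ S * J = T * S ∧
      (∀ i, ∃ j, T i i = lam j) ∧
      ∀ (v : Fin g → ℂ) (i : Fin g), ‖T.mulVec v i - T i i * v i‖ ≤ ε * ‖v‖ := by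
  classical
  obtain ⟨S0, S0', T0, h1, h2, h3, h4, h5⟩ := triang J lam hJ
  set A : ℝ := ∑ i, ∑ j, ‖T0 i j‖ with hA
  have hA0 : 0 ≤ A := Finset.sum_nonneg fun i _ => Finset.sum_nonneg fun j _ => norm_nonneg _
  set s : ℝ := 1 + A / ε with hs
  have hs1 : 1 ≤ s := by
    have : 0 ≤ A / ε := div_nonneg hA0 hε.le
    linarith
  have hs0 : 0 < s := lt_of_lt_of_le one_pos hs1
  have hsA : A ≤ ε * s := by
    rw [hs, mul_add, mul_one, mul_div_cancel₀ A hε.ne']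
    linarith
  have hsc : (s : ℂ) ≠ 0 := by exact_mod_cast hs0.ne'
  let E : Matrix (Fin g) (Fin g) ℂ := Matrix.diagonal fun i => (s : ℂ) ^ (i : ℕ)
  let E' : Matrix (Fin g) (Fin g) ℂ := Matrix.diagonal fun i => ((s : ℂ)⁻¹) ^ (i : ℕ)
  have hcancel : ∀ i : ℕ, (s : ℂ) ^ i * ((s : ℂ)⁻¹) ^ i = 1 := by
    intro i
    rw [← mul_pow, mul_inv_cancel₀ hsc, one_pow]
  have hEE' : E * E' = 1 := by
    show Matrix.diagonal _ * Matrix.diagonal _ = 1
    rw [Matrix.diagonal_mul_diagonal, ← Matrix.diagonal_one]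
    congr 1
    funext i
    exact hcancel i
  have hE'E : E' * E = 1 := by
    show Matrix.diagonal _ * Matrix.diagonal _ = 1
    rw [Matrix.diagonal_mul_diagonal, ← Matrix.diagonal_one]
    congr 1
    funext i
    rw [mul_comm]
    exact hcancel i
  have hT : ∀ i j, (E * T0 * E') i j = (s : ℂ) ^ (i : ℕ) * T0 i j * ((s : ℂ)⁻¹) ^ (j : ℕ) := by
    intro i j
    have e1 : (E * T0 * E') i j = (E * T0) i j * ((s : ℂ)⁻¹) ^ (j : ℕ) :=
      Matrix.mul_diagonal (fun i : Fin g => ((s : ℂ)⁻¹) ^ (i : ℕ)) (E * T0) i j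
    have e2 : (E * T0) i j = (s : ℂ) ^ (i : ℕ) * T0 i j :=
      Matrix.diagonal_mul (fun i : Fin g => (s : ℂ) ^ (i : ℕ)) T0 i j
    rw [e1, e2]
  have hTii : ∀ i, (E * T0 * E') i i = T0 i i := by
    intro i
    rw [hT, mul_comm ((s : ℂ) ^ (i : ℕ)) (T0 i i), mul_assoc, hcancel, mul_one]
  refine ⟨E * S0, S0' * E', E * T0 * E', ?_, ?_, ?_, ?_, ?_⟩
  · rw [Matrix.mul_assoc, ← Matrix.mul_assoc S0, h1, Matrix.one_mul, hEE']
  · rw [Matrix.mul_assoc, ← Matrix.mul_assoc E', hE'E, Matrix.one_mul, h2]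
  · rw [Matrix.mul_assoc, h3, Matrix.mul_assoc (E * T0) E' (E * S0), ← Matrix.mul_assoc E' E S0,
      hE'E, Matrix.one_mul, Matrix.mul_assoc]
  · intro i
    obtain ⟨j, hj⟩ := h5 i
    exact ⟨j, by rw [hTii, hj]⟩
  · intro v i
    have hb : ∀ j, j ≠ i → ‖(E * T0 * E') i j‖ ≤ s⁻¹ * ‖T0 i j‖ := by
      intro j hji
      rw [hT]
      rcases lt_or_gt_of_ne hji with h | h
      · rw [h4 i j h, mul_zero, zero_mul, norm_zero, mul_zero]
      · have h6 : (i : ℕ) < (j : ℕ) := h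
        obtain ⟨k, hk⟩ : ∃ k, (j : ℕ) = (i : ℕ) + 1 + k := ⟨(j : ℕ) - ((i : ℕ) + 1), by omega⟩
        have h7 : (s : ℂ) ^ (i : ℕ) * T0 i j * ((s : ℂ)⁻¹) ^ (j : ℕ) =
            ((s : ℂ)⁻¹) ^ k * ((s : ℂ)⁻¹ * T0 i j) := by
          rw [hk, pow_add, pow_add, pow_one]
          have := hcancel (i : ℕ)
          calc (s : ℂ) ^ (i : ℕ) * T0 i j * (((s : ℂ)⁻¹) ^ (i : ℕ) * (s : ℂ)⁻¹ * ((s : ℂ)⁻¹) ^ k)
              = ((s : ℂ) ^ (i : ℕ) * ((s : ℂ)⁻¹) ^ (i : ℕ)) *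
                (((s : ℂ)⁻¹) ^ k * ((s : ℂ)⁻¹ * T0 i j)) := by ring
            _ = _ := by rw [this, one_mul]
        rw [h7, norm_mul, norm_mul, norm_pow, norm_inv, Complex.norm_real, Real.norm_eq_abs,
          abs_of_pos hs0]
        have h8 : (s⁻¹) ^ k ≤ 1 := pow_le_one₀ (inv_nonneg.2 hs0.le) (inv_le_one_of_one_le₀ hs1)
        have h9 : 0 ≤ s⁻¹ * ‖T0 i j‖ := mul_nonneg (inv_nonneg.2 hs0.le) (norm_nonneg _)
        calc (s⁻¹) ^ k * (s⁻¹ * ‖T0 i j‖) ≤ 1 * (s⁻¹ * ‖T0 i j‖) :=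
              mul_le_mul_of_nonneg_right h8 h9
          _ = s⁻¹ * ‖T0 i j‖ := one_mul _
    have h10 : (E * T0 * E').mulVec v i - (E * T0 * E') i i * v i =
        ∑ j ∈ Finset.univ.erase i, (E * T0 * E') i j * v j := by
      rw [sub_eq_iff_eq_add]
      exact (Finset.sum_erase_add Finset.univ (fun j => (E * T0 * E') i j * v j)
        (Finset.mem_univ i)).symm
    rw [h10]
    calc ‖∑ j ∈ Finset.univ.erase i, (E * T0 * E') i j * v j‖
        ≤ ∑ j ∈ Finset.univ.erase i, ‖(E * T0 * E') i j * v j‖ := norm_sum_le _ _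
      _ ≤ ∑ j ∈ Finset.univ.erase i, s⁻¹ * ‖T0 i j‖ * ‖v‖ := by
          refine Finset.sum_le_sum fun j hj => ?_
          rw [norm_mul]
          exact mul_le_mul (hb j (Finset.ne_of_mem_erase hj)) (norm_le_pi_norm v j) (norm_nonneg _)
            (mul_nonneg (inv_nonneg.2 hs0.le) (norm_nonneg _))
      _ ≤ ∑ j, s⁻¹ * ‖T0 i j‖ * ‖v‖ := by
          refine Finset.sum_le_sum_of_subset_of_nonneg (Finset.erase_subset _ _) fun j _ _ => ?_
          exact mul_nonneg (mul_nonneg (inv_nonneg.2 hs0.le) (norm_nonneg _)) (norm_nonneg _)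
      _ = s⁻¹ * (∑ j, ‖T0 i j‖) * ‖v‖ := by
          rw [← Finset.sum_mul, ← Finset.mul_sum]
      _ ≤ s⁻¹ * A * ‖v‖ := by
          refine mul_le_mul_of_nonneg_right (mul_le_mul_of_nonneg_left ?_ (inv_nonneg.2 hs0.le))
            (norm_nonneg _)
          exact Finset.single_le_sum (f := fun i => ∑ j, ‖T0 i j‖)
            (fun i _ => Finset.sum_nonneg fun j _ => norm_nonneg _) (Finset.mem_univ i)
      _ ≤ ε * ‖v‖ := by
          refine mul_le_mul_of_nonneg_right ?_ (norm_nonneg _)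
          rw [inv_mul_le_iff₀ hs0, mul_comm s ε]
          exact hsA

end MP_f4ff90_agE
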