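import Pool.Agent.Lib.MP_f4ff90_agE.FrmX
import Pool.Agent.Lib.MP_f4ff90_agE.TrE

/-!
# Triangular adapted coordinates
-/

set_option autoImplicit false

open Filter Topology MvPolynomial

namespace MP_f4ff90_agE

theorem Frame.conj {g d : ℕ} {J : Matrix (Fin g) (Fin g) ℂ} {V : Submodule ℂ (Fin g → ℂ)}
    {S : Matrix (Fin d) (Fin g) ℂ} {S' : Matrix (Fin g) (Fin d) ℂ} {T T₂ U U' : Matrix (Fin d) (Fin d) ℂ}
    (h : Frame J V S S' T) (hU : U' * U = 1) (hT : U * T = T₂ * U) :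
    Frame J V (U * S) (S' * U') T₂ := by
  refine ⟨fun v hv => ?_, fun v hv => ?_⟩
  · rw [← Matrix.mulVec_mulVec, ← Matrix.mulVec_mulVec, Matrix.mulVec_mulVec _ U' U, hU,
      Matrix.one_mulVec]
    exact h.left v hv
  · rw [← Matrix.mulVec_mulVec, h.equi v hv, Matrix.mulVec_mulVec, hT, ← Matrix.mulVec_mulVec,
      Matrix.mulVec_mulVec _ U S]

theorem frame_tri {g l : ℕ} (J : Matrix (Fin g) (Fin g) ℂ) (V : Submodule ℂ (Fin g → ℂ))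
    (hV : ∀ v ∈ V, J.mulVec v ∈ V) (lam : Fin l → ℂ)
    (hlam : ∀ (μ : ℂ) (v : Fin g → ℂ), v ∈ V → v ≠ 0 → J.mulVec v = μ • v → ∃ i, μ = lam i) :
    ∃ (d : ℕ) (S : Matrix (Fin d) (Fin g) ℂ) (S' : Matrix (Fin g) (Fin d) ℂ)
      (T : Matrix (Fin d) (Fin d) ℂ), Frame J V S S' T ∧ (∀ i j, j < i → T i j = 0) ∧
      ∀ i, ∃ j, T i i = lam j := by
  obtain ⟨d, S, S', T, mu, hF, hc, hmu⟩ := exists_frame J V hV lam hlam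
  obtain ⟨U, U', T₂, h1, h2, h3, h4, h5⟩ := triang T mu hc
  refine ⟨d, U * S, S' * U', T₂, hF.conj h2 h3, h4, fun i => ?_⟩
  obtain ⟨j, hj⟩ := h5 i
  obtain ⟨k, hk⟩ := hmu j
  exact ⟨k, hj.trans hk⟩

theorem frame_eps {g l : ℕ} (J : Matrix (Fin g) (Fin g) ℂ) (V : Submodule ℂ (Fin g → ℂ))
    (hV : ∀ v ∈ V, J.mulVec v ∈ V) (lam : Fin l → ℂ)
    (hlam : ∀ (μ : ℂ) (v : Fin g → ℂ), v ∈ V → v ≠ 0 → J.mulVec v = μ • v → ∃ i, μ = lam i)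
    {ε : ℝ} (hε : 0 < ε) :
    ∃ (d : ℕ) (S : Matrix (Fin d) (Fin g) ℂ) (S' : Matrix (Fin g) (Fin d) ℂ)
      (T : Matrix (Fin d) (Fin d) ℂ), Frame J V S S' T ∧ (∀ i, ∃ j, T i i = lam j) ∧
      ∀ (v : Fin d → ℂ) (i : Fin d), ‖T.mulVec v i - T i i * v i‖ ≤ ε * ‖v‖ := by
  obtain ⟨d, S, S', T, mu, hF, hc, hmu⟩ := exists_frame J V hV lam hlam
  obtain ⟨U, U', T₂, h1, h2, h3, h4, h5⟩ := triE T mu hc hε
  refine ⟨d, U * S, S' * U', T₂, hF.conj h2 h3, fun i => ?_, h5⟩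
  obtain ⟨j, hj⟩ := h4 i
  obtain ⟨k, hk⟩ := hmu j
  exact ⟨k, hj.trans hk⟩

end MP_f4ff90_agE
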