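import Pool.Agent.Lib.MP_f4ff90_agE.StpX

/-!
LEAF HypX.  An orbit on `X` which converges to a hyperbolic fixed point converges exponentially fast.
PROOF.  (Model: `Hyp.lean`.)  `q` is a fixed point on `X` (limit).  `0 < ρ₀ < 1 < μ` with `‖lam i‖ ≤ ρ₀` or `μ ≤ ‖lam i‖` for every `i`, `ε` with `ρ = ρ₀ + ε < 1 < μ - ε`; `S, t, r, B` of `stepX`; `w n = S (z n - q) → 0`, `‖z n - q‖ < r` for `n ≥ n₀`.  As in `Hyp.lean`:
`‖w (n + 1)‖ ≤ ρ ‖w n‖` for `n ≥ n₀`, and `‖z n - q‖ ≤ B ‖w n‖`.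
-/

set_option autoImplicit false

open Filter Topology MvPolynomial

namespace MP_f4ff90_agE

private theorem HypX_attain {g : ℕ} (v : Fin g → ℂ) (hv : v ≠ 0) : ∃ j, ‖v j‖ = ‖v‖ := by
  have hne : Nonempty (Fin g) := by
    by_contra h
    rw [not_nonempty_iff] at h
    exact hv (Subsingleton.elim _ _)
  obtain ⟨j, hj⟩ := Finite.exists_max fun k => ‖v k‖
  exact ⟨j, le_antisymm (norm_le_pi_norm v j) ((pi_norm_le_iff_of_nonneg (norm_nonneg _)).2 hj)⟩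

private theorem HypX_sep {g : ℕ} (lam : Fin g → ℂ) (h1 : ∀ i, ‖lam i‖ ≠ 1) :
    ∃ ρ₀ μ : ℝ, 0 < ρ₀ ∧ ρ₀ < 1 ∧ 1 < μ ∧ ∀ i, ‖lam i‖ ≤ ρ₀ ∨ μ ≤ ‖lam i‖ := by
  have h2 : ∀ᶠ ρ : ℝ in 𝓝[<] (1 : ℝ), ∀ i, ‖lam i‖ < 1 → ‖lam i‖ ≤ ρ := by
    rw [eventually_all]
    intro i
    by_cases h : ‖lam i‖ < 1
    · filter_upwards [Ioo_mem_nhdsLT h] with ρ hρ _
      exact hρ.1.le
    · exact Eventually.of_forall fun ρ h' => absurd h' h
  have h3 : ∀ᶠ μ : ℝ in 𝓝[>] (1 : ℝ), ∀ i, 1 < ‖lam i‖ → μ ≤ ‖lam i‖ := by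
    rw [eventually_all]
    intro i
    by_cases h : 1 < ‖lam i‖
    · filter_upwards [Ioo_mem_nhdsGT h] with μ hμ _
      exact hμ.2.le
    · exact Eventually.of_forall fun μ h' => absurd h' h
  obtain ⟨ρ₀, h4, h5, h6⟩ := (h2.and (Ioo_mem_nhdsLT (zero_lt_one (α := ℝ)))).exists
  obtain ⟨μ, h7, h8, h9⟩ := (h3.and (Ioo_mem_nhdsGT (one_lt_two (α := ℝ)))).exists
  refine ⟨ρ₀, μ, h5, h6, h8, fun i => ?_⟩
  rcases lt_or_gt_of_ne (h1 i) with h | h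
  · exact Or.inl (h4 i h)
  · exact Or.inr (h7 i h)

theorem hyperbX {g l : ℕ} {N D : Fin g → MvPolynomial (Fin g) ℂ} {q : Fin g → ℂ}
    {z : ℕ → Fin g → ℂ} (hz : Orb N D z)
    (ht : ∀ i, Tendsto (fun n => z n i) atTop (𝓝 (q i))) (hD : ∀ i, eval q (D i) ≠ 0)
    {E : Set (MvPolynomial (Fin g) ℂ)} (hzE : ∀ n, ∀ P ∈ E, eval (z n) P = 0)
    (hV : ∀ v ∈ TanE E q, (Jac N D q).mulVec v ∈ TanE E q) (lam : Fin l → ℂ)
    (hlam : ∀ (μ : ℂ) (v : Fin g → ℂ), v ∈ TanE E q → v ≠ 0 → (Jac N D q).mulVec v = μ • v →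
      ∃ i, μ = lam i) (h1 : ∀ i, ‖lam i‖ ≠ 1) :
    ∃ ρ C : ℝ, 0 < ρ ∧ ρ < 1 ∧ ∀ n i, ‖z n i - q i‖ ≤ C * ρ ^ n := by
  have hzq : Tendsto z atTop (𝓝 q) := tendsto_pi_nhds.2 ht
  have hq : ∀ i, eval q (N i) / eval q (D i) = q i := by
    intro i
    have e1 : Tendsto (fun n => eval (z n) (N i) / eval (z n) (D i)) atTop
        (𝓝 (eval q (N i) / eval q (D i))) :=
      (((MvPolynomial.continuous_eval (N i)).tendsto q).comp hzq).div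
        (((MvPolynomial.continuous_eval (D i)).tendsto q).comp hzq) (hD i)
    have e2 : Tendsto (fun n => z (n + 1) i) atTop (𝓝 (q i)) :=
      (ht i).comp (tendsto_add_atTop_nat 1)
    have e3 : (fun n => z (n + 1) i) = fun n => eval (z n) (N i) / eval (z n) (D i) :=
      funext fun n => (hz n i).2
    rw [e3] at e2
    exact tendsto_nhds_unique e1 e2
  have hEq : ∀ P ∈ E, eval q P = 0 := by
    intro P hP
    have e1 : Tendsto (fun n => eval (z n) P) atTop (𝓝 (eval q P)) :=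
      ((MvPolynomial.continuous_eval P).tendsto q).comp hzq
    have e3 : ∀ n, (0 : ℂ) = eval (z n) P := by
      intro n
      rw [hzE n P hP]
    have e2 : Tendsto (fun n => eval (z n) P) atTop (𝓝 (0 : ℂ)) :=
      (tendsto_const_nhds (x := (0 : ℂ)) (f := (atTop : Filter ℕ))).congr e3
    exact tendsto_nhds_unique e1 e2
  obtain ⟨ρ₀, μ, hρ0, hρ1, hμ, hsep⟩ := HypX_sep lam h1
  obtain ⟨ε, hε, hερ, hεμ⟩ : ∃ ε : ℝ, 0 < ε ∧ ρ₀ + ε < 1 ∧ 1 < μ - ε := by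
    refine ⟨min ((1 - ρ₀) / 2) ((μ - 1) / 2), ?_, ?_, ?_⟩
    · apply lt_min
      · linarith
      · linarith
    · have := min_le_left ((1 - ρ₀) / 2) ((μ - 1) / 2)
      linarith
    · have := min_le_right ((1 - ρ₀) / 2) ((μ - 1) / 2)
      linarith
  obtain ⟨d, S, t, r, B, hr, hB0, htl, hst⟩ := stepX N D q hD hq E hEq hV lam hlam hε
  have hte : ∀ i, ‖t i‖ ≤ ρ₀ ∨ μ ≤ ‖t i‖ := by
    intro i
    obtain ⟨j, hj⟩ := htl i
    rw [hj]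
    exact hsep j
  obtain ⟨w, hw⟩ : ∃ w : ℕ → Fin d → ℂ, ∀ n, w n = S.mulVec (z n - q) := ⟨_, fun _ => rfl⟩
  have hw0 : Tendsto w atTop (𝓝 0) := by
    have e1 : Continuous (fun v : Fin g → ℂ => S.mulVec v) :=
      LinearMap.continuous_of_finiteDimensional (Matrix.mulVecLin S)
    have e2 : Tendsto (fun n => z n - q) atTop (𝓝 (0 : Fin g → ℂ)) := by
      have := hzq.sub_const q
      rwa [sub_self] at this
    have e3 := (e1.tendsto 0).comp e2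
    have e4 : (fun v : Fin g → ℂ => S.mulVec v) ∘ (fun n => z n - q) = w :=
      funext fun n => (hw n).symm
    rw [e4, Matrix.mulVec_zero] at e3
    exact e3
  have hwn : Tendsto (fun n => ‖w n‖) atTop (𝓝 0) := by
    have := hw0.norm
    rwa [norm_zero] at this
  have hzn : Tendsto (fun n => ‖z n - q‖) atTop (𝓝 0) := tendsto_iff_norm_sub_tendsto_zero.1 hzq
  obtain ⟨n₀, hn₀⟩ := eventually_atTop.1 (hzn.eventually (gt_mem_nhds hr))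
  have hone : ∀ n, n₀ ≤ n → ∀ i, ‖w (n + 1) i - t i * w n i‖ ≤ ε * ‖w n‖ := by
    intro n hn i
    have e1 := (hst (z n) (hzE n) (hn₀ n hn)).2.2.2 i
    have e2 : (fun l => eval (z n) (N l) / eval (z n) (D l) - q l) = z (n + 1) - q := by
      funext l
      rw [Pi.sub_apply, (hz n l).2]
    rw [e2, ← hw, ← hw] at e1
    exact e1
  have hsmall : ∀ n, n₀ ≤ n → ∀ i, ‖t i‖ ≤ ρ₀ → ‖w (n + 1) i‖ ≤ (ρ₀ + ε) * ‖w n‖ := by
    intro n hn i hi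
    have e1 := hone n hn i
    have e2 : ‖w (n + 1) i‖ ≤ ‖w (n + 1) i - t i * w n i‖ + ‖t i * w n i‖ := by
      have := norm_add_le (w (n + 1) i - t i * w n i) (t i * w n i)
      rwa [sub_add_cancel] at this
    rw [norm_mul] at e2
    have e3 : ‖t i‖ * ‖w n i‖ ≤ ρ₀ * ‖w n‖ :=
      mul_le_mul hi (norm_le_pi_norm _ _) (norm_nonneg _) hρ0.le
    linarith
  have hlarge : ∀ n, n₀ ≤ n → ∀ i, μ ≤ ‖t i‖ → ‖w n i‖ = ‖w n‖ → (μ - ε) * ‖w n‖ ≤ ‖w (n + 1) i‖ := by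
    intro n hn i hi hni
    have e1 := hone n hn i
    have e2 : ‖t i * w n i‖ ≤ ‖w (n + 1) i‖ + ‖w (n + 1) i - t i * w n i‖ := by
      have := norm_sub_le (w (n + 1) i) (w (n + 1) i - t i * w n i)
      rwa [sub_sub_cancel] at this
    rw [norm_mul, hni] at e2
    have e3 : μ * ‖w n‖ ≤ ‖t i‖ * ‖w n‖ := mul_le_mul_of_nonneg_right hi (norm_nonneg _)
    linarith
  -- the norm is never attained in an expanding direction
  have hstep1 : ∀ n, n₀ ≤ n → 0 < ‖w n‖ → (∃ i, μ ≤ ‖t i‖ ∧ ‖w n i‖ = ‖w n‖) →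
      ‖w n‖ ≤ ‖w (n + 1)‖ ∧ ∃ i, μ ≤ ‖t i‖ ∧ ‖w (n + 1) i‖ = ‖w (n + 1)‖ := by
    rintro n hn hpos ⟨i, hi, hni⟩
    have e1 := hlarge n hn i hi hni
    have e2 : ‖w n‖ < ‖w (n + 1) i‖ := by nlinarith
    have e3 : ‖w n‖ < ‖w (n + 1)‖ := e2.trans_le (norm_le_pi_norm _ _)
    refine ⟨e3.le, ?_⟩
    have e4 : w (n + 1) ≠ 0 := by
      intro h
      rw [h, norm_zero] at e3
      linarith
    obtain ⟨j, hj⟩ := HypX_attain _ e4
    refine ⟨j, ?_, hj⟩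
    rcases hte j with h | h
    · exfalso
      have e5 := hsmall n hn j h
      rw [hj] at e5
      nlinarith
    · exact h
  have hnever : ∀ n, n₀ ≤ n → 0 < ‖w n‖ → ∀ i, μ ≤ ‖t i‖ → ‖w n i‖ ≠ ‖w n‖ := by
    intro n hn hpos i hi hni
    have e1 : ∀ k, ‖w n‖ ≤ ‖w (n + k)‖ ∧ ∃ i, μ ≤ ‖t i‖ ∧ ‖w (n + k) i‖ = ‖w (n + k)‖ := by
      intro k
      induction k with
      | zero => exact ⟨le_rfl, i, hi, hni⟩
      | succ k ih =>
        obtain ⟨e2, e3⟩ := hstep1 (n + k) (by omega) (hpos.trans_le ih.1) ih.2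
        exact ⟨ih.1.trans e2, e3⟩
    have e2 : Tendsto (fun k => ‖w (n + k)‖) atTop (𝓝 0) := by
      have e3 := hwn.comp (tendsto_add_atTop_nat n)
      refine e3.congr fun k => ?_
      rw [Function.comp_apply, add_comm k n]
    have e3 : ‖w n‖ ≤ 0 := ge_of_tendsto' e2 fun k => (e1 k).1
    linarith
  have hdec : ∀ n, n₀ ≤ n → ‖w (n + 1)‖ ≤ (ρ₀ + ε) * ‖w n‖ := by
    intro n hn
    by_cases h0 : w (n + 1) = 0
    · rw [h0, norm_zero]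
      exact mul_nonneg (by linarith) (norm_nonneg _)
    · obtain ⟨j, hj⟩ := HypX_attain _ h0
      rcases hte j with h | h
      · rw [← hj]
        exact hsmall n hn j h
      · exact absurd hj (hnever (n + 1) (by omega) (norm_pos_iff.2 h0) j h)
  have hρpos : 0 < ρ₀ + ε := by linarith
  have hpow : ∀ k, ‖w (n₀ + k)‖ ≤ (ρ₀ + ε) ^ k * ‖w n₀‖ := by
    intro k
    induction k with
    | zero => simp
    | succ k ih =>
      calc ‖w (n₀ + k + 1)‖ ≤ (ρ₀ + ε) * ‖w (n₀ + k)‖ := hdec _ (by omega)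
        _ ≤ (ρ₀ + ε) * ((ρ₀ + ε) ^ k * ‖w n₀‖) := mul_le_mul_of_nonneg_left ih hρpos.le
        _ = _ := by ring
  -- back to `z`
  have hzw : ∀ n, n₀ ≤ n → ‖z n - q‖ ≤ B * ‖w n‖ := by
    intro n hn
    rw [hw n]
    exact (hst (z n) (hzE n) (hn₀ n hn)).2.1
  refine ⟨ρ₀ + ε, B * ‖w n₀‖ / (ρ₀ + ε) ^ n₀ + ∑ n ∈ Finset.range n₀, ‖z n - q‖ / (ρ₀ + ε) ^ n,
    hρpos, hερ, fun n i => ?_⟩
  have e0 : ‖z n i - q i‖ ≤ ‖z n - q‖ := norm_le_pi_norm (z n - q) i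
  refine e0.trans ?_
  have hA : 0 ≤ B * ‖w n₀‖ / (ρ₀ + ε) ^ n₀ := by positivity
  have hB : 0 ≤ ∑ n ∈ Finset.range n₀, ‖z n - q‖ / (ρ₀ + ε) ^ n :=
    Finset.sum_nonneg fun n _ => by positivity
  rcases Nat.lt_or_ge n n₀ with h | h
  · have e1 : ‖z n - q‖ / (ρ₀ + ε) ^ n ≤ ∑ n ∈ Finset.range n₀, ‖z n - q‖ / (ρ₀ + ε) ^ n :=
      Finset.single_le_sum (f := fun n => ‖z n - q‖ / (ρ₀ + ε) ^ n) (fun n _ => by positivity)
        (Finset.mem_range.2 h)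
    rw [div_le_iff₀ (by positivity)] at e1
    refine e1.trans (mul_le_mul_of_nonneg_right ?_ (by positivity))
    linarith
  · obtain ⟨k, rfl⟩ := Nat.exists_eq_add_of_le h
    have e1 : ‖z (n₀ + k) - q‖ ≤ B * ((ρ₀ + ε) ^ k * ‖w n₀‖) :=
      (hzw _ (by omega)).trans (mul_le_mul_of_nonneg_left (hpow k) hB0.le)
    have e2 : B * ((ρ₀ + ε) ^ k * ‖w n₀‖) = B * ‖w n₀‖ / (ρ₀ + ε) ^ n₀ * (ρ₀ + ε) ^ (n₀ + k) := by
      rw [pow_add]
      field_simp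
    rw [e2] at e1
    refine e1.trans (mul_le_mul_of_nonneg_right ?_ (by positivity))
    linarith

end MP_f4ff90_agE
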