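import Mathlib
import Pool.Agent.Lib.MP_f4ff90_agE.Defs

/-!
LEAF Jet.  Polynomial approximation of the map in the coordinates `y = S (z - q)`.
PROOF.  First `N_i(q) = q_i D_i(q)`: let `n → ∞` in `z (n+1) i * D_i(z n) = N_i(z n)` (`0 < ρ < 1`; polynomials are continuous).  With `z = q + S' y`: `A_i(y) = (N_i - q_i D_i)(q + S' y)`, `B_i(y) = D_i(q + S' y)` are
polynomials (`aeval`/`bind₁` of `C (q i) + ∑ C (S' i j) X j`), `A_i(0) = 0`, `b = B_i(0) = D_i(q) ≠ 0`.  `h_i = A_i b⁻¹ ∑_(k ≤ M) (1 - B_i/b)^k`.  `A_i/B_i - h_i = A_i b⁻¹ w^(M+1) / (1 - w)`, `w = 1 - B_i/b`, `w(0) = 0`, so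
`|w(y)| ≤ C |y|`, `|A_i(y)| ≤ C |y|` for bounded `y`, and `|1 - w(y n)| = |B_i(y n)/b|` is bounded below by a positive constant for ALL `n` (it tends to 1 and never vanishes), so the error is `≤ C ρ^(M n)`.
`f_i = ∑_l S i l h_l`.  Constant coefficient 0; linear coefficients of `h_l` are those of `A_l / b`: `∑_k (∂_k N_l - q_l ∂_k D_l)(q) / D_l(q) * S' k j = (Jac * S') l j` (use `N_l(q) = q_l D_l(q)`), so the ones of `f_i` are
`(S * Jac * S') i j = T i j`.  (Coefficient of `X_j` = `constantCoeff (pderiv j ..)` may help: `MvPolynomial.coeff_single_one..` or `pderiv` at 0, with the product rule.)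
-/

set_option autoImplicit false

open Filter Topology MvPolynomial

namespace MP_f4ff90_agE

private theorem Jet_lip {g : ℕ} {q : Fin g → ℂ} {z : ℕ → Fin g → ℂ} {ρ C : ℝ} (hρ0 : 0 < ρ)
    (hρ1 : ρ < 1) (hc : ∀ n i, ‖z n i - q i‖ ≤ C * ρ ^ n) (P : MvPolynomial (Fin g) ℂ) :
    ∃ K : ℝ, 0 ≤ K ∧ ∀ n, ‖eval (z n) P - eval q P‖ ≤ K * ρ ^ n := by
  have hρn : ∀ n, 0 ≤ ρ ^ n := fun n => pow_nonneg hρ0.le n
  have hρn1 : ∀ n, ρ ^ n ≤ 1 := fun n => pow_le_one₀ hρ0.le hρ1.le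
  have hC' : ∀ n i, ‖z n i - q i‖ ≤ |C| * ρ ^ n := fun n i =>
    (hc n i).trans (mul_le_mul_of_nonneg_right (le_abs_self C) (hρn n))
  induction P using MvPolynomial.induction_on with
  | C a => exact ⟨0, le_rfl, fun n => by simp⟩
  | add P Q hP hQ =>
    obtain ⟨K, hK, h1⟩ := hP
    obtain ⟨K', hK', h2⟩ := hQ
    refine ⟨K + K', add_nonneg hK hK', fun n => ?_⟩
    rw [map_add, map_add, add_sub_add_comm, add_mul]
    exact (norm_add_le _ _).trans (add_le_add (h1 n) (h2 n))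
  | mul_X P i hP =>
    obtain ⟨K, hK, h1⟩ := hP
    refine ⟨K * (|C| + ‖q i‖) + ‖eval q P‖ * |C|, by positivity, fun n => ?_⟩
    have hz : ‖z n i‖ ≤ |C| + ‖q i‖ := by
      calc ‖z n i‖ = ‖(z n i - q i) + q i‖ := by rw [sub_add_cancel]
        _ ≤ ‖z n i - q i‖ + ‖q i‖ := norm_add_le _ _
        _ ≤ |C| * ρ ^ n + ‖q i‖ := add_le_add (hC' n i) le_rfl
        _ ≤ |C| + ‖q i‖ := add_le_add (mul_le_of_le_one_right (abs_nonneg C) (hρn1 n)) le_rfl
    have e : eval (z n) (P * X i) - eval q (P * X i) =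
        (eval (z n) P - eval q P) * z n i + eval q P * (z n i - q i) := by
      rw [map_mul, map_mul, eval_X, eval_X]
      ring
    rw [e]
    calc ‖(eval (z n) P - eval q P) * z n i + eval q P * (z n i - q i)‖
        ≤ ‖(eval (z n) P - eval q P) * z n i‖ + ‖eval q P * (z n i - q i)‖ := norm_add_le _ _
      _ = ‖eval (z n) P - eval q P‖ * ‖z n i‖ + ‖eval q P‖ * ‖z n i - q i‖ := by
          rw [norm_mul, norm_mul]
      _ ≤ (K * ρ ^ n) * (|C| + ‖q i‖) + ‖eval q P‖ * (|C| * ρ ^ n) :=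
          add_le_add (mul_le_mul (h1 n) hz (norm_nonneg _) (mul_nonneg hK (hρn n)))
            (mul_le_mul_of_nonneg_left (hC' n i) (norm_nonneg _))
      _ = _ := by ring

private theorem Jet_tendsto {g : ℕ} {q : Fin g → ℂ} {z : ℕ → Fin g → ℂ} {ρ C : ℝ} (hρ0 : 0 < ρ)
    (hρ1 : ρ < 1) (hc : ∀ n i, ‖z n i - q i‖ ≤ C * ρ ^ n) (P : MvPolynomial (Fin g) ℂ) :
    Tendsto (fun n => eval (z n) P) atTop (𝓝 (eval q P)) := by
  obtain ⟨K, hK, h⟩ := Jet_lip hρ0 hρ1 hc P
  rw [tendsto_iff_norm_sub_tendsto_zero]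
  refine squeeze_zero (fun n => norm_nonneg _) h ?_
  have h1 := (tendsto_pow_atTop_nhds_zero_of_lt_one hρ0.le hρ1).const_mul K
  rwa [mul_zero] at h1

/-- The substitution. -/
private noncomputable def Jet_L {g : ℕ} (q : Fin g → ℂ) (S' : Matrix (Fin g) (Fin g) ℂ) (i : Fin g) :
    MvPolynomial (Fin g) ℂ := C (q i) + ∑ j, C (S' i j) * X j

private theorem Jet_eval {g : ℕ} (q : Fin g → ℂ) (S' : Matrix (Fin g) (Fin g) ℂ) (y : Fin g → ℂ)
    (P : MvPolynomial (Fin g) ℂ) :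
    eval y (bind₁ (Jet_L q S') P) = eval (q + S'.mulVec y) P := by
  have h1 : eval y (bind₁ (Jet_L q S') P) = eval (fun i => eval y (Jet_L q S' i)) P := by
    rw [← MvPolynomial.coe_aeval_eq_eval, ← MvPolynomial.coe_aeval_eq_eval]
    exact MvPolynomial.aeval_bind₁ _ _ _
  rw [h1]
  congr 1
  refine congrArg (fun v => eval v) ?_
  funext i
  rw [Jet_L, map_add, eval_C, map_sum, Pi.add_apply, Matrix.mulVec, dotProduct]
  refine congrArg (fun v => q i + v) (Finset.sum_congr rfl fun j _ => ?_)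
  rw [map_mul, eval_C, eval_X]

private theorem Jet_coeff_mul {g : ℕ} (P Q : MvPolynomial (Fin g) ℂ) (j : Fin g) :
    (P * Q).coeff (Finsupp.single j 1) =
      P.coeff (Finsupp.single j 1) * Q.coeff 0 + P.coeff 0 * Q.coeff (Finsupp.single j 1) := by
  classical
  rw [MvPolynomial.coeff_mul, Finsupp.antidiagonal_single, Finset.sum_map,
    Finset.Nat.antidiagonal_succ, Finset.sum_cons, Finset.Nat.antidiagonal_zero,
    Finset.sum_map, Finset.sum_singleton]
  simp only [Function.Embedding.prodMap, Function.Embedding.coeFn_mk, Prod.map,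
    Function.Embedding.refl_apply, Finsupp.single_zero, Nat.succ_eq_add_one, zero_add]
  rw [add_comm]

private theorem Jet_coeff0 {g : ℕ} (P : MvPolynomial (Fin g) ℂ) : P.coeff 0 = eval 0 P := by
  rw [MvPolynomial.eval_zero, MvPolynomial.constantCoeff_eq]

private theorem Jet_bind0 {g : ℕ} (q : Fin g → ℂ) (S' : Matrix (Fin g) (Fin g) ℂ)
    (P : MvPolynomial (Fin g) ℂ) : (bind₁ (Jet_L q S') P).coeff 0 = eval q P := by
  rw [Jet_coeff0, Jet_eval, Matrix.mulVec_zero, add_zero]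

private theorem Jet_L1 {g : ℕ} (q : Fin g → ℂ) (S' : Matrix (Fin g) (Fin g) ℂ) (i j : Fin g) :
    (Jet_L q S' i).coeff (Finsupp.single j 1) = S' i j := by
  classical
  rw [Jet_L, coeff_add, coeff_sum, coeff_C, if_neg, zero_add, Finset.sum_eq_single j]
  · rw [coeff_C_mul, coeff_X, if_pos rfl, mul_one]
  · intro k _ hk
    rw [coeff_C_mul, coeff_X, if_neg, mul_zero]
    intro h
    exact hk (Finsupp.single_left_injective one_ne_zero h)
  · intro h
    exact absurd (Finset.mem_univ j) h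
  · intro h
    have h1 := congrArg (fun f : Fin g →₀ ℕ => f j) h
    simp at h1

private theorem Jet_bind1 {g : ℕ} (q : Fin g → ℂ) (S' : Matrix (Fin g) (Fin g) ℂ) (j : Fin g)
    (P : MvPolynomial (Fin g) ℂ) : (bind₁ (Jet_L q S') P).coeff (Finsupp.single j 1) =
      ∑ k, eval q (pderiv k P) * S' k j := by
  classical
  induction P using MvPolynomial.induction_on with
  | C a =>
    rw [bind₁_C_right, coeff_C, if_neg]
    · rw [Finset.sum_eq_zero]
      intro k _
      rw [pderiv_C, map_zero, zero_mul]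
    · intro h
      have h1 := congrArg (fun f : Fin g →₀ ℕ => f j) h
      simp at h1
  | add P Q hP hQ =>
    rw [map_add, coeff_add, hP, hQ, ← Finset.sum_add_distrib]
    refine Finset.sum_congr rfl fun k _ => ?_
    rw [map_add, map_add, add_mul]
  | mul_X P i hP =>
    have h1 : (Jet_L q S' i).coeff 0 = q i := by
      have h2 := Jet_bind0 q S' (X i)
      rwa [bind₁_X_right, eval_X] at h2
    rw [map_mul, bind₁_X_right, Jet_coeff_mul, hP, h1, Jet_bind0, Jet_L1, Finset.sum_mul]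
    have h3 : ∀ k, eval q (pderiv k (P * X i)) * S' k j =
        eval q (pderiv k P) * S' k j * q i + (if k = i then eval q P * S' i j else 0) := by
      intro k
      rw [pderiv_mul, map_add, map_mul, map_mul, eval_X]
      by_cases hk : k = i
      · subst hk
        rw [pderiv_X_self, map_one, if_pos rfl]
        ring
      · rw [pderiv_X_of_ne (Ne.symm hk), map_zero, if_neg hk]
        ring
    rw [Finset.sum_congr rfl fun k _ => h3 k, Finset.sum_add_distrib, Finset.sum_ite_eq',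
      if_pos (Finset.mem_univ i)]

/-- The geometric sum. -/
private theorem Jet_geom (a b B : ℂ) (hb : b ≠ 0) (hB : B ≠ 0) (M : ℕ) :
    a / B - a * b⁻¹ * ∑ k ∈ Finset.range (M + 1), (1 - b⁻¹ * B) ^ k =
      a * B⁻¹ * (1 - b⁻¹ * B) ^ (M + 1) := by
  have h1 := geom_sum_mul_neg (1 - b⁻¹ * B) (M + 1)
  rw [sub_sub_cancel] at h1
  have h2 : (b⁻¹ * B) * (B⁻¹ * b) = 1 := by field_simp
  have h3 : ∑ k ∈ Finset.range (M + 1), (1 - b⁻¹ * B) ^ k =
      (1 - (1 - b⁻¹ * B) ^ (M + 1)) * (B⁻¹ * b) := by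
    rw [← h1, mul_assoc, h2, mul_one]
  rw [h3]
  field_simp
  ring

theorem jets {g : ℕ} {N D : Fin g → MvPolynomial (Fin g) ℂ} {q : Fin g → ℂ} {z : ℕ → Fin g → ℂ}
    (hz : Orb N D z) {ρ C : ℝ} (hρ0 : 0 < ρ) (hρ1 : ρ < 1) (hc : ∀ n i, ‖z n i - q i‖ ≤ C * ρ ^ n)
    (hD : ∀ i, eval q (D i) ≠ 0) {S S' T : Matrix (Fin g) (Fin g) ℂ} (hS : S * S' = 1)
    (hS' : S' * S = 1) (hT : S * Jac N D q = T * S) (M : ℕ) :
    ∃ f : Fin g → MvPolynomial (Fin g) ℂ, (∀ i, (f i).coeff 0 = 0) ∧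
      (∀ i j, (f i).coeff (Finsupp.single j 1) = T i j) ∧
      ∃ C' : ℝ, ∀ n i, ‖S.mulVec (fun l => z (n + 1) l - q l) i -
        eval (S.mulVec (fun l => z n l - q l)) (f i)‖ ≤ C' * ρ ^ (M * n) := by
  classical
  have hρn : ∀ n, 0 ≤ ρ ^ n := fun n => pow_nonneg hρ0.le n
  have hρn1 : ∀ n, ρ ^ n ≤ 1 := fun n => pow_le_one₀ hρ0.le hρ1.le
  -- the value at the limit
  have hNq : ∀ l, eval q (N l) = q l * eval q (D l) := by
    intro l
    have h1 := Jet_tendsto hρ0 hρ1 hc (N l)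
    have h2 := Jet_tendsto hρ0 hρ1 hc (D l)
    have h3 := Jet_tendsto hρ0 hρ1 hc (X l)
    simp only [eval_X] at h3
    have h4 := ((tendsto_add_atTop_iff_nat 1).2 h3).mul h2
    refine tendsto_nhds_unique (h1.congr fun n => ?_) h4
    rw [(hz n l).2, div_mul_cancel₀ _ (hz n l).1]
  set y : ℕ → Fin g → ℂ := fun n => S.mulVec fun l => z n l - q l with hy
  have hzy : ∀ n, q + S'.mulVec (y n) = z n := by
    intro n
    rw [hy]
    show q + S'.mulVec (S.mulVec fun l => z n l - q l) = z n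
    rw [Matrix.mulVec_mulVec, hS', Matrix.one_mulVec]
    funext l
    exact add_sub_cancel (q l) (z n l)
  set A : Fin g → MvPolynomial (Fin g) ℂ := fun l =>
    bind₁ (Jet_L q S') (N l - MvPolynomial.C (q l) * D l) with hA
  set B : Fin g → MvPolynomial (Fin g) ℂ := fun l => bind₁ (Jet_L q S') (D l) with hB
  set b : Fin g → ℂ := fun l => eval q (D l) with hb
  have hb0 : ∀ l, b l ≠ 0 := hD
  have hAy : ∀ n l, eval (y n) (A l) = eval (z n) (N l) - q l * eval (z n) (D l) := by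
    intro n l
    rw [hA]
    show eval (y n) (bind₁ (Jet_L q S') (N l - MvPolynomial.C (q l) * D l)) = _
    rw [Jet_eval, hzy, map_sub, map_mul, eval_C]
  have hBy : ∀ n l, eval (y n) (B l) = eval (z n) (D l) := by
    intro n l
    rw [hB]
    show eval (y n) (bind₁ (Jet_L q S') (D l)) = _
    rw [Jet_eval, hzy]
  have hA0 : ∀ l, (A l).coeff 0 = 0 := by
    intro l
    rw [hA]
    show (bind₁ (Jet_L q S') (N l - MvPolynomial.C (q l) * D l)).coeff 0 = 0
    rw [Jet_bind0, map_sub, map_mul, eval_C, hNq, sub_self]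
  have hB0 : ∀ l, (B l).coeff 0 = b l := fun l => Jet_bind0 q S' (D l)
  set h : Fin g → MvPolynomial (Fin g) ℂ := fun l => A l * MvPolynomial.C (b l)⁻¹ *
    ∑ k ∈ Finset.range (M + 1), (1 - MvPolynomial.C (b l)⁻¹ * B l) ^ k with hh
  have hh0 : ∀ l, (h l).coeff 0 = 0 := by
    intro l
    rw [hh]
    show (A l * MvPolynomial.C (b l)⁻¹ *
      ∑ k ∈ Finset.range (M + 1), (1 - MvPolynomial.C (b l)⁻¹ * B l) ^ k).coeff 0 = 0
    rw [Jet_coeff0, map_mul, map_mul, ← Jet_coeff0 (A l), hA0, zero_mul, zero_mul]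
  have hh1 : ∀ l j, (h l).coeff (Finsupp.single j 1) = (Jac N D q * S') l j := by
    intro l j
    have e1 : (A l * MvPolynomial.C (b l)⁻¹).coeff 0 = 0 := by
      rw [Jet_coeff0, map_mul, ← Jet_coeff0, hA0, zero_mul]
    have e2 : (∑ k ∈ Finset.range (M + 1), (1 - MvPolynomial.C (b l)⁻¹ * B l) ^ k).coeff 0 = 1 := by
      rw [Jet_coeff0, map_sum, Finset.sum_range_succ', Finset.sum_eq_zero, pow_zero, map_one,
        zero_add]
      intro k _
      rw [map_pow, map_sub, map_one, map_mul, eval_C, ← Jet_coeff0, hB0, inv_mul_cancel₀ (hb0 l),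
        sub_self, pow_succ, mul_zero]
    rw [hh]
    show (A l * MvPolynomial.C (b l)⁻¹ * ∑ k ∈ Finset.range (M + 1),
      (1 - MvPolynomial.C (b l)⁻¹ * B l) ^ k).coeff (Finsupp.single j 1) = _
    rw [Jet_coeff_mul, e1, e2, zero_mul, add_zero, mul_one, mul_comm, coeff_C_mul, hA]
    show (b l)⁻¹ * (bind₁ (Jet_L q S') (N l - MvPolynomial.C (q l) * D l)).coeff
      (Finsupp.single j 1) = _
    rw [Jet_bind1, Matrix.mul_apply, Finset.mul_sum]
    refine Finset.sum_congr rfl fun k _ => ?_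
    rw [Jac, Matrix.of_apply, map_sub, pderiv_C_mul, map_sub, map_mul, eval_C, hNq]
    have h2 : eval q (D l) ≠ 0 := hD l
    show (eval q (D l))⁻¹ * _ = _
    field_simp
  refine ⟨fun i => ∑ l, MvPolynomial.C (S i l) * h l, fun i => ?_, fun i j => ?_, ?_⟩
  · show (∑ l, MvPolynomial.C (S i l) * h l).coeff 0 = 0
    rw [coeff_sum]
    exact Finset.sum_eq_zero fun l _ => by rw [coeff_C_mul, hh0, mul_zero]
  · show (∑ l, MvPolynomial.C (S i l) * h l).coeff (Finsupp.single j 1) = T i j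
    rw [coeff_sum]
    have h1 : ∑ l, (MvPolynomial.C (S i l) * h l).coeff (Finsupp.single j 1) =
        (S * (Jac N D q * S')) i j := by
      rw [Matrix.mul_apply]
      exact Finset.sum_congr rfl fun l _ => by rw [coeff_C_mul, hh1]
    rw [h1, ← Matrix.mul_assoc, hT, Matrix.mul_assoc, hS, Matrix.mul_one]
  · -- the estimate for one component
    have key : ∀ l, ∃ K : ℝ, 0 ≤ K ∧ ∀ n, ‖(z (n + 1) l - q l) - eval (y n) (h l)‖ ≤
        K * ρ ^ (M * n) := by
      intro l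
      obtain ⟨K1, hK1, h1⟩ := Jet_lip hρ0 hρ1 hc (N l - MvPolynomial.C (q l) * D l)
      obtain ⟨K2, hK2, h2⟩ := Jet_lip hρ0 hρ1 hc (D l)
      have h3 : Tendsto (fun n => ‖eval (z n) (D l)‖⁻¹) atTop (𝓝 ‖eval q (D l)‖⁻¹) :=
        (Jet_tendsto hρ0 hρ1 hc (D l)).norm.inv₀ (norm_ne_zero_iff.2 (hD l))
      obtain ⟨K3, hK3⟩ := h3.bddAbove_range
      have hK3' : ∀ n, ‖eval (z n) (D l)‖⁻¹ ≤ K3 := fun n => hK3 ⟨n, rfl⟩
      have hK30 : 0 ≤ K3 := (inv_nonneg.2 (norm_nonneg _)).trans (hK3' 0)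
      refine ⟨K1 * K3 * (‖b l‖⁻¹ * K2) ^ (M + 1), by positivity, fun n => ?_⟩
      have e1 : (z (n + 1) l - q l) = eval (y n) (A l) / eval (y n) (B l) := by
        rw [hAy, hBy, (hz n l).2, sub_div, mul_div_cancel_right₀ _ (hz n l).1]
      have e2 : eval (y n) (h l) = eval (y n) (A l) * (b l)⁻¹ *
          ∑ k ∈ Finset.range (M + 1), (1 - (b l)⁻¹ * eval (y n) (B l)) ^ k := by
        rw [hh]
        show eval (y n) (A l * MvPolynomial.C (b l)⁻¹ *
          ∑ k ∈ Finset.range (M + 1), (1 - MvPolynomial.C (b l)⁻¹ * B l) ^ k) = _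
        rw [map_mul, map_mul, eval_C, map_sum]
        refine congrArg (fun v => eval (y n) (A l) * (b l)⁻¹ * v)
          (Finset.sum_congr rfl fun k _ => ?_)
        rw [map_pow, map_sub, map_one, map_mul, eval_C]
      have hBn : eval (y n) (B l) ≠ 0 := by
        rw [hBy]
        exact (hz n l).1
      rw [e1, e2, Jet_geom _ _ _ (hb0 l) hBn, norm_mul, norm_mul, norm_pow, norm_inv]
      have b1 : ‖eval (y n) (A l)‖ ≤ K1 := by
        have h4 := h1 n
        have h5 : eval q (N l - MvPolynomial.C (q l) * D l) = 0 := by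
          rw [map_sub, map_mul, eval_C, hNq, sub_self]
        have h6 : eval (z n) (N l - MvPolynomial.C (q l) * D l) = eval (y n) (A l) := by
          rw [hAy, map_sub, map_mul, eval_C]
        rw [h5, sub_zero, h6] at h4
        exact h4.trans (mul_le_of_le_one_right hK1 (hρn1 n))
      have b2 : ‖eval (y n) (B l)‖⁻¹ ≤ K3 := by
        rw [hBy]
        exact hK3' n
      have b3 : ‖1 - (b l)⁻¹ * eval (y n) (B l)‖ ≤ ‖b l‖⁻¹ * K2 * ρ ^ n := by
        have h4 : 1 - (b l)⁻¹ * eval (y n) (B l) =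
            -((b l)⁻¹ * (eval (z n) (D l) - eval q (D l))) := by
          rw [hBy, mul_sub]
          have h5 : (b l)⁻¹ * eval q (D l) = 1 := inv_mul_cancel₀ (hb0 l)
          rw [h5]
          ring
        rw [h4, norm_neg, norm_mul, norm_inv, mul_assoc]
        exact mul_le_mul_of_nonneg_left (h2 n) (inv_nonneg.2 (norm_nonneg _))
      have b4 : ‖1 - (b l)⁻¹ * eval (y n) (B l)‖ ^ (M + 1) ≤
          (‖b l‖⁻¹ * K2) ^ (M + 1) * ρ ^ (M * n) := by
        calc ‖1 - (b l)⁻¹ * eval (y n) (B l)‖ ^ (M + 1) ≤ (‖b l‖⁻¹ * K2 * ρ ^ n) ^ (M + 1) :=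
              pow_le_pow_left₀ (norm_nonneg _) b3 _
          _ = (‖b l‖⁻¹ * K2) ^ (M + 1) * ρ ^ (n * (M + 1)) := by rw [mul_pow, ← pow_mul]
          _ ≤ (‖b l‖⁻¹ * K2) ^ (M + 1) * ρ ^ (M * n) := by
              refine mul_le_mul_of_nonneg_left ?_ (by positivity)
              refine pow_le_pow_of_le_one hρ0.le hρ1.le ?_
              rw [mul_comm M n]
              exact Nat.mul_le_mul le_rfl (Nat.le_succ M)
      calc ‖eval (y n) (A l)‖ * ‖eval (y n) (B l)‖⁻¹ *
            ‖1 - (b l)⁻¹ * eval (y n) (B l)‖ ^ (M + 1)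
          ≤ K1 * K3 * ((‖b l‖⁻¹ * K2) ^ (M + 1) * ρ ^ (M * n)) :=
            mul_le_mul (mul_le_mul b1 b2 (by positivity) hK1) b4 (by positivity) (by positivity)
        _ = _ := by ring
    choose K hK0 hK using key
    refine ⟨∑ i, ∑ l, ‖S i l‖ * K l, fun n i => ?_⟩
    have e1 : S.mulVec (fun l => z (n + 1) l - q l) i -
        eval (y n) (∑ l, MvPolynomial.C (S i l) * h l) =
          ∑ l, S i l * ((z (n + 1) l - q l) - eval (y n) (h l)) := by
      rw [Matrix.mulVec, dotProduct, map_sum, ← Finset.sum_sub_distrib]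
      refine Finset.sum_congr rfl fun l _ => ?_
      rw [map_mul, eval_C]
      ring
    show ‖S.mulVec (fun l => z (n + 1) l - q l) i -
        eval (y n) (∑ l, MvPolynomial.C (S i l) * h l)‖ ≤ _
    rw [e1]
    calc ‖∑ l, S i l * ((z (n + 1) l - q l) - eval (y n) (h l))‖
        ≤ ∑ l, ‖S i l * ((z (n + 1) l - q l) - eval (y n) (h l))‖ := norm_sum_le _ _
      _ ≤ ∑ l, ‖S i l‖ * K l * ρ ^ (M * n) := by
          refine Finset.sum_le_sum fun l _ => ?_
          rw [norm_mul, mul_assoc]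
          exact mul_le_mul_of_nonneg_left (hK l n) (norm_nonneg _)
      _ = (∑ l, ‖S i l‖ * K l) * ρ ^ (M * n) := (Finset.sum_mul _ _ _).symm
      _ ≤ (∑ i, ∑ l, ‖S i l‖ * K l) * ρ ^ (M * n) := by
          refine mul_le_mul_of_nonneg_right ?_ (pow_nonneg hρ0.le _)
          exact Finset.single_le_sum (f := fun i => ∑ l, ‖S i l‖ * K l)
            (fun i _ => Finset.sum_nonneg fun l _ => mul_nonneg (norm_nonneg _) (hK0 l))
            (Finset.mem_univ i)

end MP_f4ff90_agE
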