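import Pool.Agent.Lib.MP_f4ff90_agE.LocX
import Pool.Agent.Lib.MP_f4ff90_agE.Jet

/-!
LEAF JetX.  The map in adapted coordinates, and polynomials along the orbit.
PROOFS.  `y n = S (z n - q)`, `δ n = z n - q`.  `polX`: `eval (z n) P = eval (δ n) P̂`, `P̂ = bind₁ (fun j => X j + C (q j)) P`; `loc` for `M` gives `p` with `v n k = eval (y n) (p k)`, `‖δ n k - v n k‖ ≤ C' ρ^(M n)`, `‖v n k‖ ≤ C'' ρ^n` (`ord_one`);
`ord_lip` for `P̂`: take `bind₁ p P̂`.
`jetsX`: `jets` with `S = S' = 1`, `T = Jac N D q` gives `F k` (`coeff 0 = 0`, linear coefficients `Jac N D q k j`) with `‖δ (n+1) k - eval (δ n) (F k)‖ ≤ C' ρ^(M n)`.  `F k = ∑ j, C (Jac k j) * X j + G k`, `G k` of order `≥ 2`.  So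
`y (n+1) i = ∑ k, S i k * δ (n+1) k = ∑ j (S * Jac) i j * δ n j + ∑ k, S i k * eval (δ n) (G k) + O(ρ^(M n))`.  The row `(S * Jac - T * S) i` vanishes on the tangent space (`Frame.equi`), so `quad` gives `R_i` of order `≥ 2` with
`∑ j, (S * Jac - T * S) i j * δ n j = eval (δ n) R_i`, and `y (n+1) i = (T y n) i + eval (δ n) (R_i + ∑ k, C (S i k) * G k) + O(ρ^(M n))`.  With `p` of `loc` for `M` replace `δ n` by `v n` (`ord_lip`):
`f i = ∑ j, C (T i j) * X j + bind₁ p (R_i + ∑ k, C (S i k) * G k)`.  The coefficients of degree `< 2` of `bind₁ p H` vanish if those of `H` do and all `(p k).coeff 0 = 0` (e.g. `H ∈ (ideal of the X k)^2`, or: `H = ∑ coeff * monomial`, products of two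
polynomials without constant term have no coefficients in degree `< 2`).
-/

set_option autoImplicit false

open Filter Topology MvPolynomial

namespace MP_f4ff90_agE

private theorem JetX_coeff_mul {g : ℕ} (P Q : MvPolynomial (Fin g) ℂ) (j : Fin g) :
    (P * Q).coeff (Finsupp.single j 1) =
      P.coeff (Finsupp.single j 1) * Q.coeff 0 + P.coeff 0 * Q.coeff (Finsupp.single j 1) := by
  classical
  rw [MvPolynomial.coeff_mul, Finsupp.antidiagonal_single, Finset.sum_map,
    Finset.Nat.antidiagonal_succ, Finset.sum_cons, Finset.Nat.antidiagonal_zero,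
    Finset.sum_map, Finset.sum_singleton]
  simp only [Function.Embedding.prodMap, Function.Embedding.coeFn_mk, Prod.map,
    Function.Embedding.refl_apply, Finsupp.single_zero, Nat.succ_eq_add_one, zero_add]
  rw [add_comm]

private theorem JetX_coeff0 {g : ℕ} (P : MvPolynomial (Fin g) ℂ) : P.coeff 0 = eval 0 P := by
  rw [MvPolynomial.eval_zero, MvPolynomial.constantCoeff_eq]

private theorem JetX_eval {g d : ℕ} (p : Fin g → MvPolynomial (Fin d) ℂ) (y : Fin d → ℂ)
    (P : MvPolynomial (Fin g) ℂ) : eval y (bind₁ p P) = eval (fun k => eval y (p k)) P := by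
  rw [← MvPolynomial.coe_aeval_eq_eval, ← MvPolynomial.coe_aeval_eq_eval]
  exact MvPolynomial.aeval_bind₁ _ _ _

private theorem JetX_ne {g : ℕ} (j : Fin g) : (0 : Fin g →₀ ℕ) ≠ Finsupp.single j 1 := by
  intro h
  have h1 := congrArg (fun f : Fin g →₀ ℕ => f j) h
  simp at h1

private theorem JetX_X {g : ℕ} (i j : Fin g) :
    (X i : MvPolynomial (Fin g) ℂ).coeff (Finsupp.single j 1) = if i = j then 1 else 0 := by
  classical
  rw [coeff_X]
  by_cases h : i = j
  · rw [if_pos h, if_pos (by rw [h])]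
  · rw [if_neg h, if_neg]
    intro h1
    exact h (Finsupp.single_left_injective one_ne_zero h1)

private theorem JetX_bind {g d : ℕ} {p : Fin g → MvPolynomial (Fin d) ℂ}
    (hp : ∀ k, (p k).coeff 0 = 0) (H : MvPolynomial (Fin g) ℂ) :
    (bind₁ p H).coeff 0 = H.coeff 0 ∧ ∀ j, (bind₁ p H).coeff (Finsupp.single j 1) =
      ∑ k, H.coeff (Finsupp.single k 1) * (p k).coeff (Finsupp.single j 1) := by
  classical
  have h0 : ∀ H : MvPolynomial (Fin g) ℂ, (bind₁ p H).coeff 0 = H.coeff 0 := by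
    intro H
    rw [JetX_coeff0, JetX_coeff0, JetX_eval]
    have h1 : (fun k => eval 0 (p k)) = (0 : Fin g → ℂ) := by
      funext k
      rw [← JetX_coeff0, hp]
      rfl
    rw [h1]
  refine ⟨h0 H, fun j => ?_⟩
  induction H using MvPolynomial.induction_on with
  | C a =>
    rw [bind₁_C_right, coeff_C, if_neg (JetX_ne j)]
    refine (Finset.sum_eq_zero fun k _ => ?_).symm
    rw [coeff_C, if_neg (JetX_ne k), zero_mul]
  | add P Q hP hQ =>
    rw [map_add, coeff_add, hP, hQ, ← Finset.sum_add_distrib]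
    refine Finset.sum_congr rfl fun k _ => ?_
    rw [coeff_add, add_mul]
  | mul_X P i hP =>
    rw [map_mul, bind₁_X_right, JetX_coeff_mul, hp, mul_zero, zero_add, h0,
      Finset.sum_eq_single i]
    · rw [JetX_coeff_mul, JetX_X, if_pos rfl, coeff_zero_X, mul_zero, zero_add, mul_one]
    · intro k _ hk
      rw [JetX_coeff_mul, JetX_X, if_neg (Ne.symm hk), coeff_zero_X, mul_zero, mul_zero, add_zero,
        zero_mul]
    · intro h
      exact absurd (Finset.mem_univ i) h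

/-- bounds for a matrix times a small vector -/
private theorem JetX_mul {g d : ℕ} (S : Matrix (Fin d) (Fin g) ℂ) {u : ℕ → Fin g → ℂ}
    {e : ℕ → ℝ} {C : ℝ} (he : ∀ n, 0 ≤ e n) (hu : ∀ n i, ‖u n i‖ ≤ C * e n) :
    ∀ n i, ‖S.mulVec (u n) i‖ ≤ (∑ i, ∑ l, ‖S i l‖ * |C|) * e n := by
  intro n i
  rw [Matrix.mulVec, dotProduct]
  calc ‖∑ l, S i l * u n l‖ ≤ ∑ l, ‖S i l * u n l‖ := norm_sum_le _ _
    _ ≤ ∑ l, (‖S i l‖ * |C|) * e n := by
        refine Finset.sum_le_sum fun l _ => ?_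
        rw [norm_mul, mul_assoc]
        refine mul_le_mul_of_nonneg_left ?_ (norm_nonneg _)
        exact (hu n l).trans (mul_le_mul_of_nonneg_right (le_abs_self C) (he n))
    _ = (∑ l, ‖S i l‖ * |C|) * e n := (Finset.sum_mul _ _ _).symm
    _ ≤ _ := by
        refine mul_le_mul_of_nonneg_right ?_ (he n)
        exact Finset.single_le_sum (f := fun i => ∑ l, ‖S i l‖ * |C|)
          (fun i _ => Finset.sum_nonneg fun l _ => mul_nonneg (norm_nonneg _) (abs_nonneg _))
          (Finset.mem_univ i)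

/-- the approximation of the coordinates, ready for `ord_lip` -/
private theorem JetX_loc {g d : ℕ} {q : Fin g → ℂ} {z : ℕ → Fin g → ℂ}
    {E : Set (MvPolynomial (Fin g) ℂ)}
    (hE : ∀ P ∈ E, eval q P = 0) (hzE : ∀ n, ∀ P ∈ E, eval (z n) P = 0) {ρ C : ℝ} (hρ0 : 0 < ρ)
    (hρ1 : ρ < 1) (hc : ∀ n i, ‖z n i - q i‖ ≤ C * ρ ^ n) {J : Matrix (Fin g) (Fin g) ℂ}
    {S : Matrix (Fin d) (Fin g) ℂ} {S' : Matrix (Fin g) (Fin d) ℂ} {T : Matrix (Fin d) (Fin d) ℂ}
    (hF : Frame J (TanE E q) S S' T) (M : ℕ) :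
    ∃ p : Fin g → MvPolynomial (Fin d) ℂ, (∀ k, (p k).coeff 0 = 0) ∧
      ∀ P : MvPolynomial (Fin g) ℂ, ∃ K : ℝ, ∀ n,
        ‖eval (fun l => z n l - q l) P -
          eval (S.mulVec (fun l => z n l - q l)) (bind₁ p P)‖ ≤ K * ρ ^ (M * n) := by
  have hρn : ∀ n, 0 ≤ ρ ^ n := fun n => pow_nonneg hρ0.le n
  obtain ⟨p, hp, C', hC'⟩ := loc hE hzE hρ0 hρ1 hc hF M
  refine ⟨p, hp, fun P => ?_⟩
  have hy := JetX_mul S (u := fun n l => z n l - q l) hρn hc
  have h1 := fun k => ord_one (hp k) hρ0 hρ1 (u := fun n => S.mulVec (fun l => z n l - q l)) hy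
  choose A hA using h1
  have hB : ∀ k, |A k| ≤ |C| + ∑ k, |A k| := by
    intro k
    have h2 := Finset.single_le_sum (f := fun k => |A k|) (fun k _ => abs_nonneg (A k))
      (Finset.mem_univ k)
    have h3 := abs_nonneg C
    linarith
  have hB0 : C ≤ |C| + ∑ k, |A k| := by
    have h2 : 0 ≤ ∑ k, |A k| := Finset.sum_nonneg fun k _ => abs_nonneg (A k)
    have h3 := le_abs_self C
    linarith
  obtain ⟨K, hK⟩ := ord_lip P hρ0 hρ1 (M := M) (C := |C| + ∑ k, |A k|) (C' := C')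
    (u := fun n l => z n l - q l)
    (v := fun n k => eval (S.mulVec (fun l => z n l - q l)) (p k))
    (fun n i => (hc n i).trans (mul_le_mul_of_nonneg_right hB0 (hρn n)))
    (fun n i => (hA i n).trans (mul_le_mul_of_nonneg_right ((le_abs_self _).trans (hB i)) (hρn n)))
    hC'
  refine ⟨K, fun n => ?_⟩
  rw [JetX_eval]
  exact hK n

theorem polX {g d : ℕ} {q : Fin g → ℂ} {z : ℕ → Fin g → ℂ} {E : Set (MvPolynomial (Fin g) ℂ)}
    (hE : ∀ P ∈ E, eval q P = 0) (hzE : ∀ n, ∀ P ∈ E, eval (z n) P = 0) {ρ C : ℝ} (hρ0 : 0 < ρ)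
    (hρ1 : ρ < 1) (hc : ∀ n i, ‖z n i - q i‖ ≤ C * ρ ^ n) {J : Matrix (Fin g) (Fin g) ℂ}
    {S : Matrix (Fin d) (Fin g) ℂ} {S' : Matrix (Fin g) (Fin d) ℂ} {T : Matrix (Fin d) (Fin d) ℂ}
    (hF : Frame J (TanE E q) S S' T) (M : ℕ) (P : MvPolynomial (Fin g) ℂ) :
    ∃ p : MvPolynomial (Fin d) ℂ, ∃ C' : ℝ, ∀ n,
      ‖eval (z n) P - eval (S.mulVec (fun l => z n l - q l)) p‖ ≤ C' * ρ ^ (M * n) := by
  obtain ⟨p, _, h⟩ := JetX_loc hE hzE hρ0 hρ1 hc hF M
  obtain ⟨K, hK⟩ := h (bind₁ (fun j => X j + MvPolynomial.C (q j)) P)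
  refine ⟨bind₁ p (bind₁ (fun j => X j + MvPolynomial.C (q j)) P), K, fun n => ?_⟩
  have h1 : eval (fun l => z n l - q l) (bind₁ (fun j => X j + MvPolynomial.C (q j)) P) =
      eval (z n) P := by
    rw [JetX_eval]
    congr 1
    refine congrArg (fun v => eval v) ?_
    funext k
    rw [map_add, eval_X, eval_C]
    exact sub_add_cancel _ _
  rw [← h1]
  exact hK n

theorem jetsX {g d : ℕ} {N D : Fin g → MvPolynomial (Fin g) ℂ} {q : Fin g → ℂ}
    {z : ℕ → Fin g → ℂ} (hz : Orb N D z) {E : Set (MvPolynomial (Fin g) ℂ)}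
    (hE : ∀ P ∈ E, eval q P = 0) (hzE : ∀ n, ∀ P ∈ E, eval (z n) P = 0) {ρ C : ℝ} (hρ0 : 0 < ρ)
    (hρ1 : ρ < 1) (hc : ∀ n i, ‖z n i - q i‖ ≤ C * ρ ^ n) (hD : ∀ i, eval q (D i) ≠ 0)
    {S : Matrix (Fin d) (Fin g) ℂ} {S' : Matrix (Fin g) (Fin d) ℂ} {T : Matrix (Fin d) (Fin d) ℂ}
    (hF : Frame (Jac N D q) (TanE E q) S S' T) (M : ℕ) :
    ∃ f : Fin d → MvPolynomial (Fin d) ℂ, (∀ i, (f i).coeff 0 = 0) ∧
      (∀ i j, (f i).coeff (Finsupp.single j 1) = T i j) ∧
      ∃ C' : ℝ, ∀ n i, ‖S.mulVec (fun l => z (n + 1) l - q l) i -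
        eval (S.mulVec (fun l => z n l - q l)) (f i)‖ ≤ C' * ρ ^ (M * n) := by
  classical
  have hρM : ∀ n, 0 ≤ ρ ^ (M * n) := fun n => pow_nonneg hρ0.le _
  obtain ⟨F, hF0, hF1, C1, hC1⟩ := jets (S := 1) (S' := 1) (T := Jac N D q) hz hρ0 hρ1 hc hD
    (one_mul 1) (one_mul 1) (by rw [one_mul, mul_one]) M
  simp only [Matrix.one_mulVec] at hC1
  obtain ⟨p, hp, hloc⟩ := JetX_loc hE hzE hρ0 hρ1 hc hF M
  set J := Jac N D q with hJ
  -- the rows which vanish on the tangent space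
  have hrow : ∀ i, ∀ v ∈ TanE E q, ∑ j, (S * J - T * S) i j * v j = 0 := by
    intro i v hv
    have h1 : (S * J - T * S).mulVec v i = 0 := by
      rw [Matrix.sub_mulVec, ← Matrix.mulVec_mulVec, ← Matrix.mulVec_mulVec, hF.equi v hv, sub_self]
      rfl
    exact h1
  choose R hR0 hR using fun i => quad E q hE (fun j => (S * J - T * S) i j) (hrow i)
  set G : Fin g → MvPolynomial (Fin g) ℂ := fun k => F k - ∑ j, MvPolynomial.C (J k j) * X j with hG
  set H : Fin d → MvPolynomial (Fin g) ℂ := fun i => R i + ∑ k, MvPolynomial.C (S i k) * G k with hH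
  have hL0 : ∀ {a b : ℕ} (A : Matrix (Fin a) (Fin b) ℂ) (i : Fin a),
      (∑ j, MvPolynomial.C (A i j) * X j : MvPolynomial (Fin b) ℂ).coeff 0 = 0 := by
    intro a b A i
    rw [coeff_sum]
    exact Finset.sum_eq_zero fun j _ => by rw [coeff_C_mul, coeff_zero_X, mul_zero]
  have hL1 : ∀ {a b : ℕ} (A : Matrix (Fin a) (Fin b) ℂ) (i : Fin a) (j : Fin b),
      (∑ j, MvPolynomial.C (A i j) * X j : MvPolynomial (Fin b) ℂ).coeff (Finsupp.single j 1) =
        A i j := by
    intro a b A i j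
    rw [coeff_sum, Finset.sum_eq_single j]
    · rw [coeff_C_mul, JetX_X, if_pos rfl, mul_one]
    · intro k _ hk
      rw [coeff_C_mul, JetX_X, if_neg hk, mul_zero]
    · intro h
      exact absurd (Finset.mem_univ j) h
  have hLe : ∀ {a b : ℕ} (A : Matrix (Fin a) (Fin b) ℂ) (i : Fin a) (v : Fin b → ℂ),
      eval v (∑ j, MvPolynomial.C (A i j) * X j : MvPolynomial (Fin b) ℂ) = A.mulVec v i := by
    intro a b A i v
    rw [map_sum, Matrix.mulVec, dotProduct]
    exact Finset.sum_congr rfl fun j _ => by rw [map_mul, eval_C, eval_X]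
  have hH0 : ∀ i, (H i).coeff 0 = 0 := by
    intro i
    rw [hH]
    show (R i + ∑ k, MvPolynomial.C (S i k) * G k).coeff 0 = 0
    rw [coeff_add, hR0 i 0 (by simp), coeff_sum, zero_add]
    refine Finset.sum_eq_zero fun k _ => ?_
    rw [coeff_C_mul, hG]
    show S i k * (F k - ∑ j, MvPolynomial.C (J k j) * X j).coeff 0 = 0
    rw [coeff_sub, hF0, hL0, sub_self, mul_zero]
  have hH1 : ∀ i l, (H i).coeff (Finsupp.single l 1) = 0 := by
    intro i l
    rw [hH]
    show (R i + ∑ k, MvPolynomial.C (S i k) * G k).coeff (Finsupp.single l 1) = 0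
    rw [coeff_add, hR0 i _ (by rw [Finsupp.degree_single]; exact one_lt_two), coeff_sum, zero_add]
    refine Finset.sum_eq_zero fun k _ => ?_
    rw [coeff_C_mul, hG]
    show S i k * (F k - ∑ j, MvPolynomial.C (J k j) * X j).coeff (Finsupp.single l 1) = 0
    rw [coeff_sub, hF1, hL1, sub_self, mul_zero]
  refine ⟨fun i => ∑ j, MvPolynomial.C (T i j) * X j + bind₁ p (H i), fun i => ?_, fun i j => ?_, ?_⟩
  · show (∑ j, MvPolynomial.C (T i j) * X j + bind₁ p (H i)).coeff 0 = 0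
    rw [coeff_add, hL0, (JetX_bind hp (H i)).1, hH0, zero_add]
  · show (∑ j, MvPolynomial.C (T i j) * X j + bind₁ p (H i)).coeff (Finsupp.single j 1) = T i j
    rw [coeff_add, hL1, (JetX_bind hp (H i)).2, Finset.sum_eq_zero, add_zero]
    intro k _
    rw [hH1, zero_mul]
  · choose K hK using fun i => hloc (H i)
    have hy := JetX_mul S (u := fun n k => (z (n + 1) k - q k) -
      eval (fun l => z n l - q l) (F k)) hρM hC1
    refine ⟨(∑ i, ∑ l, ‖S i l‖ * |C1|) + ∑ i, |K i|, fun n i => ?_⟩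
    have e1 : S.mulVec (fun l => z (n + 1) l - q l) i -
        eval (S.mulVec (fun l => z n l - q l)) (∑ j, MvPolynomial.C (T i j) * X j + bind₁ p (H i)) =
        S.mulVec (fun k => (z (n + 1) k - q k) - eval (fun l => z n l - q l) (F k)) i +
          (eval (fun l => z n l - q l) (H i) -
            eval (S.mulVec (fun l => z n l - q l)) (bind₁ p (H i))) := by
      have e2 : S.mulVec (fun k => (z (n + 1) k - q k) - eval (fun l => z n l - q l) (F k)) i =
          S.mulVec (fun l => z (n + 1) l - q l) i -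
            ∑ k, S i k * eval (fun l => z n l - q l) (F k) := by
        rw [Matrix.mulVec, dotProduct, Matrix.mulVec, dotProduct, ← Finset.sum_sub_distrib]
        exact Finset.sum_congr rfl fun k _ => mul_sub _ _ _
      have e3 : eval (fun l => z n l - q l) (H i) = ∑ j, (S * J - T * S) i j * (z n j - q j) +
          (∑ k, S i k * eval (fun l => z n l - q l) (F k) -
            (S * J).mulVec (fun l => z n l - q l) i) := by
        rw [hR i (z n) (hzE n), hH]
        show eval (fun l => z n l - q l) (R i + ∑ k, MvPolynomial.C (S i k) * G k) = _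
        rw [map_add, map_sum, ← Matrix.mulVec_mulVec, Matrix.mulVec, dotProduct,
          ← Finset.sum_sub_distrib]
        congr 1
        refine Finset.sum_congr rfl fun k _ => ?_
        rw [map_mul, eval_C, hG]
        show S i k * eval (fun l => z n l - q l) (F k - ∑ j, MvPolynomial.C (J k j) * X j) = _
        rw [map_sub, hLe, mul_sub]
      have e4 : ∑ j, (S * J - T * S) i j * (z n j - q j) =
          (S * J).mulVec (fun l => z n l - q l) i -
            T.mulVec (S.mulVec (fun l => z n l - q l)) i := by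
        rw [Matrix.mulVec_mulVec, Matrix.mulVec, dotProduct, Matrix.mulVec, dotProduct,
          ← Finset.sum_sub_distrib]
        exact Finset.sum_congr rfl fun j _ => by rw [Matrix.sub_apply, sub_mul]
      rw [map_add, hLe, e2, e3, e4]
      ring
    show ‖S.mulVec (fun l => z (n + 1) l - q l) i -
        eval (S.mulVec (fun l => z n l - q l))
          (∑ j, MvPolynomial.C (T i j) * X j + bind₁ p (H i))‖ ≤ _
    rw [e1, add_mul]
    refine (norm_add_le _ _).trans (add_le_add (hy n i) ((hK i n).trans ?_))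
    refine mul_le_mul_of_nonneg_right ((le_abs_self _).trans ?_) (hρM n)
    exact Finset.single_le_sum (f := fun i => |K i|) (fun i _ => abs_nonneg (K i))
      (Finset.mem_univ i)

end MP_f4ff90_agE
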