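import Mathlib
import Pool.Agent.Lib.MP_f4ff90_agE.Defs

/-!
LEAF Pul.  Pull-backs exist.
PROOF.  `MvPolynomial.induction_on` as in `Lib/MP_f4ff90_ag/TGen.lean`, `exists_pullback` (`Δ = ∏ D i`): constants `E = 0`; sums: `P' Δ^E' + Q' Δ^E`; `P * X i`: `P' * (N i * ∏_(j ≠ i) D j)`, exponent `E + 1`.
-/

set_option autoImplicit false

open Filter Topology MvPolynomial

namespace MP_f4ff90_agE

theorem exists_pull {g : ℕ} (N D : Fin g → MvPolynomial (Fin g) ℂ) (P : MvPolynomial (Fin g) ℂ) :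
    ∃ P', IsPull N D P P' := by
  induction P using MvPolynomial.induction_on with
  | C z => exact ⟨C z, 0, fun v _ => by rw [eval_C, eval_C, pow_zero, mul_one]⟩
  | add P Q hP hQ =>
    obtain ⟨P', E, h⟩ := hP
    obtain ⟨Q', E', h'⟩ := hQ
    refine ⟨P' * (∏ j, D j) ^ E' + Q' * (∏ j, D j) ^ E, E + E', fun v hv => ?_⟩
    rw [map_add, map_mul, map_mul, map_pow, map_pow, h v hv, h' v hv, map_add, pow_add, map_prod]
    ring
  | mul_X P i hP =>
    obtain ⟨P', E, h⟩ := hP
    refine ⟨P' * (N i * ∏ j ∈ Finset.univ.erase i, D j), E + 1, fun v hv => ?_⟩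
    have h1 : ∏ j, eval v (D j) = eval v (D i) * ∏ j ∈ Finset.univ.erase i, eval v (D j) := by
      rw [← Finset.mul_prod_erase Finset.univ _ (Finset.mem_univ i)]
    have h3 : eval v (D i) ≠ 0 := hv i
    rw [map_mul, map_mul, h v hv, map_mul, eval_X, map_prod, pow_succ, h1]
    field_simp

end MP_f4ff90_agE
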