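import Mathlib
import Pool.Agent.Lib.MP_f4ff90_agE.Aut
import Pool.Agent.Lib.MP_f4ff90_agE.Pul

/-!
LEAF Krl.  Invariant ideals and Krull's theorem.
PROOF.  `J c = Ideal.span {P' | ∃ P ∈ I (c+1), IsPull N D P P'} ≤ I c` by `hI`.  CLAIM: `I c ≤ J c ⊔ m^M` for every `M` (`m = mq q`).  In `W = R ⧸ m^M` (noetherian) let `Ī c` be the image of `I c` (`Ideal.map`); `Φ` of `jet_aut`, `Φ (Ī (c+1)) ⊆ Ī c` (pull-backs
exist, `exists_pull`, `w` is a unit; the elements of `Ī` are images of elements of `I`, `mk` is surjective).  With `A = Φ⁻¹`: `Ī (c+1) ⊆ A (Ī c)`, so `Ī (c + k) ⊆ A^k (Ī c)` and, with `I (c + m') = I c` (period `m'`), the chain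
`Ī c ⊆ A^m' (Ī c) ⊆ A^(2m') (Ī c) ⊆ ..` of ideals becomes stationary, hence `A^m' (Ī c) = Ī c` (apply the inverse), so `Ī (c+1) ⊆ A (Ī c) ⊆ A (A^(m'-1) (Ī (c+1))) = Ī (c+1)`, using `Ī c = Ī (c + m') ⊆ A^(m'-1) (Ī (c+1))`; so `Φ (Ī (c+1)) = Ī c`:
every `P ∈ I c` is `≡ Φ(mk Q)` with `Q ∈ I (c+1)`, so `mk P = mk Q' * w⁻¹`, `Q' ∈ J c` a pull-back of `Q`: `P ∈ J c ⊔ m^M`.  KRULL: the class of `P` in `R ⧸ J c` lies in `⨅ m^M • ⊤`; `Ideal.mem_iInf_smul_pow_eq_bot_iff` gives `s ∈ m` with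
`s P ≡ P mod J c`.
-/

set_option autoImplicit false

open Filter Topology MvPolynomial

namespace MP_f4ff90_agE

/-- A monotone injective operator on the ideals of a noetherian ring. -/
private theorem Krl_stab {W : Type*} [CommRing W] [IsNoetherianRing W] (G : Ideal W → Ideal W)
    (hmono : Monotone G) (hinj : Function.Injective G) (I : Ideal W) (hI : I ≤ G I) : G I = I := by
  have hm : Monotone fun k => G^[k] I := by
    refine monotone_nat_of_le_succ fun k => ?_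
    show G^[k] I ≤ G^[k + 1] I
    rw [Function.iterate_succ_apply]
    exact hmono.iterate k hI
  obtain ⟨k, hk⟩ := monotone_stabilizes_iff_noetherian.2 (inferInstance : IsNoetherian W W)
    ⟨fun k => G^[k] I, hm⟩
  have h1 : G^[k] I = G^[k + 1] I := hk (k + 1) (Nat.le_succ k)
  rw [Function.iterate_succ_apply] at h1
  exact (hinj.iterate k h1).symm

/-- A periodic sequence of ideals, one contained in the inverse image of the other. -/
private theorem Krl_per {W : Type*} [CommRing W] [IsNoetherianRing W] (Φ : W ≃+* W)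
    (a : ℕ → Ideal W) (ha : ∀ k, a (k + 1) ≤ (a k).comap Φ) {m' : ℕ} (hm : 0 < m')
    (hper : ∀ k, a (k + m') = a k) (k : ℕ) : (a k).comap Φ ≤ a (k + 1) := by
  have hmono : Monotone fun I : Ideal W => I.comap Φ := fun I J h => Ideal.comap_mono h
  have hinj : Function.Injective fun I : Ideal W => I.comap Φ :=
    Ideal.comap_injective_of_surjective Φ Φ.surjective
  have hit : ∀ j k, a (k + j) ≤ (fun I : Ideal W => I.comap Φ)^[j] (a k) := by
    intro j
    induction j with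
    | zero => intro k; exact le_rfl
    | succ j ih =>
      intro k
      rw [Function.iterate_succ_apply']
      exact (ha (k + j)).trans (hmono (ih k))
  have h1 : ∀ k, (fun I : Ideal W => I.comap Φ)^[m'] (a k) = a k := by
    intro k
    refine Krl_stab _ (hmono.iterate m') (hinj.iterate m') (a k) ?_
    conv_lhs => rw [← hper k]
    exact hit m' k
  obtain ⟨l, rfl⟩ : ∃ l, m' = l + 1 := ⟨m' - 1, by omega⟩
  calc (a k).comap Φ = (a (k + 1 + l)).comap Φ := by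
        rw [show k + 1 + l = k + (l + 1) by omega, hper]
    _ ≤ ((fun I : Ideal W => I.comap Φ)^[l] (a (k + 1))).comap Φ := hmono (hit l (k + 1))
    _ = (fun I : Ideal W => I.comap Φ)^[l + 1] (a (k + 1)) := by
        rw [Function.iterate_succ_apply']
    _ = a (k + 1) := h1 (k + 1)

/-- Krull. -/
private theorem Krl_krull {R : Type*} [CommRing R] [IsNoetherianRing R] (m J : Ideal R) (P : R)
    (h : ∀ M : ℕ, P ∈ J ⊔ m ^ M) : ∃ s ∈ m, (1 - s) * P ∈ J := by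
  have h1 : (Ideal.Quotient.mk J P) ∈ (⨅ i : ℕ, m ^ i • ⊤ : Submodule R (R ⧸ J)) := by
    rw [Submodule.mem_iInf]
    intro M
    obtain ⟨j, hj, p, hp, hjp⟩ := Submodule.mem_sup.1 (h M)
    have e : Ideal.Quotient.mk J P = p • (1 : R ⧸ J) := by
      rw [Algebra.smul_def, mul_one, Ideal.Quotient.algebraMap_eq, ← hjp, map_add,
        Ideal.Quotient.eq_zero_iff_mem.2 hj, zero_add]
    rw [e]
    exact Submodule.smul_mem_smul hp Submodule.mem_top
  obtain ⟨s, hs⟩ := (Ideal.mem_iInf_smul_pow_eq_bot_iff m _).1 h1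
  refine ⟨s, s.2, ?_⟩
  rw [← Ideal.Quotient.eq_zero_iff_mem, map_mul, map_sub, map_one, sub_mul, one_mul]
  rw [Algebra.smul_def, Ideal.Quotient.algebraMap_eq] at hs
  rw [hs, sub_self]

theorem krull_inv {g : ℕ} {N D : Fin g → MvPolynomial (Fin g) ℂ} {q : Fin g → ℂ}
    (hD : ∀ i, eval q (D i) ≠ 0) (hN : ∀ i, eval q (N i) = q i * eval q (D i))
    (hJ : IsUnit (Jac N D q)) {m' : ℕ} (hm : 0 < m') (I : ℕ → Ideal (MvPolynomial (Fin g) ℂ))
    (hper : ∀ c, I (c + m') = I c)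
    (hI : ∀ c, ∀ P ∈ I (c + 1), ∀ P', IsPull N D P P' → P' ∈ I c) (c : ℕ)
    (P : MvPolynomial (Fin g) ℂ) (hP : P ∈ I c) :
    ∃ s ∈ mq q, (1 - s) * P ∈ Ideal.span {P' | ∃ Q ∈ I (c + 1), IsPull N D Q P'} := by
  refine Krl_krull (mq q) _ P fun M => ?_
  obtain ⟨Φ, hΦ⟩ := jet_aut hD hN hJ M
  have hsurj : Function.Surjective (Ideal.Quotient.mk (mq q ^ M)) := Ideal.Quotient.mk_surjective
  have ha : ∀ k, Ideal.map (Ideal.Quotient.mk (mq q ^ M)) (I (k + 1)) ≤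
      (Ideal.map (Ideal.Quotient.mk (mq q ^ M)) (I k)).comap Φ := by
    intro k x hx
    obtain ⟨Q, hQ, rfl⟩ := (Ideal.mem_map_iff_of_surjective _ hsurj).1 hx
    obtain ⟨Q', hQ'⟩ := exists_pull N D Q
    obtain ⟨w, hw, hQw⟩ := hΦ Q Q' hQ'
    have h1 : Ideal.Quotient.mk (mq q ^ M) Q' ∈
        Ideal.map (Ideal.Quotient.mk (mq q ^ M)) (I k) := Ideal.mem_map_of_mem _ (hI k Q hQ Q' hQ')
    rw [hQw] at h1
    rw [Ideal.mem_comap]
    exact (Ideal.mul_unit_mem_iff_mem _ hw).1 h1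
  have h2 := Krl_per Φ (fun k => Ideal.map (Ideal.Quotient.mk (mq q ^ M)) (I k)) ha hm
    (fun k => by show Ideal.map _ (I (k + m')) = _; rw [hper k]) c
  obtain ⟨x, hx⟩ := Φ.surjective (Ideal.Quotient.mk (mq q ^ M) P)
  have hx1 : x ∈ (Ideal.map (Ideal.Quotient.mk (mq q ^ M)) (I c)).comap Φ := by
    rw [Ideal.mem_comap]
    show Φ x ∈ _
    rw [hx]
    exact Ideal.mem_map_of_mem _ hP
  obtain ⟨Q, hQ, rfl⟩ := (Ideal.mem_map_iff_of_surjective _ hsurj).1 (h2 hx1)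
  obtain ⟨Q', hQ'⟩ := exists_pull N D Q
  obtain ⟨w, hw, hQw⟩ := hΦ Q Q' hQ'
  obtain ⟨v, hv⟩ := hw.exists_right_inv
  obtain ⟨v', rfl⟩ := hsurj v
  have h3 : Ideal.Quotient.mk (mq q ^ M) (P - Q' * v') = 0 := by
    rw [map_sub, map_mul, hQw, hx, mul_assoc, hv, mul_one, sub_self]
  rw [Ideal.Quotient.eq_zero_iff_mem] at h3
  have h4 : P = Q' * v' + (P - Q' * v') := by ring
  rw [h4]
  exact Submodule.add_mem_sup (Ideal.mul_mem_right _ _ (Ideal.subset_span ⟨Q, hQ, hQ'⟩)) h3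

end MP_f4ff90_agE

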