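import Pool.Agent.Lib.MP_f4ff90_agE.DefX

/-!
LEAF OrdX.  Four elementary estimates for polynomials along small sequences.
PROOFS.  `ord_lip`: induction on `P` (`C`, `+`, `* X i`), values bounded since `ρ^n ≤ 1`.  `ord_one`: `P = ∑ coeff * monomial`, each monomial `≠ 0` has a factor `‖u n i‖ ≤ C ρ^n`, the others are bounded; or `P = ∑ P_i * X i`.
`ord_two`: `R` is a sum of `coeff * monomial` with monomials of degree `≥ 2`: `∏ u^m - ∏ v^m` telescopes, each term has one factor `u i - v i` (`≤ C' ρ^(M n)`) and at least one factor `u j` or `v j` (`≤ C ρ^n`); e.g. write `R = ∑ i, X i * R_i` with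
`R_i.coeff 0 = 0` and `u i R_i(u) - v i R_i(v) = (u i - v i) R_i(u) + v i (R_i(u) - R_i(v))`, with `ord_one` and `ord_lip`.  `ord_pt`: `R = ∑ i j, X i * X j * R_ij`, or by monomials: `‖∏ δ^m‖ ≤ ‖δ‖^(degree m) ≤ ‖δ‖^2`.
-/

set_option autoImplicit false

open Filter Topology MvPolynomial

namespace MP_f4ff90_agE

private theorem OrdX_abs {a b C r : ℝ} (hr : 0 ≤ r) (h : a ≤ C * r) (hb : |C| = b) :
    a ≤ b * r := by
  rw [← hb]
  exact h.trans (mul_le_mul_of_nonneg_right (le_abs_self C) hr)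

private theorem OrdX_c0 {g : ℕ} (P : MvPolynomial (Fin g) ℂ) (j : Fin g) :
    coeff 0 (P * X j) = 0 := by
  classical
  rw [coeff_mul_X', if_neg]
  simp

private theorem OrdX_lin {g : ℕ} (P : MvPolynomial (Fin g) ℂ) (j : Fin g) (w : Fin g → ℂ) :
    ∑ i, coeff (Finsupp.single i 1) (P * X j) * w i = coeff 0 P * w j := by
  classical
  rw [Finset.sum_eq_single j]
  · rw [coeff_mul_X', if_pos]
    · rw [tsub_self]
    · simp
  · intro i _ hij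
    rw [coeff_mul_X', if_neg, zero_mul]
    rw [Finsupp.support_single i one_ne_zero, Finset.mem_singleton]
    exact fun h => hij h.symm
  · intro h
    exact absurd (Finset.mem_univ j) h

private theorem OrdX_linC {g : ℕ} (c : ℂ) (w : Fin g → ℂ) :
    ∑ i, coeff (Finsupp.single i 1) (C c : MvPolynomial (Fin g) ℂ) * w i = 0 := by
  classical
  refine Finset.sum_eq_zero fun i _ => ?_
  rw [coeff_C, if_neg, zero_mul]
  intro h
  have h1 := DFunLike.congr_fun h i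
  simp at h1

private theorem OrdX_linA {g : ℕ} (P Q : MvPolynomial (Fin g) ℂ) (w : Fin g → ℂ) :
    ∑ i, coeff (Finsupp.single i 1) (P + Q) * w i =
      ∑ i, coeff (Finsupp.single i 1) P * w i + ∑ i, coeff (Finsupp.single i 1) Q * w i := by
  rw [← Finset.sum_add_distrib]
  exact Finset.sum_congr rfl fun i _ => by rw [coeff_add, add_mul]

/-- boundedness -/
private theorem OrdX_bd {g : ℕ} (P : MvPolynomial (Fin g) ℂ) {A : ℝ} (hA : 0 ≤ A) :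
    ∃ B : ℝ, 0 ≤ B ∧ ∀ δ : Fin g → ℂ, (∀ i, ‖δ i‖ ≤ A) → ‖eval δ P‖ ≤ B := by
  induction P using MvPolynomial.induction_on with
  | C c => exact ⟨‖c‖, norm_nonneg _, fun δ _ => by rw [eval_C]⟩
  | add P Q hP hQ =>
    obtain ⟨B1, h1, h1'⟩ := hP
    obtain ⟨B2, h2, h2'⟩ := hQ
    refine ⟨B1 + B2, add_nonneg h1 h2, fun δ hδ => ?_⟩
    rw [map_add]
    exact (norm_add_le _ _).trans (add_le_add (h1' δ hδ) (h2' δ hδ))
  | mul_X P i hP =>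
    obtain ⟨B1, h1, h1'⟩ := hP
    refine ⟨B1 * A, mul_nonneg h1 hA, fun δ hδ => ?_⟩
    rw [map_mul, eval_X, norm_mul]
    exact mul_le_mul (h1' δ hδ) (hδ i) (norm_nonneg _) h1

/-- the first order, at a point -/
private theorem OrdX_p1 {g : ℕ} (P : MvPolynomial (Fin g) ℂ) {A : ℝ} (hA : 0 ≤ A) :
    ∃ B : ℝ, 0 ≤ B ∧ ∀ (δ : Fin g → ℂ) (r : ℝ), 0 ≤ r → (∀ i, ‖δ i‖ ≤ A) → (∀ i, ‖δ i‖ ≤ A * r) →
      ‖eval δ P - coeff 0 P‖ ≤ B * r := by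
  induction P using MvPolynomial.induction_on with
  | C c => exact ⟨0, le_rfl, fun δ r _ _ _ => by rw [eval_C, coeff_zero_C, sub_self, norm_zero, zero_mul]⟩
  | add P Q hP hQ =>
    obtain ⟨B1, h1, h1'⟩ := hP
    obtain ⟨B2, h2, h2'⟩ := hQ
    refine ⟨B1 + B2, add_nonneg h1 h2, fun δ r hr hδ hδ' => ?_⟩
    rw [map_add, coeff_add, add_sub_add_comm, add_mul]
    exact (norm_add_le _ _).trans (add_le_add (h1' δ r hr hδ hδ') (h2' δ r hr hδ hδ'))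
  | mul_X P i hP =>
    obtain ⟨B1, h1, h1'⟩ := OrdX_bd P hA
    refine ⟨B1 * A, mul_nonneg h1 hA, fun δ r hr hδ hδ' => ?_⟩
    rw [map_mul, eval_X, OrdX_c0, sub_zero, norm_mul, mul_assoc]
    exact mul_le_mul (h1' δ hδ) (hδ' i) (norm_nonneg _) h1

/-- the second order, at a point -/
private theorem OrdX_p2 {g : ℕ} (P : MvPolynomial (Fin g) ℂ) {A : ℝ} (hA : 0 ≤ A) :
    ∃ B : ℝ, 0 ≤ B ∧ ∀ (δ : Fin g → ℂ) (r : ℝ), 0 ≤ r → (∀ i, ‖δ i‖ ≤ A) → (∀ i, ‖δ i‖ ≤ A * r) →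
      ‖eval δ P - coeff 0 P - ∑ i, coeff (Finsupp.single i 1) P * δ i‖ ≤ B * r ^ 2 := by
  induction P using MvPolynomial.induction_on with
  | C c =>
    refine ⟨0, le_rfl, fun δ r _ _ _ => ?_⟩
    rw [eval_C, coeff_zero_C, sub_self, OrdX_linC, sub_zero, norm_zero, zero_mul]
  | add P Q hP hQ =>
    obtain ⟨B1, h1, h1'⟩ := hP
    obtain ⟨B2, h2, h2'⟩ := hQ
    refine ⟨B1 + B2, add_nonneg h1 h2, fun δ r hr hδ hδ' => ?_⟩
    rw [map_add, coeff_add, add_sub_add_comm, OrdX_linA, add_sub_add_comm, add_mul]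
    exact (norm_add_le _ _).trans (add_le_add (h1' δ r hr hδ hδ') (h2' δ r hr hδ hδ'))
  | mul_X P i hP =>
    obtain ⟨B1, h1, h1'⟩ := OrdX_p1 P hA
    refine ⟨B1 * A, mul_nonneg h1 hA, fun δ r hr hδ hδ' => ?_⟩
    have e1 : eval δ (P * X i) - coeff 0 (P * X i) -
        ∑ j, coeff (Finsupp.single j 1) (P * X i) * δ j = (eval δ P - coeff 0 P) * δ i := by
      rw [map_mul, eval_X, OrdX_c0, OrdX_lin]
      ring
    have e2 : B1 * A * r ^ 2 = B1 * r * (A * r) := by ring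
    rw [e1, e2, norm_mul]
    exact mul_le_mul (h1' δ r hr hδ hδ') (hδ' i) (norm_nonneg _) (mul_nonneg h1 hr)

/-- differences, first order -/
private theorem OrdX_d1 {g : ℕ} (P : MvPolynomial (Fin g) ℂ) {A A' : ℝ} (hA : 0 ≤ A)
    (hA' : 0 ≤ A') : ∃ B : ℝ, 0 ≤ B ∧ ∀ (a b : Fin g → ℂ) (r : ℝ), 0 ≤ r → (∀ i, ‖a i‖ ≤ A) →
      (∀ i, ‖b i‖ ≤ A) → (∀ i, ‖a i - b i‖ ≤ A' * r) → ‖eval a P - eval b P‖ ≤ B * r := by
  induction P using MvPolynomial.induction_on with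
  | C c => exact ⟨0, le_rfl, fun a b r _ _ _ _ => by rw [eval_C, eval_C, sub_self, norm_zero, zero_mul]⟩
  | add P Q hP hQ =>
    obtain ⟨B1, h1, h1'⟩ := hP
    obtain ⟨B2, h2, h2'⟩ := hQ
    refine ⟨B1 + B2, add_nonneg h1 h2, fun a b r hr ha hb hab => ?_⟩
    rw [map_add, map_add, add_sub_add_comm, add_mul]
    exact (norm_add_le _ _).trans (add_le_add (h1' a b r hr ha hb hab) (h2' a b r hr ha hb hab))
  | mul_X P i hP =>
    obtain ⟨B1, h1, h1'⟩ := hP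
    obtain ⟨B2, h2, h2'⟩ := OrdX_bd P hA
    refine ⟨B1 * A + B2 * A', add_nonneg (mul_nonneg h1 hA) (mul_nonneg h2 hA'),
      fun a b r hr ha hb hab => ?_⟩
    have e1 : eval a (P * X i) - eval b (P * X i) =
        (eval a P - eval b P) * a i + eval b P * (a i - b i) := by
      rw [map_mul, map_mul, eval_X, eval_X]
      ring
    have e2 : (B1 * A + B2 * A') * r = B1 * r * A + B2 * (A' * r) := by ring
    rw [e1, e2]
    refine (norm_add_le _ _).trans (add_le_add ?_ ?_)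
    · rw [norm_mul]
      exact mul_le_mul (h1' a b r hr ha hb hab) (ha i) (norm_nonneg _) (mul_nonneg h1 hr)
    · rw [norm_mul]
      exact mul_le_mul (h2' b hb) (hab i) (norm_nonneg _) h2

/-- differences, second order -/
private theorem OrdX_d2 {g : ℕ} (P : MvPolynomial (Fin g) ℂ) {A A' : ℝ} (hA : 0 ≤ A)
    (hA' : 0 ≤ A') : ∃ B : ℝ, 0 ≤ B ∧ ∀ (a b : Fin g → ℂ) (s r : ℝ), 0 ≤ s → 0 ≤ r →
      (∀ i, ‖a i‖ ≤ A) → (∀ i, ‖b i‖ ≤ A) → (∀ i, ‖a i‖ ≤ A * s) → (∀ i, ‖b i‖ ≤ A * s) →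
      (∀ i, ‖a i - b i‖ ≤ A' * r) →
      ‖eval a P - eval b P - ∑ i, coeff (Finsupp.single i 1) P * (a i - b i)‖ ≤ B * (r * s) := by
  induction P using MvPolynomial.induction_on with
  | C c =>
    refine ⟨0, le_rfl, fun a b s r _ _ _ _ _ _ _ => ?_⟩
    rw [eval_C, eval_C, sub_self, OrdX_linC, sub_zero, norm_zero, zero_mul]
  | add P Q hP hQ =>
    obtain ⟨B1, h1, h1'⟩ := hP
    obtain ⟨B2, h2, h2'⟩ := hQ
    refine ⟨B1 + B2, add_nonneg h1 h2, fun a b s r hs hr ha hb ha' hb' hab => ?_⟩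
    rw [map_add, map_add, add_sub_add_comm, OrdX_linA, add_sub_add_comm, add_mul]
    exact (norm_add_le _ _).trans (add_le_add (h1' a b s r hs hr ha hb ha' hb' hab)
      (h2' a b s r hs hr ha hb ha' hb' hab))
  | mul_X P i hP =>
    obtain ⟨B1, h1, h1'⟩ := OrdX_p1 P hA
    obtain ⟨B2, h2, h2'⟩ := OrdX_d1 P hA hA'
    refine ⟨B1 * A' + B2 * A, add_nonneg (mul_nonneg h1 hA') (mul_nonneg h2 hA),
      fun a b s r hs hr ha hb ha' hb' hab => ?_⟩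
    have e1 : eval a (P * X i) - eval b (P * X i) -
        ∑ j, coeff (Finsupp.single j 1) (P * X i) * (a j - b j) =
        (eval a P - coeff 0 P) * (a i - b i) + (eval a P - eval b P) * b i := by
      rw [map_mul, map_mul, eval_X, eval_X, OrdX_lin P i fun j => a j - b j]
      ring
    have e2 : (B1 * A' + B2 * A) * (r * s) = B1 * s * (A' * r) + B2 * r * (A * s) := by ring
    rw [e1, e2]
    refine (norm_add_le _ _).trans (add_le_add ?_ ?_)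
    · rw [norm_mul]
      exact mul_le_mul (h1' a s hs ha ha') (hab i) (norm_nonneg _) (mul_nonneg h1 hs)
    · rw [norm_mul]
      exact mul_le_mul (h2' a b r hr ha hb hab) (hb' i) (norm_nonneg _) (mul_nonneg h2 hr)

private theorem OrdX_seq {g : ℕ} {ρ C : ℝ} (hρ0 : 0 < ρ) (hρ1 : ρ < 1) {u : ℕ → Fin g → ℂ}
    (hu : ∀ n i, ‖u n i‖ ≤ C * ρ ^ n) :
    (∀ n i, ‖u n i‖ ≤ |C| * ρ ^ n) ∧ ∀ n i, ‖u n i‖ ≤ |C| := by
  have h1 : ∀ n i, ‖u n i‖ ≤ |C| * ρ ^ n := fun n i => OrdX_abs (pow_pos hρ0 n).le (hu n i) rfl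
  refine ⟨h1, fun n i => (h1 n i).trans ?_⟩
  have h2 : ρ ^ n ≤ 1 := pow_le_one₀ hρ0.le hρ1.le
  calc |C| * ρ ^ n ≤ |C| * 1 := mul_le_mul_of_nonneg_left h2 (abs_nonneg C)
    _ = |C| := mul_one _

private theorem OrdX_zero {g : ℕ} {R : MvPolynomial (Fin g) ℂ}
    (hR : ∀ m : Fin g →₀ ℕ, m.degree < 2 → R.coeff m = 0) :
    R.coeff 0 = 0 ∧ ∀ w : Fin g → ℂ, ∑ i, coeff (Finsupp.single i 1) R * w i = 0 := by
  refine ⟨hR 0 (by simp), fun w => Finset.sum_eq_zero fun i _ => ?_⟩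
  rw [hR (Finsupp.single i 1) (by simp), zero_mul]

theorem ord_lip {g : ℕ} (P : MvPolynomial (Fin g) ℂ) {ρ C C' : ℝ} (hρ0 : 0 < ρ) (hρ1 : ρ < 1)
    {M : ℕ} {u v : ℕ → Fin g → ℂ} (hu : ∀ n i, ‖u n i‖ ≤ C * ρ ^ n)
    (hv : ∀ n i, ‖v n i‖ ≤ C * ρ ^ n) (huv : ∀ n i, ‖u n i - v n i‖ ≤ C' * ρ ^ (M * n)) :
    ∃ C'' : ℝ, ∀ n, ‖eval (u n) P - eval (v n) P‖ ≤ C'' * ρ ^ (M * n) := by
  obtain ⟨B, _, hB⟩ := OrdX_d1 P (abs_nonneg C) (abs_nonneg C')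
  obtain ⟨_, hu2⟩ := OrdX_seq hρ0 hρ1 hu
  obtain ⟨_, hv2⟩ := OrdX_seq hρ0 hρ1 hv
  exact ⟨B, fun n => hB (u n) (v n) (ρ ^ (M * n)) (pow_pos hρ0 _).le (hu2 n) (hv2 n)
    fun i => OrdX_abs (pow_pos hρ0 _).le (huv n i) rfl⟩

theorem ord_one {g : ℕ} {P : MvPolynomial (Fin g) ℂ} (hP : P.coeff 0 = 0) {ρ C : ℝ} (hρ0 : 0 < ρ)
    (hρ1 : ρ < 1) {u : ℕ → Fin g → ℂ} (hu : ∀ n i, ‖u n i‖ ≤ C * ρ ^ n) :
    ∃ C'' : ℝ, ∀ n, ‖eval (u n) P‖ ≤ C'' * ρ ^ n := by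
  obtain ⟨B, _, hB⟩ := OrdX_p1 P (abs_nonneg C)
  obtain ⟨hu1, hu2⟩ := OrdX_seq hρ0 hρ1 hu
  refine ⟨B, fun n => ?_⟩
  have h1 := hB (u n) (ρ ^ n) (pow_pos hρ0 _).le (hu2 n) (hu1 n)
  rwa [hP, sub_zero] at h1

theorem ord_two {g : ℕ} {R : MvPolynomial (Fin g) ℂ}
    (hR : ∀ m : Fin g →₀ ℕ, m.degree < 2 → R.coeff m = 0) {ρ C C' : ℝ} (hρ0 : 0 < ρ) (hρ1 : ρ < 1)
    {M : ℕ} {u v : ℕ → Fin g → ℂ} (hu : ∀ n i, ‖u n i‖ ≤ C * ρ ^ n)
    (hv : ∀ n i, ‖v n i‖ ≤ C * ρ ^ n) (huv : ∀ n i, ‖u n i - v n i‖ ≤ C' * ρ ^ (M * n)) :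
    ∃ C'' : ℝ, ∀ n, ‖eval (u n) R - eval (v n) R‖ ≤ C'' * ρ ^ ((M + 1) * n) := by
  obtain ⟨B, _, hB⟩ := OrdX_d2 R (abs_nonneg C) (abs_nonneg C')
  obtain ⟨hu1, hu2⟩ := OrdX_seq hρ0 hρ1 hu
  obtain ⟨hv1, hv2⟩ := OrdX_seq hρ0 hρ1 hv
  refine ⟨B, fun n => ?_⟩
  have h1 := hB (u n) (v n) (ρ ^ n) (ρ ^ (M * n)) (pow_pos hρ0 _).le (pow_pos hρ0 _).le (hu2 n)
    (hv2 n) (hu1 n) (hv1 n) fun i => OrdX_abs (pow_pos hρ0 _).le (huv n i) rfl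
  rw [(OrdX_zero hR).2 fun i => u n i - v n i, sub_zero, ← pow_add] at h1
  have e1 : (M + 1) * n = M * n + n := by ring
  rw [e1]
  exact h1

theorem ord_pt {g : ℕ} {R : MvPolynomial (Fin g) ℂ}
    (hR : ∀ m : Fin g →₀ ℕ, m.degree < 2 → R.coeff m = 0) :
    ∃ c : ℝ, 0 ≤ c ∧ ∀ δ : Fin g → ℂ, ‖δ‖ ≤ 1 → ‖eval δ R‖ ≤ c * ‖δ‖ ^ 2 := by
  obtain ⟨B, hB0, hB⟩ := OrdX_p2 R zero_le_one
  refine ⟨B, hB0, fun δ hδ => ?_⟩
  have h1 := hB δ ‖δ‖ (norm_nonneg _) (fun i => (norm_le_pi_norm δ i).trans hδ)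
    fun i => by rw [one_mul]; exact norm_le_pi_norm δ i
  rwa [(OrdX_zero hR).2 δ, (OrdX_zero hR).1, sub_zero, sub_zero] at h1

end MP_f4ff90_agE
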