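import Pool.Agent.Lib.MP_f4ff90_agE.QuaX
import Pool.Agent.Lib.MP_f4ff90_agE.OrdX

/-!
LEAF LocX.  Along the orbit all coordinates are polynomials in the adapted coordinates `y n = S (z n - q)` up to `O (ρ ^ (M n))`.
-/

set_option autoImplicit false

open Filter Topology MvPolynomial

namespace MP_f4ff90_agE

private lemma LocX_y {g d : ℕ} {ρ C : ℝ} (hρ0 : 0 < ρ) (S : Matrix (Fin d) (Fin g) ℂ)
    {u : ℕ → Fin g → ℂ} (hu : ∀ n i, ‖u n i‖ ≤ C * ρ ^ n) :
    ∃ Cy : ℝ, ∀ n i, ‖S.mulVec (u n) i‖ ≤ Cy * ρ ^ n := by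
  refine ⟨∑ i, ∑ l, ‖S i l‖ * |C|, fun n i => ?_⟩
  have hp : (0 : ℝ) ≤ ρ ^ n := pow_nonneg hρ0.le n
  have h1 : ‖S.mulVec (u n) i‖ ≤ ∑ l, ‖S i l‖ * (|C| * ρ ^ n) := by
    have e : S.mulVec (u n) i = ∑ l, S i l * u n l := rfl
    rw [e]
    refine (norm_sum_le _ _).trans (Finset.sum_le_sum fun l _ => ?_)
    rw [norm_mul]
    refine mul_le_mul_of_nonneg_left ?_ (norm_nonneg _)
    exact (hu n l).trans (mul_le_mul_of_nonneg_right (le_abs_self C) hp)
  have h2 : ∑ l, ‖S i l‖ * (|C| * ρ ^ n) = (∑ l, ‖S i l‖ * |C|) * ρ ^ n := by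
    rw [Finset.sum_mul]
    refine Finset.sum_congr rfl fun l _ => ?_
    ring
  rw [h2] at h1
  refine h1.trans (mul_le_mul_of_nonneg_right ?_ hp)
  exact Finset.single_le_sum (f := fun i => ∑ l, ‖S i l‖ * |C|)
    (fun j _ => Finset.sum_nonneg fun l _ => mul_nonneg (norm_nonneg _) (abs_nonneg _))
    (Finset.mem_univ i)

private lemma LocX_unif {m : ℕ} {f : Fin m → ℕ → ℝ} {b : ℕ → ℝ} (hb : ∀ n, 0 ≤ b n)
    (h : ∀ k, ∃ C : ℝ, ∀ n, f k n ≤ C * b n) : ∃ C : ℝ, 0 ≤ C ∧ ∀ k n, f k n ≤ C * b n := by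
  choose c hc using h
  refine ⟨∑ k, |c k|, Finset.sum_nonneg fun k _ => abs_nonneg _, fun k n => ?_⟩
  refine (hc k n).trans (mul_le_mul_of_nonneg_right ?_ (hb n))
  exact (le_abs_self _).trans (Finset.single_le_sum (f := fun k => |c k|)
    (fun j _ => abs_nonneg _) (Finset.mem_univ k))

private lemma LocX_bind {a b : ℕ} (p : Fin a → MvPolynomial (Fin b) ℂ) (x : Fin b → ℂ)
    (R : MvPolynomial (Fin a) ℂ) :
    eval x (bind₁ p R) = eval (fun i => eval x (p i)) R :=
  eval₂Hom_bind₁ (RingHom.id ℂ) x p R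

private lemma LocX_zero {a : ℕ} (P : MvPolynomial (Fin a) ℂ) : P.coeff 0 = eval 0 P := by
  rw [MvPolynomial.eval_zero]
  rfl

theorem loc {g d : ℕ} {q : Fin g → ℂ} {z : ℕ → Fin g → ℂ} {E : Set (MvPolynomial (Fin g) ℂ)}
    (hE : ∀ P ∈ E, eval q P = 0) (hzE : ∀ n, ∀ P ∈ E, eval (z n) P = 0) {ρ C : ℝ} (hρ0 : 0 < ρ)
    (hρ1 : ρ < 1) (hc : ∀ n i, ‖z n i - q i‖ ≤ C * ρ ^ n) {J : Matrix (Fin g) (Fin g) ℂ}
    {S : Matrix (Fin d) (Fin g) ℂ} {S' : Matrix (Fin g) (Fin d) ℂ} {T : Matrix (Fin d) (Fin d) ℂ}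
    (hF : Frame J (TanE E q) S S' T) (M : ℕ) :
    ∃ p : Fin g → MvPolynomial (Fin d) ℂ, (∀ k, (p k).coeff 0 = 0) ∧ ∃ C' : ℝ, ∀ n k,
      ‖z n k - q k - eval (S.mulVec (fun l => z n l - q l)) (p k)‖ ≤ C' * ρ ^ (M * n) := by
  -- the quadratic remainders
  have hR : ∀ k : Fin g, ∃ R : MvPolynomial (Fin g) ℂ,
      (∀ m : Fin g →₀ ℕ, m.degree < 2 → R.coeff m = 0) ∧
      ∀ x : Fin g → ℂ, (∀ P ∈ E, eval x P = 0) →
        ∑ j, ((if j = k then 1 else 0) - (S' * S) k j) * (x j - q j) =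
          eval (fun j => x j - q j) R := by
    intro k
    refine quad E q hE (fun j => (if j = k then 1 else 0) - (S' * S) k j) fun v hv => ?_
    have h1 : (S'.mulVec (S.mulVec v)) k = v k := by rw [hF.left v hv]
    rw [Matrix.mulVec_mulVec] at h1
    have h2 : ((S' * S).mulVec v) k = ∑ j, (S' * S) k j * v j := rfl
    simp only [sub_mul, Finset.sum_sub_distrib, ite_mul, one_mul, zero_mul, Finset.sum_ite_eq',
      Finset.mem_univ, if_true]
    rw [← h2, h1, sub_self]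
  choose R hR2 hRe using hR
  have hδ : ∀ n k, z n k - q k = (∑ i, S' k i * S.mulVec (fun l => z n l - q l) i) +
      eval (fun l => z n l - q l) (R k) := by
    intro n k
    have h1 := hRe k (z n) (hzE n)
    have h2 : ((S' * S).mulVec (fun l => z n l - q l)) k =
        ∑ j, (S' * S) k j * (z n j - q j) := rfl
    have h3 : (S'.mulVec (S.mulVec (fun l => z n l - q l))) k =
        ∑ i, S' k i * S.mulVec (fun l => z n l - q l) i := rfl
    simp only [sub_mul, Finset.sum_sub_distrib, ite_mul, one_mul, zero_mul, Finset.sum_ite_eq',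
      Finset.mem_univ, if_true] at h1
    rw [← h3, Matrix.mulVec_mulVec, h2, ← h1]
    ring
  obtain ⟨Cy, hCy⟩ := LocX_y hρ0 S (u := fun n l => z n l - q l) hc
  induction M with
  | zero =>
    refine ⟨fun _ => 0, fun k => MvPolynomial.coeff_zero _, |C|, fun n k => ?_⟩
    rw [map_zero, sub_zero, Nat.zero_mul, pow_zero, mul_one]
    refine (hc n k).trans ?_
    have h1 : C * ρ ^ n ≤ |C| * ρ ^ n :=
      mul_le_mul_of_nonneg_right (le_abs_self C) (pow_nonneg hρ0.le n)
    have h2 : |C| * ρ ^ n ≤ |C| * 1 :=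
      mul_le_mul_of_nonneg_left (pow_le_one₀ hρ0.le hρ1.le) (abs_nonneg _)
    rw [mul_one] at h2
    exact h1.trans h2
  | succ M ih =>
    obtain ⟨p, hp0, C', hp⟩ := ih
    refine ⟨fun k => (∑ i, MvPolynomial.C (S' k i) * X i) + bind₁ p (R k), fun k => ?_, ?_⟩
    · rw [LocX_zero, map_add, map_sum, LocX_bind]
      have h1 : (fun i => eval (0 : Fin d → ℂ) (p i)) = 0 := by
        funext i
        rw [← LocX_zero, hp0]
        rfl
      rw [h1, ← LocX_zero (R k), hR2 k 0 (by rw [map_zero]; norm_num), add_zero]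
      refine Finset.sum_eq_zero fun i _ => ?_
      rw [map_mul, eval_X, Pi.zero_apply, mul_zero]
    · have hv := LocX_unif (f := fun i n => ‖eval (S.mulVec (fun l => z n l - q l)) (p i)‖)
        (b := fun n => ρ ^ n) (fun n => pow_nonneg hρ0.le n)
        (fun i => ord_one (hp0 i) hρ0 hρ1 (u := fun n => S.mulVec (fun l => z n l - q l)) hCy)
      obtain ⟨Cv, hCv0, hCv⟩ := hv
      have hu' : ∀ n i, ‖z n i - q i‖ ≤ (|C| + Cv) * ρ ^ n := by
        intro n i
        refine (hc n i).trans (mul_le_mul_of_nonneg_right ?_ (pow_nonneg hρ0.le n))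
        exact (le_abs_self C).trans (le_add_of_nonneg_right hCv0)
      have hv' : ∀ n i, ‖eval (S.mulVec (fun l => z n l - q l)) (p i)‖ ≤ (|C| + Cv) * ρ ^ n := by
        intro n i
        refine (hCv i n).trans (mul_le_mul_of_nonneg_right ?_ (pow_nonneg hρ0.le n))
        exact le_add_of_nonneg_left (abs_nonneg _)
      have hk : ∀ k, ∃ C'' : ℝ, ∀ n, ‖eval (fun l => z n l - q l) (R k) -
          eval (fun i => eval (S.mulVec (fun l => z n l - q l)) (p i)) (R k)‖ ≤
            C'' * ρ ^ ((M + 1) * n) := fun k =>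
        ord_two (hR2 k) hρ0 hρ1 (M := M) (C := |C| + Cv) (C' := C')
          (u := fun n l => z n l - q l)
          (v := fun n i => eval (S.mulVec (fun l => z n l - q l)) (p i)) hu' hv' hp
      obtain ⟨C2, -, hC2⟩ := LocX_unif (f := fun k n => ‖eval (fun l => z n l - q l) (R k) -
          eval (fun i => eval (S.mulVec (fun l => z n l - q l)) (p i)) (R k)‖)
        (b := fun n => ρ ^ ((M + 1) * n)) (fun n => pow_nonneg hρ0.le _) hk
      refine ⟨C2, fun n k => ?_⟩
      have e : z n k - q k - eval (S.mulVec (fun l => z n l - q l))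
          ((∑ i, MvPolynomial.C (S' k i) * X i) + bind₁ p (R k)) =
          eval (fun l => z n l - q l) (R k) -
          eval (fun i => eval (S.mulVec (fun l => z n l - q l)) (p i)) (R k) := by
        rw [map_add, map_sum, LocX_bind]
        have h1 : ∑ i, eval (S.mulVec (fun l => z n l - q l)) (MvPolynomial.C (S' k i) * X i) =
            ∑ i, S' k i * S.mulVec (fun l => z n l - q l) i := by
          refine Finset.sum_congr rfl fun i _ => ?_
          rw [map_mul, eval_C, eval_X]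
        rw [h1]
        have h2 := hδ n k
        linear_combination h2
      rw [e]
      exact hC2 k n

end MP_f4ff90_agE
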