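import Pool.Agent.Lib.MP_f4ff90_agE.Van

/-!
# Orbits converging to an etale fixed point: the main theorem
-/

set_option autoImplicit false

open Filter Topology MvPolynomial

namespace MP_f4ff90_agE

theorem hyp_main_of {g : ℕ} {K : Type*} [Field K] (τ : K →+* ℂ)
    (num den : Fin g → MvPolynomial (Fin g) K) (x : ℕ → Fin g → K)
    (hx : Pool.Agent.Lib.MP_f4ff90_ag.IsOrbit num den x) (q : Fin g → ℂ) {ρ C : ℝ} (hρ0 : 0 < ρ)
    (hρ1 : ρ < 1) (hc : ∀ n i, ‖τ (x n i) - q i‖ ≤ C * ρ ^ n)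
    (hD : ∀ i, eval q (map τ (den i)) ≠ 0) (lam : Fin g → ℂ) (h0 : ∀ i, lam i ≠ 0)
    (hJ : (Jac (fun i => map τ (num i)) (fun i => map τ (den i)) q).charpoly =
      ∏ i, (Polynomial.X - Polynomial.C (lam i))) {m : ℕ} (hm : 0 < m)
    (Hm : ∀ μ ∈ Submonoid.closure (Set.range lam), ∀ μ' ∈ Submonoid.closure (Set.range lam),
      ‖μ‖ = ‖μ'‖ → μ ^ m = μ' ^ m) :
    Pool.Agent.Lib.MP_f4ff90_ag.HypPeriodic m x := by
  intro P
  have hval : ∀ (Q : MvPolynomial (Fin g) K) (n : ℕ), eval (fun i => τ (x n i)) (map τ Q) =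
      τ (eval (x n) Q) := by
    intro Q n
    rw [eval_map]
    exact (eval₂_comp (f := τ) (g := x n) (p := Q)).symm
  have hz : Orb (fun i => map τ (num i)) (fun i => map τ (den i)) (fun n i => τ (x n i)) := by
    intro n i
    rw [hval, hval]
    refine ⟨(map_ne_zero τ).2 (hx n i).1, ?_⟩
    show τ (x (n + 1) i) = _
    rw [(hx n i).2, map_div₀]
  have hdet : IsUnit (Jac (fun i => map τ (num i)) (fun i => map τ (den i)) q) := by
    rw [Matrix.isUnit_iff_isUnit_det, isUnit_iff_ne_zero]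
    have h1 := Matrix.det_eq_sign_charpoly_coeff
      (Jac (fun i => map τ (num i)) (fun i => map τ (den i)) q)
    rw [h1, hJ, Polynomial.coeff_zero_eq_eval_zero, Polynomial.eval_prod]
    refine mul_ne_zero (pow_ne_zero _ (by norm_num)) (Finset.prod_ne_zero_iff.2 fun i _ => ?_)
    simpa using h0 i
  have key : ∀ c : ℕ, (∃ k₀, ∀ k ≥ k₀, eval (x (c + m * k)) P ≠ 0) ∨
      ∃ k₀, ∀ k ≥ k₀, eval (x (c + m * k)) P = 0 := by
    intro c
    rcases pol_dich hz hρ0 hρ1 hc hD lam h0 hJ hm Hm (map τ P) c with ⟨k₀, h⟩ | h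
    · left
      refine ⟨k₀, fun k hk h2 => h k hk ?_⟩
      rw [hval, h2, map_zero]
    · right
      obtain ⟨k₀, h2⟩ := vanish hz hρ0 hρ1 hc hD hdet hm (map τ P) c h
      refine ⟨k₀, fun k hk => ?_⟩
      have h3 := h2 k hk
      rw [hval] at h3
      exact (map_eq_zero τ).1 h3
  have key2 : ∀ c : ℕ, ∃ k₀, ∀ k ≥ k₀, (eval (x (c + m * (k + 1))) P = 0 ↔
      eval (x (c + m * k)) P = 0) := by
    intro c
    rcases key c with ⟨k₀, h⟩ | ⟨k₀, h⟩
    · exact ⟨k₀, fun k hk => iff_of_false (h _ (hk.trans (Nat.le_succ k))) (h k hk)⟩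
    · exact ⟨k₀, fun k hk => iff_of_true (h _ (hk.trans (Nat.le_succ k))) (h k hk)⟩
  choose k₀ hk₀ using key2
  refine ⟨m * ((Finset.range m).sup k₀ + 1), fun n hn => ?_⟩
  have h1 : n % m + m * (n / m) = n := Nat.mod_add_div n m
  have h2 : n % m + m * (n / m + 1) = n + m := by rw [mul_add, mul_one, ← add_assoc, h1]
  have h3 : k₀ (n % m) ≤ n / m := by
    have h4 : k₀ (n % m) ≤ (Finset.range m).sup k₀ :=
      Finset.le_sup (Finset.mem_range.2 (Nat.mod_lt _ hm))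
    have h5 : (Finset.range m).sup k₀ + 1 ≤ n / m := (Nat.le_div_iff_mul_le hm).2 (by rwa [mul_comm])
    omega
  have h6 := hk₀ (n % m) (n / m) h3
  rw [h1, h2] at h6
  exact h6

end MP_f4ff90_agE
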