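import Mathlib


/-!
LEAF Rot.  No rotation.
PROOF.  The set of the `δ : Fin g → ℤ` with `‖∏ lam i ^ δ i‖ = 1` is a subgroup of `Fin g → ℤ` (`zpow_add₀`, `Finset.prod_mul_distrib`), so finitely generated (`ℤ` is noetherian; `AddSubgroup.toIntSubmodule`,
`IsNoetherian`), by `δ_1, .., δ_t`; let `k_j > 0` with `(∏ lam ^ δ_j)^(k_j) = 1` and `m = ∏ k_j`.  Then `(∏ lam^δ)^m = 1` on the subgroup (closure induction).  Elements of the monoid generated by the `lam i` are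
`∏ lam i ^ β i`, `β : Fin g → ℕ` (`Submonoid.closure_induction`); if `‖μ‖ = ‖μ'‖` then `μ / μ' = ∏ lam^(β - β')` has norm 1, so `(μ/μ')^m = 1`.
-/

set_option autoImplicit false

open Filter Topology MvPolynomial

namespace MP_f4ff90_agE

private noncomputable def Rot_ch {g : ℕ} (lam : Fin g → ℂ) (δ : Fin g → ℤ) : ℂ := ∏ i, lam i ^ δ i

private theorem Rot_zero {g : ℕ} (lam : Fin g → ℂ) : Rot_ch lam 0 = 1 := by
  simp [Rot_ch]

private theorem Rot_add {g : ℕ} {lam : Fin g → ℂ} (h0 : ∀ i, lam i ≠ 0) (a b : Fin g → ℤ) :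
    Rot_ch lam (a + b) = Rot_ch lam a * Rot_ch lam b := by
  unfold Rot_ch
  rw [← Finset.prod_mul_distrib]
  refine Finset.prod_congr rfl fun i _ => ?_
  rw [Pi.add_apply, zpow_add₀ (h0 i)]

private theorem Rot_smul {g : ℕ} (lam : Fin g → ℂ) (c : ℤ) (a : Fin g → ℤ) :
    Rot_ch lam (c • a) = Rot_ch lam a ^ c := by
  unfold Rot_ch
  rw [← Finset.prod_zpow]
  refine Finset.prod_congr rfl fun i _ => ?_
  rw [Pi.smul_apply, smul_eq_mul, mul_comm, zpow_mul]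

private theorem Rot_ne {g : ℕ} {lam : Fin g → ℂ} (h0 : ∀ i, lam i ≠ 0) (a : Fin g → ℤ) :
    Rot_ch lam a ≠ 0 :=
  Finset.prod_ne_zero_iff.2 fun i _ => zpow_ne_zero _ (h0 i)

private theorem Rot_mem {g : ℕ} {lam : Fin g → ℂ} (h0 : ∀ i, lam i ≠ 0) {μ : ℂ}
    (h : μ ∈ Submonoid.closure (Set.range lam)) : ∃ β : Fin g → ℤ, μ = Rot_ch lam β := by
  classical
  induction h using Submonoid.closure_induction with
  | mem x hx =>
    obtain ⟨i, rfl⟩ := hx
    refine ⟨Pi.single i 1, ?_⟩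
    unfold Rot_ch
    rw [Finset.prod_eq_single i]
    · rw [Pi.single_eq_same, zpow_one]
    · intro j _ hj
      rw [Pi.single_eq_of_ne hj, zpow_zero]
    · intro h
      exact absurd (Finset.mem_univ _) h
  | one => exact ⟨0, (Rot_zero lam).symm⟩
  | mul x y _ _ hx hy =>
    obtain ⟨a, rfl⟩ := hx
    obtain ⟨b, rfl⟩ := hy
    exact ⟨a + b, (Rot_add h0 a b).symm⟩

theorem no_rot {g : ℕ} (lam : Fin g → ℂ) (h0 : ∀ i, lam i ≠ 0)
    (H : ∀ δ : Fin g → ℤ, ‖∏ i, lam i ^ δ i‖ = 1 → ∃ k : ℕ, 0 < k ∧ (∏ i, lam i ^ δ i) ^ k = 1) :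
    ∃ m : ℕ, 0 < m ∧ ∀ μ ∈ Submonoid.closure (Set.range lam), ∀ μ' ∈ Submonoid.closure (Set.range lam),
      ‖μ‖ = ‖μ'‖ → μ ^ m = μ' ^ m := by
  classical
  let S : Submodule ℤ (Fin g → ℤ) :=
    { carrier := {δ | ‖Rot_ch lam δ‖ = 1}
      add_mem' := by
        intro a b ha hb
        change ‖Rot_ch lam (a + b)‖ = 1
        rw [Rot_add h0, norm_mul, show ‖Rot_ch lam a‖ = 1 from ha, show ‖Rot_ch lam b‖ = 1 from hb, mul_one]
      zero_mem' := by
        change ‖Rot_ch lam 0‖ = 1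
        rw [Rot_zero, norm_one]
      smul_mem' := by
        intro c a ha
        change ‖Rot_ch lam (c • a)‖ = 1
        rw [Rot_smul, norm_zpow, show ‖Rot_ch lam a‖ = 1 from ha, one_zpow] }
  have hfg : S.FG := IsNoetherian.noetherian S
  obtain ⟨T, hT⟩ := hfg
  have hk : ∀ δ : Fin g → ℤ, ∃ k : ℕ, 0 < k ∧ (‖Rot_ch lam δ‖ = 1 → Rot_ch lam δ ^ k = 1) := by
    intro δ
    by_cases h : ‖Rot_ch lam δ‖ = 1
    · obtain ⟨k, hk, hk1⟩ := H δ h
      exact ⟨k, hk, fun _ => hk1⟩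
    · exact ⟨1, one_pos, fun h1 => absurd h1 h⟩
  choose k hk0 hk1 using hk
  have hall : ∀ δ ∈ S, Rot_ch lam δ ^ (∏ τ ∈ T, k τ) = 1 := by
    intro δ hδ
    rw [← hT] at hδ
    induction hδ using Submodule.span_induction with
    | mem x hx =>
      have hxT : x ∈ T := hx
      have hxS : x ∈ S := by
        rw [← hT]
        exact Submodule.subset_span hx
      obtain ⟨c, hc⟩ := Finset.dvd_prod_of_mem k hxT
      rw [hc, pow_mul, hk1 x hxS, one_pow]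
    | zero => rw [Rot_zero, one_pow]
    | add x y _ _ hx hy => rw [Rot_add h0, mul_pow, hx, hy, mul_one]
    | smul c x _ hx =>
      rw [Rot_smul, ← zpow_natCast, zpow_comm, zpow_natCast, hx, one_zpow]
  refine ⟨∏ τ ∈ T, k τ, Finset.prod_pos fun τ _ => hk0 τ, ?_⟩
  intro μ hμ μ' hμ' hn
  obtain ⟨a, rfl⟩ := Rot_mem h0 hμ
  obtain ⟨b, rfl⟩ := Rot_mem h0 hμ'
  have h1 : Rot_ch lam (a - b) * Rot_ch lam b = Rot_ch lam a := by
    rw [← Rot_add h0, sub_add_cancel]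
  have h2 : ‖Rot_ch lam b‖ ≠ 0 := norm_ne_zero_iff.2 (Rot_ne h0 b)
  have h3 : ‖Rot_ch lam (a - b)‖ = 1 := by
    have h4 := congrArg norm h1
    rw [norm_mul, hn] at h4
    exact mul_right_cancel₀ h2 (h4.trans (one_mul _).symm)
  have h5 := hall (a - b) h3
  rw [← h1, mul_pow, h5, one_mul]

end MP_f4ff90_agE
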