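import Pool.Agent.Lib.MP_f4ff90_agE.DefX
import Pool.Agent.Lib.MP_f4ff90_agE.Pul

/-!
LEAF TanX.  The jacobian matrix at a fixed point of a self-map of `X` preserves the Zariski tangent space of `X`.
PROOF.  `pull_diff`: let `P(q) = 0`, `q` a fixed point with non-vanishing denominators, `P'` a pull-back of `P` with the exponent `e`: near `q`, `eval v P' = eval (f v) P * (∏ D_i(v))^e`; differentiate at `q` (product rule, `P(f(q)) = P(q) = 0`, chain rule):
`∂_j P'(q) = u * ∑_l ∂_l P(q) * Jac l j`, `u = (∏ D_i(q))^e ≠ 0`.  (Analytic: `HasFDerivAt` of polynomial functions and uniqueness of derivatives, cf. `FOr.lean`; or algebraic: prove the formula for the explicit pull-back built by `induction_on` and compare two pull-backs: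
`P' (∏D)^(a+1) = A (∏D)^(e+1)` as polynomials, `MvPolynomial.funext`.)
`pull_base`: for every `P` over `K` there is an explicit pull-back `A` over `K` with exponent `a` valid over `K` and, after `map τ`, over `ℂ` (induction as in `exists_pull`); `hself` gives `P' ∈ span E` over `K` with `P' (∏ den)^(a+1) = A (∏ den)^(e+1)` at all points of `K^g`, so as polynomials (`K` is infinite,
`MvPolynomial.funext`), so `map τ P'` is a pull-back of `map τ P`.
`tan_inv`: for `v` in the tangent space and `P ∈ E`: `∑_j ∂_j (map τ P')(q) v_j = 0` since `P' ∈ span E` and all elements of `E` vanish at `q`; by `pull_diff` this is `u * ∑_l ∂_l P(q) * (Jac v)_l`.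
-/

set_option autoImplicit false

open Filter Topology MvPolynomial

namespace MP_f4ff90_agE

/-- `f = num / den` is a rational self-map of the closed set `X` with the equations `E` -/
def SelfMap {g : ℕ} {K : Type*} [Field K] (num den : Fin g → MvPolynomial (Fin g) K)
    (E : Set (MvPolynomial (Fin g) K)) : Prop :=
  ∀ P ∈ E, ∃ P' ∈ Ideal.span E, ∃ e : ℕ, ∀ v : Fin g → K, (∀ i, eval v (den i) ≠ 0) →
    eval v P' = eval (fun i => eval v (num i) / eval v (den i)) P * (∏ i, eval v (den i)) ^ e

/-- chain rule for polynomial functions -/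
private theorem TanX_chain {g : ℕ} (P : MvPolynomial (Fin g) ℂ) {w : ℂ → Fin g → ℂ} {w' : Fin g → ℂ}
    {t : ℂ} (hw : ∀ l, HasDerivAt (fun s => w s l) (w' l) t) :
    HasDerivAt (fun s => eval (w s) P) (∑ l, eval (w t) (pderiv l P) * w' l) t := by
  classical
  induction P using MvPolynomial.induction_on with
  | C a =>
    have h1 : ∑ l, eval (w t) (pderiv l (C a)) * w' l = 0 := by
      refine Finset.sum_eq_zero fun l _ => ?_
      rw [pderiv_C, map_zero, zero_mul]
    rw [h1]
    simp only [eval_C]
    exact hasDerivAt_const t a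
  | add P Q hP hQ =>
    have h1 : ∑ l, eval (w t) (pderiv l (P + Q)) * w' l =
        ∑ l, eval (w t) (pderiv l P) * w' l + ∑ l, eval (w t) (pderiv l Q) * w' l := by
      rw [← Finset.sum_add_distrib]
      refine Finset.sum_congr rfl fun l _ => ?_
      rw [map_add, map_add, add_mul]
    rw [h1]
    simp only [map_add]
    exact hP.add hQ
  | mul_X P i hP =>
    have h1 : ∑ l, eval (w t) (pderiv l (P * X i)) * w' l =
        (∑ l, eval (w t) (pderiv l P) * w' l) * w t i + eval (w t) P * w' i := by
      have h2 : ∀ l, eval (w t) (pderiv l (P * X i)) * w' l =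
          eval (w t) (pderiv l P) * w' l * w t i + (if l = i then eval (w t) P * w' l else 0) := by
        intro l
        rw [pderiv_mul, pderiv_X, map_add, map_mul, map_mul, eval_X]
        by_cases h : l = i
        · subst h
          rw [Pi.single_eq_same, map_one, if_pos rfl]
          ring
        · rw [Pi.single_eq_of_ne (Ne.symm h), map_zero, if_neg h]
          ring
      rw [Finset.sum_congr rfl fun l _ => h2 l, Finset.sum_add_distrib, ← Finset.sum_mul,
        Finset.sum_ite_eq' Finset.univ i, if_pos (Finset.mem_univ i)]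
    rw [h1]
    simp only [map_mul, eval_X]
    exact hP.mul (hw i)

theorem pull_diff {g : ℕ} {N D : Fin g → MvPolynomial (Fin g) ℂ} {q : Fin g → ℂ}
    (hD : ∀ i, eval q (D i) ≠ 0) (hq : ∀ i, eval q (N i) / eval q (D i) = q i)
    {P P' : MvPolynomial (Fin g) ℂ} (h : IsPull N D P P') (hP : eval q P = 0) :
    ∃ u : ℂ, u ≠ 0 ∧ ∀ j, eval q (pderiv j P') = u * ∑ l, eval q (pderiv l P) * Jac N D q l j := by
  classical
  obtain ⟨E, hE⟩ := h
  refine ⟨(∏ i, eval q (D i)) ^ E, pow_ne_zero _ (Finset.prod_ne_zero_iff.mpr fun i _ => hD i), ?_⟩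
  intro j
  -- the line
  let w : ℂ → Fin g → ℂ := fun s l => q l + s * (if l = j then 1 else 0)
  have hw0 : w 0 = q := by
    funext l
    show q l + 0 * _ = q l
    rw [zero_mul, add_zero]
  have hw : ∀ l, HasDerivAt (fun s => w s l) (if l = j then 1 else 0) 0 := by
    intro l
    have h1 := ((hasDerivAt_id (0 : ℂ)).mul_const (if l = j then (1 : ℂ) else 0)).const_add (q l)
    rw [one_mul] at h1
    exact h1
  have hsum : ∀ Q : MvPolynomial (Fin g) ℂ,
      ∑ l, eval (w 0) (pderiv l Q) * (if l = j then (1 : ℂ) else 0) = eval q (pderiv j Q) := by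
    intro Q
    rw [hw0]
    simp only [mul_ite, mul_one, mul_zero]
    rw [Finset.sum_ite_eq' Finset.univ j, if_pos (Finset.mem_univ j)]
  have hpoly : ∀ Q : MvPolynomial (Fin g) ℂ,
      HasDerivAt (fun s => eval (w s) Q) (eval q (pderiv j Q)) 0 := by
    intro Q
    have h1 := TanX_chain Q hw
    rwa [hsum] at h1
  -- the image of the line
  let f : ℂ → Fin g → ℂ := fun s i => eval (w s) (N i) / eval (w s) (D i)
  have hf0 : f 0 = q := by
    funext i
    show eval (w 0) (N i) / eval (w 0) (D i) = q i
    rw [hw0, hq]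
  have hf : ∀ l, HasDerivAt (fun s => f s l) (Jac N D q l j) 0 := by
    intro l
    have h1 := (hpoly (N l)).div (hpoly (D l)) (by rw [hw0]; exact hD l)
    rw [hw0] at h1
    exact h1
  have hfP := TanX_chain P hf
  rw [hf0] at hfP
  have hΔ := hpoly ((∏ i, D i) ^ E)
  have hmul := hfP.mul hΔ
  have e1 : eval (f 0) P = 0 := by rw [hf0, hP]
  have e2 : eval (w 0) ((∏ i, D i) ^ E) = (∏ i, eval q (D i)) ^ E := by
    rw [hw0, map_pow, map_prod]
  rw [e1, e2, zero_mul, add_zero] at hmul
  have hev : (fun s => eval (w s) P') =ᶠ[nhds 0]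
      fun s => eval (f s) P * eval (w s) ((∏ i, D i) ^ E) := by
    have h1 : ∀ᶠ s in nhds (0 : ℂ), ∀ i, eval (w s) (D i) ≠ 0 := by
      rw [Filter.eventually_all]
      intro i
      have h2 := (hpoly (D i)).continuousAt
      exact h2.eventually_ne (by rw [hw0]; exact hD i)
    filter_upwards [h1] with s hs
    rw [hE (w s) hs, map_pow, map_prod]
  have hP' := (hpoly P').congr_of_eventuallyEq hev.symm
  have huniq := hP'.unique hmul
  rw [huniq]
  ring

theorem pull_base {g : ℕ} {K : Type*} [Field K] (τ : K →+* ℂ)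
    {num den : Fin g → MvPolynomial (Fin g) K} {E : Set (MvPolynomial (Fin g) K)}
    (hself : SelfMap num den E) (P : MvPolynomial (Fin g) K) (hP : P ∈ E) :
    ∃ P' ∈ Ideal.span E,
      IsPull (fun i => map τ (num i)) (fun i => map τ (den i)) (map τ P) (map τ P') := by
  classical
  have hτ : Function.Injective τ := τ.injective
  have : CharZero K := (RingHom.charZero_iff hτ).mpr inferInstance
  have : Infinite K := inferInstance
  -- an explicit pull-back
  have hA : ∀ P : MvPolynomial (Fin g) K, ∃ (A : MvPolynomial (Fin g) K) (a : ℕ),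
      ∀ w : Fin g → ℂ, (∀ i, eval w (map τ (den i)) ≠ 0) →
        eval w (map τ A) = eval (fun i => eval w (map τ (num i)) / eval w (map τ (den i))) (map τ P) *
          (∏ i, eval w (map τ (den i))) ^ a := by
    intro P
    induction P using MvPolynomial.induction_on with
    | C z => exact ⟨C z, 0, fun w _ => by rw [map_C, eval_C, eval_C, pow_zero, mul_one]⟩
    | add P Q hP hQ =>
      obtain ⟨P', e, h⟩ := hP
      obtain ⟨Q', e', h'⟩ := hQ
      refine ⟨P' * (∏ j, den j) ^ e' + Q' * (∏ j, den j) ^ e, e + e', fun w hw => ?_⟩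
      simp only [map_add, map_mul, map_pow, map_prod]
      rw [h w hw, h' w hw, pow_add]
      ring
    | mul_X P i hP =>
      obtain ⟨P', e, h⟩ := hP
      refine ⟨P' * (num i * ∏ j ∈ Finset.univ.erase i, den j), e + 1, fun w hw => ?_⟩
      have h1 : ∏ j, eval w (map τ (den j)) =
          eval w (map τ (den i)) * ∏ j ∈ Finset.univ.erase i, eval w (map τ (den j)) := by
        rw [← Finset.mul_prod_erase Finset.univ _ (Finset.mem_univ i)]
      have h3 : eval w (map τ (den i)) ≠ 0 := hw i
      simp only [map_mul, map_prod, map_X, eval_X]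
      rw [h w hw, pow_succ, h1]
      field_simp
  obtain ⟨A, a, hA⟩ := hA P
  have hev : ∀ (v : Fin g → K) (Q : MvPolynomial (Fin g) K),
      eval (fun i => τ (v i)) (map τ Q) = τ (eval v Q) := by
    intro v Q
    rw [eval_map]
    exact (MvPolynomial.eval₂_comp τ v Q).symm
  obtain ⟨P', hP', e, he⟩ := hself P hP
  refine ⟨P', hP', e, ?_⟩
  have hAK : ∀ v : Fin g → K, (∀ i, eval v (den i) ≠ 0) →
      eval v A = eval (fun i => eval v (num i) / eval v (den i)) P * (∏ i, eval v (den i)) ^ a := by
    intro v hv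
    apply hτ
    rw [← hev v A, hA (fun i => τ (v i)) (fun i => by
      rw [hev]
      exact fun h => hv i ((map_eq_zero τ).mp h))]
    have h1 : (fun i => eval (fun i => τ (v i)) (map τ (num i)) /
        eval (fun i => τ (v i)) (map τ (den i))) = fun i => τ (eval v (num i) / eval v (den i)) := by
      funext i
      rw [hev, hev, map_div₀]
    rw [h1, hev (fun i => eval v (num i) / eval v (den i)) P, map_mul, map_pow, map_prod]
    simp only [hev]
  have hpol : P' * (∏ i, den i) ^ (a + 1) = A * (∏ i, den i) ^ (e + 1) := by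
    refine MvPolynomial.funext fun v => ?_
    rw [map_mul, map_mul, map_pow, map_pow, map_prod]
    by_cases hv : ∀ i, eval v (den i) ≠ 0
    · rw [he v hv, hAK v hv]
      ring
    · push Not at hv
      obtain ⟨i, hi⟩ := hv
      have h0 : ∏ i, eval v (den i) = 0 := Finset.prod_eq_zero (Finset.mem_univ i) hi
      rw [h0, zero_pow (Nat.succ_ne_zero _), zero_pow (Nat.succ_ne_zero _), mul_zero, mul_zero]
  intro w hw
  have h1 := congrArg (fun Q => eval w (map τ Q)) hpol
  simp only [map_mul, map_pow, map_prod] at h1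
  rw [hA w hw] at h1
  have h2 : ∏ i, eval w (map τ (den i)) ≠ 0 := Finset.prod_ne_zero_iff.mpr fun i _ => hw i
  refine mul_right_cancel₀ (pow_ne_zero (a + 1) h2) ?_
  rw [h1]
  ring

theorem tan_inv {g : ℕ} {K : Type*} [Field K] (τ : K →+* ℂ)
    {num den : Fin g → MvPolynomial (Fin g) K} {E : Set (MvPolynomial (Fin g) K)}
    (hself : SelfMap num den E) {q : Fin g → ℂ} (hE : ∀ P ∈ E, eval q (map τ P) = 0)
    (hD : ∀ i, eval q (map τ (den i)) ≠ 0)
    (hq : ∀ i, eval q (map τ (num i)) / eval q (map τ (den i)) = q i) :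
    ∀ v ∈ TanE (map τ '' E) q, (Jac (fun i => map τ (num i)) (fun i => map τ (den i)) q).mulVec v ∈
      TanE (map τ '' E) q := by
  intro v hv Q hQ
  obtain ⟨P, hP, rfl⟩ := hQ
  obtain ⟨P', hP', hpull⟩ := pull_base τ hself P hP
  obtain ⟨u, hu, hj⟩ := pull_diff hD hq hpull (hE P hP)
  have hspan : ∀ R ∈ Ideal.span E, eval q (map τ R) = 0 ∧
      ∑ j, eval q (pderiv j (map τ R)) * v j = 0 := by
    intro R hR
    refine Submodule.span_induction (p := fun R _ => eval q (map τ R) = 0 ∧
      ∑ j, eval q (pderiv j (map τ R)) * v j = 0) ?_ ?_ ?_ ?_ hR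
    · intro R hR
      exact ⟨hE R hR, hv _ ⟨R, hR, rfl⟩⟩
    · constructor
      · rw [map_zero, map_zero]
      · refine Finset.sum_eq_zero fun j _ => ?_
        rw [map_zero, map_zero, map_zero, zero_mul]
    · rintro R R' - - ⟨h1, h2⟩ ⟨h1', h2'⟩
      refine ⟨by rw [map_add, map_add, h1, h1', add_zero], ?_⟩
      have h3 : ∑ j, eval q (pderiv j (map τ (R + R'))) * v j =
          ∑ j, eval q (pderiv j (map τ R)) * v j + ∑ j, eval q (pderiv j (map τ R')) * v j := by
        rw [← Finset.sum_add_distrib]
        refine Finset.sum_congr rfl fun j _ => ?_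
        rw [map_add, map_add, map_add, add_mul]
      rw [h3, h2, h2', add_zero]
    · rintro a R - ⟨h1, h2⟩
      refine ⟨by rw [smul_eq_mul, map_mul, map_mul, h1, mul_zero], ?_⟩
      have h3 : ∑ j, eval q (pderiv j (map τ (a • R))) * v j =
          eval q (map τ a) * ∑ j, eval q (pderiv j (map τ R)) * v j := by
        rw [Finset.mul_sum]
        refine Finset.sum_congr rfl fun j _ => ?_
        rw [smul_eq_mul, map_mul, pderiv_mul, map_add, map_mul, map_mul, h1, mul_zero, zero_add]
        ring
      rw [h3, h2, mul_zero]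
  have h1 := (hspan P' hP').2
  have h2 : ∑ j, eval q (pderiv j (map τ P')) * v j = u * ∑ l, eval q (pderiv l (map τ P)) *
      (Jac (fun i => map τ (num i)) (fun i => map τ (den i)) q).mulVec v l := by
    rw [Finset.sum_congr rfl fun j _ => by rw [hj j]]
    simp only [Matrix.mulVec, dotProduct, Finset.mul_sum, Finset.sum_mul]
    rw [Finset.sum_comm]
    refine Finset.sum_congr rfl fun l _ => Finset.sum_congr rfl fun j _ => ?_
    ring
  rw [h2] at h1
  exact (mul_eq_zero.mp h1).resolve_left hu

end MP_f4ff90_agE
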