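import Pool.Agent.Lib.MP_f4ff90_agE.VanX
import Pool.Agent.Lib.MP_f4ff90_agE.BasX
import Pool.Agent.Lib.MP_f4ff90_agE.HypX
import Pool.Agent.Lib.MP_f4ff90_agE.TanX
import Pool.Agent.Lib.MP_f4ff90_agE.Rot
import Pool.Agent.Lib.MP_f4ff90_agE.Fin

/-!
# Orbits converging to a fixed point on an arbitrary variety: the main theorem
-/

set_option autoImplicit false

open Filter Topology MvPolynomial

namespace MP_f4ff90_agE

open Pool.Agent.Lib.MP_f4ff90_ag

theorem span_van {g : ℕ} {E : Set (MvPolynomial (Fin g) ℂ)} {v : Fin g → ℂ}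
    (hv : ∀ P ∈ E, eval v P = 0) {P : MvPolynomial (Fin g) ℂ} (hP : P ∈ Submodule.span ℂ E) :
    eval v P = 0 := by
  induction hP using Submodule.span_induction with
  | mem P hP => exact hv P hP
  | zero => rw [map_zero]
  | add P Q _ _ h1 h2 => rw [map_add, h1, h2, add_zero]
  | smul a P _ h1 => rw [smul_eval, h1, mul_zero]

theorem hyp_mainX {g l : ℕ} {K : Type*} [Field K] (τ : K →+* ℂ)
    (num den : Fin g → MvPolynomial (Fin g) K) (x : ℕ → Fin g → K) (hx : IsOrbit num den x)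
    (E : Set (MvPolynomial (Fin g) K)) (hxE : ∀ n, ∀ P ∈ E, eval (x n) P = 0) (q : Fin g → ℂ)
    (hE : ∀ P ∈ E, eval q (MvPolynomial.map τ P) = 0) {ρ C : ℝ} (hρ0 : 0 < ρ) (hρ1 : ρ < 1)
    (hc : ∀ n i, ‖τ (x n i) - q i‖ ≤ C * ρ ^ n) (hD : ∀ i, eval q (MvPolynomial.map τ (den i)) ≠ 0)
    (hV : ∀ v ∈ TanE (MvPolynomial.map τ '' E) q,
      (Jac (fun i => MvPolynomial.map τ (num i)) (fun i => MvPolynomial.map τ (den i)) q).mulVec v ∈ TanE (MvPolynomial.map τ '' E) q)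
    (lam : Fin l → ℂ) (h0 : ∀ i, lam i ≠ 0)
    (hlam : ∀ (μ : ℂ) (v : Fin g → ℂ), v ∈ TanE (MvPolynomial.map τ '' E) q → v ≠ 0 →
      (Jac (fun i => MvPolynomial.map τ (num i)) (fun i => MvPolynomial.map τ (den i)) q).mulVec v = μ • v →
        ∃ i, μ = lam i) {m : ℕ} (hm : 0 < m)
    (Hm : ∀ μ ∈ Submonoid.closure (Set.range lam), ∀ μ' ∈ Submonoid.closure (Set.range lam),
      ‖μ‖ = ‖μ'‖ → μ ^ m = μ' ^ m) :
    HypPeriodic m x := by
  intro P
  have hz : Orb (fun i => MvPolynomial.map τ (num i)) (fun i => MvPolynomial.map τ (den i)) (fun n i => τ (x n i)) := by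
    intro n i
    rw [eval_tau, eval_tau]
    refine ⟨(map_ne_zero τ).2 (hx n i).1, ?_⟩
    show τ (x (n + 1) i) = _
    rw [(hx n i).2, map_div₀]
  have hE' : ∀ P ∈ MvPolynomial.map τ '' E, eval q P = 0 := by
    rintro _ ⟨P, hP, rfl⟩
    exact hE P hP
  have hzE : ∀ n, ∀ P ∈ MvPolynomial.map τ '' E, eval (fun i => τ (x n i)) P = 0 := by
    rintro n _ ⟨P, hP, rfl⟩
    rw [eval_tau, hxE n P hP, map_zero]
  have hinj : ∀ v ∈ TanE (MvPolynomial.map τ '' E) q,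
      (Jac (fun i => MvPolynomial.map τ (num i)) (fun i => MvPolynomial.map τ (den i)) q).mulVec v = 0 → v = 0 := by
    intro v hv h1
    by_contra hne
    obtain ⟨i, hi⟩ := hlam 0 v hv hne (by rw [h1, zero_smul])
    exact h0 i hi.symm
  have hs : ∀ k, ∃ c : Fin g → ℂ, ∃ P : MvPolynomial (Fin g) ℂ,
      (∀ n, eval (fun i => τ (x n i)) P = 0) ∧ ∀ j,
        ∑ l, c l * Jac (fun i => MvPolynomial.map τ (num i)) (fun i => MvPolynomial.map τ (den i)) q l j +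
          eval q (pderiv j P) = if j = k then 1 else 0 := by
    intro k
    obtain ⟨c, P, hP, h1⟩ := surj_rows _ (MvPolynomial.map τ '' E) q hV hinj k
    exact ⟨c, P, fun n => span_van (hzE n) hP, h1⟩
  have key : ∀ c : ℕ, (∃ k₀, ∀ k ≥ k₀, eval (x (c + m * k)) P ≠ 0) ∨
      ∃ k₀, ∀ k ≥ k₀, eval (x (c + m * k)) P = 0 := by
    intro c
    rcases pol_dichX hz hE' hzE hρ0 hρ1 hc hD hV lam h0 hlam hm Hm (MvPolynomial.map τ P) c with ⟨k₀, h⟩ | h
    · left
      refine ⟨k₀, fun k hk h2 => h k hk ?_⟩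
      rw [eval_tau, h2, map_zero]
    · right
      obtain ⟨k₀, h2⟩ := vanishX hz hρ0 hρ1 hc hD hs hm (MvPolynomial.map τ P) c h
      refine ⟨k₀, fun k hk => ?_⟩
      have h3 := h2 k hk
      rw [eval_tau] at h3
      exact (map_eq_zero τ).1 h3
  have key2 : ∀ c : ℕ, ∃ k₀, ∀ k ≥ k₀, (eval (x (c + m * (k + 1))) P = 0 ↔
      eval (x (c + m * k)) P = 0) := by
    intro c
    rcases key c with ⟨k₀, h⟩ | ⟨k₀, h⟩
    · exact ⟨k₀, fun k hk => iff_of_false (h _ (hk.trans (Nat.le_succ k))) (h k hk)⟩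
    · exact ⟨k₀, fun k hk => iff_of_true (h _ (hk.trans (Nat.le_succ k))) (h k hk)⟩
  choose k₀ hk₀ using key2
  refine ⟨m * ((Finset.range m).sup k₀ + 1), fun n hn => ?_⟩
  have h1 : n % m + m * (n / m) = n := Nat.mod_add_div n m
  have h2 : n % m + m * (n / m + 1) = n + m := by rw [mul_add, mul_one, ← add_assoc, h1]
  have h3 : k₀ (n % m) ≤ n / m := by
    have h4 : k₀ (n % m) ≤ (Finset.range m).sup k₀ :=
      Finset.le_sup (Finset.mem_range.2 (Nat.mod_lt _ hm))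
    have h5 : (Finset.range m).sup k₀ + 1 ≤ n / m := (Nat.le_div_iff_mul_le hm).2 (by rwa [mul_comm])
    omega
  have h6 := hk₀ (n % m) (n / m) h3
  rw [h1, h2] at h6
  exact h6

theorem SelfMap.step {g : ℕ} {K : Type*} [Field K] {num den : Fin g → MvPolynomial (Fin g) K}
    {E : Set (MvPolynomial (Fin g) K)} (hself : SelfMap num den E) {v w : Fin g → K}
    (hv : ∀ P ∈ E, eval v P = 0) (hd : ∀ i, eval v (den i) ≠ 0)
    (hw : ∀ i, w i = eval v (num i) / eval v (den i)) : ∀ P ∈ E, eval w P = 0 := by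
  intro P hP
  obtain ⟨P', hP', e, h⟩ := hself P hP
  have h1 := h v hd
  have h2 : eval v P' = 0 := by
    have h3 : Ideal.span E ≤ RingHom.ker (eval v) := Ideal.span_le.2 hv
    exact h3 hP'
  have h4 : (fun i => eval v (num i) / eval v (den i)) = w := funext fun i => (hw i).symm
  rw [h2, h4] at h1
  have h5 : (∏ i, eval v (den i)) ^ e ≠ 0 := pow_ne_zero _ (Finset.prod_ne_zero_iff.2 fun i _ => hd i)
  exact (mul_eq_zero.1 h1.symm).resolve_right h5

theorem main_allX {g l : ℕ} {K : Type*} [Field K] (L : Type*) [Field L] [Algebra K L]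
    (τ : K →+* ℂ) (num den : Fin g → MvPolynomial (Fin g) K) (E : Set (MvPolynomial (Fin g) K))
    (hself : SelfMap num den E) (q : Fin g → ℂ) (hE : ∀ P ∈ E, eval q (MvPolynomial.map τ P) = 0)
    (hD : ∀ i, eval q (MvPolynomial.map τ (den i)) ≠ 0)
    (hq : ∀ i, eval q (MvPolynomial.map τ (num i)) / eval q (MvPolynomial.map τ (den i)) = q i) (lam : Fin l → ℂ)
    (h0 : ∀ i, lam i ≠ 0)
    (hlam : ∀ (μ : ℂ) (v : Fin g → ℂ), v ∈ TanE (MvPolynomial.map τ '' E) q → v ≠ 0 →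
      (Jac (fun i => MvPolynomial.map τ (num i)) (fun i => MvPolynomial.map τ (den i)) q).mulVec v = μ • v →
        ∃ i, μ = lam i)
    (H : ∀ δ : Fin l → ℤ, ‖∏ i, lam i ^ δ i‖ = 1 → ∃ k : ℕ, 0 < k ∧ (∏ i, lam i ^ δ i) ^ k = 1) :
    ∃ m > 0,
      (∀ x : ℕ → Fin g → K, IsOrbit num den x → (∀ P ∈ E, eval (x 0) P = 0) →
        (∃ ρ C : ℝ, 0 < ρ ∧ ρ < 1 ∧ ∀ n i, ‖τ (x n i) - q i‖ ≤ C * ρ ^ n) → Concl L m x) ∧
      ((∀ i, ‖lam i‖ ≠ 1) → ∀ x : ℕ → Fin g → K, IsOrbit num den x →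
        (∀ P ∈ E, eval (x 0) P = 0) →
        (∀ i, Tendsto (fun n => τ (x n i)) atTop (𝓝 (q i))) → Concl L m x) ∧
      ((∀ i, ‖lam i‖ < 1) → ∃ r > (0 : ℝ), ∀ x : ℕ → Fin g → K, (∀ P ∈ E, eval (x 0) P = 0) →
        (∀ i, ‖τ (x 0 i) - q i‖ < r) →
        (∀ n i, x (n + 1) i = eval (x n) (num i) / eval (x n) (den i)) →
          IsOrbit num den x ∧ (∀ i, Tendsto (fun n => τ (x n i)) atTop (𝓝 (q i))) ∧
            Concl L m x) := by
  have hK : CharZero K := τ.charZero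
  have hV := tan_inv τ hself hE hD hq
  obtain ⟨m, hm, Hm⟩ := no_rot lam h0 H
  have honX : ∀ x : ℕ → Fin g → K, IsOrbit num den x → (∀ P ∈ E, eval (x 0) P = 0) →
      ∀ n, ∀ P ∈ E, eval (x n) P = 0 := by
    intro x hx hx0 n
    induction n with
    | zero => exact hx0
    | succ n ih => exact hself.step ih (fun i => (hx n i).1) fun i => (hx n i).2
  have key : ∀ x : ℕ → Fin g → K, IsOrbit num den x → (∀ P ∈ E, eval (x 0) P = 0) →
        (∃ ρ C : ℝ, 0 < ρ ∧ ρ < 1 ∧ ∀ n i, ‖τ (x n i) - q i‖ ≤ C * ρ ^ n) → Concl L m x := by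
    rintro x hx hx0 ⟨ρ, C, hρ0, hρ1, hc⟩
    exact concl_of L hm hx (hyp_mainX τ num den x hx E (honX x hx hx0) q hE hρ0 hρ1 hc hD hV lam h0
      hlam hm Hm)
  refine ⟨m, hm, key, fun h1 x hx hx0 ht => key x hx hx0 ?_, fun h1 => ?_⟩
  · refine hyperbX (N := fun i => MvPolynomial.map τ (num i)) (D := fun i => MvPolynomial.map τ (den i))
      (z := fun n i => τ (x n i)) ?_ ht hD (E := MvPolynomial.map τ '' E) ?_ hV lam hlam h1
    · intro n i
      rw [eval_tau, eval_tau]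
      refine ⟨(map_ne_zero τ).2 (hx n i).1, ?_⟩
      show τ (x (n + 1) i) = _
      rw [(hx n i).2, map_div₀]
    · rintro n _ ⟨P, hP, rfl⟩
      rw [eval_tau, honX x hx hx0 n P hP, map_zero]
  · obtain ⟨r, hr, ρ, C, hρ0, hρ1, hb⟩ := basinX (fun i => MvPolynomial.map τ (num i)) (fun i => MvPolynomial.map τ (den i)) q
      hD hq (MvPolynomial.map τ '' E) (by rintro _ ⟨P, hP, rfl⟩; exact hE P hP) hV lam hlam h1
    refine ⟨r, hr, fun x hx0 h2 h3 => ?_⟩
    have hb0 : ∀ P ∈ MvPolynomial.map τ '' E, eval (fun i => τ (x 0 i)) P = 0 := by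
      rintro _ ⟨P, hP, rfl⟩
      rw [eval_tau, hx0 P hP, map_zero]
    have hb1 : ∀ n, (∀ i, eval (fun i => τ (x n i)) (MvPolynomial.map τ (den i)) ≠ 0) →
        (∀ P ∈ MvPolynomial.map τ '' E, eval (fun i => τ (x n i)) P = 0) →
          ∀ P ∈ MvPolynomial.map τ '' E, eval (fun i => τ (x (n + 1) i)) P = 0 := by
      intro n hn hnE
      have h6 : ∀ P ∈ E, eval (x n) P = 0 := by
        intro P hP
        have h7 := hnE _ ⟨P, hP, rfl⟩
        rw [eval_tau] at h7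
        exact (map_eq_zero τ).1 h7
      have h8 : ∀ i, eval (x n) (den i) ≠ 0 := by
        intro i h9
        refine hn i ?_
        rw [eval_tau, h9, map_zero]
      rintro _ ⟨P, hP, rfl⟩
      rw [eval_tau, hself.step h6 h8 (h3 n) P hP, map_zero]
    obtain ⟨h4, h5⟩ := hb (fun n i => τ (x n i)) hb0 hb1 h2 (fun n i => by
      rw [eval_tau, eval_tau]
      show τ (x (n + 1) i) = _
      rw [h3, map_div₀])
    have hx : IsOrbit num den x := by
      intro n i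
      refine ⟨fun h6 => h4 n i ?_, h3 n i⟩
      rw [eval_tau, h6, map_zero]
    refine ⟨hx, fun i => ?_, key x hx hx0 ⟨ρ, C, hρ0, hρ1, h5⟩⟩
    rw [tendsto_iff_norm_sub_tendsto_zero]
    refine squeeze_zero (fun n => norm_nonneg _) (fun n => h5 n i) ?_
    have h6 := (tendsto_pow_atTop_nhds_zero_of_lt_one hρ0.le hρ1).const_mul C
    rwa [mul_zero] at h6

end MP_f4ff90_agE
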