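import Mathlib
import Pool.Agent.Lib.MP_f4ff90_agE.Defs

/-!
LEAF Wt.  Weights.
Weight of a monomial `γ`: `∑ (g + i) γ i`.
PROOF.  `f i = C (T i i) * X i + (monomials of weight > g + i)`: linear monomials `X j` have coefficient `T i j = 0` for `j < i`, weight `g + j > g + i` for `j > i`; monomials of degree `≥ 2` have weight `≥ 2 g > g + i`.
Call `P` *high of order k* if all `γ ∈ P.support` have weight `≥ k`; products of high polynomials of orders `k, l` are high of order `k + l` (`support_mul`).  By induction over the factors (first powers, then the product over `i`):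
`∏ f_i^(β i) - C (∏ (T i i)^(β i)) * monomial β 1` is high of order `wt β + 1`.  Compare the coefficients.
-/

set_option autoImplicit false

open Filter Topology MvPolynomial

namespace MP_f4ff90_agE

/-- the weight of a monomial -/
def wt {g : ℕ} (γ : Fin g →₀ ℕ) : ℕ := ∑ i : Fin g, (g + (i : ℕ)) * γ i

private lemma Wt_add {g : ℕ} (γ δ : Fin g →₀ ℕ) : wt (γ + δ) = wt γ + wt δ := by
  unfold wt
  rw [← Finset.sum_add_distrib]
  exact Finset.sum_congr rfl fun i _ => by rw [Finsupp.add_apply, mul_add]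

private lemma Wt_zero {g : ℕ} : wt (0 : Fin g →₀ ℕ) = 0 := by
  unfold wt
  simp

private lemma Wt_single {g : ℕ} (i : Fin g) (n : ℕ) :
    wt (Finsupp.single i n) = (g + (i : ℕ)) * n := by
  unfold wt
  rw [Finset.sum_eq_single i]
  · rw [Finsupp.single_eq_same]
  · intro b _ hb
    rw [Finsupp.single_apply, if_neg (Ne.symm hb), mul_zero]
  · intro h
    exact absurd (Finset.mem_univ i) h

private lemma Wt_le {g : ℕ} (γ : Fin g →₀ ℕ) (i : Fin g) : (g + (i : ℕ)) * γ i ≤ wt γ :=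
  Finset.single_le_sum (f := fun i : Fin g => (g + (i : ℕ)) * γ i) (fun _ _ => Nat.zero_le _)
    (Finset.mem_univ i)

/-- all monomials have weight at least `k` -/
private def Wt_hi {g : ℕ} (P : MvPolynomial (Fin g) ℂ) (k : ℕ) : Prop :=
  ∀ γ, P.coeff γ ≠ 0 → k ≤ wt γ

private lemma Wt_hi_add {g : ℕ} {P Q : MvPolynomial (Fin g) ℂ} {k : ℕ} (hP : Wt_hi P k)
    (hQ : Wt_hi Q k) : Wt_hi (P + Q) k := by
  intro γ h
  by_cases h1 : P.coeff γ = 0
  · rw [coeff_add, h1, zero_add] at h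
    exact hQ γ h
  · exact hP γ h1

private lemma Wt_hi_mul {g : ℕ} {P Q : MvPolynomial (Fin g) ℂ} {k l : ℕ} (hP : Wt_hi P k)
    (hQ : Wt_hi Q l) : Wt_hi (P * Q) (k + l) := by
  classical
  intro γ h
  have h1 := support_mul P Q (mem_support_iff.2 h)
  obtain ⟨a, ha, b, hb, rfl⟩ := Finset.mem_add.1 h1
  rw [Wt_add]
  exact add_le_add (hP a (mem_support_iff.1 ha)) (hQ b (mem_support_iff.1 hb))

private lemma Wt_hi_mono {g : ℕ} {P : MvPolynomial (Fin g) ℂ} {k l : ℕ} (hP : Wt_hi P k)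
    (h : l ≤ k) : Wt_hi P l := fun γ hγ => h.trans (hP γ hγ)

private lemma Wt_hi_monomial {g : ℕ} (β : Fin g →₀ ℕ) (a : ℂ) : Wt_hi (monomial β a) (wt β) := by
  intro γ h
  rw [coeff_monomial] at h
  by_cases h1 : β = γ
  · rw [h1]
  · rw [if_neg h1] at h
    exact absurd rfl h

/-- `P` is `a X ^ β` and monomials of higher weight -/
private def Wt_ld {g : ℕ} (P : MvPolynomial (Fin g) ℂ) (β : Fin g →₀ ℕ) (a : ℂ) : Prop :=
  Wt_hi (P - monomial β a) (wt β + 1)

private lemma Wt_ld_hi {g : ℕ} {P : MvPolynomial (Fin g) ℂ} {β : Fin g →₀ ℕ} {a : ℂ}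
    (h : Wt_ld P β a) : Wt_hi P (wt β) := by
  have h1 := Wt_hi_add (Wt_hi_mono h (Nat.le_succ _)) (Wt_hi_monomial β a)
  rwa [sub_add_cancel] at h1

private lemma Wt_ld_mul {g : ℕ} {P Q : MvPolynomial (Fin g) ℂ} {β δ : Fin g →₀ ℕ} {a b : ℂ}
    (hP : Wt_ld P β a) (hQ : Wt_ld Q δ b) : Wt_ld (P * Q) (β + δ) (a * b) := by
  have h1 : P * Q - monomial (β + δ) (a * b) =
      P * (Q - monomial δ b) + (P - monomial β a) * monomial δ b := by
    rw [← monomial_mul]
    ring
  unfold Wt_ld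
  rw [h1, Wt_add]
  refine Wt_hi_add ?_ ?_
  · exact Wt_hi_mono (Wt_hi_mul (Wt_ld_hi hP) hQ) (by omega)
  · exact Wt_hi_mono (Wt_hi_mul hP (Wt_hi_monomial δ b)) (by omega)

private lemma Wt_ld_one {g : ℕ} : Wt_ld (1 : MvPolynomial (Fin g) ℂ) 0 1 := by
  intro γ h
  rw [← C_apply, C_1, sub_self, coeff_zero] at h
  exact absurd rfl h

private lemma Wt_ld_pow {g : ℕ} {P : MvPolynomial (Fin g) ℂ} {β : Fin g →₀ ℕ} {a : ℂ}
    (hP : Wt_ld P β a) (n : ℕ) : Wt_ld (P ^ n) (n • β) (a ^ n) := by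
  induction n with
  | zero =>
    rw [pow_zero, pow_zero, zero_smul]
    exact Wt_ld_one
  | succ n ih =>
    rw [pow_succ, pow_succ, succ_nsmul]
    exact Wt_ld_mul ih hP

private lemma Wt_ld_prod {g : ℕ} {f : Fin g → MvPolynomial (Fin g) ℂ} {a : Fin g → ℂ}
    {δ : Fin g → Fin g →₀ ℕ} (s : Finset (Fin g)) (h : ∀ i, Wt_ld (f i) (δ i) (a i)) :
    Wt_ld (∏ i ∈ s, f i) (∑ i ∈ s, δ i) (∏ i ∈ s, a i) := by
  classical
  induction s using Finset.induction_on with
  | empty =>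
    rw [Finset.prod_empty, Finset.prod_empty, Finset.sum_empty]
    exact Wt_ld_one
  | insert i s hi ih =>
    rw [Finset.prod_insert hi, Finset.prod_insert hi, Finset.sum_insert hi]
    exact Wt_ld_mul (h i) ih

private lemma Wt_ld_f {g : ℕ} {T : Matrix (Fin g) (Fin g) ℂ} (htri : ∀ i j, j < i → T i j = 0)
    {f : Fin g → MvPolynomial (Fin g) ℂ} (hf0 : ∀ i, (f i).coeff 0 = 0)
    (hf1 : ∀ i j, (f i).coeff (Finsupp.single j 1) = T i j) (i : Fin g) :
    Wt_ld (f i) (Finsupp.single i 1) (T i i) := by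
  intro γ h
  rw [coeff_sub, coeff_monomial] at h
  rw [Wt_single, mul_one]
  have hi : (i : ℕ) < g := i.isLt
  by_cases h0 : γ = 0
  · rw [h0, hf0, if_neg, sub_zero] at h
    · exact absurd rfl h
    · intro h1
      have h2 := DFunLike.congr_fun h1 i
      rw [Finsupp.single_eq_same, Finsupp.zero_apply] at h2
      exact one_ne_zero h2
  obtain ⟨j, hj⟩ : ∃ j, γ j ≠ 0 := by
    by_contra h1
    push Not at h1
    exact h0 (Finsupp.ext h1)
  obtain ⟨δ, h1⟩ : ∃ δ : Fin g →₀ ℕ, γ = Finsupp.single j 1 + δ := by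
    refine ⟨γ - Finsupp.single j 1, ?_⟩
    ext k
    rw [Finsupp.add_apply, Finsupp.tsub_apply, Finsupp.single_apply]
    by_cases hk : j = k
    · rw [if_pos hk]
      rw [hk] at hj
      omega
    · rw [if_neg hk]
      omega
  by_cases h2 : δ = 0
  · rw [h2, add_zero] at h1
    rw [h1, hf1] at h
    rw [h1, Wt_single, mul_one]
    by_cases h3 : i = j
    · rw [if_pos (by rw [h3]), h3, sub_self] at h
      exact absurd rfl h
    · rw [if_neg, sub_zero] at h
      · have h4 : ¬ j < i := fun h5 => h (htri i j h5)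
        have h5 : i < j := lt_of_le_of_ne (not_lt.1 h4) h3
        have h6 : (i : ℕ) < (j : ℕ) := h5
        omega
      · intro h5
        have h6 := DFunLike.congr_fun h5 i
        rw [Finsupp.single_eq_same, Finsupp.single_apply, if_neg (Ne.symm h3)] at h6
        exact one_ne_zero h6
  · obtain ⟨k, hk⟩ : ∃ k, δ k ≠ 0 := by
      by_contra h3
      push Not at h3
      exact h2 (Finsupp.ext h3)
    have h3 := Wt_le δ k
    have h4 : g + (k : ℕ) ≤ (g + (k : ℕ)) * δ k :=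
      Nat.le_mul_of_pos_right _ (Nat.pos_of_ne_zero hk)
    rw [h1, Wt_add, Wt_single, mul_one]
    omega

theorem coeff_wt {g : ℕ} {T : Matrix (Fin g) (Fin g) ℂ} (htri : ∀ i j, j < i → T i j = 0)
    {f : Fin g → MvPolynomial (Fin g) ℂ} (hf0 : ∀ i, (f i).coeff 0 = 0)
    (hf1 : ∀ i j, (f i).coeff (Finsupp.single j 1) = T i j) (β : Fin g →₀ ℕ) :
    (∏ i, f i ^ β i).coeff β = ∏ i, T i i ^ β i ∧
    ∀ γ : Fin g →₀ ℕ, γ ≠ β → (∏ i, f i ^ β i).coeff γ ≠ 0 → wt β < wt γ := by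
  have h1 := Wt_ld_prod Finset.univ fun i => Wt_ld_pow (Wt_ld_f htri hf0 hf1 i) (β i)
  have h2 : ∑ i, β i • Finsupp.single i 1 = β := by
    ext k
    rw [Finsupp.finsetSum_apply, Finset.sum_eq_single k]
    · rw [Finsupp.smul_apply, Finsupp.single_eq_same, smul_eq_mul, mul_one]
    · intro b _ hb
      rw [Finsupp.smul_apply, Finsupp.single_apply, if_neg hb, smul_zero]
    · intro h
      exact absurd (Finset.mem_univ k) h
  rw [h2] at h1
  refine ⟨?_, fun γ hγ h3 => ?_⟩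
  · by_contra h3
    have h4 := h1 β (by
      rw [coeff_sub, coeff_monomial, if_pos rfl]
      exact sub_ne_zero.2 h3)
    omega
  · have h4 := h1 γ (by
      rw [coeff_sub, coeff_monomial, if_neg (Ne.symm hγ), sub_zero]
      exact h3)
    omega

end MP_f4ff90_agE
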