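import Mathlib
import Pool.Agent.Lib.MP_f4ff90_agE.Wt
import Pool.Agent.Lib.MP_f4ff90_agE.EpR

/-!
LEAF Mon.  Monomials along the orbit.
PROOF.  `y n` is bounded.  Downward induction on `wt β`.  If `wt β ≥ 2 g M` then `|β| ≥ M` (`wt β ≤ (2 g) |β|`, if `g > 0`; `g = 0`: the empty product 1 is a constant, `ep_const`), so `‖y^β‖ ≤ C^|β| ρ^(|β| n) ≤ C'' ρ^(M n) ≤ C'' r^n`:
`ep_small`.  Otherwise: `y(n+1)^β = ∏ y(n+1,i)^(β i) = eval (y n) (∏ f_i^(β i)) + O(ρ^(M n))` (difference of products of bounded sequences) `= ∑_γ coeff_γ y(n)^γ + O(r^n)`; by `coeff_wt` the `γ = β` term has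
coefficient `ν = ∏ (T i i)^(β i) ∈ Λ`, the others have `wt γ > wt β`, so are in `Ep Λ r` by induction; so `y^β` satisfies `u (n+1) = ν u n + v n` with `v ∈ Ep Λ r`: `ep_rec`.
-/

set_option autoImplicit false

open Filter Topology MvPolynomial Asymptotics

namespace MP_f4ff90_agE

/-- bounded sequences with a small difference -/
private def Mon_P (s : ℕ → ℝ) (a b : ℕ → ℂ) : Prop :=
  a =O[⊤] (fun _ => (1 : ℝ)) ∧ b =O[⊤] (fun _ => (1 : ℝ)) ∧ (fun n => a n - b n) =O[⊤] s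

private theorem Mon_mul {s : ℕ → ℝ} {a b a' b' : ℕ → ℂ} (h : Mon_P s a b) (h' : Mon_P s a' b') :
    Mon_P s (fun n => a n * a' n) (fun n => b n * b' n) := by
  refine ⟨?_, ?_, ?_⟩
  · have h1 := h.1.mul h'.1
    simp only [mul_one] at h1
    exact h1
  · have h1 := h.2.1.mul h'.2.1
    simp only [mul_one] at h1
    exact h1
  · have h1 : (fun n => a n * (a' n - b' n)) =O[⊤] fun n => 1 * s n := h.1.mul h'.2.2
    have h2 : (fun n => (a n - b n) * b' n) =O[⊤] fun n => s n * 1 := h.2.2.mul h'.2.1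
    simp only [one_mul, mul_one] at h1 h2
    exact (h1.add h2).congr_left fun n => by ring

private theorem Mon_one (s : ℕ → ℝ) : Mon_P s (fun _ => 1) (fun _ => 1) := by
  refine ⟨?_, ?_, ?_⟩
  · exact isBigO_top.2 ⟨1, fun n => by simp⟩
  · exact isBigO_top.2 ⟨1, fun n => by simp⟩
  · exact isBigO_top.2 ⟨0, fun n => by simp⟩

private theorem Mon_pow {s : ℕ → ℝ} {a b : ℕ → ℂ} (h : Mon_P s a b) (k : ℕ) :
    Mon_P s (fun n => a n ^ k) (fun n => b n ^ k) := by
  induction k with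
  | zero => simpa only [pow_zero] using Mon_one s
  | succ k ih => simpa only [pow_succ] using Mon_mul ih h

private theorem Mon_prod {s : ℕ → ℝ} {ι : Type*} (S : Finset ι) {a b : ι → ℕ → ℂ}
    (h : ∀ i, Mon_P s (a i) (b i)) (k : ι → ℕ) :
    Mon_P s (fun n => ∏ i ∈ S, a i n ^ k i) (fun n => ∏ i ∈ S, b i n ^ k i) := by
  classical
  induction S using Finset.induction_on with
  | empty => simpa only [Finset.prod_empty] using Mon_one s
  | insert i S hi ih =>
    simp only [Finset.prod_insert hi]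
    exact Mon_mul (Mon_pow (h i) (k i)) ih

private theorem Mon_wt {g : ℕ} (γ : Fin g →₀ ℕ) : wt γ ≤ 2 * g * ∑ i, γ i := by
  unfold wt
  rw [Finset.mul_sum]
  refine Finset.sum_le_sum fun i _ => Nat.mul_le_mul_right _ ?_
  have := i.2
  omega

theorem mono_ep {g : ℕ} {Λ : Submonoid ℂ} (hΛ0 : ∀ μ ∈ Λ, μ ≠ 0) {T : Matrix (Fin g) (Fin g) ℂ}
    (htri : ∀ i j, j < i → T i j = 0) (hdiag : ∀ i, T i i ∈ Λ) {ρ r : ℝ} (hρ0 : 0 < ρ) (hρ1 : ρ < 1)
    {M : ℕ} (hr : ρ ^ M ≤ r) (hrΛ : ∀ μ ∈ Λ, ‖μ‖ ≠ r) {y : ℕ → Fin g → ℂ} {C C' : ℝ}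
    (hy : ∀ n i, ‖y n i‖ ≤ C * ρ ^ n) {f : Fin g → MvPolynomial (Fin g) ℂ}
    (hf0 : ∀ i, (f i).coeff 0 = 0) (hf1 : ∀ i j, (f i).coeff (Finsupp.single j 1) = T i j)
    (hrec : ∀ n i, ‖y (n + 1) i - eval (y n) (f i)‖ ≤ C' * ρ ^ (M * n)) (β : Fin g →₀ ℕ) :
    Ep (Λ : Set ℂ) r (fun n => ∏ i, y n i ^ β i) := by
  have hr0 : 0 < r := lt_of_lt_of_le (pow_pos hρ0 M) hr
  have hpow : ∀ n : ℕ, ρ ^ (M * n) ≤ r ^ n := fun n => by
    rw [pow_mul]
    exact pow_le_pow_left₀ (pow_pos hρ0 M).le hr n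
  have hsmall : ∀ {u : ℕ → ℂ}, u =O[⊤] (fun n : ℕ => ρ ^ (M * n)) → Ep (Λ : Set ℂ) r u := by
    intro u hu
    obtain ⟨K, hK⟩ := isBigO_top.1 hu
    refine ep_small ⟨|K|, fun n => (hK n).trans ?_⟩
    rw [Real.norm_of_nonneg (pow_pos hρ0 _).le]
    exact mul_le_mul (le_abs_self K) (hpow n) (pow_pos hρ0 _).le (abs_nonneg K)
  rcases Nat.eq_zero_or_pos g with hg | hg
  · subst hg
    simp only [Finset.univ_eq_empty, Finset.prod_empty]
    exact ep_const (Λ.one_mem) r 1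
  have hC0 : 0 ≤ C := by
    have h1 := (norm_nonneg _).trans (hy 0 ⟨0, hg⟩)
    simpa using h1
  -- the pairs of sequences
  have hP : ∀ i, Mon_P (fun n : ℕ => ρ ^ (M * n)) (fun n => y (n + 1) i)
      (fun n => eval (y n) (f i)) := by
    intro i
    have h1 : (fun n => y (n + 1) i) =O[⊤] (fun _ => (1 : ℝ)) := by
      refine isBigO_top.2 ⟨C, fun n => (hy (n + 1) i).trans ?_⟩
      rw [norm_one]
      exact mul_le_mul_of_nonneg_left (pow_le_one₀ hρ0.le hρ1.le) hC0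
    have h2 : (fun n => y (n + 1) i - eval (y n) (f i)) =O[⊤] (fun n : ℕ => ρ ^ (M * n)) := by
      refine isBigO_top.2 ⟨C', fun n => ?_⟩
      rw [Real.norm_of_nonneg (pow_pos hρ0 _).le]
      exact hrec n i
    have h3 : (fun n : ℕ => ρ ^ (M * n)) =O[⊤] (fun _ => (1 : ℝ)) := by
      refine isBigO_top.2 ⟨1, fun n => ?_⟩
      rw [Real.norm_of_nonneg (pow_pos hρ0 _).le, norm_one, one_mul]
      exact pow_le_one₀ hρ0.le hρ1.le
    refine ⟨h1, ?_, h2⟩
    exact (h1.sub (h2.trans h3)).congr_left fun n => by ring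
  -- downward induction
  induction hk : 2 * g * M - wt β using Nat.strong_induction_on generalizing β with
  | _ k ih =>
    by_cases hw : 2 * g * M ≤ wt β
    · have h1 : M ≤ ∑ i, β i := by
        by_contra h2
        have h3 : ∑ i, β i < M := not_le.1 h2
        have h4 : 2 * g * (∑ i, β i) < 2 * g * M := Nat.mul_lt_mul_of_pos_left h3 (by omega)
        exact absurd (hw.trans (Mon_wt β)) (not_le.2 h4)
      refine ep_small ⟨C ^ (∑ i, β i), fun n => ?_⟩
      rw [norm_prod]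
      have h2 : ∏ i, ‖y n i ^ β i‖ ≤ ∏ i, (C * ρ ^ n) ^ β i :=
        Finset.prod_le_prod (fun i _ => norm_nonneg _) fun i _ => by
          rw [norm_pow]
          exact pow_le_pow_left₀ (norm_nonneg _) (hy n i) _
      refine h2.trans ?_
      rw [Finset.prod_pow_eq_pow_sum, mul_pow]
      refine mul_le_mul_of_nonneg_left ?_ (pow_nonneg hC0 _)
      rw [← pow_mul]
      refine le_trans ?_ (hpow n)
      refine pow_le_pow_of_le_one hρ0.le hρ1.le ?_
      rw [mul_comm M n]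
      exact Nat.mul_le_mul_left n h1
    · have hw' : wt β < 2 * g * M := not_le.1 hw
      obtain ⟨hc1, hc2⟩ := coeff_wt htri hf0 hf1 β
      set Q : MvPolynomial (Fin g) ℂ := ∏ i, f i ^ β i with hQ
      have hνΛ : Q.coeff β ∈ Λ := by
        rw [hc1]
        exact Submonoid.prod_mem _ fun i _ => Submonoid.pow_mem _ (hdiag i) _
      have hβs : β ∈ Q.support := mem_support_iff.2 (hΛ0 _ hνΛ)
      have hD := (Mon_prod Finset.univ hP β).2.2
      have hev : ∀ n, ∏ i, eval (y n) (f i) ^ β i =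
          ∑ γ ∈ Q.support, Q.coeff γ * ∏ i, y n i ^ γ i := by
        intro n
        rw [← eval_eq' (y n) Q, hQ, map_prod]
        exact Finset.prod_congr rfl fun i _ => (map_pow _ _ _).symm
      refine ep_rec hr0 (fun μ h => hΛ0 μ h) hνΛ (hrΛ _ hνΛ)
        (v := fun n => (∏ i, y (n + 1) i ^ β i - ∏ i, eval (y n) (f i) ^ β i) +
          ∑ γ ∈ Q.support.erase β, Q.coeff γ * ∏ i, y n i ^ γ i) ?_ ?_
      · intro n
        have h1 := Finset.add_sum_erase Q.support (fun γ => Q.coeff γ * ∏ i, y n i ^ γ i) hβs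
        have h2 := hev n
        rw [← h1] at h2
        linear_combination h2
      · refine ep_add (hsmall hD) (ep_sum _ _ fun γ hγ => ep_smul _ ?_)
        have hγ1 := Finset.ne_of_mem_erase hγ
        have hγ2 := hc2 γ hγ1 (mem_support_iff.1 (Finset.mem_of_mem_erase hγ))
        exact ih (2 * g * M - wt γ) (by omega) γ rfl

end MP_f4ff90_agE
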