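import Mathlib


/-!
LEAF Tri.  Triangular form.
PROOF.  Induction on `g` (or any flag of invariant subspaces): the transpose of `J` has an eigenvector `w ≠ 0` (`ℂ` algebraically closed), `w J = μ w`; complete `w` to a basis; in this basis, with `w` as the LAST
row of `S`, `S J S⁻¹` has last row `(0, .., 0, μ)`; apply the induction hypothesis to the upper left block.  `T` is similar to `J`, so `T.charpoly = J.charpoly`, and for an upper triangular matrix
`T.charpoly = ∏ (X - C (T i i))` (`Matrix.charpoly_of_upperTriangular`), so each `T i i` is a root of `∏ (X - C (lam j))`, i.e. one of the `lam j`.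
-/

set_option autoImplicit false

open Filter Topology MvPolynomial

namespace MP_f4ff90_agE

/-- An invertible matrix whose first column is an eigenvector. -/
private theorem Tri_first {g : ℕ} (J : Matrix (Fin (g + 1)) (Fin (g + 1)) ℂ) :
    ∃ P P' : Matrix (Fin (g + 1)) (Fin (g + 1)) ℂ, P * P' = 1 ∧ P' * P = 1 ∧
      ∀ i : Fin g, (P' * J * P) i.succ 0 = 0 := by
  obtain ⟨μ, hμ⟩ := Module.End.exists_eigenvalue (Matrix.toLin' J)
  obtain ⟨v, hv⟩ := hμ.exists_hasEigenvector
  have hv1 : J.mulVec v = μ • v := by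
    have h := hv.apply_eq_smul
    rwa [Matrix.toLin'_apply] at h
  have he0 : (Pi.single 0 1 : Fin (g + 1) → ℂ) ≠ 0 := by
    intro h
    have h1 := congrFun h 0
    simp at h1
  obtain ⟨A, hA⟩ := SeparatingDual.exists_continuousLinearEquiv_apply_eq (R := ℂ) he0 hv.2
  refine ⟨LinearMap.toMatrix' (A.toLinearEquiv : (Fin (g + 1) → ℂ) →ₗ[ℂ] (Fin (g + 1) → ℂ)),
    LinearMap.toMatrix' (A.symm.toLinearEquiv : (Fin (g + 1) → ℂ) →ₗ[ℂ] (Fin (g + 1) → ℂ)), ?_, ?_, ?_⟩
  · rw [← LinearMap.toMatrix'_comp]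
    have : (A.toLinearEquiv : (Fin (g + 1) → ℂ) →ₗ[ℂ] (Fin (g + 1) → ℂ)) ∘ₗ
        (A.symm.toLinearEquiv : (Fin (g + 1) → ℂ) →ₗ[ℂ] (Fin (g + 1) → ℂ)) = LinearMap.id := by
      ext x
      simp
    rw [this, LinearMap.toMatrix'_id]
  · rw [← LinearMap.toMatrix'_comp]
    have : (A.symm.toLinearEquiv : (Fin (g + 1) → ℂ) →ₗ[ℂ] (Fin (g + 1) → ℂ)) ∘ₗ
        (A.toLinearEquiv : (Fin (g + 1) → ℂ) →ₗ[ℂ] (Fin (g + 1) → ℂ)) = LinearMap.id := by
      ext x
      simp
    rw [this, LinearMap.toMatrix'_id]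
  · intro i
    have h1 : ((LinearMap.toMatrix' (A.symm.toLinearEquiv : (Fin (g + 1) → ℂ) →ₗ[ℂ] (Fin (g + 1) → ℂ)) * J *
        LinearMap.toMatrix' (A.toLinearEquiv : (Fin (g + 1) → ℂ) →ₗ[ℂ] (Fin (g + 1) → ℂ))).mulVec (Pi.single 0 1)) i.succ
          = 0 := by
      rw [← Matrix.mulVec_mulVec, ← Matrix.mulVec_mulVec]
      simp only [LinearMap.toMatrix'_mulVec]
      have h2 : (A.toLinearEquiv : (Fin (g + 1) → ℂ) →ₗ[ℂ] (Fin (g + 1) → ℂ)) (Pi.single 0 1) = v := hA
      rw [h2, hv1, map_smul]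
      have h3 : (A.symm.toLinearEquiv : (Fin (g + 1) → ℂ) →ₗ[ℂ] (Fin (g + 1) → ℂ)) v = Pi.single 0 1 := by
        rw [← hA]
        exact A.symm_apply_apply _
      rw [h3]
      simp
    rwa [Matrix.mulVec_single_one] at h1

private theorem Tri_ex (g : ℕ) : ∀ J : Matrix (Fin g) (Fin g) ℂ,
    ∃ S S' T : Matrix (Fin g) (Fin g) ℂ, S * S' = 1 ∧ S' * S = 1 ∧ S * J = T * S ∧
      (∀ i j, j < i → T i j = 0) := by
  induction g with
  | zero =>
    intro J
    exact ⟨1, 1, J, by simp, by simp, by simp, fun i => i.elim0⟩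
  | succ g ih =>
    intro J
    obtain ⟨P, P', hPP', hP'P, hcol⟩ := Tri_first J
    set M := P' * J * P with hM
    obtain ⟨S1, S1', T1, h1, h2, h3, h4⟩ := ih (M.submatrix Fin.succ Fin.succ)
    set S2 : Matrix (Fin (g + 1)) (Fin (g + 1)) ℂ := fun i j =>
      Fin.cases (Fin.cases 1 (fun _ => 0) j) (fun i' => Fin.cases 0 (fun j' => S1 i' j') j) i with hS2
    set S2' : Matrix (Fin (g + 1)) (Fin (g + 1)) ℂ := fun i j =>
      Fin.cases (Fin.cases 1 (fun _ => 0) j) (fun i' => Fin.cases 0 (fun j' => S1' i' j') j) i with hS2'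
    set T2 : Matrix (Fin (g + 1)) (Fin (g + 1)) ℂ := fun i j =>
      Fin.cases (Fin.cases (M 0 0) (fun j' => ∑ k : Fin g, M 0 k.succ * S1' k j') j)
        (fun i' => Fin.cases 0 (fun j' => T1 i' j') j) i with hT2
    have e1 : ∀ i j, ∑ k, S1 i k * S1' k j = (1 : Matrix (Fin g) (Fin g) ℂ) i j := fun i j => by
      rw [← h1, Matrix.mul_apply]
    have e2 : ∀ i j, ∑ k, S1' i k * S1 k j = (1 : Matrix (Fin g) (Fin g) ℂ) i j := fun i j => by
      rw [← h2, Matrix.mul_apply]
    have e3 : ∀ i j, ∑ k, S1 i k * M k.succ j.succ = ∑ k, T1 i k * S1 k j := fun i j => by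
      have := congrFun (congrFun h3 i) j
      rw [Matrix.mul_apply, Matrix.mul_apply] at this
      simpa only [Matrix.submatrix_apply] using this
    have f1 : S2 * S2' = 1 := by
      ext i j
      rw [Matrix.mul_apply, Fin.sum_univ_succ]
      refine Fin.cases ?_ (fun i' => ?_) i <;> refine Fin.cases ?_ (fun j' => ?_) j
      · simp [hS2, hS2']
      · simp [hS2, hS2', (Fin.succ_ne_zero j').symm]
      · simp [hS2, hS2']
      · simp [hS2, hS2', e1, Matrix.one_apply]
    have f2 : S2' * S2 = 1 := by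
      ext i j
      rw [Matrix.mul_apply, Fin.sum_univ_succ]
      refine Fin.cases ?_ (fun i' => ?_) i <;> refine Fin.cases ?_ (fun j' => ?_) j
      · simp [hS2, hS2']
      · simp [hS2, hS2', (Fin.succ_ne_zero j').symm]
      · simp [hS2, hS2']
      · simp [hS2, hS2', e2, Matrix.one_apply]
    have f3 : S2 * M = T2 * S2 := by
      ext i j
      rw [Matrix.mul_apply, Matrix.mul_apply, Fin.sum_univ_succ, Fin.sum_univ_succ]
      refine Fin.cases ?_ (fun i' => ?_) i <;> refine Fin.cases ?_ (fun j' => ?_) j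
      · simp [hS2, hT2]
      · have h5 : ∑ x : Fin g, (∑ k : Fin g, M 0 k.succ * S1' k x) * S1 x j' = M 0 j'.succ := by
          calc ∑ x : Fin g, (∑ k : Fin g, M 0 k.succ * S1' k x) * S1 x j'
              = ∑ k : Fin g, M 0 k.succ * ∑ x : Fin g, S1' k x * S1 x j' := by
                simp_rw [Finset.sum_mul, Finset.mul_sum]
                rw [Finset.sum_comm]
                simp_rw [mul_assoc]
            _ = M 0 j'.succ := by
                simp_rw [e2, Matrix.one_apply]
                simp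
        simp [hS2, hT2, h5]
      · simp [hS2, hT2, hcol]
      · simp [hS2, hT2, e3]
    refine ⟨S2 * P', P * S2', T2, ?_, ?_, ?_, ?_⟩
    · calc S2 * P' * (P * S2') = S2 * (P' * P) * S2' := by simp only [Matrix.mul_assoc]
        _ = 1 := by rw [hP'P, Matrix.mul_one, f1]
    · calc P * S2' * (S2 * P') = P * (S2' * S2) * P' := by simp only [Matrix.mul_assoc]
        _ = 1 := by rw [f2, Matrix.mul_one, hPP']
    · calc S2 * P' * J = S2 * (P' * J * (P * P')) := by rw [hPP', Matrix.mul_one, Matrix.mul_assoc]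
        _ = S2 * M * P' := by rw [hM]; simp only [Matrix.mul_assoc]
        _ = T2 * (S2 * P') := by rw [f3, Matrix.mul_assoc]
    · intro i j
      refine Fin.cases ?_ (fun i' => ?_) i <;> refine Fin.cases ?_ (fun j' => ?_) j
      · intro h
        exact absurd h (lt_irrefl _)
      · intro h
        exact absurd h (not_lt.2 (Fin.zero_le _))
      · intro _
        simp [hT2]
      · intro h
        have := h4 i' j' (Fin.succ_lt_succ_iff.1 h)
        simpa [hT2] using this

theorem triang {g : ℕ} (J : Matrix (Fin g) (Fin g) ℂ) (lam : Fin g → ℂ)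
    (hJ : J.charpoly = ∏ i, (Polynomial.X - Polynomial.C (lam i))) :
    ∃ S S' T : Matrix (Fin g) (Fin g) ℂ, S * S' = 1 ∧ S' * S = 1 ∧ S * J = T * S ∧
      (∀ i j, j < i → T i j = 0) ∧ ∀ i, ∃ j, T i i = lam j := by
  obtain ⟨S, S', T, h1, h2, h3, h4⟩ := Tri_ex g J
  refine ⟨S, S', T, h1, h2, h3, h4, fun i => ?_⟩
  have hT : T = S * J * S' := by rw [h3, Matrix.mul_assoc, h1, Matrix.mul_one]
  have hc : T.charpoly = J.charpoly := by
    have h6 := Matrix.charpoly_units_conj (⟨S, S', h1, h2⟩ : (Matrix (Fin g) (Fin g) ℂ)ˣ) J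
    change (S * J * S⁻¹).charpoly = J.charpoly at h6
    rw [Matrix.inv_eq_right_inv h1] at h6
    rw [hT]
    exact h6
  have hu : T.charpoly = ∏ i, (Polynomial.X - Polynomial.C (T i i)) :=
    Matrix.charpoly_of_isUpperTriangular T (fun a b hab => h4 a b hab)
  have h5 : Polynomial.eval (T i i) (∏ j, (Polynomial.X - Polynomial.C (lam j))) = 0 := by
    rw [← hJ, ← hc, hu, Polynomial.eval_prod]
    exact Finset.prod_eq_zero (Finset.mem_univ i) (by simp)
  rw [Polynomial.eval_prod, Finset.prod_eq_zero_iff] at h5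
  obtain ⟨j, -, hj⟩ := h5
  refine ⟨j, ?_⟩
  rw [Polynomial.eval_sub, Polynomial.eval_X, Polynomial.eval_C] at hj
  exact sub_eq_zero.1 hj

end MP_f4ff90_agE
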