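import Mathlib
import Pool.Agent.Lib.MP_f4ff90_agE.Mon
import Pool.Agent.Lib.MP_f4ff90_agE.Jet
import Pool.Agent.Lib.MP_f4ff90_agE.Tri
import Pool.Agent.Lib.MP_f4ff90_agE.Rot
import Pool.Agent.Lib.MP_f4ff90_agE.EpD

/-!
LEAF Pol.  Polynomials along the orbit.
PROOF.  `S, S', T` by `triang`, `Λ = Submonoid.closure (Set.range lam)` (all elements `≠ 0`), countable (image of `Fin g →₀ ℕ` or `Submonoid.closure` of a countable set), so there is `r' ∈ (0, min r 1)` different from all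
`‖μ‖`, `μ ∈ Λ` (`Set.Countable` against an interval), and `M` with `ρ^M ≤ r'`.  `jets`, `mono_ep` with `y n = S (z n - q)` (`‖y n i‖ ≤ C'' ρ^n`).  `P(z) = P(q + S' y)` is a polynomial in `y`, so `P(z n)` is a
finite combination of monomials of `y n`: `ep_sum`, `ep_smul`.  `pol_dich`: if the first case of `ep_dich` (with `m` of `no_rot`, given as `H`) fails for the class `c` then for every `r > 0` the second
case for `r' < r` gives the bound with `r`; `r^(c + m k)` as stated.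
-/

set_option autoImplicit false

open Filter Topology MvPolynomial

namespace MP_f4ff90_agE

private theorem Pol_ne {g : ℕ} (lam : Fin g → ℂ) (h0 : ∀ i, lam i ≠ 0) :
    ∀ μ ∈ Submonoid.closure (Set.range lam), μ ≠ 0 := by
  intro μ hμ
  induction hμ using Submonoid.closure_induction with
  | mem x hx =>
    obtain ⟨i, rfl⟩ := hx
    exact h0 i
  | one => exact one_ne_zero
  | mul x y _ _ hx hy => exact mul_ne_zero hx hy

private theorem Pol_countable {g : ℕ} (lam : Fin g → ℂ) :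
    (Submonoid.closure (Set.range lam) : Set ℂ).Countable := by
  refine Set.Countable.mono ?_ (Set.countable_range fun β : Fin g → ℕ => ∏ i, lam i ^ β i)
  intro μ hμ
  have hμ' : μ ∈ Submonoid.closure (Set.range lam) := hμ
  induction hμ' using Submonoid.closure_induction with
  | mem x hx =>
    obtain ⟨i, rfl⟩ := hx
    refine ⟨Pi.single i 1, ?_⟩
    show ∏ j, lam j ^ (Pi.single i 1 : Fin g → ℕ) j = lam i
    rw [Finset.prod_eq_single i]
    · rw [Pi.single_eq_same, pow_one]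
    · intro j _ hj
      rw [Pi.single_eq_of_ne hj, pow_zero]
    · intro h
      exact absurd (Finset.mem_univ i) h
  | one => exact ⟨0, by simp⟩
  | mul x y hx' hy' hx hy =>
    obtain ⟨β, hβ⟩ := hx hx'
    obtain ⟨β', hβ'⟩ := hy hy'
    refine ⟨β + β', ?_⟩
    show ∏ j, lam j ^ (β j + β' j) = x * y
    rw [← hβ, ← hβ', ← Finset.prod_mul_distrib]
    exact Finset.prod_congr rfl fun j _ => pow_add _ _ _

private theorem Pol_radius {Λ : Set ℂ} (hΛ : Λ.Countable) {r : ℝ} (hr : 0 < r) :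
    ∃ r' : ℝ, 0 < r' ∧ r' < r ∧ ∀ μ ∈ Λ, ‖μ‖ ≠ r' := by
  have h1 : ((fun μ : ℂ => ‖μ‖) '' Λ).Countable := hΛ.image _
  obtain ⟨r', h2, h3⟩ := (h1.dense_compl (𝕜 := ℝ)).exists_between hr
  refine ⟨r', h3.1, h3.2, fun μ hμ h => h2 ⟨μ, hμ, h⟩⟩

/-- The polynomial in the coordinates `y`. -/
private noncomputable def Pol_P {g : ℕ} (q : Fin g → ℂ) (S' : Matrix (Fin g) (Fin g) ℂ)
    (P : MvPolynomial (Fin g) ℂ) : MvPolynomial (Fin g) ℂ :=
  aeval (fun i => C (q i) + ∑ j, C (S' i j) * X j) P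

private theorem Pol_eval {g : ℕ} (q : Fin g → ℂ) (S' : Matrix (Fin g) (Fin g) ℂ) (y : Fin g → ℂ)
    (P : MvPolynomial (Fin g) ℂ) :
    eval y (Pol_P q S' P) = eval (fun i => q i + S'.mulVec y i) P := by
  unfold Pol_P
  induction P using MvPolynomial.induction_on with
  | C a =>
    rw [aeval_C, eval_C]
    exact eval_C a
  | add p p' hp hp' => rw [map_add, map_add, map_add, hp, hp']
  | mul_X p i hp =>
    rw [map_mul, map_mul, map_mul, hp, aeval_X, eval_X, map_add, eval_C, map_sum]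
    congr 2
    unfold Matrix.mulVec dotProduct
    refine Finset.sum_congr rfl fun j _ => ?_
    rw [map_mul, eval_C, eval_X]

theorem pol_ep {g : ℕ} {N D : Fin g → MvPolynomial (Fin g) ℂ} {q : Fin g → ℂ} {z : ℕ → Fin g → ℂ}
    (hz : Orb N D z) {ρ C : ℝ} (hρ0 : 0 < ρ) (hρ1 : ρ < 1) (hc : ∀ n i, ‖z n i - q i‖ ≤ C * ρ ^ n)
    (hD : ∀ i, eval q (D i) ≠ 0) (lam : Fin g → ℂ) (h0 : ∀ i, lam i ≠ 0)
    (hJ : (Jac N D q).charpoly = ∏ i, (Polynomial.X - Polynomial.C (lam i)))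
    (P : MvPolynomial (Fin g) ℂ) {r : ℝ} (hr : 0 < r) :
    ∃ r' : ℝ, 0 < r' ∧ r' < r ∧
      Ep (Submonoid.closure (Set.range lam) : Set ℂ) r' (fun n => eval (z n) P) := by
  obtain ⟨S, S', T, hS, hS', hT, htri, hdiag⟩ := triang (Jac N D q) lam hJ
  obtain ⟨r', h1, h2, h3⟩ := Pol_radius (Pol_countable lam) hr
  obtain ⟨M, hM⟩ := exists_pow_lt_of_lt_one h1 hρ1
  obtain ⟨f, hf0, hf1, C', hrec⟩ := jets hz hρ0 hρ1 hc hD hS hS' hT M
  refine ⟨r', h1, h2, ?_⟩
  have hdiag' : ∀ i, T i i ∈ Submonoid.closure (Set.range lam) := by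
    intro i
    obtain ⟨j, hj⟩ := hdiag i
    rw [hj]
    exact Submonoid.subset_closure ⟨j, rfl⟩
  have hy : ∀ n i, ‖S.mulVec (fun l => z n l - q l) i‖ ≤ (∑ i, ∑ l, ‖S i l‖ * C) * ρ ^ n := by
    intro n i
    have hC : 0 ≤ C := by
      have h4 := (norm_nonneg _).trans (hc 0 i)
      rw [pow_zero, mul_one] at h4
      exact h4
    have h5 : ‖S.mulVec (fun l => z n l - q l) i‖ ≤ (∑ l, ‖S i l‖ * C) * ρ ^ n := by
      unfold Matrix.mulVec dotProduct
      rw [Finset.sum_mul]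
      refine (norm_sum_le _ _).trans (Finset.sum_le_sum fun l _ => ?_)
      rw [norm_mul, mul_assoc]
      exact mul_le_mul_of_nonneg_left (hc n l) (norm_nonneg _)
    refine h5.trans (mul_le_mul_of_nonneg_right ?_ (pow_nonneg hρ0.le n))
    exact Finset.single_le_sum (f := fun i => ∑ l, ‖S i l‖ * C)
      (fun i _ => Finset.sum_nonneg fun l _ => mul_nonneg (norm_nonneg _) hC) (Finset.mem_univ i)
  have hmono := fun β : Fin g →₀ ℕ => mono_ep (Λ := Submonoid.closure (Set.range lam))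
    (Pol_ne lam h0) htri hdiag' hρ0 hρ1 hM.le h3 hy hf0 hf1 hrec β
  -- the coordinates
  have hzy : ∀ n, eval (z n) P = eval (S.mulVec (fun l => z n l - q l))
      (Pol_P q S' P) := by
    intro n
    rw [Pol_eval, Matrix.mulVec_mulVec, hS', Matrix.one_mulVec]
    congr 1
    refine congrArg eval (funext fun i => ?_)
    ring
  refine ep_congr (fun n => (hzy n).symm) ?_
  refine ep_congr (u := fun n => ∑ d ∈ (Pol_P q S' P).support, (Pol_P q S' P).coeff d *
      ∏ i, S.mulVec (fun l => z n l - q l) i ^ d i)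
    (fun n => (MvPolynomial.eval_eq' _ _).symm) ?_
  exact ep_sum _ _ fun d _ => ep_smul _ (hmono d)

theorem pol_dich {g : ℕ} {N D : Fin g → MvPolynomial (Fin g) ℂ} {q : Fin g → ℂ} {z : ℕ → Fin g → ℂ}
    (hz : Orb N D z) {ρ C : ℝ} (hρ0 : 0 < ρ) (hρ1 : ρ < 1) (hc : ∀ n i, ‖z n i - q i‖ ≤ C * ρ ^ n)
    (hD : ∀ i, eval q (D i) ≠ 0) (lam : Fin g → ℂ) (h0 : ∀ i, lam i ≠ 0)
    (hJ : (Jac N D q).charpoly = ∏ i, (Polynomial.X - Polynomial.C (lam i))) {m : ℕ} (hm : 0 < m)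
    (H : ∀ μ ∈ Submonoid.closure (Set.range lam), ∀ μ' ∈ Submonoid.closure (Set.range lam),
      ‖μ‖ = ‖μ'‖ → μ ^ m = μ' ^ m) (P : MvPolynomial (Fin g) ℂ) (c : ℕ) :
    (∃ k₀, ∀ k ≥ k₀, eval (z (c + m * k)) P ≠ 0) ∨
    ∀ r > 0, ∃ C' : ℝ, ∀ k, ‖eval (z (c + m * k)) P‖ ≤ C' * r ^ (c + m * k) := by
  by_cases hcase : ∃ k₀, ∀ k ≥ k₀, eval (z (c + m * k)) P ≠ 0
  · exact Or.inl hcase
  · refine Or.inr fun r hr => ?_
    obtain ⟨r', h1, h2, h3⟩ := pol_ep hz hρ0 hρ1 hc hD lam h0 hJ P hr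
    rcases ep_dich h1 (Pol_ne lam h0) hm H h3 c with h4 | h4
    · exact absurd h4 hcase
    · exact h4 r h2

end MP_f4ff90_agE
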