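import Pool.Agent.Lib.MP_f4ff90_agE.JetX
import Pool.Agent.Lib.MP_f4ff90_agE.FrmY
import Pool.Agent.Lib.MP_f4ff90_agE.Mon
import Pool.Agent.Lib.MP_f4ff90_agE.EpD

/-!
LEAF PolX.  Polynomials along the orbit: dichotomy.
PROOF.  Copy of `pol_ep`, `pol_dich` in `Pol.lean` (the helpers `Pol_ne`, `Pol_countable`, `Pol_radius` are private there: copy them): `frame_tri` in place of `triang`, `jetsX` in place of `jets`, `polX` (with the same `M`, `ρ^M ≤ r'`) in place of the exact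
change of coordinates: `eval (z n) P = eval (y n) p + O (ρ^(M n))`, `ρ^(M n) ≤ r'^n`: `ep_add` with `ep_small`.
-/

set_option autoImplicit false

open Filter Topology MvPolynomial

namespace MP_f4ff90_agE

private theorem PolX_ne {g : ℕ} (lam : Fin g → ℂ) (h0 : ∀ i, lam i ≠ 0) :
    ∀ μ ∈ Submonoid.closure (Set.range lam), μ ≠ 0 := by
  intro μ hμ
  induction hμ using Submonoid.closure_induction with
  | mem x hx =>
    obtain ⟨i, rfl⟩ := hx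
    exact h0 i
  | one => exact one_ne_zero
  | mul x y _ _ hx hy => exact mul_ne_zero hx hy

private theorem PolX_countable {g : ℕ} (lam : Fin g → ℂ) :
    (Submonoid.closure (Set.range lam) : Set ℂ).Countable := by
  refine Set.Countable.mono ?_ (Set.countable_range fun β : Fin g → ℕ => ∏ i, lam i ^ β i)
  intro μ hμ
  have hμ' : μ ∈ Submonoid.closure (Set.range lam) := hμ
  induction hμ' using Submonoid.closure_induction with
  | mem x hx =>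
    obtain ⟨i, rfl⟩ := hx
    refine ⟨Pi.single i 1, ?_⟩
    show ∏ j, lam j ^ (Pi.single i 1 : Fin g → ℕ) j = lam i
    rw [Finset.prod_eq_single i]
    · rw [Pi.single_eq_same, pow_one]
    · intro j _ hj
      rw [Pi.single_eq_of_ne hj, pow_zero]
    · intro h
      exact absurd (Finset.mem_univ i) h
  | one => exact ⟨0, by simp⟩
  | mul x y hx' hy' hx hy =>
    obtain ⟨β, hβ⟩ := hx hx'
    obtain ⟨β', hβ'⟩ := hy hy'
    refine ⟨β + β', ?_⟩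
    show ∏ j, lam j ^ (β j + β' j) = x * y
    rw [← hβ, ← hβ', ← Finset.prod_mul_distrib]
    exact Finset.prod_congr rfl fun j _ => pow_add _ _ _

private theorem PolX_radius {Λ : Set ℂ} (hΛ : Λ.Countable) {r : ℝ} (hr : 0 < r) :
    ∃ r' : ℝ, 0 < r' ∧ r' < r ∧ ∀ μ ∈ Λ, ‖μ‖ ≠ r' := by
  have h1 : ((fun μ : ℂ => ‖μ‖) '' Λ).Countable := hΛ.image _
  obtain ⟨r', h2, h3⟩ := (h1.dense_compl (𝕜 := ℝ)).exists_between hr
  refine ⟨r', h3.1, h3.2, fun μ hμ h => h2 ⟨μ, hμ, h⟩⟩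

private theorem PolX_ep {g l : ℕ} {N D : Fin g → MvPolynomial (Fin g) ℂ} {q : Fin g → ℂ}
    {z : ℕ → Fin g → ℂ} (hz : Orb N D z) {E : Set (MvPolynomial (Fin g) ℂ)}
    (hE : ∀ P ∈ E, eval q P = 0) (hzE : ∀ n, ∀ P ∈ E, eval (z n) P = 0) {ρ C : ℝ} (hρ0 : 0 < ρ)
    (hρ1 : ρ < 1) (hc : ∀ n i, ‖z n i - q i‖ ≤ C * ρ ^ n) (hD : ∀ i, eval q (D i) ≠ 0)
    (hV : ∀ v ∈ TanE E q, (Jac N D q).mulVec v ∈ TanE E q) (lam : Fin l → ℂ)
    (h0 : ∀ i, lam i ≠ 0)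
    (hlam : ∀ (μ : ℂ) (v : Fin g → ℂ), v ∈ TanE E q → v ≠ 0 → (Jac N D q).mulVec v = μ • v →
      ∃ i, μ = lam i) (P : MvPolynomial (Fin g) ℂ) {r : ℝ} (hr : 0 < r) :
    ∃ r' : ℝ, 0 < r' ∧ r' < r ∧
      Ep (Submonoid.closure (Set.range lam) : Set ℂ) r' (fun n => eval (z n) P) := by
  obtain ⟨d, S, S', T, hF, htri, hdiag⟩ := frame_tri (Jac N D q) (TanE E q) hV lam hlam
  obtain ⟨r', h1, h2, h3⟩ := PolX_radius (PolX_countable lam) hr
  obtain ⟨M, hM⟩ := exists_pow_lt_of_lt_one h1 hρ1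
  obtain ⟨f, hf0, hf1, C', hrec⟩ := jetsX hz hE hzE hρ0 hρ1 hc hD hF M
  obtain ⟨p, C'', hp⟩ := polX hE hzE hρ0 hρ1 hc hF M P
  refine ⟨r', h1, h2, ?_⟩
  have hdiag' : ∀ i, T i i ∈ Submonoid.closure (Set.range lam) := by
    intro i
    obtain ⟨j, hj⟩ := hdiag i
    rw [hj]
    exact Submonoid.subset_closure ⟨j, rfl⟩
  have hy : ∀ n i, ‖S.mulVec (fun l => z n l - q l) i‖ ≤ (∑ i, ∑ l, ‖S i l‖ * |C|) * ρ ^ n := by
    intro n i
    have h5 : ‖S.mulVec (fun l => z n l - q l) i‖ ≤ (∑ l, ‖S i l‖ * |C|) * ρ ^ n := by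
      unfold Matrix.mulVec dotProduct
      rw [Finset.sum_mul]
      refine (norm_sum_le _ _).trans (Finset.sum_le_sum fun l _ => ?_)
      rw [norm_mul, mul_assoc]
      refine mul_le_mul_of_nonneg_left ((hc n l).trans ?_) (norm_nonneg _)
      exact mul_le_mul_of_nonneg_right (le_abs_self C) (pow_nonneg hρ0.le n)
    refine h5.trans (mul_le_mul_of_nonneg_right ?_ (pow_nonneg hρ0.le n))
    exact Finset.single_le_sum (f := fun i => ∑ l, ‖S i l‖ * |C|)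
      (fun i _ => Finset.sum_nonneg fun l _ => mul_nonneg (norm_nonneg _) (abs_nonneg C))
      (Finset.mem_univ i)
  have hmono := fun β : Fin d →₀ ℕ => mono_ep (Λ := Submonoid.closure (Set.range lam))
    (PolX_ne lam h0) htri hdiag' hρ0 hρ1 hM.le h3 hy hf0 hf1 hrec β
  have hpow : ∀ n : ℕ, ρ ^ (M * n) ≤ r' ^ n := fun n => by
    rw [pow_mul]
    exact pow_le_pow_left₀ (pow_pos hρ0 M).le hM.le n
  have e1 : Ep (Submonoid.closure (Set.range lam) : Set ℂ) r'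
      (fun n => eval (S.mulVec (fun l => z n l - q l)) p) := by
    refine ep_congr (u := fun n => ∑ d ∈ p.support, p.coeff d *
        ∏ i, S.mulVec (fun l => z n l - q l) i ^ d i)
      (fun n => (MvPolynomial.eval_eq' _ _).symm) ?_
    exact ep_sum _ _ fun d _ => ep_smul _ (hmono d)
  have e2 : Ep (Submonoid.closure (Set.range lam) : Set ℂ) r'
      (fun n => eval (z n) P - eval (S.mulVec (fun l => z n l - q l)) p) := by
    refine ep_small ⟨|C''|, fun n => (hp n).trans ?_⟩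
    calc C'' * ρ ^ (M * n) ≤ |C''| * ρ ^ (M * n) :=
          mul_le_mul_of_nonneg_right (le_abs_self C'') (pow_nonneg hρ0.le _)
      _ ≤ |C''| * r' ^ n := mul_le_mul_of_nonneg_left (hpow n) (abs_nonneg C'')
  exact ep_congr (fun n => by ring) (ep_add e1 e2)

theorem pol_dichX {g l : ℕ} {N D : Fin g → MvPolynomial (Fin g) ℂ} {q : Fin g → ℂ}
    {z : ℕ → Fin g → ℂ} (hz : Orb N D z) {E : Set (MvPolynomial (Fin g) ℂ)}
    (hE : ∀ P ∈ E, eval q P = 0) (hzE : ∀ n, ∀ P ∈ E, eval (z n) P = 0) {ρ C : ℝ} (hρ0 : 0 < ρ)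
    (hρ1 : ρ < 1) (hc : ∀ n i, ‖z n i - q i‖ ≤ C * ρ ^ n) (hD : ∀ i, eval q (D i) ≠ 0)
    (hV : ∀ v ∈ TanE E q, (Jac N D q).mulVec v ∈ TanE E q) (lam : Fin l → ℂ)
    (h0 : ∀ i, lam i ≠ 0)
    (hlam : ∀ (μ : ℂ) (v : Fin g → ℂ), v ∈ TanE E q → v ≠ 0 → (Jac N D q).mulVec v = μ • v →
      ∃ i, μ = lam i) {m : ℕ} (hm : 0 < m)
    (H : ∀ μ ∈ Submonoid.closure (Set.range lam), ∀ μ' ∈ Submonoid.closure (Set.range lam),
      ‖μ‖ = ‖μ'‖ → μ ^ m = μ' ^ m) (P : MvPolynomial (Fin g) ℂ) (c : ℕ) :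
    (∃ k₀, ∀ k ≥ k₀, eval (z (c + m * k)) P ≠ 0) ∨
    ∀ r > 0, ∃ C' : ℝ, ∀ k, ‖eval (z (c + m * k)) P‖ ≤ C' * r ^ (c + m * k) := by
  by_cases hcase : ∃ k₀, ∀ k ≥ k₀, eval (z (c + m * k)) P ≠ 0
  · exact Or.inl hcase
  · refine Or.inr fun r hr => ?_
    obtain ⟨r', h1, h2, h3⟩ := PolX_ep hz hE hzE hρ0 hρ1 hc hD hV lam h0 hlam P hr
    rcases ep_dich h1 (PolX_ne lam h0) hm H h3 c with h4 | h4
    · exact absurd h4 hcase
    · exact h4 r h2

end MP_f4ff90_agE
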