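import Pool.Agent.Lib.MP_f4ff90_agE.AnnX

/-!
LEAF QuaX.  A linear form which vanishes on the tangent space is quadratically small on `X`.
PROOF.  `ann` gives `P ∈ span E` with `dP(q) = w`; `P(q) = 0` and `P(x) = 0` for `x` on `X` (`Submodule.span_induction`).  Let `P̂ = bind₁ (fun j => X j + C (q j)) P`, so `eval δ P̂ = eval (q + δ) P`, `P̂.coeff 0 = P(q) = 0`, `P̂.coeff (single j 1) = ∂_j P(q)`
(Taylor; induction on `P`, cf. `aut_taylor` in `Aut.lean`), and `R = ∑ j, C (w j) * X j - P̂`: its coefficients of degree `< 2` vanish and `eval (x - q) R = ∑ w j (x j - q j) - eval x P`.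
-/

set_option autoImplicit false

open Filter Topology MvPolynomial

namespace MP_f4ff90_agE

/-- the shift and evaluation -/
private lemma quaX_eval {g : ℕ} (q δ : Fin g → ℂ) (P : MvPolynomial (Fin g) ℂ) :
    eval δ (bind₁ (fun j => X j + C (q j)) P) = eval (fun j => δ j + q j) P := by
  have h : ((eval δ).comp (bind₁ (fun j => X j + C (q j)) :
      MvPolynomial (Fin g) ℂ →ₐ[ℂ] MvPolynomial (Fin g) ℂ).toRingHom) =
      eval (fun j => δ j + q j) := by
    refine MvPolynomial.ringHom_ext (fun r => ?_) fun i => ?_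
    · change eval δ (bind₁ _ (C r)) = eval _ (C r)
      rw [bind₁_C_right, eval_C, eval_C]
    · change eval δ (bind₁ _ (X i)) = eval _ (X i)
      rw [bind₁_X_right, map_add, eval_X, eval_C, eval_X]
  exact congrArg (fun φ => φ P) h

/-- Taylor's formula of order one -/
private lemma quaX_taylor {g : ℕ} (q : Fin g → ℂ) (P : MvPolynomial (Fin g) ℂ) :
    ∀ m : Fin g →₀ ℕ, m.degree < 2 →
      (bind₁ (fun j => X j + C (q j)) P - C (eval q P) -
        ∑ k, C (eval q (pderiv k P)) * X k).coeff m = 0 := by
  induction P using MvPolynomial.induction_on with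
  | C a => intro m _; simp
  | add p p' h1 h2 =>
    intro m hm
    have h3 : bind₁ (fun j => X j + C (q j)) (p + p') - C (eval q (p + p')) -
        ∑ k, C (eval q (pderiv k (p + p'))) * X k =
        (bind₁ (fun j => X j + C (q j)) p - C (eval q p) - ∑ k, C (eval q (pderiv k p)) * X k) +
        (bind₁ (fun j => X j + C (q j)) p' - C (eval q p') -
          ∑ k, C (eval q (pderiv k p')) * X k) := by
      simp only [map_add, add_mul, Finset.sum_add_distrib]; ring
    rw [h3, coeff_add, h1 m hm, h2 m hm, add_zero]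
  | mul_X p i h =>
    intro m hm
    have h1 : ∑ k, C (eval q (pderiv k (p * X i))) * (X k : MvPolynomial (Fin g) ℂ) =
        C (q i) * (∑ k, C (eval q (pderiv k p)) * X k) + C (eval q p) * X i := by
      rw [Finset.mul_sum]
      have h2 : ∀ k : Fin g, C (eval q (pderiv k (p * X i))) * (X k : MvPolynomial (Fin g) ℂ) =
          C (q i) * (C (eval q (pderiv k p)) * X k) +
            (if k = i then C (eval q p) * X i else 0) := by
        intro k
        rw [Derivation.leibniz, pderiv_X]
        by_cases hk : k = i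
        · subst hk
          simp only [Pi.single_eq_same, smul_eq_mul, mul_one, map_add, map_mul, eval_X, if_true]
          ring
        · rw [Pi.single_eq_of_ne (fun h => hk h.symm), if_neg hk]
          simp only [smul_eq_mul, mul_zero, zero_add, map_mul, eval_X]
          ring
      rw [Finset.sum_congr rfl (fun k _ => h2 k), Finset.sum_add_distrib]
      simp
    have h3 : bind₁ (fun j => X j + C (q j)) (p * X i) - C (eval q (p * X i)) -
        ∑ k, C (eval q (pderiv k (p * X i))) * (X k : MvPolynomial (Fin g) ℂ) =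
        (bind₁ (fun j => X j + C (q j)) p - C (eval q p)) * X i +
        C (q i) * (bind₁ (fun j => X j + C (q j)) p - C (eval q p) -
          ∑ k, C (eval q (pderiv k p)) * X k) := by
      rw [h1]
      simp only [map_mul, eval_X, bind₁_X_right]
      ring
    rw [h3, coeff_add, coeff_C_mul, h m hm, mul_zero, add_zero, coeff_mul_X']
    split_ifs with hi
    · have hm1 : m - Finsupp.single i 1 = 0 := by
        have h4 : 1 ≤ m i := Nat.one_le_iff_ne_zero.2 (Finsupp.mem_support_iff.1 hi)
        have h5 : (m - Finsupp.single i 1) + Finsupp.single i 1 = m :=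
          tsub_add_cancel_of_le (Finsupp.single_le_iff.2 h4)
        have h6 : (m - Finsupp.single i 1).degree = 0 := by
          have h7 := congrArg Finsupp.degree h5
          rw [map_add, Finsupp.degree_single] at h7
          omega
        exact (Finsupp.degree_eq_zero_iff _).1 h6
      rw [hm1]
      have h8 : ∀ A : MvPolynomial (Fin g) ℂ, A.coeff 0 = eval (fun _ => (0 : ℂ)) A := fun A => by
        have h9 := MvPolynomial.eval_zero (σ := Fin g) (R := ℂ)
        have h10 := congrArg (fun φ => φ A) h9
        exact h10.symm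
      rw [h8, map_sub, quaX_eval, eval_C]
      simp
    · rfl

theorem quad {g : ℕ} (E : Set (MvPolynomial (Fin g) ℂ)) (q : Fin g → ℂ)
    (hE : ∀ P ∈ E, eval q P = 0) (w : Fin g → ℂ) (hw : ∀ v ∈ TanE E q, ∑ j, w j * v j = 0) :
    ∃ R : MvPolynomial (Fin g) ℂ, (∀ m : Fin g →₀ ℕ, m.degree < 2 → R.coeff m = 0) ∧
      ∀ x : Fin g → ℂ, (∀ P ∈ E, eval x P = 0) →
        ∑ j, w j * (x j - q j) = eval (fun j => x j - q j) R := by
  obtain ⟨P, hP, hPw⟩ := ann E q w hw
  have h0 : ∀ x : Fin g → ℂ, (∀ P ∈ E, eval x P = 0) → eval x P = 0 := by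
    intro x hx
    refine Submodule.span_induction (p := fun P _ => eval x P = 0) ?_ ?_ ?_ ?_ hP
    · exact fun P hP => hx P hP
    · exact map_zero _
    · intro a b _ _ ha hb
      rw [map_add, ha, hb, add_zero]
    · intro c a _ ha
      rw [smul_eval, ha, mul_zero]
  refine ⟨∑ j, C (w j) * X j - bind₁ (fun j => X j + C (q j)) P, fun m hm => ?_, fun x hx => ?_⟩
  · have h1 := quaX_taylor q P m hm
    rw [h0 q hE, map_zero, sub_zero, coeff_sub, sub_eq_zero] at h1
    rw [coeff_sub, h1, sub_eq_zero]
    simp only [hPw]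
  · rw [map_sub, quaX_eval]
    have h2 : (fun j => x j - q j + q j) = x := funext fun j => sub_add_cancel _ _
    rw [h2, h0 x hx, sub_zero, map_sum]
    refine Finset.sum_congr rfl fun j _ => ?_
    rw [map_mul, eval_C, eval_X]

end MP_f4ff90_agE
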