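import Pool.Agent.Lib.MP_f4ff90_agE.TrE
import Pool.Agent.Lib.MP_f4ff90_agE.FOr

/-!
LEAF Stp.  One step of the map near a fixed point, in adapted coordinates.
PROOF.  `S, S', T` of `triE` with `ε / 2`, `t i = T i i`.  Let `a = ∑ i, ∑ j, ‖S i j‖`, `a' = ∑ i, ∑ j, ‖S' i j‖`, so `‖S.mulVec v‖ ≤ a ‖v‖`, `‖S'.mulVec v‖ ≤ a' ‖v‖`.  `first_order` with
`ε' = ε / (2 (a + 1) (a' + 1))` gives `r'`; take `r = r' / (a' + 1)`.  For `v = y - q`: `v = S' (S v)`, `‖v‖ ≤ a' ‖S v‖`, and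
`S (f(y) - q) = S (J v) + S (error)`, `S (J v) = T (S v)`, `‖S error‖ ≤ a ε' ‖v‖ ≤ (ε / 2) ‖S v‖`.
-/

set_option autoImplicit false

open Filter Topology MvPolynomial

namespace MP_f4ff90_agE

private theorem Stp_nn {g : ℕ} (S : Matrix (Fin g) (Fin g) ℂ) : 0 ≤ ∑ i, ∑ j, ‖S i j‖ :=
  Finset.sum_nonneg fun _ _ => Finset.sum_nonneg fun _ _ => norm_nonneg _

private theorem Stp_bd {g : ℕ} (S : Matrix (Fin g) (Fin g) ℂ) (v : Fin g → ℂ) :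
    ‖S.mulVec v‖ ≤ (∑ i, ∑ j, ‖S i j‖) * ‖v‖ := by
  rw [pi_norm_le_iff_of_nonneg (mul_nonneg (Stp_nn S) (norm_nonneg v))]
  intro i
  have h1 : ‖S.mulVec v i‖ ≤ ∑ j, ‖S i j‖ * ‖v‖ := by
    change ‖∑ j, S i j * v j‖ ≤ _
    refine norm_sum_le_of_le _ fun j _ => ?_
    rw [norm_mul]
    exact mul_le_mul_of_nonneg_left (norm_le_pi_norm v j) (norm_nonneg _)
  refine h1.trans ?_
  rw [← Finset.sum_mul]
  refine mul_le_mul_of_nonneg_right ?_ (norm_nonneg v)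
  exact Finset.single_le_sum (f := fun i => ∑ j, ‖S i j‖)
    (fun i _ => Finset.sum_nonneg fun j _ => norm_nonneg _) (Finset.mem_univ i)

theorem step {g : ℕ} (N D : Fin g → MvPolynomial (Fin g) ℂ) (q : Fin g → ℂ)
    (hD : ∀ i, eval q (D i) ≠ 0) (hq : ∀ i, eval q (N i) / eval q (D i) = q i) (lam : Fin g → ℂ)
    (hJ : (Jac N D q).charpoly = ∏ i, (Polynomial.X - Polynomial.C (lam i))) {ε : ℝ}
    (hε : 0 < ε) :
    ∃ (S S' : Matrix (Fin g) (Fin g) ℂ) (t : Fin g → ℂ) (r : ℝ), S * S' = 1 ∧ S' * S = 1 ∧ 0 < r ∧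
      (∀ i, ∃ j, t i = lam j) ∧ ∀ y : Fin g → ℂ, ‖S.mulVec (y - q)‖ < r →
        (∀ i, eval y (D i) ≠ 0) ∧
        ∀ i, ‖S.mulVec (fun l => eval y (N l) / eval y (D l) - q l) i - t i * S.mulVec (y - q) i‖ ≤
          ε * ‖S.mulVec (y - q)‖ := by
  obtain ⟨S, S', T, h1, h2, h3, h4, h5⟩ := triE (Jac N D q) lam hJ (half_pos hε)
  obtain ⟨a, ha⟩ : ∃ a : ℝ, a = ∑ i, ∑ j, ‖S i j‖ := ⟨_, rfl⟩
  obtain ⟨a', ha'⟩ : ∃ a' : ℝ, a' = ∑ i, ∑ j, ‖S' i j‖ := ⟨_, rfl⟩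
  have ha0 : 0 ≤ a := ha ▸ Stp_nn S
  have ha0' : 0 ≤ a' := ha' ▸ Stp_nn S'
  have hb : ∀ v : Fin g → ℂ, ‖S.mulVec v‖ ≤ a * ‖v‖ := fun v => ha ▸ Stp_bd S v
  have hb' : ∀ v : Fin g → ℂ, ‖S'.mulVec v‖ ≤ a' * ‖v‖ := fun v => ha' ▸ Stp_bd S' v
  obtain ⟨r', hr', h6⟩ := first_order N D q hD hq (ε := ε / (2 * (a + 1) * (a' + 1)))
    (by positivity)
  refine ⟨S, S', fun i => T i i, r' / (a' + 1), h1, h2, by positivity, h4, ?_⟩
  intro y hy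
  obtain ⟨v, hv⟩ : ∃ v : Fin g → ℂ, v = y - q := ⟨_, rfl⟩
  rw [← hv] at hy ⊢
  have hqv : q + v = y := by rw [hv, add_sub_cancel]
  have hSS : S'.mulVec (S.mulVec v) = v := by rw [Matrix.mulVec_mulVec, h2, Matrix.one_mulVec]
  have hvn : ‖v‖ ≤ a' * ‖S.mulVec v‖ := by
    have := hb' (S.mulVec v)
    rwa [hSS] at this
  have hvr : ‖v‖ < r' := by
    rw [lt_div_iff₀ (by positivity)] at hy
    nlinarith [norm_nonneg (S.mulVec v)]
  obtain ⟨h7, h8⟩ := h6 v hvr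
  rw [hqv] at h7 h8
  refine ⟨h7, fun i => ?_⟩
  obtain ⟨e, he⟩ : ∃ e : Fin g → ℂ, e = fun l => eval y (N l) / eval y (D l) - q l -
      (Jac N D q).mulVec v l := ⟨_, rfl⟩
  have hen : ‖e‖ ≤ ε / (2 * (a + 1) * (a' + 1)) * ‖v‖ := by
    rw [pi_norm_le_iff_of_nonneg (by positivity)]
    intro l
    rw [he]
    exact h8 l
  have hdec : (fun l => eval y (N l) / eval y (D l) - q l) = (Jac N D q).mulVec v + e := by
    funext l
    rw [he, Pi.add_apply]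
    ring
  have hS : S.mulVec (fun l => eval y (N l) / eval y (D l) - q l) =
      T.mulVec (S.mulVec v) + S.mulVec e := by
    rw [hdec, Matrix.mulVec_add, Matrix.mulVec_mulVec, h3, Matrix.mulVec_mulVec]
  rw [hS, Pi.add_apply]
  have hsplit : T.mulVec (S.mulVec v) i + S.mulVec e i - T i i * S.mulVec v i =
      (T.mulVec (S.mulVec v) i - T i i * S.mulVec v i) + S.mulVec e i := by ring
  rw [hsplit]
  refine (norm_add_le _ _).trans ?_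
  have h9 := h5 (S.mulVec v) i
  have h10 : ‖S.mulVec e i‖ ≤ a * ‖e‖ := (norm_le_pi_norm _ i).trans (hb e)
  have h11 : a * ‖e‖ ≤ ε / 2 * ‖S.mulVec v‖ := by
    have h12 : a * ‖e‖ ≤ a * (ε / (2 * (a + 1) * (a' + 1)) * (a' * ‖S.mulVec v‖)) :=
      mul_le_mul_of_nonneg_left (hen.trans (mul_le_mul_of_nonneg_left hvn (by positivity))) ha0
    refine h12.trans ?_
    have h13 : a * (ε / (2 * (a + 1) * (a' + 1)) * (a' * ‖S.mulVec v‖)) =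
        (ε / 2 * ‖S.mulVec v‖) * ((a * a') / ((a + 1) * (a' + 1))) := by
      field_simp
    rw [h13]
    refine mul_le_of_le_one_right (by positivity) ?_
    rw [div_le_one (by positivity)]
    nlinarith
  calc ‖T.mulVec (S.mulVec v) i - T i i * S.mulVec v i‖ + ‖S.mulVec e i‖
      ≤ ε / 2 * ‖S.mulVec v‖ + ε / 2 * ‖S.mulVec v‖ := add_le_add h9 (h10.trans h11)
    _ = ε * ‖S.mulVec v‖ := by ring

end MP_f4ff90_agE
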