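import Pool.Agent.Lib.MP_f4ff90_agE.FrmY
import Pool.Agent.Lib.MP_f4ff90_agE.QuaX
import Pool.Agent.Lib.MP_f4ff90_agE.OrdX
import Pool.Agent.Lib.MP_f4ff90_agE.FOr

/-!
LEAF StpX.  One step of the map on `X` near a fixed point, in adapted coordinates.
PROOF.  `S, S', T` of `frame_eps` with `ε / 2`, `t i = T i i`; `δ = y - q`.  For `y` on `X`: `δ k - (S' (S δ)) k = eval δ R_k` (`quad` for the rows of `1 - S' * S`, which vanish on the tangent space), `‖eval δ R_k‖ ≤ c ‖δ‖^2` (`ord_pt`), so for `‖δ‖` small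
`‖δ‖ ≤ a' ‖S δ‖ + ‖δ‖ / 2`, `‖δ‖ ≤ B₁ ‖S δ‖`, `B₁ = 2 a' + 1`, `a' = ∑ k, ∑ i, ‖S' k i‖`.  `first_order` with `ε'`: `f(y) - q = Jac δ + err`, `‖err‖ ≤ ε' ‖δ‖`: this gives `‖f(y) - q‖ ≤ B₂ ‖δ‖`; `B = max B₁ B₂`.  And
`S (f(y) - q) = S (Jac δ) + S err = T (S δ) + eval δ R'_i + S err` (`quad` for the rows of `S * Jac - T * S`), with `‖eval δ R'_i‖ ≤ c' ‖δ‖^2`, and `‖(T v) i - t i v i‖ ≤ (ε / 2) ‖v‖`; all errors are `≤ (ε / 2) ‖S δ‖` if `r` and `ε'` are small.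
-/

set_option autoImplicit false

open Filter Topology MvPolynomial

namespace MP_f4ff90_agE

/-- The norm of a matrix. -/
private theorem StpX_mat {a b : ℕ} (A : Matrix (Fin a) (Fin b) ℂ) :
    ∃ K : ℝ, 0 ≤ K ∧ ∀ v : Fin b → ℂ, ‖A.mulVec v‖ ≤ K * ‖v‖ :=
  ⟨‖LinearMap.toContinuousLinearMap A.mulVecLin‖, norm_nonneg _, fun v =>
    (LinearMap.toContinuousLinearMap A.mulVecLin).le_opNorm v⟩

/-- Linear maps which vanish on the tangent space are quadratically small on `X`. -/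
private theorem StpX_lin {g a : ℕ} (E : Set (MvPolynomial (Fin g) ℂ)) (q : Fin g → ℂ)
    (hE : ∀ P ∈ E, eval q P = 0) (M : Matrix (Fin a) (Fin g) ℂ)
    (hM : ∀ v ∈ TanE E q, M.mulVec v = 0) :
    ∃ c : ℝ, 0 ≤ c ∧ ∀ y : Fin g → ℂ, (∀ P ∈ E, eval y P = 0) → ‖y - q‖ ≤ 1 →
      ‖M.mulVec (y - q)‖ ≤ c * ‖y - q‖ ^ 2 := by
  have h1 : ∀ i : Fin a, ∃ c : ℝ, 0 ≤ c ∧ ∀ y : Fin g → ℂ, (∀ P ∈ E, eval y P = 0) →
      ‖y - q‖ ≤ 1 → ‖M.mulVec (y - q) i‖ ≤ c * ‖y - q‖ ^ 2 := by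
    intro i
    obtain ⟨R, hR, hq⟩ := quad E q hE (fun j => M i j) fun v hv => by
      have h2 := congrFun (hM v hv) i
      exact h2
    obtain ⟨c, hc, h3⟩ := ord_pt hR
    refine ⟨c, hc, fun y hy hn => ?_⟩
    have h4 : M.mulVec (y - q) i = eval (y - q) R := hq y hy
    rw [h4]
    exact h3 _ hn
  choose c hc h using h1
  refine ⟨∑ i, c i, Finset.sum_nonneg fun i _ => hc i, fun y hy hn => ?_⟩
  have hs : 0 ≤ ∑ i, c i := Finset.sum_nonneg fun i _ => hc i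
  rw [pi_norm_le_iff_of_nonneg (mul_nonneg hs (by positivity))]
  intro i
  refine (h i y hy hn).trans (mul_le_mul_of_nonneg_right ?_ (by positivity))
  exact Finset.single_le_sum (fun j _ => hc j) (Finset.mem_univ i)

theorem stepX {g l : ℕ} (N D : Fin g → MvPolynomial (Fin g) ℂ) (q : Fin g → ℂ)
    (hD : ∀ i, eval q (D i) ≠ 0) (hq : ∀ i, eval q (N i) / eval q (D i) = q i)
    (E : Set (MvPolynomial (Fin g) ℂ)) (hE : ∀ P ∈ E, eval q P = 0)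
    (hV : ∀ v ∈ TanE E q, (Jac N D q).mulVec v ∈ TanE E q) (lam : Fin l → ℂ)
    (hlam : ∀ (μ : ℂ) (v : Fin g → ℂ), v ∈ TanE E q → v ≠ 0 → (Jac N D q).mulVec v = μ • v →
      ∃ i, μ = lam i) {ε : ℝ} (hε : 0 < ε) :
    ∃ (d : ℕ) (S : Matrix (Fin d) (Fin g) ℂ) (t : Fin d → ℂ) (r B : ℝ), 0 < r ∧ 0 < B ∧
      (∀ i, ∃ j, t i = lam j) ∧
      ∀ y : Fin g → ℂ, (∀ P ∈ E, eval y P = 0) → ‖y - q‖ < r →
        (∀ i, eval y (D i) ≠ 0) ∧ ‖y - q‖ ≤ B * ‖S.mulVec (y - q)‖ ∧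
        ‖(fun k => eval y (N k) / eval y (D k) - q k)‖ ≤ B * ‖y - q‖ ∧
        ∀ i, ‖S.mulVec (fun k => eval y (N k) / eval y (D k) - q k) i -
          t i * S.mulVec (y - q) i‖ ≤ ε * ‖S.mulVec (y - q)‖ := by
  obtain ⟨d, S, S', T, hF, ht, hT⟩ := frame_eps (Jac N D q) (TanE E q) hV lam hlam (half_pos hε)
  obtain ⟨c1, hc1, hl1⟩ := StpX_lin E q hE (1 - S' * S) fun v hv => by
    rw [Matrix.sub_mulVec, Matrix.one_mulVec, ← Matrix.mulVec_mulVec, hF.left v hv, sub_self]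
  obtain ⟨c2, hc2, hl2⟩ := StpX_lin E q hE (S * Jac N D q - T * S) fun v hv => by
    rw [Matrix.sub_mulVec, ← Matrix.mulVec_mulVec, ← Matrix.mulVec_mulVec, hF.equi v hv, sub_self]
  obtain ⟨K', hK', hS'⟩ := StpX_mat S'
  obtain ⟨KS, hKS, hS⟩ := StpX_mat S
  obtain ⟨KJ, hKJ, hJ⟩ := StpX_mat (Jac N D q)
  obtain ⟨B1, hB1⟩ : ∃ B1 : ℝ, B1 = 2 * K' + 1 := ⟨_, rfl⟩
  have hB1p : 0 < B1 := by
    rw [hB1]
    positivity
  obtain ⟨ε', hε'⟩ : ∃ ε' : ℝ, ε' = ε / (4 * (KS + 1) * B1) := ⟨_, rfl⟩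
  have hε'p : 0 < ε' := by
    rw [hε']
    positivity
  obtain ⟨r0, hr0, hfo⟩ := first_order N D q hD hq hε'p
  refine ⟨d, S, fun i => T i i, min r0 (min 1 (min (1 / (2 * (c1 + 1))) (ε / (4 * (c2 + 1) * B1)))),
    max B1 (KJ + ε'), by positivity, by positivity, ht, fun y hy hyr => ?_⟩
  obtain ⟨δ, hδ⟩ : ∃ δ : Fin g → ℂ, δ = y - q := ⟨_, rfl⟩
  have hyq : q + δ = y := by
    rw [hδ]
    abel
  rw [← hδ] at hyr
  have e0 : ‖δ‖ < r0 := hyr.trans_le (min_le_left _ _)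
  have e1 : ‖δ‖ < 1 := hyr.trans_le ((min_le_right _ _).trans (min_le_left _ _))
  have e2 : ‖δ‖ < 1 / (2 * (c1 + 1)) :=
    hyr.trans_le ((min_le_right _ _).trans ((min_le_right _ _).trans (min_le_left _ _)))
  have e3 : ‖δ‖ < ε / (4 * (c2 + 1) * B1) :=
    hyr.trans_le ((min_le_right _ _).trans ((min_le_right _ _).trans (min_le_right _ _)))
  obtain ⟨hDy, hfo1⟩ := hfo δ e0
  rw [hyq] at hDy
  simp only [hyq] at hfo1
  have hn0 : 0 ≤ ‖δ‖ := norm_nonneg _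
  have hs0 : 0 ≤ ‖S.mulVec δ‖ := norm_nonneg _
  have l1 := hl1 y hy (by rw [← hδ]; exact e1.le)
  have l2 := hl2 y hy (by rw [← hδ]; exact e1.le)
  rw [← hδ] at l1 l2
  -- the vector of the values
  obtain ⟨F, hFd⟩ : ∃ F : Fin g → ℂ, F = fun k => eval y (N k) / eval y (D k) - q k := ⟨_, rfl⟩
  have hFJ : ‖F - (Jac N D q).mulVec δ‖ ≤ ε' * ‖δ‖ := by
    rw [pi_norm_le_iff_of_nonneg (mul_nonneg hε'p.le hn0)]
    intro i
    rw [hFd]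
    exact hfo1 i
  -- first estimate
  have hB : ‖δ‖ ≤ B1 * ‖S.mulVec δ‖ := by
    have h1 : δ = S'.mulVec (S.mulVec δ) + (1 - S' * S).mulVec δ := by
      rw [Matrix.sub_mulVec, Matrix.one_mulVec, ← Matrix.mulVec_mulVec]
      abel
    have h2 : ‖δ‖ ≤ K' * ‖S.mulVec δ‖ + c1 * ‖δ‖ ^ 2 := by
      calc ‖δ‖ = ‖S'.mulVec (S.mulVec δ) + (1 - S' * S).mulVec δ‖ := by rw [← h1]
        _ ≤ _ := (norm_add_le _ _).trans (add_le_add (hS' _) l1)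
    have h3 : c1 * ‖δ‖ ≤ 1 / 2 := by
      have h4 : (c1 + 1) * ‖δ‖ ≤ (c1 + 1) * (1 / (2 * (c1 + 1))) :=
        mul_le_mul_of_nonneg_left e2.le (by positivity)
      have h5 : (c1 + 1) * (1 / (2 * (c1 + 1))) = 1 / 2 := by
        field_simp
      nlinarith
    have h4 : c1 * ‖δ‖ ^ 2 ≤ 1 / 2 * ‖δ‖ := by
      calc c1 * ‖δ‖ ^ 2 = (c1 * ‖δ‖) * ‖δ‖ := by ring
        _ ≤ 1 / 2 * ‖δ‖ := mul_le_mul_of_nonneg_right h3 hn0
    rw [hB1]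
    nlinarith
  rw [← hδ, ← hFd]
  refine ⟨hDy, hB.trans (mul_le_mul_of_nonneg_right (le_max_left _ _) hs0), ?_, fun i => ?_⟩
  · have h1 : F = (F - (Jac N D q).mulVec δ) + (Jac N D q).mulVec δ := by abel
    calc ‖F‖ = ‖(F - (Jac N D q).mulVec δ) + (Jac N D q).mulVec δ‖ := by rw [← h1]
      _ ≤ ε' * ‖δ‖ + KJ * ‖δ‖ := (norm_add_le _ _).trans (add_le_add hFJ (hJ δ))
      _ = (KJ + ε') * ‖δ‖ := by ring
      _ ≤ _ := mul_le_mul_of_nonneg_right (le_max_right _ _) hn0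
  · have h1 : S.mulVec F i - T i i * S.mulVec δ i =
        S.mulVec (F - (Jac N D q).mulVec δ) i + (S * Jac N D q - T * S).mulVec δ i +
          (T.mulVec (S.mulVec δ) i - T i i * S.mulVec δ i) := by
      rw [Matrix.mulVec_sub, Matrix.sub_mulVec, ← Matrix.mulVec_mulVec, ← Matrix.mulVec_mulVec,
        Pi.sub_apply, Pi.sub_apply]
      ring
    have h2 : ‖S.mulVec (F - (Jac N D q).mulVec δ) i‖ ≤ KS * (ε' * ‖δ‖) :=
      (norm_le_pi_norm _ i).trans ((hS _).trans (mul_le_mul_of_nonneg_left hFJ hKS))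
    have h3 : ‖(S * Jac N D q - T * S).mulVec δ i‖ ≤ c2 * ‖δ‖ ^ 2 := (norm_le_pi_norm _ i).trans l2
    have h4 := hT (S.mulVec δ) i
    have h5 : KS * (ε' * ‖δ‖) ≤ ε / 4 * ‖S.mulVec δ‖ := by
      have h6 : KS * ε' * B1 ≤ ε / 4 := by
        have h7 : (KS + 1) * ε' * B1 = ε / 4 := by
          rw [hε']
          field_simp
        have h8 : 0 ≤ ε' * B1 := by positivity
        nlinarith
      calc KS * (ε' * ‖δ‖) ≤ KS * (ε' * (B1 * ‖S.mulVec δ‖)) := by gcongr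
        _ = KS * ε' * B1 * ‖S.mulVec δ‖ := by ring
        _ ≤ ε / 4 * ‖S.mulVec δ‖ := mul_le_mul_of_nonneg_right h6 hs0
    have h6 : c2 * ‖δ‖ ^ 2 ≤ ε / 4 * ‖S.mulVec δ‖ := by
      have h7 : c2 * ‖δ‖ * B1 ≤ ε / 4 := by
        have h8 : (c2 + 1) * ‖δ‖ * B1 ≤ (c2 + 1) * (ε / (4 * (c2 + 1) * B1)) * B1 := by gcongr
        have h9 : (c2 + 1) * (ε / (4 * (c2 + 1) * B1)) * B1 = ε / 4 := by
          field_simp
        have h10 : 0 ≤ ‖δ‖ * B1 := by positivity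
        nlinarith
      calc c2 * ‖δ‖ ^ 2 = c2 * ‖δ‖ * ‖δ‖ := by ring
        _ ≤ c2 * ‖δ‖ * (B1 * ‖S.mulVec δ‖) := by gcongr
        _ = c2 * ‖δ‖ * B1 * ‖S.mulVec δ‖ := by ring
        _ ≤ ε / 4 * ‖S.mulVec δ‖ := mul_le_mul_of_nonneg_right h7 hs0
    rw [h1]
    calc ‖S.mulVec (F - (Jac N D q).mulVec δ) i + (S * Jac N D q - T * S).mulVec δ i +
          (T.mulVec (S.mulVec δ) i - T i i * S.mulVec δ i)‖
        ≤ ‖S.mulVec (F - (Jac N D q).mulVec δ) i‖ + ‖(S * Jac N D q - T * S).mulVec δ i‖ +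
          ‖T.mulVec (S.mulVec δ) i - T i i * S.mulVec δ i‖ := norm_add₃_le
      _ ≤ ε / 4 * ‖S.mulVec δ‖ + ε / 4 * ‖S.mulVec δ‖ + ε / 2 * ‖S.mulVec δ‖ :=
          add_le_add (add_le_add (h2.trans h5) (h3.trans h6)) h4
      _ = ε * ‖S.mulVec δ‖ := by ring

end MP_f4ff90_agE
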