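import Mathlib
import Pool.Agent.Lib.MP_f4ff90_agE.Krl
import Pool.Agent.Lib.MP_f4ff90_agE.Pol

/-!
LEAF Van.  Negligible polynomials vanish.
PROOF.  For `c : ℕ` let `I c` be the set of the `P` such that for all `r > 0` there is `C` with `‖P(z (c + m k))‖ ≤ C r^(c + m k)` for all `k`: an ideal (values of polynomials on the bounded sequence `z` are bounded), `I (c + m) = I c` (shift of `k`; the
finitely many missing terms are absorbed by `C`).  If `P ∈ I (c+1)` and `P'` is a pull-back then `P'(z n) = P(z (n+1)) (∏ D_i(z n))^E`, so `P' ∈ I c`.  `N_i(q) = q_i D_i(q)` by the limit.  `krull_inv`: each of the finitely many generators `P_(c,l)` of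
`I c` (`c < m`; take `I` noetherian) satisfies `(1 - s) P_(c,l) = ∑ h Q'` with `Q'` pull-backs of elements `Q` of `I (c+1)`, which are combinations of the generators of `I (c+1)`; `s(z n) → s(q) = 0`.  So there are `B ≥ 1` and `n₀` with
`w n ≤ B w (n+1)` for `n ≥ n₀`, where `w n = ∑_l ‖P_(c,l)(z n)‖`, `c = n % m`.  Hence `w n ≤ B^k w (n+k)`, and `w (n+k) ≤ C r^(n+k)` with `r = 1/(2B)`: `w n ≤ C r^n 2^(-k) → 0`, so `w n = 0` for `n ≥ n₀`.  Then every `P ∈ I c` vanishes at `z n`,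
`n ≥ n₀`, `n ≡ c`.
-/

set_option autoImplicit false

open Filter Topology MvPolynomial

namespace MP_f4ff90_agE

section

variable {g : ℕ} {N D : Fin g → MvPolynomial (Fin g) ℂ} {q : Fin g → ℂ} {z : ℕ → Fin g → ℂ}

private theorem Van_tendsto {ρ C : ℝ} (hρ0 : 0 < ρ) (hρ1 : ρ < 1)
    (hc : ∀ n i, ‖z n i - q i‖ ≤ C * ρ ^ n) : Tendsto z atTop (𝓝 q) := by
  rw [tendsto_pi_nhds]
  intro i
  rw [tendsto_iff_norm_sub_tendsto_zero]
  refine squeeze_zero (fun n => norm_nonneg _) (fun n => hc n i) ?_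
  simpa using (tendsto_pow_atTop_nhds_zero_of_lt_one hρ0.le hρ1).const_mul C

private theorem Van_eval (h : Tendsto z atTop (𝓝 q)) (P : MvPolynomial (Fin g) ℂ) :
    Tendsto (fun n => eval (z n) P) atTop (𝓝 (eval q P)) :=
  ((MvPolynomial.continuous_eval P).tendsto q).comp h

private theorem Van_bdd (h : Tendsto z atTop (𝓝 q)) (P : MvPolynomial (Fin g) ℂ) :
    ∃ B : ℝ, 0 ≤ B ∧ ∀ n, ‖eval (z n) P‖ ≤ B := by
  obtain ⟨B, hB⟩ := (Van_eval h P).norm.bddAbove_range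
  exact ⟨B, (norm_nonneg _).trans (hB ⟨0, rfl⟩), fun n => hB ⟨n, rfl⟩⟩

/-- the ideal of the polynomials which are negligible on a residue class -/
private def Van_I (h : Tendsto z atTop (𝓝 q)) (m c : ℕ) : Ideal (MvPolynomial (Fin g) ℂ) where
  carrier := {P | ∀ r : ℝ, r > 0 → ∃ C' : ℝ, ∀ k,
    ‖eval (z (c + m * k)) P‖ ≤ C' * r ^ (c + m * k)}
  add_mem' := by
    intro P Q hP hQ r hr
    obtain ⟨C₁, h₁⟩ := hP r hr
    obtain ⟨C₂, h₂⟩ := hQ r hr
    refine ⟨C₁ + C₂, fun k => ?_⟩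
    rw [map_add, add_mul]
    exact (norm_add_le _ _).trans (add_le_add (h₁ k) (h₂ k))
  zero_mem' := by
    intro r hr
    exact ⟨0, fun k => by simp⟩
  smul_mem' := by
    intro a P hP r hr
    obtain ⟨C₁, h₁⟩ := hP r hr
    obtain ⟨B, hB0, hB⟩ := Van_bdd h a
    refine ⟨B * C₁, fun k => ?_⟩
    rw [smul_eq_mul, map_mul, norm_mul, mul_assoc]
    exact mul_le_mul (hB _) (h₁ k) (norm_nonneg _) hB0

private theorem Van_mem {h : Tendsto z atTop (𝓝 q)} {m c : ℕ} {P : MvPolynomial (Fin g) ℂ} :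
    P ∈ Van_I h m c ↔ ∀ r : ℝ, r > 0 → ∃ C' : ℝ, ∀ k,
      ‖eval (z (c + m * k)) P‖ ≤ C' * r ^ (c + m * k) := Iff.rfl

private theorem Van_per (h : Tendsto z atTop (𝓝 q)) (m c : ℕ) :
    Van_I h m (c + m) = Van_I h m c := by
  ext P
  rw [Van_mem, Van_mem]
  constructor
  · intro H r hr
    obtain ⟨C₁, h₁⟩ := H r hr
    refine ⟨|C₁| + ‖eval (z c) P‖ / r ^ c, fun k => ?_⟩
    have hrc : ∀ n : ℕ, 0 < r ^ n := fun n => pow_pos hr n
    rcases k with _ | k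
    · rw [mul_zero, add_zero, add_mul, div_mul_cancel₀ _ (hrc c).ne']
      have : 0 ≤ |C₁| * r ^ c := mul_nonneg (abs_nonneg _) (hrc c).le
      linarith
    · have e : c + m * (k + 1) = c + m + m * k := by ring
      rw [e]
      refine (h₁ k).trans (mul_le_mul_of_nonneg_right ?_ (hrc _).le)
      have : 0 ≤ ‖eval (z c) P‖ / r ^ c := div_nonneg (norm_nonneg _) (hrc c).le
      linarith [le_abs_self C₁]
  · intro H r hr
    obtain ⟨C₁, h₁⟩ := H r hr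
    refine ⟨C₁, fun k => ?_⟩
    have e : c + m + m * k = c + m * (k + 1) := by ring
    rw [e]
    exact h₁ (k + 1)

private theorem Van_pull (hz : Orb N D z) {P P' : MvPolynomial (Fin g) ℂ} (h : IsPull N D P P')
    (hq : Tendsto z atTop (𝓝 q)) :
    ∃ B : ℝ, 0 ≤ B ∧ ∀ n, ‖eval (z n) P'‖ ≤ B * ‖eval (z (n + 1)) P‖ := by
  obtain ⟨E, hE⟩ := h
  obtain ⟨B, hB0, hB⟩ := Van_bdd hq ((∏ i, D i) ^ E)
  refine ⟨B, hB0, fun n => ?_⟩
  have h1 := hE (z n) fun i => (hz n i).1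
  have h2 : (fun i => eval (z n) (N i) / eval (z n) (D i)) = z (n + 1) := by
    funext i
    exact (hz n i).2.symm
  have h3 : (∏ i, eval (z n) (D i)) ^ E = eval (z n) ((∏ i, D i) ^ E) := by
    rw [map_pow, map_prod]
  rw [h1, h2, h3, norm_mul, mul_comm]
  exact mul_le_mul_of_nonneg_right (hB n) (norm_nonneg _)

private theorem Van_hI (hz : Orb N D z) (h : Tendsto z atTop (𝓝 q)) (m c : ℕ)
    (P : MvPolynomial (Fin g) ℂ) (hP : P ∈ Van_I h m (c + 1)) (P' : MvPolynomial (Fin g) ℂ)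
    (hPP : IsPull N D P P') : P' ∈ Van_I h m c := by
  rw [Van_mem] at hP ⊢
  intro r hr
  obtain ⟨C₁, h₁⟩ := hP r hr
  obtain ⟨B, hB0, hB⟩ := Van_pull hz hPP h
  refine ⟨B * C₁ * r, fun k => ?_⟩
  have e : c + m * k + 1 = c + 1 + m * k := by ring
  have h2 := hB (c + m * k)
  rw [e] at h2
  refine h2.trans ((mul_le_mul_of_nonneg_left (h₁ k) hB0).trans (le_of_eq ?_))
  have e' : c + 1 + m * k = c + m * k + 1 := by ring
  rw [e', pow_succ]
  ring

private theorem Van_hN (hz : Orb N D z) (h : Tendsto z atTop (𝓝 q)) (i : Fin g) :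
    eval q (N i) = q i * eval q (D i) := by
  have h1 := Van_eval h (N i)
  have h2 := Van_eval h (D i)
  have h3 : Tendsto (fun n => z (n + 1) i) atTop (𝓝 (q i)) :=
    ((tendsto_pi_nhds.1 h i).comp (tendsto_add_atTop_nat 1))
  have h4 : (fun n => eval (z n) (N i)) = fun n => z (n + 1) i * eval (z n) (D i) := by
    funext n
    rw [(hz n i).2, div_mul_cancel₀ _ (hz n i).1]
  rw [h4] at h1
  exact tendsto_nhds_unique h1 (h3.mul h2)

/-- the values of the elements of an ideal are bounded by those of the generators -/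
private theorem Van_gen (h : Tendsto z atTop (𝓝 q)) (S : Finset (MvPolynomial (Fin g) ℂ))
    {Q : MvPolynomial (Fin g) ℂ} (hQ : Q ∈ Ideal.span (S : Set (MvPolynomial (Fin g) ℂ))) :
    ∃ B : ℝ, 0 ≤ B ∧ ∀ n, ‖eval (z n) Q‖ ≤ B * ∑ P ∈ S, ‖eval (z n) P‖ := by
  have hS : ∀ n, 0 ≤ ∑ P ∈ S, ‖eval (z n) P‖ := fun n => Finset.sum_nonneg fun P _ => norm_nonneg _
  induction hQ using Submodule.span_induction with
  | mem P hP =>
    exact ⟨1, zero_le_one, fun n => by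
      rw [one_mul]
      exact Finset.single_le_sum (f := fun P => ‖eval (z n) P‖) (fun P _ => norm_nonneg _) hP⟩
  | zero => exact ⟨0, le_rfl, fun n => by simp⟩
  | add P Q _ _ h1 h2 =>
    obtain ⟨B₁, hB₁, h1⟩ := h1
    obtain ⟨B₂, hB₂, h2⟩ := h2
    refine ⟨B₁ + B₂, add_nonneg hB₁ hB₂, fun n => ?_⟩
    rw [map_add, add_mul]
    exact (norm_add_le _ _).trans (add_le_add (h1 n) (h2 n))
  | smul a P _ h1 =>
    obtain ⟨B₁, hB₁, h1⟩ := h1
    obtain ⟨B, hB0, hB⟩ := Van_bdd h a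
    refine ⟨B * B₁, mul_nonneg hB0 hB₁, fun n => ?_⟩
    rw [smul_eq_mul, map_mul, norm_mul, mul_assoc]
    exact mul_le_mul (hB n) (h1 n) (norm_nonneg _) hB0

/-- the same for the ideal of the pull-backs -/
private theorem Van_span (hz : Orb N D z) (h : Tendsto z atTop (𝓝 q))
    (S : Finset (MvPolynomial (Fin g) ℂ)) (J : Ideal (MvPolynomial (Fin g) ℂ))
    (hS : Ideal.span (S : Set (MvPolynomial (Fin g) ℂ)) = J) {T : MvPolynomial (Fin g) ℂ}
    (hT : T ∈ Ideal.span {P' | ∃ Q ∈ J, IsPull N D Q P'}) :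
    ∃ B : ℝ, 0 ≤ B ∧ ∀ n, ‖eval (z n) T‖ ≤ B * ∑ P ∈ S, ‖eval (z (n + 1)) P‖ := by
  have hS0 : ∀ n, 0 ≤ ∑ P ∈ S, ‖eval (z n) P‖ := fun n => Finset.sum_nonneg fun P _ => norm_nonneg _
  induction hT using Submodule.span_induction with
  | mem P hP =>
    obtain ⟨Q, hQ, hp⟩ := hP
    rw [← hS] at hQ
    obtain ⟨B₁, hB₁, h1⟩ := Van_gen h S hQ
    obtain ⟨B₂, hB₂, h2⟩ := Van_pull hz hp h
    refine ⟨B₂ * B₁, mul_nonneg hB₂ hB₁, fun n => ?_⟩
    rw [mul_assoc]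
    exact (h2 n).trans (mul_le_mul_of_nonneg_left (h1 (n + 1)) hB₂)
  | zero => exact ⟨0, le_rfl, fun n => by simp⟩
  | add P Q _ _ h1 h2 =>
    obtain ⟨B₁, hB₁, h1⟩ := h1
    obtain ⟨B₂, hB₂, h2⟩ := h2
    refine ⟨B₁ + B₂, add_nonneg hB₁ hB₂, fun n => ?_⟩
    rw [map_add, add_mul]
    exact (norm_add_le _ _).trans (add_le_add (h1 n) (h2 n))
  | smul a P _ h1 =>
    obtain ⟨B₁, hB₁, h1⟩ := h1
    obtain ⟨B, hB0, hB⟩ := Van_bdd h a
    refine ⟨B * B₁, mul_nonneg hB0 hB₁, fun n => ?_⟩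
    rw [smul_eq_mul, map_mul, norm_mul, mul_assoc]
    exact mul_le_mul (hB n) (h1 n) (norm_nonneg _) hB0

/-- one step -/
private theorem Van_step (hz : Orb N D z) (h : Tendsto z atTop (𝓝 q)) (S S' : Finset (MvPolynomial (Fin g) ℂ))
    (J : Ideal (MvPolynomial (Fin g) ℂ))
    (hS' : Ideal.span (S' : Set (MvPolynomial (Fin g) ℂ)) = J)
    (hk : ∀ P ∈ S, ∃ s ∈ mq q, (1 - s) * P ∈ Ideal.span {P' | ∃ Q ∈ J, IsPull N D Q P'}) :
    ∃ B : ℝ, 0 ≤ B ∧ ∃ n₀ : ℕ, ∀ n ≥ n₀, ∑ P ∈ S, ‖eval (z n) P‖ ≤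
      B * ∑ P ∈ S', ‖eval (z (n + 1)) P‖ := by
  have hS0 : ∀ n, 0 ≤ ∑ P ∈ S', ‖eval (z n) P‖ :=
    fun n => Finset.sum_nonneg fun P _ => norm_nonneg _
  have key : ∀ P : MvPolynomial (Fin g) ℂ, ∃ B : ℝ, 0 ≤ B ∧ ∃ n₀ : ℕ, P ∈ S → ∀ n ≥ n₀,
      ‖eval (z n) P‖ ≤ B * ∑ P ∈ S', ‖eval (z (n + 1)) P‖ := by
    intro P
    by_cases hP : P ∈ S
    · obtain ⟨s, hs, hsP⟩ := hk P hP
      obtain ⟨B, hB0, hB⟩ := Van_span hz h S' J hS' hsP
      have h1 : eval q s = 0 := hs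
      have h2 := Van_eval h s
      rw [h1] at h2
      have h3 : ∀ᶠ n in atTop, ‖eval (z n) s‖ < 1 / 2 := by
        have h4 := h2.norm
        rw [norm_zero] at h4
        exact h4.eventually (gt_mem_nhds (by norm_num))
      obtain ⟨n₀, hn₀⟩ := eventually_atTop.1 h3
      refine ⟨2 * B, by positivity, n₀, fun _ n hn => ?_⟩
      have h4 := hB n
      rw [map_mul, norm_mul, map_sub, map_one] at h4
      have h5 : 1 / 2 ≤ ‖(1 : ℂ) - eval (z n) s‖ := by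
        have h6 := norm_sub_norm_le (1 : ℂ) (eval (z n) s)
        rw [norm_one] at h6
        have h7 := hn₀ n hn
        linarith
      have h8 : 1 / 2 * ‖eval (z n) P‖ ≤ ‖(1 : ℂ) - eval (z n) s‖ * ‖eval (z n) P‖ :=
        mul_le_mul_of_nonneg_right h5 (norm_nonneg _)
      linarith
    · exact ⟨0, le_rfl, 0, fun h => absurd h hP⟩
  choose B hB0 n₀ hB using key
  refine ⟨∑ P ∈ S, B P, Finset.sum_nonneg fun P _ => hB0 P, S.sup n₀, fun n hn => ?_⟩
  rw [Finset.sum_mul]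
  exact Finset.sum_le_sum fun P hP => hB P hP n ((Finset.le_sup hP).trans hn)

end

theorem vanish {g : ℕ} {N D : Fin g → MvPolynomial (Fin g) ℂ} {q : Fin g → ℂ} {z : ℕ → Fin g → ℂ}
    (hz : Orb N D z) {ρ C : ℝ} (hρ0 : 0 < ρ) (hρ1 : ρ < 1) (hc : ∀ n i, ‖z n i - q i‖ ≤ C * ρ ^ n)
    (hD : ∀ i, eval q (D i) ≠ 0) (hJ : IsUnit (Jac N D q)) {m : ℕ} (hm : 0 < m)
    (P : MvPolynomial (Fin g) ℂ) (c : ℕ)
    (h : ∀ r : ℝ, r > 0 → ∃ C' : ℝ, ∀ k, ‖eval (z (c + m * k)) P‖ ≤ C' * r ^ (c + m * k)) :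
    ∃ k₀, ∀ k ≥ k₀, eval (z (c + m * k)) P = 0 := by
  classical
  have ht := Van_tendsto hρ0 hρ1 hc
  have hfg : ∀ c, ∃ S : Finset (MvPolynomial (Fin g) ℂ),
      Ideal.span (S : Set (MvPolynomial (Fin g) ℂ)) = Van_I ht m c := fun c =>
    (isNoetherianRing_iff_ideal_fg _).1 inferInstance (Van_I ht m c)
  choose S hS using hfg
  have hw0 : ∀ c n, 0 ≤ ∑ P ∈ S c, ‖eval (z n) P‖ :=
    fun c n => Finset.sum_nonneg fun P _ => norm_nonneg _
  -- several steps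
  have hstep : ∀ j c : ℕ, ∃ B : ℝ, 0 ≤ B ∧ ∃ n₀ : ℕ, ∀ n ≥ n₀, ∑ P ∈ S c, ‖eval (z n) P‖ ≤
      B * ∑ P ∈ S (c + j), ‖eval (z (n + j)) P‖ := by
    intro j
    induction j with
    | zero => exact fun c => ⟨1, zero_le_one, 0, fun n _ => by rw [one_mul, add_zero, add_zero]⟩
    | succ j ih =>
      intro c
      obtain ⟨B₁, hB₁, n₁, h₁⟩ := Van_step hz ht (S c) (S (c + 1)) (Van_I ht m (c + 1)) (hS (c + 1))
        fun P hP => krull_inv hD (Van_hN hz ht) hJ hm (Van_I ht m) (Van_per ht m)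
          (Van_hI hz ht m) c P (by
            rw [← hS c]
            exact Ideal.subset_span hP)
      obtain ⟨B₂, hB₂, n₂, h₂⟩ := ih (c + 1)
      refine ⟨B₁ * B₂, mul_nonneg hB₁ hB₂, max n₁ n₂, fun n hn => ?_⟩
      have e1 := h₁ n ((le_max_left _ _).trans hn)
      have e2 := h₂ (n + 1) (((le_max_right _ _).trans hn).trans (Nat.le_succ n))
      have e3 : c + 1 + j = c + (j + 1) := by ring
      have e4 : n + 1 + j = n + (j + 1) := by ring
      rw [e3, e4] at e2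
      rw [mul_assoc]
      exact e1.trans (mul_le_mul_of_nonneg_left e2 hB₁)
  -- one period
  obtain ⟨B₁, hB₁, n₀, h₁⟩ := hstep m c
  have hper : ∃ B : ℝ, 0 ≤ B ∧ ∀ n, ∑ P ∈ S (c + m), ‖eval (z n) P‖ ≤
      B * ∑ P ∈ S c, ‖eval (z n) P‖ := by
    have key : ∀ Q : MvPolynomial (Fin g) ℂ, ∃ B : ℝ, 0 ≤ B ∧ (Q ∈ S (c + m) → ∀ n,
        ‖eval (z n) Q‖ ≤ B * ∑ P ∈ S c, ‖eval (z n) P‖) := by
      intro Q
      by_cases hQ : Q ∈ S (c + m)
      · have hQ' : Q ∈ Ideal.span (S c : Set (MvPolynomial (Fin g) ℂ)) := by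
          rw [hS c, ← Van_per ht m c, ← hS (c + m)]
          exact Ideal.subset_span hQ
        obtain ⟨B, hB0, hB⟩ := Van_gen ht (S c) hQ'
        exact ⟨B, hB0, fun _ => hB⟩
      · exact ⟨0, le_rfl, fun h => absurd h hQ⟩
    choose B hB0 hB using key
    refine ⟨∑ Q ∈ S (c + m), B Q, Finset.sum_nonneg fun Q _ => hB0 Q, fun n => ?_⟩
    rw [Finset.sum_mul]
    exact Finset.sum_le_sum fun Q hQ => hB Q hQ n
  obtain ⟨B₂, hB₂, h₂⟩ := hper
  let B : ℝ := B₁ * B₂ + 1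
  have hB1 : 1 ≤ B := by
    have := mul_nonneg hB₁ hB₂
    show 1 ≤ B₁ * B₂ + 1
    linarith
  have hB0 : 0 < B := lt_of_lt_of_le zero_lt_one hB1
  have h₃ : ∀ n ≥ n₀, ∑ P ∈ S c, ‖eval (z n) P‖ ≤ B * ∑ P ∈ S c, ‖eval (z (n + m)) P‖ := by
    intro n hn
    have e1 := h₁ n hn
    have e2 := mul_le_mul_of_nonneg_left (h₂ (n + m)) hB₁
    have e3 : B₁ * (B₂ * ∑ P ∈ S c, ‖eval (z (n + m)) P‖) ≤ B * ∑ P ∈ S c, ‖eval (z (n + m)) P‖ := by
      rw [← mul_assoc]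
      exact mul_le_mul_of_nonneg_right (by show B₁ * B₂ ≤ B₁ * B₂ + 1; linarith) (hw0 _ _)
    exact e1.trans (e2.trans e3)
  have h₄ : ∀ k n : ℕ, n₀ ≤ n → ∑ P ∈ S c, ‖eval (z n) P‖ ≤
      B ^ k * ∑ P ∈ S c, ‖eval (z (n + m * k)) P‖ := by
    intro k
    induction k with
    | zero => exact fun n _ => by rw [pow_zero, one_mul, mul_zero, add_zero]
    | succ k ih =>
      intro n hn
      have e1 := ih n hn
      have e2 := h₃ (n + m * k) (hn.trans (Nat.le_add_right _ _))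
      have e3 : n + m * k + m = n + m * (k + 1) := by ring
      rw [e3] at e2
      rw [pow_succ, mul_assoc]
      exact e1.trans (mul_le_mul_of_nonneg_left e2 (pow_nonneg hB0.le k))
  -- the generators are negligible
  have h₅ : ∃ C' : ℝ, ∀ k, ∑ P ∈ S c, ‖eval (z (c + m * k)) P‖ ≤
      C' * (1 / (2 * B)) ^ (c + m * k) := by
    have key : ∀ Q : MvPolynomial (Fin g) ℂ, ∃ C' : ℝ, Q ∈ S c → ∀ k,
        ‖eval (z (c + m * k)) Q‖ ≤ C' * (1 / (2 * B)) ^ (c + m * k) := by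
      intro Q
      by_cases hQ : Q ∈ S c
      · have hQ' : Q ∈ Van_I ht m c := by
          rw [← hS c]
          exact Ideal.subset_span hQ
        obtain ⟨C', hC'⟩ := hQ' (1 / (2 * B)) (by positivity)
        exact ⟨C', fun _ => hC'⟩
      · exact ⟨0, fun h => absurd h hQ⟩
    choose C' hC' using key
    refine ⟨∑ Q ∈ S c, C' Q, fun k => ?_⟩
    rw [Finset.sum_mul]
    exact Finset.sum_le_sum fun Q hQ => hC' Q hQ k
  obtain ⟨C', hC'⟩ := h₅
  -- they vanish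
  have h₆ : ∀ k, n₀ ≤ c + m * k → ∑ P ∈ S c, ‖eval (z (c + m * k)) P‖ ≤ 0 := by
    intro k hk
    have e1 : ∀ l : ℕ, ∑ P ∈ S c, ‖eval (z (c + m * k)) P‖ ≤ |C'| * (1 / 2) ^ l := by
      intro l
      have e2 := h₄ l (c + m * k) hk
      have e3 : c + m * k + m * l = c + m * (k + l) := by ring
      rw [e3] at e2
      have e4 := hC' (k + l)
      have e5 : (1 / (2 * B)) ^ (c + m * (k + l)) ≤ (1 / (2 * B)) ^ l := by
        refine pow_le_pow_of_le_one (by positivity) ?_ ?_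
        · rw [div_le_one (by positivity)]
          linarith
        · have : l ≤ m * (k + l) := by
            calc l ≤ k + l := Nat.le_add_left _ _
              _ ≤ m * (k + l) := Nat.le_mul_of_pos_left _ hm
          omega
      have e6 : ∑ P ∈ S c, ‖eval (z (c + m * (k + l))) P‖ ≤ |C'| * (1 / (2 * B)) ^ l := by
        refine e4.trans ?_
        refine (mul_le_mul_of_nonneg_right (le_abs_self C') (by positivity)).trans ?_
        exact mul_le_mul_of_nonneg_left e5 (abs_nonneg _)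
      refine e2.trans ((mul_le_mul_of_nonneg_left e6 (pow_nonneg hB0.le l)).trans (le_of_eq ?_))
      have e7 : (1 / (2 * B)) ^ l = (1 / 2) ^ l * (1 / B) ^ l := by
        rw [← mul_pow]
        congr 1
        field_simp
      rw [e7]
      have e8 : B ^ l * (1 / B) ^ l = 1 := by
        rw [← mul_pow, mul_one_div_cancel hB0.ne', one_pow]
      calc B ^ l * (|C'| * ((1 / 2) ^ l * (1 / B) ^ l)) =
          |C'| * (1 / 2) ^ l * (B ^ l * (1 / B) ^ l) := by ring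
        _ = |C'| * (1 / 2) ^ l := by rw [e8, mul_one]
    have e9 : Tendsto (fun l : ℕ => |C'| * (1 / 2 : ℝ) ^ l) atTop (𝓝 0) := by
      simpa using (tendsto_pow_atTop_nhds_zero_of_lt_one (r := (1 / 2 : ℝ)) (by norm_num)
        (by norm_num)).const_mul |C'|
    exact ge_of_tendsto' e9 e1
  have hP : P ∈ Ideal.span (S c : Set (MvPolynomial (Fin g) ℂ)) := by
    rw [hS c]
    exact h
  obtain ⟨B₃, hB₃, h₇⟩ := Van_gen ht (S c) hP
  refine ⟨n₀, fun k hk => ?_⟩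
  have e1 : n₀ ≤ c + m * k := by
    have : k ≤ m * k := Nat.le_mul_of_pos_left _ hm
    omega
  have e2 := h₇ (c + m * k)
  have e3 := h₆ k e1
  have e4 : ∑ P ∈ S c, ‖eval (z (c + m * k)) P‖ = 0 := le_antisymm e3 (hw0 _ _)
  rw [e4, mul_zero] at e2
  exact norm_le_zero_iff.1 e2

end MP_f4ff90_agE
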